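import Pool.Agent.Helper28.SP.Merge

set_option autoImplicit false

/-! Realised families: permutations of the labels and of the colours. -/

namespace Pool.Agent.Helper28.SO

/-- permutation of the labels -/
theorem TRealized.perm_label {n d : ℕ} {v : Fin n → Fin d → ℕ} (h : TRealized n d v)
    (π : Equiv.Perm (Fin n)) : TRealized n d (fun k => v (π k)) := by
  classical
  obtain ⟨T, hT, hv, hvT⟩ := h
  refine ⟨fun u i => T u (π i), ?_, fun k => hv (π k), fun k => hvT (π k)⟩
  constructor
  · intro u hu c
    rw [← hT.deg u hu c]
    have e : Finset.univ.filter (fun i => c ∈ T u i) =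
        (Finset.univ.filter (fun i => c ∈ T u (π i))).map π.toEmbedding := by
      ext i
      simp only [Finset.mem_filter, Finset.mem_univ, true_and, Finset.mem_map,
        Equiv.coe_toEmbedding]
      constructor
      · intro hi
        exact ⟨π.symm i, by rwa [Equiv.apply_symm_apply], Equiv.apply_symm_apply _ _⟩
      · rintro ⟨j, hj, rfl⟩
        exact hj
    rw [e, Finset.card_map]
  · intro u w hu hw g g' hg hg' hsg hsg' hrow hcol
    have key := hT.compat u w hu hw (fun i c => g (π.symm i) c) (fun i c => g' (π.symm i) c)
      (fun i c => hg _ c) (fun i c => hg' _ c)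
      (fun i c hc => hsg _ c (by rwa [Equiv.apply_symm_apply]))
      (fun i c hc => hsg' _ c (by rwa [Equiv.apply_symm_apply]))
      (fun i => hrow _)
      (fun c => by
        rw [Equiv.sum_comp π.symm (fun i => g i c), Equiv.sum_comp π.symm (fun i => g' i c)]
        exact hcol c)
    funext i c
    have := congrFun (congrFun key (π i)) c
    simpa using this

/-- permutation of the colours -/
theorem TRealized.perm_colour {n d : ℕ} {v : Fin n → Fin d → ℕ} (h : TRealized n d v)
    (ρ : Equiv.Perm (Fin d)) : TRealized n d (fun k c => v k (ρ c)) := by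
  classical
  obtain ⟨T, hT, hv, hvT⟩ := h
  have hsum : ∀ u : Fin d → ℕ, ∑ c, u (ρ.symm c) = ∑ c, u c := fun u =>
    Equiv.sum_comp ρ.symm u
  refine ⟨fun u i => Finset.univ.filter (fun c => ρ c ∈ T (fun c => u (ρ.symm c)) i), ?_, ?_, ?_⟩
  · constructor
    · intro u hu c
      have h1 := hT.deg (fun c => u (ρ.symm c)) ((hsum u).trans hu) (ρ c)
      rw [Equiv.symm_apply_apply] at h1
      rw [← h1]
      congr 1
      ext i
      simp
    · intro u w hu hw g g' hg hg' hsg hsg' hrow hcol
      have key := hT.compat (fun c => u (ρ.symm c)) (fun c => w (ρ.symm c))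
        ((hsum u).trans hu) ((hsum w).trans hw)
        (fun i c => g i (ρ.symm c)) (fun i c => g' i (ρ.symm c))
        (fun i c => hg i _) (fun i c => hg' i _)
        (fun i c hc => hsg i _ (by simpa using hc))
        (fun i c hc => hsg' i _ (by simpa using hc))
        (fun i => by
          rw [Equiv.sum_comp ρ.symm (fun c => g i c), Equiv.sum_comp ρ.symm (fun c => g' i c)]
          exact hrow i)
        (fun c => hcol _)
      funext i c
      have := congrFun (congrFun key i) (ρ c)
      simpa using this
  · intro k
    rw [← hv k]
    exact Equiv.sum_comp ρ (v k)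
  · intro k
    rw [Finset.eq_univ_iff_forall]
    intro c
    have e : (fun c => v k (ρ (ρ.symm c))) = v k := by
      funext c
      rw [Equiv.apply_symm_apply]
    simp only [Finset.mem_filter, Finset.mem_univ, true_and]
    rw [e, hvT k]
    exact Finset.mem_univ _

end Pool.Agent.Helper28.SO
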