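import Pool.Agent.Helper28.SP.Lift

set_option autoImplicit false

/-! The merging lemma: if the merged positions are realised by a family of trees, so are the
original ones. -/

namespace Pool.Agent.Helper28.SO

/-- The positions `v k` are the holes of a compatible family of trees. -/
def TRealized (n d : ℕ) (v : Fin n → Fin d → ℕ) : Prop :=
  ∃ T : (Fin d → ℕ) → Fin n → Finset (Fin d), TreeFam n d T ∧ (∀ k, ∑ c, v k c = n - 1) ∧
    ∀ k, T (v k) k = Finset.univ

theorem TRealized.realized {n d : ℕ} (hn : 1 ≤ n) (hd : 1 ≤ d) {v : Fin n → Fin d → ℕ}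
    (h : TRealized n d v) (U : Finset (Fin d → ℕ)) (hU : ∀ u, u ∈ U ↔ ∃ k, v k = u) :
    Realized n d U := by
  obtain ⟨T, hT, hv, hvT⟩ := h
  exact hT.realized hn hd v hv hvT U hU

/-- The swap lemma. -/
theorem TreeFam.swap {n d : ℕ} {T : (Fin d → ℕ) → Fin n → Finset (Fin d)} (hT : TreeFam n d T)
    (v w : Fin d → ℕ) (hv : ∑ c, v c = n - 1) (hw : ∑ c, w c = n - 1) (i j : Fin n) (hij : i ≠ j)
    (a b : Fin d) (hab : a ≠ b) (h1 : a ∈ T v i) (h2 : b ∈ T v j) (h3 : b ∈ T w i)
    (h4 : a ∈ T w j) : False := by
  classical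
  have key := hT.compat v w hv hw
    (fun k c => (if k = i ∧ c = a then 1 else 0) + if k = j ∧ c = b then 1 else 0)
    (fun k c => (if k = i ∧ c = b then 1 else 0) + if k = j ∧ c = a then 1 else 0)
    (fun k c => by positivity) (fun k c => by positivity)
    (fun k c hc => by
      rw [if_neg, if_neg, add_zero]
      · rintro ⟨rfl, rfl⟩
        exact hc h2
      · rintro ⟨rfl, rfl⟩
        exact hc h1)
    (fun k c hc => by
      rw [if_neg, if_neg, add_zero]
      · rintro ⟨rfl, rfl⟩
        exact hc h4
      · rintro ⟨rfl, rfl⟩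
        exact hc h3)
    (fun k => by
      simp only [Finset.sum_add_distrib]
      have e : ∀ (i : Fin n) (a : Fin d), ∑ c : Fin d, (if k = i ∧ c = a then (1 : ℝ) else 0) =
          if k = i then 1 else 0 := by
        intro i a
        by_cases h : k = i <;> simp [h]
      rw [e, e, e, e])
    (fun c => by
      simp only [Finset.sum_add_distrib]
      have e : ∀ (i : Fin n) (a : Fin d), ∑ k : Fin n, (if k = i ∧ c = a then (1 : ℝ) else 0) =
          if c = a then 1 else 0 := by
        intro i a
        by_cases h : c = a <;> simp [h]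
      rw [e, e, e, e, add_comm])
  have h5 := congrFun (congrFun key i) a
  simp only [true_and, if_true] at h5
  rw [if_neg (fun h => hij h.1), if_neg hab, if_neg (fun h => hij h.1)] at h5
  norm_num at h5

/-- On a tree, there is a flow from the label `i` to the colour `c`. -/
theorem TreeFam.exists_flow {n d : ℕ} (hn : 1 ≤ n) (hd : 1 ≤ d)
    {T : (Fin d → ℕ) → Fin n → Finset (Fin d)} (hT : TreeFam n d T) (v : Fin d → ℕ)
    (hv : ∑ c, v c = n - 1) (y : Fin n → ℝ) (x : Fin d → ℝ) (hyx : ∑ i, y i = ∑ c, x c) :
    ∃ g : Fin n → Fin d → ℝ, (∀ i c, c ∉ T v i → g i c = 0) ∧ (∀ i, ∑ c, g i c = y i) ∧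
      ∀ c, ∑ i, g i c = x c := by
  classical
  let E : Finset (Fin n × Fin d) := Finset.univ.filter (fun p => p.2 ∈ T v p.1)
  have hE : E.card = n + d - 1 := by
    rw [← hT.card hn v hv]
    simp only [E, Finset.card_filter]
    rw [Fintype.sum_prod_type]
    refine Finset.sum_congr rfl fun i _ => ?_
    rw [← Finset.card_filter]
    congr 1
    ext c
    simp
  let c₀ : Fin d := ⟨0, by omega⟩
  let hh : (E → ℝ) → Fin n → Fin d → ℝ := fun g i c =>
    if h : (i, c) ∈ E then g ⟨(i, c), h⟩ else 0
  let Ψ : (E → ℝ) →ₗ[ℝ] (Fin n → ℝ) × ({c : Fin d // c ≠ c₀} → ℝ) :=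
    { toFun := fun g => (fun i => ∑ c, hh g i c, fun c => ∑ i, hh g i c.1)
      map_add' := by
        intro g g'
        have e : ∀ i c, hh (g + g') i c = hh g i c + hh g' i c := by
          intro i c
          simp only [hh]
          split_ifs
          · rfl
          · rw [add_zero]
        apply Prod.ext
        · funext i
          simp only [e, Finset.sum_add_distrib, Prod.fst_add, Pi.add_apply]
        · funext c
          simp only [e, Finset.sum_add_distrib, Prod.snd_add, Pi.add_apply]
      map_smul' := by
        intro r g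
        have e : ∀ i c, hh (r • g) i c = r * hh g i c := by
          intro i c
          simp only [hh]
          split_ifs
          · rfl
          · rw [mul_zero]
        apply Prod.ext
        · funext i
          simp only [e, ← Finset.mul_sum, Prod.smul_fst, Pi.smul_apply, smul_eq_mul,
            RingHom.id_apply]
        · funext c
          simp only [e, ← Finset.mul_sum, Prod.smul_snd, Pi.smul_apply, smul_eq_mul,
            RingHom.id_apply] }
  have hsupp : ∀ g : E → ℝ, ∀ i c, c ∉ T v i → hh g i c = 0 := by
    intro g i c hc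
    simp only [hh]
    rw [dif_neg]
    intro h
    exact hc (Finset.mem_filter.1 h).2
  have hinj : Function.Injective Ψ := by
    rw [← LinearMap.ker_eq_bot, LinearMap.ker_eq_bot']
    intro g hg
    have h3 : ∀ i, ∑ c, hh g i c = 0 := fun i =>
      congrFun (congrArg Prod.fst hg) i
    have h2 : ∀ c, c ≠ c₀ → ∑ i, hh g i c = 0 := fun c hc =>
      congrFun (congrArg Prod.snd hg) ⟨c, hc⟩
    have h4 : ∀ c, ∑ i, hh g i c = 0 := by
      intro c
      by_cases hc : c = c₀
      · have e1 : ∑ c, ∑ i, hh g i c = 0 := by
          rw [Finset.sum_comm]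
          exact Finset.sum_eq_zero fun i _ => h3 i
        rw [← Finset.add_sum_erase _ _ (Finset.mem_univ c), Finset.sum_eq_zero
          (s := Finset.univ.erase c), add_zero] at e1
        · exact e1
        · intro c' hc'
          apply h2
          rw [← hc]
          exact Finset.ne_of_mem_erase hc'
      · exact h2 c hc
    have h5 := hT.zero v hv (hh g) (hsupp g) h3 h4
    funext p
    obtain ⟨⟨i, c⟩, hp⟩ := p
    have h6 := congrFun (congrFun h5 i) c
    simp only [hh] at h6
    rw [dif_pos hp] at h6
    exact h6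
  have hfin : Module.finrank ℝ (E → ℝ) =
      Module.finrank ℝ ((Fin n → ℝ) × ({c : Fin d // c ≠ c₀} → ℝ)) := by
    rw [Module.finrank_prod, Module.finrank_fintype_fun_eq_card,
      Module.finrank_fintype_fun_eq_card, Module.finrank_fintype_fun_eq_card, Fintype.card_coe, hE]
    simp only [Fintype.card_subtype_compl, Fintype.card_fin, Fintype.card_unique]
    omega
  have hsurj : Function.Surjective Ψ :=
    (LinearMap.injective_iff_surjective_of_finrank_eq_finrank hfin).1 hinj
  obtain ⟨g, hg⟩ := hsurj (y, fun c => x c.1)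
  have h3 : ∀ i, ∑ c, hh g i c = y i := fun i =>
    congrFun (congrArg Prod.fst hg) i
  have h2 : ∀ c, c ≠ c₀ → ∑ i, hh g i c = x c := fun c hc =>
    congrFun (congrArg Prod.snd hg) ⟨c, hc⟩
  refine ⟨hh g, hsupp g, h3, ?_⟩
  intro c
  by_cases hc : c = c₀
  · have e1 : ∑ c, ∑ i, hh g i c = ∑ c, x c := by
      rw [Finset.sum_comm, ← hyx]
      exact Finset.sum_congr rfl fun i _ => h3 i
    rw [← Finset.add_sum_erase _ _ (Finset.mem_univ c),
      ← Finset.add_sum_erase _ x (Finset.mem_univ c)] at e1
    have e2 : ∑ c ∈ Finset.univ.erase c, ∑ i, hh g i c = ∑ c ∈ Finset.univ.erase c, x c := by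
      refine Finset.sum_congr rfl fun c' hc' => h2 c' ?_
      rw [← hc]
      exact Finset.ne_of_mem_erase hc'
    linarith
  · exact h2 c hc

/-- The lattice point `(n-1-t) e_s + t e_c`. -/
def edgePt {d : ℕ} (n : ℕ) (s c : Fin d) (t : ℕ) : Fin d → ℕ :=
  fun c' => if c' = s then n - 1 - t else if c' = c then t else 0

theorem sum_edgePt {n d : ℕ} (s c : Fin d) (hsc : s ≠ c) (t : ℕ) (ht : t < n) :
    ∑ c', edgePt n s c t c' = n - 1 := by
  classical
  unfold edgePt
  have e : ∀ c' : Fin d, (if c' = s then n - 1 - t else if c' = c then t else 0) =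
      (if c' = s then n - 1 - t else 0) + if c' = c then t else 0 := by
    intro c'
    by_cases h1 : c' = s
    · subst h1
      simp [hsc]
    · simp [h1]
  rw [Finset.sum_congr rfl fun c' _ => e c', Finset.sum_add_distrib]
  simp
  omega

/-- The order in which the labels switch from `s` to `c`. -/
theorem TreeFam.exists_tau {n d : ℕ} (hn : 1 ≤ n) (hd : 1 ≤ d)
    {T : (Fin d → ℕ) → Fin n → Finset (Fin d)} (hT : TreeFam n d T) (s c : Fin d) (hsc : s ≠ c)
    (v : Fin n → Fin d → ℕ) (hv : ∀ k, ∑ c', v k c' = n - 1)
    (hvT : ∀ k, T (v k) k = Finset.univ) :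
    ∃ τ : Fin n → ℕ, Function.Injective τ ∧ ∀ j i, i ≠ j → s ∈ T (v j) i → τ j < τ i := by
  classical
  have hP : ∀ t < n, ∑ c', edgePt n s c t c' = n - 1 := fun t ht => sum_edgePt s c hsc t ht
  let N : ℕ → Fin d → Finset (Fin n) := fun t c' =>
    Finset.univ.filter (fun i => c' ∈ T (edgePt n s c t) i)
  have hN : ∀ t c' i, i ∈ N t c' ↔ c' ∈ T (edgePt n s c t) i := by
    intro t c' i
    simp [N]
  have hNs : ∀ t < n, (N t s).card = n - t := by
    intro t ht
    have := hT.deg _ (hP t ht) s
    have h2 : edgePt n s c t s = n - 1 - t := by simp [edgePt]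
    rw [h2] at this
    simp only [N]
    omega
  have hNc : ∀ t < n, (N t c).card = t + 1 := by
    intro t ht
    have := hT.deg _ (hP t ht) c
    have h2 : edgePt n s c t c = t := by simp [edgePt, hsc.symm]
    rw [h2] at this
    simp only [N]
    omega
  have hunion : ∀ t < n, N t s ∪ N t c = Finset.univ := by
    intro t ht
    rw [Finset.eq_univ_iff_forall]
    intro i
    by_contra hi
    rw [Finset.mem_union, not_or, hN, hN] at hi
    obtain ⟨g, hg1, hg2, hg3⟩ := hT.exists_flow hn hd (edgePt n s c t) (hP t ht)
      (fun j => if j = i then 1 else 0) (fun c' => if c' = c then 1 else 0) (by simp)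
    have h1 : ∑ c', g i c' = 1 := by
      rw [hg2 i, if_pos rfl]
    have h2 : ∑ c', g i c' = 0 := by
      apply Finset.sum_eq_zero
      intro c' _
      by_cases hc' : c' ∈ T (edgePt n s c t) i
      · have hne1 : c' ≠ s := fun h => hi.1 (h ▸ hc')
        have hne2 : c' ≠ c := fun h => hi.2 (h ▸ hc')
        have hcard : (N t c').card = 1 := by
          have := hT.deg _ (hP t ht) c'
          have h2 : edgePt n s c t c' = 0 := by simp [edgePt, hne1, hne2]
          rw [h2] at this
          exact this
        have h3 := hg3 c'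
        rw [if_neg hne2] at h3
        rw [Finset.sum_eq_single i] at h3
        · exact h3
        · intro j _ hj
          apply hg1
          intro hj'
          exact hj (Finset.card_le_one.1 hcard.le j ((hN _ _ _).2 hj') i ((hN _ _ _).2 hc'))
        · intro h
          exact absurd (Finset.mem_univ i) h
      · exact hg1 i c' hc'
    rw [h1] at h2
    exact one_ne_zero h2
  have hinter : ∀ t < n, ∃ i, N t s ∩ N t c = {i} := by
    intro t ht
    rw [← Finset.card_eq_one]
    have h1 := Finset.card_union_add_card_inter (N t s) (N t c)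
    rw [hunion t ht, Finset.card_univ, Fintype.card_fin, hNs t ht, hNc t ht] at h1
    omega
  have hor : ∀ t < n, ∀ i, i ∉ N t c → i ∈ N t s := by
    intro t ht i hi
    have : i ∈ N t s ∪ N t c := by
      rw [hunion t ht]
      exact Finset.mem_univ i
    rcases Finset.mem_union.1 this with h | h
    · exact h
    · exact absurd h hi
  have : Nonempty (Fin n) := ⟨⟨0, by omega⟩⟩
  choose! f hf using hinter
  have hfs : ∀ t < n, f t ∈ N t s ∧ f t ∈ N t c := by
    intro t ht
    rw [← Finset.mem_inter, hf t ht]
    exact Finset.mem_singleton_self _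
  -- if `t < t'`, a label of `N t c` with `s` at `t'` is impossible
  have hswap : ∀ t < n, ∀ t' < n, t < t' → ∀ j, j ∈ N t c → j ∈ N t' s → False := by
    intro t ht t' ht' htt j hj hj'
    have h1 : (N t c).card < (N t' c).card := by
      rw [hNc t ht, hNc t' ht']
      omega
    obtain ⟨k, hk, hk'⟩ := Finset.exists_mem_notMem_of_card_lt_card h1
    have hk2 := hor t ht k hk'
    have hjk : j ≠ k := fun h => hk' (h ▸ hj)
    exact hT.swap (edgePt n s c t) (edgePt n s c t') (hP t ht) (hP t' ht') j k hjk c s hsc.symm
      ((hN _ _ _).1 hj) ((hN _ _ _).1 hk2) ((hN _ _ _).1 hj') ((hN _ _ _).1 hk)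
  have hfinj : ∀ t < n, ∀ t' < n, f t = f t' → t = t' := by
    intro t ht t' ht' h
    by_contra hne
    rcases lt_or_gt_of_ne hne with h1 | h1
    · exact hswap t ht t' ht' h1 (f t) (hfs t ht).2 (h ▸ (hfs t' ht').1)
    · exact hswap t' ht' t ht h1 (f t') (hfs t' ht').2 (h ▸ (hfs t ht).1)
  have hfsurj : ∀ i : Fin n, ∃ t, t < n ∧ f t = i := by
    let F : Fin n → Fin n := fun t => f t
    have hF : Function.Injective F := by
      intro a b hab
      exact Fin.ext (hfinj a a.2 b b.2 hab)
    intro i
    obtain ⟨t, ht⟩ := (Finite.injective_iff_surjective.1 hF) i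
    exact ⟨t, t.2, ht⟩
  choose τ hτn hτ using hfsurj
  refine ⟨τ, ?_, ?_⟩
  · intro i j h
    rw [← hτ i, ← hτ j, h]
  · intro j i hij hs
    have hji : j ∈ N (τ i) c := by
      by_contra hj
      have hj2 := hor _ (hτn i) j hj
      have h1 := (hfs _ (hτn i)).2
      rw [hτ i] at h1
      exact hT.swap (edgePt n s c (τ i)) (v j) (hP _ (hτn i)) (hv j) i j hij c s hsc.symm
        ((hN _ _ _).1 h1) ((hN _ _ _).1 hj2) hs (by rw [hvT j]; exact Finset.mem_univ c)
    by_contra hlt
    rcases Nat.lt_or_ge (τ i) (τ j) with h1 | h1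
    · have h2 := (hfs _ (hτn j)).1
      rw [hτ j] at h2
      exact hswap _ (hτn i) _ (hτn j) h1 j hji h2
    · have h2 : τ i = τ j := by omega
      apply hij
      rw [← hτ i, ← hτ j, h2]

/-- Insertion: a real number with a given number of elements of `A` below, outside `F`. -/
theorem exists_cut (A F : Finset ℝ) (a : ℕ) (ha : a ≤ A.card) :
    ∃ x : ℝ, x ∉ F ∧ x ∉ A ∧ (A.filter (fun y => y < x)).card = a := by
  classical
  rcases Nat.lt_or_ge a A.card with h | h
  · -- the element of rank `a`
    have himg : A.image (fun x => (A.filter (fun y => y < x)).card) = Finset.range A.card := by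
      apply Finset.eq_of_subset_of_card_le
      · intro r hr
        obtain ⟨x, hx, rfl⟩ := Finset.mem_image.1 hr
        rw [Finset.mem_range]
        apply Finset.card_lt_card
        rw [Finset.ssubset_iff_of_subset (Finset.filter_subset _ _)]
        exact ⟨x, hx, fun h => lt_irrefl _ (Finset.mem_filter.1 h).2⟩
      · rw [Finset.card_image_of_injOn, Finset.card_range]
        have hmono : ∀ x ∈ A, ∀ x' ∈ A, x < x' →
            (A.filter (fun y => y < x)).card < (A.filter (fun y => y < x')).card := by
          intro x hx x' hx' hlt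
          apply Finset.card_lt_card
          rw [Finset.ssubset_iff_of_subset]
          · exact ⟨x, Finset.mem_filter.2 ⟨hx, hlt⟩,
              fun h => lt_irrefl _ (Finset.mem_filter.1 h).2⟩
          · intro k hk
            rw [Finset.mem_filter] at hk ⊢
            exact ⟨hk.1, hk.2.trans hlt⟩
        intro x hx x' hx' he
        rcases lt_trichotomy x x' with h1 | h1 | h1
        · exact absurd he (hmono x hx x' hx' h1).ne
        · exact h1
        · exact absurd he (hmono x' hx' x hx h1).ne'
    have hmem : a ∈ A.image (fun x => (A.filter (fun y => y < x)).card) := by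
      rw [himg]
      exact Finset.mem_range.2 h
    obtain ⟨x₀, hx₀, hr⟩ := Finset.mem_image.1 hmem
    let G : Finset ℝ := (A ∪ F).filter (fun y => y < x₀)
    have hex : ∃ x < x₀, ∀ y ∈ G, y < x := by
      by_cases hG : G.Nonempty
      · have h1 : G.max' hG < x₀ := (Finset.mem_filter.1 (G.max'_mem hG)).2
        obtain ⟨x, hx1, hx2⟩ := exists_between h1
        exact ⟨x, hx2, fun y hy => lt_of_le_of_lt (G.le_max' y hy) hx1⟩
      · rw [Finset.not_nonempty_iff_eq_empty] at hG
        refine ⟨x₀ - 1, by linarith, fun y hy => ?_⟩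
        rw [hG] at hy
        exact absurd hy (Finset.notMem_empty y)
    obtain ⟨x, hx, hGx⟩ := hex
    have hnot : ∀ y ∈ A ∪ F, y ≠ x := by
      intro y hy he
      have h1 : y ∈ G := Finset.mem_filter.2 ⟨hy, he ▸ hx⟩
      exact absurd (hGx y h1) (by rw [he]; exact lt_irrefl x)
    refine ⟨x, fun hF => hnot x (Finset.mem_union_right _ hF) rfl,
      fun hA => hnot x (Finset.mem_union_left _ hA) rfl, ?_⟩
    rw [← hr]
    congr 1
    apply Finset.filter_congr
    intro y hy
    constructor
    · exact fun h => h.trans hx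
    · exact fun h => hGx y (Finset.mem_filter.2 ⟨Finset.mem_union_left _ hy, h⟩)
  · have ha' : a = A.card := le_antisymm ha h
    obtain ⟨M, hM⟩ := (A ∪ F).exists_le (α := ℝ)
    have hlt : ∀ y ∈ A ∪ F, y < M + 1 := fun y hy => by
      have := hM y hy
      linarith
    refine ⟨M + 1, fun hF => lt_irrefl _ (hlt _ (Finset.mem_union_right _ hF)),
      fun hA => lt_irrefl _ (hlt _ (Finset.mem_union_left _ hA)), ?_⟩
    rw [ha', Finset.filter_true_of_mem]
    exact fun y hy => hlt y (Finset.mem_union_left _ hy)

/-- **Insertion lemma.** -/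
theorem exists_order {n : ℕ} (S : Fin n → Finset (Fin n)) (τ : Fin n → ℕ)
    (hτi : Function.Injective τ) (hτ : ∀ j, ∀ i ∈ S j, τ j < τ i) (a : Fin n → ℕ)
    (ha : ∀ j, a j ≤ (S j).card) :
    ∃ σ : Fin n → ℝ, Function.Injective σ ∧
      ∀ j, ((S j).filter (fun i => σ i < σ j)).card = a j := by
  classical
  obtain ⟨M, hM⟩ : ∃ M, ∀ j, τ j < M := by
    obtain ⟨M, hM⟩ := (Finset.univ.image τ).exists_le
    exact ⟨M + 1, fun j => Nat.lt_succ_of_le (hM _ (Finset.mem_image_of_mem _ (Finset.mem_univ j)))⟩
  have key : ∀ m : ℕ, m ≤ M → ∃ σ : Fin n → ℝ, (∀ i j, M - m ≤ τ i → M - m ≤ τ j → σ i = σ j → i = j) ∧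
      ∀ j, M - m ≤ τ j → ((S j).filter (fun i => σ i < σ j)).card = a j := by
    intro m
    induction m with
    | zero =>
      intro _
      refine ⟨fun _ => 0, ?_, ?_⟩
      · intro i j hi
        have := hM i
        omega
      · intro j hj
        have := hM j
        omega
    | succ m ih =>
      intro hm
      obtain ⟨σ, h1, h2⟩ := ih (by omega)
      by_cases hex : ∃ j₀, τ j₀ = M - (m + 1)
      · obtain ⟨j₀, hj₀⟩ := hex
        have hS : ∀ i ∈ S j₀, M - m ≤ τ i := by
          intro i hi
          have := hτ j₀ i hi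
          omega
        obtain ⟨x, hxF, hxA, hx⟩ := exists_cut ((S j₀).image σ) (Finset.univ.image σ) (a j₀) (by
          rw [Finset.card_image_of_injOn]
          · exact ha j₀
          · intro i hi i' hi' he
            exact h1 i i' (hS i hi) (hS i' hi') he)
        have hxne : ∀ i, σ i ≠ x := fun i he =>
          hxF (Finset.mem_image.2 ⟨i, Finset.mem_univ i, he⟩)
        refine ⟨Function.update σ j₀ x, ?_, ?_⟩
        · intro i j hi hj he
          by_cases hi0 : i = j₀
          · by_cases hj0 : j = j₀
            · rw [hi0, hj0]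
            · rw [hi0, Function.update_self, Function.update_of_ne hj0] at he
              exact absurd he.symm (hxne j)
          · by_cases hj0 : j = j₀
            · rw [hj0, Function.update_self, Function.update_of_ne hi0] at he
              exact absurd he (hxne i)
            · rw [Function.update_of_ne hi0, Function.update_of_ne hj0] at he
              refine h1 i j ?_ ?_ he
              · have : τ i ≠ τ j₀ := fun h => hi0 (hτi h)
                omega
              · have : τ j ≠ τ j₀ := fun h => hj0 (hτi h)
                omega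
        · intro j hj
          by_cases hj0 : j = j₀
          · subst hj0
            rw [← hx, Finset.filter_image, Finset.card_image_of_injOn]
            · congr 1
              apply Finset.filter_congr
              intro i hi
              have hne : i ≠ j := by
                rintro rfl
                exact lt_irrefl _ (hτ i i hi)
              rw [Function.update_self, Function.update_of_ne hne]
            · intro i hi i' hi' he
              exact h1 i i' (hS i (Finset.mem_filter.1 hi).1) (hS i' (Finset.mem_filter.1 hi').1) he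
          · have hj' : M - m ≤ τ j := by
              have : τ j ≠ τ j₀ := fun h => hj0 (hτi h)
              omega
            rw [← h2 j hj']
            congr 1
            apply Finset.filter_congr
            intro i hi
            have hne : i ≠ j₀ := by
              rintro rfl
              have := hτ j i hi
              omega
            rw [Function.update_of_ne hj0, Function.update_of_ne hne]
      · refine ⟨σ, ?_, ?_⟩
        · intro i j hi hj he
          refine h1 i j ?_ ?_ he
          · have : τ i ≠ M - (m + 1) := fun h => hex ⟨i, h⟩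
            omega
          · have : τ j ≠ M - (m + 1) := fun h => hex ⟨j, h⟩
            omega
        · intro j hj
          apply h2
          have : τ j ≠ M - (m + 1) := fun h => hex ⟨j, h⟩
          omega
  obtain ⟨σ, h1, h2⟩ := key M le_rfl
  refine ⟨σ, fun i j he => h1 i j (by omega) (by omega) he, fun j => h2 j (by omega)⟩

/-- **The merging lemma.** -/
theorem TRealized.merge {n d : ℕ} (hn : 1 ≤ n) (hd : 2 ≤ d) (z : Fin (d + 1)) (s : Fin d)
    (v : Fin n → Fin (d + 1) → ℕ) (h : TRealized n d (fun k => mergeV z s (v k))) :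
    TRealized n (d + 1) v := by
  classical
  obtain ⟨T, hT, hv, hvT⟩ := h
  obtain ⟨c, hc⟩ : ∃ c : Fin d, s ≠ c := by
    by_cases h0 : s = ⟨0, by omega⟩
    · refine ⟨⟨1, by omega⟩, ?_⟩
      rw [h0]
      intro h
      have := congrArg Fin.val h
      simp at this
    · exact ⟨_, h0⟩
  obtain ⟨τ, hτi, hτ⟩ := hT.exists_tau hn (by omega) s c hc _ hv hvT
  let S : Fin n → Finset (Fin n) := fun j => (Iset T s (mergeV z s (v j))).erase j
  have hjmem : ∀ j, j ∈ Iset T s (mergeV z s (v j)) := by
    intro j
    refine Finset.mem_filter.2 ⟨Finset.mem_univ _, ?_⟩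
    rw [hvT j]
    exact Finset.mem_univ s
  have hScard : ∀ j, (S j).card = v j (z.succAbove s) + v j z := by
    intro j
    simp only [S]
    rw [Finset.card_erase_of_mem (hjmem j), hT.card_Iset s _ (hv j)]
    show mergeV z s (v j) s + 1 - 1 = _
    rw [mergeV_s]
    omega
  obtain ⟨σ, hσ, hσS⟩ := exists_order S τ hτi (by
    intro j i hi
    have h1 := Finset.mem_of_mem_erase hi
    have h2 := Finset.ne_of_mem_erase hi
    exact hτ j i h2 (Finset.mem_filter.1 h1).2) (fun j => v j (z.succAbove s)) (by
    intro j
    rw [hScard j]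
    omega)
  refine ⟨liftT T z s σ, hT.lift z s σ hσ, ?_, ?_⟩
  · intro k
    rw [← sum_mergeV z s]
    exact hv k
  · intro k
    apply liftT_univ T z s σ (v k) k (hvT k)
    rw [rk_eq, ← hσS k]
    congr 1
    ext i
    simp only [S, Finset.mem_filter, Finset.mem_erase]
    constructor
    · rintro ⟨h1, h2⟩
      refine ⟨⟨?_, h1⟩, h2⟩
      rintro rfl
      exact lt_irrefl _ h2
    · rintro ⟨⟨-, h1⟩, h2⟩
      exact ⟨h1, h2⟩

/-- Two colours: `n` different points. -/
theorem tRealized_two {n : ℕ} (hn : 1 ≤ n) (v : Fin n → Fin 2 → ℕ)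
    (hv : ∀ k, ∑ c, v k c = n - 1) (hinj : Function.Injective v) : TRealized n 2 v := by
  classical
  have hv' : ∀ k, v k 0 + v k 1 = n - 1 := fun k => by
    have := hv k
    rwa [Fin.sum_univ_two] at this
  have hinj0 : Function.Injective (fun k => v k 0) := by
    intro i j hij
    apply hinj
    funext c
    have h1 := hv' i
    have h2 := hv' j
    fin_cases c
    · exact hij
    · simp only [Fin.mk_one]
      dsimp only at hij
      omega
  let σ : Fin n → ℝ := fun k => (v k 0 : ℝ)
  have hσ : Function.Injective σ := by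
    intro i j hij
    apply hinj0
    exact Nat.cast_injective (R := ℝ) hij
  have himg : Finset.univ.image (fun k => v k 0) = Finset.range n := by
    apply Finset.eq_of_subset_of_card_le
    · intro r hr
      obtain ⟨k, -, rfl⟩ := Finset.mem_image.1 hr
      rw [Finset.mem_range]
      have := hv' k
      omega
    · rw [Finset.card_image_of_injective _ hinj0]
      simp
  refine ⟨liftT (fun _ _ => Finset.univ) 1 0 σ, (treeFam_one n hn).lift 1 0 σ hσ, hv, ?_⟩
  intro k
  apply liftT_univ _ 1 0 σ (v k) k rfl
  rw [rk_eq]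
  have e1 : (1 : Fin 2).succAbove 0 = 0 := by decide
  rw [e1]
  have e2 : (Iset (fun (_ : Fin 1 → ℕ) (_ : Fin n) => (Finset.univ : Finset (Fin 1))) 0
      (mergeV 1 0 (v k))) = Finset.univ := by
    ext i
    simp [Iset]
  rw [e2]
  have e3 : (Finset.univ.filter (fun j => σ j < σ k)).image (fun j => v j 0) =
      Finset.range (v k 0) := by
    ext r
    rw [Finset.mem_image, Finset.mem_range]
    constructor
    · rintro ⟨j, hj, rfl⟩
      exact Nat.cast_lt.1 (Finset.mem_filter.1 hj).2
    · intro hr
      have h1 : r ∈ Finset.univ.image (fun k => v k 0) := by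
        rw [himg, Finset.mem_range]
        have := hv' k
        omega
      obtain ⟨j, -, hj⟩ := Finset.mem_image.1 h1
      refine ⟨j, Finset.mem_filter.2 ⟨Finset.mem_univ _, ?_⟩, hj⟩
      show (v j 0 : ℝ) < v k 0
      rw [Nat.cast_lt]
      omega
  rw [← Finset.card_range (v k 0), ← e3, Finset.card_image_of_injective _ hinj0]

end Pool.Agent.Helper28.SO
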