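import Mathlib

set_option autoImplicit false

/-! Counting lemmas for the covering property of a compatible family of trees. -/

namespace Pool.Agent.Helper28.SO

open Filter Topology

/-- number of functions with support in `s` and sum `n` -/
theorem card_pa {ι : Type*} [DecidableEq ι] (s : Finset ι) (n : ℕ) :
    (Finset.piAntidiag s n).card = (s.card).multichoose n := by
  rw [← Finset.card_finsuppAntidiag_nat_eq_multichoose, Finset.finsuppAntidiag, Finset.card_map,
    Finset.card_attach]

theorem asym_false (k : ℕ) (a b c : ℝ)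
    (h : ∀ s : ℕ, 1 ≤ s → (a * s + b) ^ k + (s : ℝ) ^ k ≤ (a * s + c) ^ k) : False := by
  have hlim : ∀ b : ℝ, Tendsto (fun s : ℕ => (a + b / (s : ℝ)) ^ k) atTop (𝓝 (a ^ k)) := by
    intro b
    have h1 : Tendsto (fun s : ℕ => a + b / (s : ℝ)) atTop (𝓝 (a + 0)) :=
      tendsto_const_nhds.add (tendsto_const_div_atTop_nhds_zero_nat b)
    rw [add_zero] at h1
    exact h1.pow k
  have h2 : ∀ᶠ s : ℕ in atTop, (a + b / (s : ℝ)) ^ k + 1 ≤ (a + c / (s : ℝ)) ^ k := by
    filter_upwards [eventually_ge_atTop 1] with s hs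
    have hs0 : (0 : ℝ) < s := by exact_mod_cast hs
    have h3 := h s hs
    have e : ∀ b : ℝ, (a + b / (s : ℝ)) ^ k = (a * s + b) ^ k / (s : ℝ) ^ k := by
      intro b
      rw [← div_pow]
      congr 1
      field_simp
    rw [e b, e c, ← div_self (pow_pos hs0 k).ne', ← add_div]
    exact div_le_div_of_nonneg_right h3 (pow_pos hs0 k).le
  have h4 := le_of_tendsto_of_tendsto ((hlim b).add_const 1) (hlim c) h2
  linarith

theorem num_ineq (a b N s s' : ℕ) (hN : a + b + 1 ≤ N) (hs : s ≤ s')
    (h : (b + 1).multichoose a * (a + b + 1).multichoose (N - (a + b + 1)) +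
      (a + 1).multichoose s * (b + 1).multichoose s' ≤
      (a + 1).multichoose N * (b + 1).multichoose N) :
    ((N : ℝ) - (a + b : ℕ)) ^ (a + b) + (s : ℝ) ^ (a + b) ≤ ((N : ℝ) + (a + b : ℕ)) ^ (a + b) := by
  simp only [Nat.multichoose_eq] at h
  have e1 : (b + 1 + a - 1).choose a = (a + b).choose a := by
    congr 1
    omega
  have e2 : (a + b + 1 + (N - (a + b + 1)) - 1).choose (N - (a + b + 1)) =
      (N - 1).choose (a + b) := by
    have : N - (a + b + 1) = N - 1 - (a + b) := by omega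
    rw [this, show a + b + 1 + (N - 1 - (a + b)) - 1 = N - 1 by omega]
    exact Nat.choose_symm (by omega)
  have e3 : ∀ a N : ℕ, (a + 1 + N - 1).choose N = (N + a).choose a := by
    intro a N
    rw [show a + 1 + N - 1 = N + a by omega]
    exact Nat.choose_symm_add
  rw [e1, e2, e3, e3, e3, e3] at h
  have hR : ((a + b).choose a : ℝ) * ((N - 1).choose (a + b) : ℝ) +
      ((s + a).choose a : ℝ) * ((s' + b).choose b : ℝ) ≤
      ((N + a).choose a : ℝ) * ((N + b).choose b : ℝ) := by
    exact_mod_cast h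
  have fa : (0 : ℝ) < (a.factorial : ℝ) := by exact_mod_cast a.factorial_pos
  have fb : (0 : ℝ) < (b.factorial : ℝ) := by exact_mod_cast b.factorial_pos
  have fab : (0 : ℝ) < ((a + b).factorial : ℝ) := by exact_mod_cast (a + b).factorial_pos
  -- upper bound
  have u1 : ∀ a N : ℕ, (a.factorial : ℝ) * ((N + a).choose a : ℝ) ≤ ((N : ℝ) + a) ^ a := by
    intro a N
    have fa : (0 : ℝ) < (a.factorial : ℝ) := by exact_mod_cast a.factorial_pos
    have := Nat.choose_le_pow_div (α := ℝ) a (N + a)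
    rw [le_div_iff₀ fa] at this
    push_cast at this
    linarith
  have l1 : ∀ a s : ℕ, (s : ℝ) ^ a ≤ (a.factorial : ℝ) * ((s + a).choose a : ℝ) := by
    intro a s
    have fa : (0 : ℝ) < (a.factorial : ℝ) := by exact_mod_cast a.factorial_pos
    have := Nat.pow_le_choose (α := ℝ) a (s + a)
    rw [div_le_iff₀ fa, show s + a + 1 - a = s + 1 by omega] at this
    refine le_trans ?_ (le_trans this (by rw [mul_comm]))
    push_cast
    exact pow_le_pow_left₀ (Nat.cast_nonneg s) (by linarith) a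
  have l2 : ((N : ℝ) - (a + b : ℕ)) ^ (a + b) ≤
      ((a + b).factorial : ℝ) * ((N - 1).choose (a + b) : ℝ) := by
    have := Nat.pow_le_choose (α := ℝ) (a + b) (N - 1)
    rw [div_le_iff₀ fab, show N - 1 + 1 - (a + b) = N - (a + b) by omega] at this
    rw [Nat.cast_sub (by omega)] at this
    linarith
  have hch : ((a + b).choose a : ℝ) * (a.factorial : ℝ) * (b.factorial : ℝ) =
      ((a + b).factorial : ℝ) := by
    have := Nat.add_choose_mul_factorial_mul_factorial a b
    rw [← Nat.choose_symm_add] at this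
    exact_mod_cast this
  have m1 : (a.factorial : ℝ) * (b.factorial : ℝ) * (((a + b).choose a : ℝ) *
      ((N - 1).choose (a + b) : ℝ)) = ((a + b).factorial : ℝ) * ((N - 1).choose (a + b) : ℝ) := by
    rw [← hch]
    ring
  have m2 : (s : ℝ) ^ (a + b) ≤ (a.factorial : ℝ) * (b.factorial : ℝ) *
      (((s + a).choose a : ℝ) * ((s' + b).choose b : ℝ)) := by
    have h1 := l1 a s
    have h2 : (s : ℝ) ^ b ≤ (b.factorial : ℝ) * ((s' + b).choose b : ℝ) :=
      le_trans (pow_le_pow_left₀ (Nat.cast_nonneg s) (by exact_mod_cast hs) b) (l1 b s')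
    calc (s : ℝ) ^ (a + b) = (s : ℝ) ^ a * (s : ℝ) ^ b := pow_add _ _ _
      _ ≤ ((a.factorial : ℝ) * ((s + a).choose a : ℝ)) *
          ((b.factorial : ℝ) * ((s' + b).choose b : ℝ)) := by
          apply mul_le_mul h1 h2 (pow_nonneg (Nat.cast_nonneg s) b)
          positivity
      _ = _ := by ring
  have m3 : (a.factorial : ℝ) * (b.factorial : ℝ) *
      (((N + a).choose a : ℝ) * ((N + b).choose b : ℝ)) ≤ ((N : ℝ) + (a + b : ℕ)) ^ (a + b) := by
    have h1 : (a.factorial : ℝ) * ((N + a).choose a : ℝ) ≤ ((N : ℝ) + (a + b : ℕ)) ^ a := by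
      refine le_trans (u1 a N) (pow_le_pow_left₀ (by positivity) ?_ a)
      push_cast
      have : (0 : ℝ) ≤ b := Nat.cast_nonneg b
      linarith
    have h2 : (b.factorial : ℝ) * ((N + b).choose b : ℝ) ≤ ((N : ℝ) + (a + b : ℕ)) ^ b := by
      refine le_trans (u1 b N) (pow_le_pow_left₀ (by positivity) ?_ b)
      push_cast
      have : (0 : ℝ) ≤ a := Nat.cast_nonneg a
      linarith
    calc _ = ((a.factorial : ℝ) * ((N + a).choose a : ℝ)) *
          ((b.factorial : ℝ) * ((N + b).choose b : ℝ)) := by ring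
      _ ≤ ((N : ℝ) + (a + b : ℕ)) ^ a * ((N : ℝ) + (a + b : ℕ)) ^ b := by
          apply mul_le_mul h1 h2 (by positivity) (by positivity)
      _ = _ := (pow_add _ _ _).symm
  have m4 := mul_le_mul_of_nonneg_left hR (mul_pos fa fb).le
  rw [mul_add, m1] at m4
  linarith

end Pool.Agent.Helper28.SO
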