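import Pool.Agent.Helper28.SP.Covering

set_option autoImplicit false

/-! A compatible family of trees gives a fine mixed subdivision. -/

namespace Pool.Agent.Helper28.SO

/-- no nonzero circulation on a tree -/
theorem TreeFam.zero {n d : ℕ} {T : (Fin d → ℕ) → Fin n → Finset (Fin d)} (hT : TreeFam n d T)
    (v : Fin d → ℕ) (hv : ∑ c, v c = n - 1) (h : Fin n → Fin d → ℝ)
    (hsupp : ∀ i c, c ∉ T v i → h i c = 0) (h1 : ∀ i, ∑ c, h i c = 0) (h2 : ∀ c, ∑ i, h i c = 0) :
    h = 0 := by
  have e : ∀ r : ℝ, max r 0 - max (-r) 0 = r := by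
    intro r
    rcases le_total 0 r with h | h
    · rw [max_eq_left h, max_eq_right (by linarith)]
      ring
    · rw [max_eq_right h, max_eq_left (by linarith)]
      ring
  have key := hT.compat v v hv hv (fun i c => max (h i c) 0) (fun i c => max (-h i c) 0)
    (fun i c => le_max_right _ _) (fun i c => le_max_right _ _)
    (fun i c hc => by rw [hsupp i c hc, max_self])
    (fun i c hc => by rw [hsupp i c hc, neg_zero, max_self])
    (fun i => sub_eq_zero.1 (by
      rw [← Finset.sum_sub_distrib]
      simp only [e]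
      exact h1 i))
    (fun c => sub_eq_zero.1 (by
      rw [← Finset.sum_sub_distrib]
      simp only [e]
      exact h2 c))
  funext i c
  have h3 := congrFun (congrFun key i) c
  rcases le_total 0 (h i c) with h4 | h4
  · rw [max_eq_left h4, max_eq_right (by linarith)] at h3
    exact h3
  · rw [max_eq_right h4, max_eq_left (by linarith)] at h3
    show h i c = 0
    linarith

/-- the number of edges of a tree -/
theorem TreeFam.card {n d : ℕ} (hn : 1 ≤ n) {T : (Fin d → ℕ) → Fin n → Finset (Fin d)}
    (hT : TreeFam n d T) (v : Fin d → ℕ) (hv : ∑ c, v c = n - 1) :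
    ∑ i, (T v i).card = n + d - 1 := by
  classical
  have h1 : ∑ i, (T v i).card = ∑ c, (Finset.univ.filter (fun i => c ∈ T v i)).card := by
    have e1 : ∀ i, (T v i).card = ∑ c, if c ∈ T v i then 1 else 0 := by
      intro i
      rw [← Finset.card_filter]
      congr 1
      ext c
      simp
    simp only [e1, Finset.card_filter]
    exact Finset.sum_comm
  rw [h1, Finset.sum_congr rfl fun c _ => hT.deg v hv c, Finset.sum_add_distrib, hv]
  simp
  omega

theorem TreeFam.nonempty {n d : ℕ} (hn : 1 ≤ n) (hd : 1 ≤ d)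
    {T : (Fin d → ℕ) → Fin n → Finset (Fin d)} (hT : TreeFam n d T) (v : Fin d → ℕ)
    (hv : ∑ c, v c = n - 1) (i₀ : Fin n) : (T v i₀).Nonempty := by
  classical
  by_contra hemp
  rw [Finset.not_nonempty_iff_eq_empty] at hemp
  let E : Finset (Fin n × Fin d) := Finset.univ.filter (fun p => p.2 ∈ T v p.1)
  have hE : E.card = n + d - 1 := by
    rw [← hT.card hn v hv]
    simp only [E, Finset.card_filter]
    rw [Fintype.sum_prod_type]
    refine Finset.sum_congr rfl fun i _ => ?_
    rw [← Finset.card_filter]
    congr 1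
    ext c
    simp
  let c₀ : Fin d := ⟨0, by omega⟩
  let hh : (E → ℝ) → Fin n → Fin d → ℝ := fun g i c =>
    if h : (i, c) ∈ E then g ⟨(i, c), h⟩ else 0
  let Ψ : (E → ℝ) →ₗ[ℝ] ({i : Fin n // i ≠ i₀} → ℝ) × ({c : Fin d // c ≠ c₀} → ℝ) :=
    { toFun := fun g => (fun i => ∑ c, hh g i.1 c, fun c => ∑ i, hh g i c.1)
      map_add' := by
        intro g g'
        have e : ∀ i c, hh (g + g') i c = hh g i c + hh g' i c := by
          intro i c
          simp only [hh]
          split_ifs
          · rfl
          · rw [add_zero]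
        apply Prod.ext
        · funext i
          simp only [e, Finset.sum_add_distrib, Prod.fst_add, Pi.add_apply]
        · funext c
          simp only [e, Finset.sum_add_distrib, Prod.snd_add, Pi.add_apply]
      map_smul' := by
        intro r g
        have e : ∀ i c, hh (r • g) i c = r * hh g i c := by
          intro i c
          simp only [hh]
          split_ifs
          · rfl
          · rw [mul_zero]
        apply Prod.ext
        · funext i
          simp only [e, ← Finset.mul_sum, Prod.smul_fst, Pi.smul_apply, smul_eq_mul,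
            RingHom.id_apply]
        · funext c
          simp only [e, ← Finset.mul_sum, Prod.smul_snd, Pi.smul_apply, smul_eq_mul,
            RingHom.id_apply] }
  have hinj : Function.Injective Ψ := by
    rw [← LinearMap.ker_eq_bot, LinearMap.ker_eq_bot']
    intro g hg
    have h1 : ∀ i, i ≠ i₀ → ∑ c, hh g i c = 0 := fun i hi =>
      congrFun (congrArg Prod.fst hg) ⟨i, hi⟩
    have h2 : ∀ c, c ≠ c₀ → ∑ i, hh g i c = 0 := fun c hc =>
      congrFun (congrArg Prod.snd hg) ⟨c, hc⟩
    have hsupp : ∀ i c, c ∉ T v i → hh g i c = 0 := by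
      intro i c hc
      simp only [hh]
      rw [dif_neg]
      intro h
      exact hc (Finset.mem_filter.1 h).2
    have h3 : ∀ i, ∑ c, hh g i c = 0 := by
      intro i
      by_cases hi : i = i₀
      · subst hi
        apply Finset.sum_eq_zero
        intro c _
        apply hsupp
        rw [hemp]
        exact Finset.notMem_empty c
      · exact h1 i hi
    have h4 : ∀ c, ∑ i, hh g i c = 0 := by
      intro c
      by_cases hc : c = c₀
      · have e1 : ∑ c, ∑ i, hh g i c = 0 := by
          rw [Finset.sum_comm]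
          exact Finset.sum_eq_zero fun i _ => h3 i
        rw [← Finset.add_sum_erase _ _ (Finset.mem_univ c), Finset.sum_eq_zero
          (s := Finset.univ.erase c), add_zero] at e1
        · exact e1
        · intro c' hc'
          apply h2
          rw [← hc]
          exact Finset.ne_of_mem_erase hc'
      · exact h2 c hc
    have h5 := hT.zero v hv (hh g) hsupp h3 h4
    funext p
    obtain ⟨⟨i, c⟩, hp⟩ := p
    have h6 := congrFun (congrFun h5 i) c
    simp only [hh] at h6
    rw [dif_pos hp] at h6
    exact h6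
  have h7 := LinearMap.finrank_le_finrank_of_injective hinj
  rw [Module.finrank_prod, Module.finrank_fintype_fun_eq_card, Module.finrank_fintype_fun_eq_card,
    Module.finrank_fintype_fun_eq_card, Fintype.card_coe, hE] at h7
  simp only [Fintype.card_subtype_compl, Fintype.card_fin, Fintype.card_unique] at h7
  omega

theorem TreeFam.sum_card {n d : ℕ} (hn : 1 ≤ n) (hd : 1 ≤ d)
    {T : (Fin d → ℕ) → Fin n → Finset (Fin d)} (hT : TreeFam n d T) (v : Fin d → ℕ)
    (hv : ∑ c, v c = n - 1) : ∑ i, ((T v i).card - 1) = d - 1 := by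
  have h1 : ∑ i, ((T v i).card - 1) + ∑ _i : Fin n, 1 = ∑ i, (T v i).card := by
    rw [← Finset.sum_add_distrib]
    refine Finset.sum_congr rfl fun i _ => ?_
    have := (hT.nonempty hn hd v hv i).card_pos
    omega
  rw [hT.card hn v hv] at h1
  simp at h1
  omega

theorem TreeFam.finrank {n d : ℕ} (hn : 1 ≤ n) (hd : 1 ≤ d)
    {T : (Fin d → ℕ) → Fin n → Finset (Fin d)} (hT : TreeFam n d T) (v : Fin d → ℕ)
    (hv : ∑ c, v c = n - 1) :
    Module.finrank ℝ (vectorSpan ℝ (cell (T v))) = d - 1 := by
  classical
  choose c hc using fun i => hT.nonempty hn hd v hv i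
  let ι := Σ i : Fin n, {k : Fin d // k ∈ (T v i).erase (c i)}
  let b : ι → (Fin d → ℝ) := fun p => Pi.single p.2.1 1 - Pi.single (c p.1) 1
  have hcard : Fintype.card ι = d - 1 := by
    have h1 : Fintype.card ι = ∑ i, ((T v i).card - 1) := by
      rw [Fintype.card_sigma]
      refine Finset.sum_congr rfl fun i _ => ?_
      rw [Fintype.card_coe, Finset.card_erase_of_mem (hc i)]
    rw [h1, hT.sum_card hn hd v hv]
  have hspan : Submodule.span ℝ (Set.range b) = vectorSpan ℝ (cell (T v)) := by
    rw [vectorSpan_cell (T v) (fun i => ⟨c i, hc i⟩)]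
    apply le_antisymm
    · rw [Submodule.span_le]
      rintro z ⟨p, rfl⟩
      refine Submodule.subset_span ⟨p.1, p.2.1, Finset.mem_of_mem_erase p.2.2, c p.1, hc p.1, rfl⟩
    · rw [Submodule.span_le]
      rintro z ⟨i, k, hk, k', hk', rfl⟩
      have hm : ∀ k ∈ T v i, (Pi.single k (1 : ℝ) - Pi.single (c i) 1 : Fin d → ℝ) ∈
          Submodule.span ℝ (Set.range b) := by
        intro k hk
        by_cases h : k = c i
        · rw [h, sub_self]
          exact Submodule.zero_mem _
        · exact Submodule.subset_span ⟨⟨i, k, Finset.mem_erase.2 ⟨h, hk⟩⟩, rfl⟩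
      have h := Submodule.sub_mem _ (hm k hk) (hm k' hk')
      rwa [sub_sub_sub_cancel_right] at h
  have hli : LinearIndependent ℝ b := by
    rw [Fintype.linearIndependent_iff]
    intro g hg
    let G : Fin n → Fin d → ℝ := fun i k =>
      if hk : k ∈ (T v i).erase (c i) then g ⟨i, ⟨k, hk⟩⟩ else 0
    let h : Fin n → Fin d → ℝ := fun i k => G i k - if k = c i then ∑ k', G i k' else 0
    have hG0 : ∀ i k, k ∉ (T v i).erase (c i) → G i k = 0 := fun i k hk => dif_neg hk
    have hsum : ∀ k, ∑ i, h i k = 0 := by
      intro k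
      have h1 := congrFun hg k
      rw [Finset.sum_apply] at h1
      simp only [Pi.smul_apply, smul_eq_mul, Pi.zero_apply] at h1
      rw [Fintype.sum_sigma] at h1
      rw [← h1]
      refine Finset.sum_congr rfl fun i _ => ?_
      have h2 : ∀ q : {k : Fin d // k ∈ (T v i).erase (c i)},
          g ⟨i, q⟩ * b ⟨i, q⟩ k = (fun k' => G i k' * ((Pi.single k' (1 : ℝ) : Fin d → ℝ) k -
            (Pi.single (c i) (1 : ℝ) : Fin d → ℝ) k)) q.1 := by
        intro q
        have h3 : G i q.1 = g ⟨i, q⟩ := dif_pos q.2
        simp only [b, h3, Pi.sub_apply]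
      rw [Finset.sum_congr rfl fun q _ => h2 q, Finset.sum_coe_sort ((T v i).erase (c i))
        (fun k' => G i k' * ((Pi.single k' (1 : ℝ) : Fin d → ℝ) k -
            (Pi.single (c i) (1 : ℝ) : Fin d → ℝ) k)),
        Finset.sum_subset (Finset.subset_univ _) (fun k' _ hk' => by rw [hG0 i k' hk', zero_mul])]
      simp only [mul_sub, Finset.sum_sub_distrib, ← Finset.sum_mul]
      have h4 : ∑ k', G i k' * (Pi.single k' (1 : ℝ) : Fin d → ℝ) k = G i k := by
        rw [Finset.sum_eq_single k]
        · simp
        · intro k' _ hk'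
          rw [Pi.single_eq_of_ne hk'.symm, mul_zero]
        · intro hk'
          exact absurd (Finset.mem_univ k) hk'
      rw [h4]
      simp only [h]
      congr 1
      by_cases hk : k = c i
      · subst hk
        simp
      · rw [if_neg hk, Pi.single_eq_of_ne hk, mul_zero]
    have hrow : ∀ i, ∑ k, h i k = 0 := by
      intro i
      simp only [h, Finset.sum_sub_distrib, Finset.sum_ite_eq', Finset.mem_univ, if_true, sub_self]
    have hsupp : ∀ i k, k ∉ T v i → h i k = 0 := by
      intro i k hk
      have h1 : k ≠ c i := fun h => hk (h ▸ hc i)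
      simp only [h]
      rw [if_neg h1, hG0 i k (fun h' => hk (Finset.mem_of_mem_erase h')), sub_zero]
    have h0 := hT.zero v hv h hsupp hrow hsum
    rintro ⟨i, ⟨k, hk⟩⟩
    have h1 := congrFun (congrFun h0 i) k
    have h2 : k ≠ c i := Finset.ne_of_mem_erase hk
    simp only [h, h2, if_false, sub_zero, G] at h1
    rw [dif_pos hk] at h1
    exact h1
  rw [← hspan, finrank_span_eq_card hli, hcard]

/-- The cells of the family. -/
noncomputable def TreeFam.cells {n d : ℕ} (T : (Fin d → ℕ) → Fin n → Finset (Fin d)) :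
    Finset (Fin n → Finset (Fin d)) := by
  classical
  exact (Finset.piAntidiag Finset.univ (n - 1)).image T

theorem TreeFam.mem_cells {n d : ℕ} {T : (Fin d → ℕ) → Fin n → Finset (Fin d)}
    (B : Fin n → Finset (Fin d)) :
    B ∈ TreeFam.cells T ↔ ∃ v : Fin d → ℕ, ∑ c, v c = n - 1 ∧ T v = B := by
  classical
  unfold TreeFam.cells
  simp

/-- **Main theorem.** A compatible family of trees gives a fine mixed subdivision. -/
theorem TreeFam.isFineMixed {n d : ℕ} (hn : 1 ≤ n) (hd : 1 ≤ d)
    {T : (Fin d → ℕ) → Fin n → Finset (Fin d)} (hT : TreeFam n d T) :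
    IsFineMixed n d (TreeFam.cells T) := by
  classical
  have hcov := covering hn hd T hT
  have hex : ∀ x : Fin d → ℝ, ∃ g : Fin n → Fin d → ℝ, Cov T (fun _ => 1) x →
      ∃ v : Fin d → ℕ, ∑ c, v c = n - 1 ∧ (∀ i c, 0 ≤ g i c) ∧
        (∀ i c, c ∉ T v i → g i c = 0) ∧ (∀ i, ∑ c, g i c = 1) ∧ ∀ c, ∑ i, g i c = x c := by
    intro x
    by_cases h : Cov T (fun _ => 1) x
    · obtain ⟨v, hv, g, h1, h2, h3, h4⟩ := h
      exact ⟨g, fun _ => ⟨v, hv, h1, h2, h3, h4⟩⟩
    · exact ⟨0, fun h' => absurd h' h⟩
  choose φ hφ using hex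
  refine isFineMixed_of_maps (TreeFam.cells T) ?_ ?_ φ ?_
  · intro B hB
    rw [TreeFam.mem_cells] at hB
    obtain ⟨v, hv, rfl⟩ := hB
    exact ⟨hT.nonempty hn hd v hv, hT.sum_card hn hd v hv, hT.finrank hn hd v hv⟩
  · intro x h0 h1
    obtain ⟨v, hv, g, e1, e2, e3, e4⟩ := hcov x h0 h1
    refine ⟨T v, (TreeFam.mem_cells _).2 ⟨v, hv, rfl⟩, ?_⟩
    rw [mem_cell_iff]
    exact ⟨g, e1, e3, e2, fun c => (e4 c).symm⟩
  · intro B hB x hx
    rw [TreeFam.mem_cells] at hB
    obtain ⟨v, hv, rfl⟩ := hB
    rw [mem_cell_iff] at hx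
    obtain ⟨lam, e1, e3, e2, e4⟩ := hx
    have hc : Cov T (fun _ => 1) x := ⟨v, hv, lam, e1, e2, e3, fun c => (e4 c).symm⟩
    obtain ⟨w, hw, f1, f2, f3, f4⟩ := hφ x hc
    have he : lam = φ x := hT.compat v w hv hw lam (φ x) e1 f1 e2 f2
      (fun i => (e3 i).trans (f3 i).symm) (fun c => (e4 c).symm.trans (f4 c).symm)
    rw [← he]
    exact ⟨e1, e3, e4, e2⟩

theorem TreeFam.T_inj {n d : ℕ} {T : (Fin d → ℕ) → Fin n → Finset (Fin d)}
    (hT : TreeFam n d T) (v w : Fin d → ℕ) (hv : ∑ c, v c = n - 1) (hw : ∑ c, w c = n - 1)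
    (h : T v = T w) : v = w := by
  funext c
  have h1 := hT.deg v hv c
  have h2 := hT.deg w hw c
  rw [h] at h1
  omega

/-- the position of a hole -/
theorem TreeFam.pos {n d : ℕ} {T : (Fin d → ℕ) → Fin n → Finset (Fin d)}
    (hT : TreeFam n d T) (v : Fin d → ℕ) (hv : ∑ c, v c = n - 1) (i : Fin n)
    (hi : T v i = Finset.univ) (c : Fin d) :
    v c = (Finset.univ.filter (fun j => j ≠ i ∧ c ∈ T v j)).card := by
  classical
  have h1 := hT.deg v hv c
  have h2 : Finset.univ.filter (fun j => c ∈ T v j) =
      insert i (Finset.univ.filter (fun j => j ≠ i ∧ c ∈ T v j)) := by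
    ext j
    simp only [Finset.mem_filter, Finset.mem_univ, true_and, Finset.mem_insert]
    constructor
    · intro h
      by_cases hj : j = i
      · exact Or.inl hj
      · exact Or.inr ⟨hj, h⟩
    · rintro (rfl | h)
      · rw [hi]
        exact Finset.mem_univ c
      · exact h.2
  rw [h2, Finset.card_insert_of_notMem (by simp)] at h1
  omega

/-- The holes of the family are realized. -/
theorem TreeFam.realized_holes {n d : ℕ} (hn : 1 ≤ n) (hd : 1 ≤ d)
    {T : (Fin d → ℕ) → Fin n → Finset (Fin d)} (hT : TreeFam n d T)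
    (U : Finset (Fin d → ℕ))
    (hU : ∀ v : Fin d → ℕ, v ∈ U ↔ ∑ c, v c = n - 1 ∧ ∃ i, T v i = Finset.univ) :
    Realized n d U := by
  classical
  refine ⟨TreeFam.cells T, hT.isFineMixed hn hd, ?_⟩
  intro v
  rw [hU]
  constructor
  · rintro ⟨hv, i, hi⟩
    exact ⟨T v, (TreeFam.mem_cells _).2 ⟨v, hv, rfl⟩, i, hi, hT.pos v hv i hi⟩
  · rintro ⟨B, hB, i, hi, hp⟩
    rw [TreeFam.mem_cells] at hB
    obtain ⟨w, hw, rfl⟩ := hB
    have : v = w := by
      funext c
      rw [hp c, ← hT.pos w hw i hi c]
    subst this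
    exact ⟨hw, i, hi⟩

/-- Two holes with the same label are equal. -/
theorem TreeFam.hole_unique {n d : ℕ} (hn : 1 ≤ n) (hd : 1 ≤ d)
    {T : (Fin d → ℕ) → Fin n → Finset (Fin d)} (hT : TreeFam n d T) (v w : Fin d → ℕ)
    (hv : ∑ c, v c = n - 1) (hw : ∑ c, w c = n - 1) (i : Fin n) (hvi : T v i = Finset.univ)
    (hwi : T w i = Finset.univ) : v = w := by
  classical
  choose f₀ hf₀ using hT.nonempty hn hd v hv
  choose f₁ hf₁ using hT.nonempty hn hd w hw
  have key : ∀ f f' : Fin n → Fin d, (∀ j, f j ∈ T v j) → (∀ j, f' j ∈ T w j) →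
      ∀ j, j ≠ i → f j = f' j := by
    intro f f' hf hf' j hj
    let p : Fin d → ℝ := fun c => ∑ j ∈ Finset.univ.erase i, if f' j = c then 1 else 0
    let p' : Fin d → ℝ := fun c => ∑ j ∈ Finset.univ.erase i, if f j = c then 1 else 0
    have hp : ∀ c, 0 ≤ p c := fun c => Finset.sum_nonneg fun j _ => by split_ifs <;> norm_num
    have hp' : ∀ c, 0 ≤ p' c := fun c => Finset.sum_nonneg fun j _ => by split_ifs <;> norm_num
    have hsp : ∑ c, p c = ∑ c, p' c := by
      simp only [p, p']
      rw [Finset.sum_comm, Finset.sum_comm (s := Finset.univ) (t := Finset.univ.erase i)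
        (f := fun c j => if f j = c then (1 : ℝ) else 0)]
      refine Finset.sum_congr rfl fun j _ => ?_
      simp
    have h1 := hT.compat v w hv hw
      (fun j c => if j = i then p c else if f j = c then 1 else 0)
      (fun j c => if j = i then p' c else if f' j = c then 1 else 0)
      (fun j c => by split_ifs <;> first | exact hp c | norm_num)
      (fun j c => by split_ifs <;> first | exact hp' c | norm_num)
      (fun j c hc => by
        by_cases hj : j = i
        · subst hj
          rw [hvi] at hc
          exact absurd (Finset.mem_univ c) hc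
        · rw [if_neg hj, if_neg]
          intro h
          exact hc (h ▸ hf j))
      (fun j c hc => by
        by_cases hj : j = i
        · subst hj
          rw [hwi] at hc
          exact absurd (Finset.mem_univ c) hc
        · rw [if_neg hj, if_neg]
          intro h
          exact hc (h ▸ hf' j))
      (fun j => by
        by_cases hj : j = i
        · simp only [hj, if_true]
          exact hsp
        · simp only [hj, if_false]
          simp)
      (fun c => by
        rw [← Finset.add_sum_erase _ _ (Finset.mem_univ i),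
          ← Finset.add_sum_erase _ (fun j => if j = i then p' c else if f' j = c then 1 else 0)
          (Finset.mem_univ i)]
        simp only [if_true]
        have e1 : ∑ j ∈ Finset.univ.erase i,
            (if j = i then p c else if f j = c then (1 : ℝ) else 0) = p' c :=
          Finset.sum_congr rfl fun j hj => if_neg (Finset.ne_of_mem_erase hj)
        have e2 : ∑ j ∈ Finset.univ.erase i,
            (if j = i then p' c else if f' j = c then (1 : ℝ) else 0) = p c :=
          Finset.sum_congr rfl fun j hj => if_neg (Finset.ne_of_mem_erase hj)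
        rw [e1, e2, add_comm])
    have h2 := congrFun (congrFun h1 j) (f j)
    simp only [hj, if_false, if_true] at h2
    by_contra hne
    rw [if_neg (fun h => hne h.symm)] at h2
    exact one_ne_zero h2
  have hTT : ∀ j, T v j = T w j := by
    intro j
    by_cases hj : j = i
    · rw [hj, hvi, hwi]
    · have h1 : ∀ a ∈ T v j, ∀ b ∈ T w j, a = b := by
        intro a ha b hb
        have h2 := key (Function.update f₀ j a) (Function.update f₁ j b) ?_ ?_ j hj
        · rwa [Function.update_self, Function.update_self] at h2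
        · intro k
          by_cases hk : k = j
          · subst hk
            rw [Function.update_self]
            exact ha
          · rw [Function.update_of_ne hk]
            exact hf₀ k
        · intro k
          by_cases hk : k = j
          · subst hk
            rw [Function.update_self]
            exact hb
          · rw [Function.update_of_ne hk]
            exact hf₁ k
      ext c
      constructor
      · intro hc
        rw [h1 c hc (f₁ j) (hf₁ j)]
        exact hf₁ j
      · intro hc
        rw [← h1 (f₀ j) (hf₀ j) c hc]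
        exact hf₀ j
  exact hT.T_inj v w hv hw (funext hTT)

/-- The holes are prescribed: the interface for the existence constructions. -/
theorem TreeFam.realized {n d : ℕ} (hn : 1 ≤ n) (hd : 1 ≤ d)
    {T : (Fin d → ℕ) → Fin n → Finset (Fin d)} (hT : TreeFam n d T)
    (v : Fin n → Fin d → ℕ) (hv : ∀ k, ∑ c, v k c = n - 1)
    (hvT : ∀ k, T (v k) k = Finset.univ) (U : Finset (Fin d → ℕ))
    (hU : ∀ u, u ∈ U ↔ ∃ k, v k = u) : Realized n d U := by
  refine hT.realized_holes hn hd U ?_
  intro u
  rw [hU]
  constructor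
  · rintro ⟨k, rfl⟩
    exact ⟨hv k, k, hvT k⟩
  · rintro ⟨hu, i, hi⟩
    exact ⟨i, hT.hole_unique hn hd (v i) u (hv i) hu i (hvT i) hi⟩

end Pool.Agent.Helper28.SO
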