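import Pool.Agent.Helper28.SP.Merge

set_option autoImplicit false

/-! Certificates for explicit compatible families of trees. -/

namespace Pool.Agent.Helper28.SO

theorem cross_sum {n d : ℕ} (h : Fin n → Fin d → ℝ) (hrow : ∀ i, ∑ c, h i c = 0)
    (hcol : ∀ c, ∑ i, h i c = 0) (RL : Finset (Fin n)) (RC : Finset (Fin d)) :
    ∑ i, ∑ c, ((if c ∈ RC ∧ i ∉ RL then h i c else 0) -
      (if i ∈ RL ∧ c ∉ RC then h i c else 0)) = 0 := by
  have e : ∀ i c, ((if c ∈ RC ∧ i ∉ RL then h i c else 0) -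
      (if i ∈ RL ∧ c ∉ RC then h i c else 0)) =
      (if c ∈ RC then h i c else 0) - (if i ∈ RL then h i c else 0) := by
    intro i c
    by_cases h1 : c ∈ RC <;> by_cases h2 : i ∈ RL <;> simp [h1, h2]
  simp only [e, Finset.sum_sub_distrib]
  have e1 : ∑ i, ∑ c, (if c ∈ RC then h i c else 0) = 0 := by
    rw [Finset.sum_comm]
    apply Finset.sum_eq_zero
    intro c _
    by_cases h1 : c ∈ RC
    · simp [h1, hcol]
    · simp [h1]
  have e2 : ∑ i, ∑ c, (if i ∈ RL then h i c else 0) = 0 := by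
    apply Finset.sum_eq_zero
    intro i _
    by_cases h1 : i ∈ RL
    · simp [h1, hrow]
    · simp [h1]
  rw [e1, e2, sub_zero]

/-- Separation of the edge `(i, c)` of `A` from the pair `(A, B)`. -/
def Sep {n d : ℕ} (A B : Fin n → Finset (Fin d)) (i : Fin n) (c : Fin d) : Prop :=
  ∃ (RL : Finset (Fin n)) (RC : Finset (Fin d)), c ∈ RC ∧ i ∉ RL ∧
    (∀ i' c', c' ∈ A i' → ¬ (i' = i ∧ c' = c) → i' ∈ RL → c' ∈ RC) ∧
    (∀ i' c', c' ∈ B i' → ¬ (i' = i ∧ c' = c) → c' ∈ RC → i' ∈ RL)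

theorem Sep.zero_of_circ {n d : ℕ} {A : Fin n → Finset (Fin d)} {i : Fin n} {c : Fin d}
    (hs : Sep A A i c) (h : Fin n → Fin d → ℝ) (hsupp : ∀ i c, c ∉ A i → h i c = 0)
    (hrow : ∀ i, ∑ c, h i c = 0) (hcol : ∀ c, ∑ i, h i c = 0) : h i c = 0 := by
  classical
  obtain ⟨RL, RC, h1, h2, h3, h4⟩ := hs
  have hc := cross_sum h hrow hcol RL RC
  have key : ∀ i' c', ((if c' ∈ RC ∧ i' ∉ RL then h i' c' else 0) -
      (if i' ∈ RL ∧ c' ∉ RC then h i' c' else 0)) = if i' = i ∧ c' = c then h i c else 0 := by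
    intro i' c'
    by_cases he : i' = i ∧ c' = c
    · obtain ⟨rfl, rfl⟩ := he
      simp [h1, h2]
    · rw [if_neg he]
      by_cases hA : c' ∈ A i'
      · have e1 : ¬ (c' ∈ RC ∧ i' ∉ RL) := fun h => h.2 (h4 i' c' hA he h.1)
        have e2 : ¬ (i' ∈ RL ∧ c' ∉ RC) := fun h => h.2 (h3 i' c' hA he h.1)
        rw [if_neg e1, if_neg e2, sub_zero]
      · rw [hsupp i' c' hA]
        simp
  simp only [key] at hc
  rw [Finset.sum_eq_single i, Finset.sum_eq_single c] at hc
  · simpa using hc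
  · intro c' _ hne
    rw [if_neg (fun h => hne h.2)]
  · intro h
    exact absurd (Finset.mem_univ c) h
  · intro i' _ hne
    apply Finset.sum_eq_zero
    intro c' _
    rw [if_neg (fun h => hne h.1)]
  · intro h
    exact absurd (Finset.mem_univ i) h

theorem Sep.zero_of_pair {n d : ℕ} {A B : Fin n → Finset (Fin d)} {i : Fin n} {c : Fin d}
    (hs : Sep A B i c) (hB : c ∉ B i) (g g' : Fin n → Fin d → ℝ)
    (hg : ∀ i c, 0 ≤ g i c) (hg' : ∀ i c, 0 ≤ g' i c) (hsg : ∀ i c, c ∉ A i → g i c = 0)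
    (hsg' : ∀ i c, c ∉ B i → g' i c = 0)
    (hrow : ∀ i, ∑ c, g i c = ∑ c, g' i c) (hcol : ∀ c, ∑ i, g i c = ∑ i, g' i c) :
    g i c = 0 := by
  classical
  obtain ⟨RL, RC, h1, h2, h3, h4⟩ := hs
  have hc := cross_sum (fun i c => g i c - g' i c)
    (fun i => by rw [Finset.sum_sub_distrib, hrow i, sub_self])
    (fun c => by rw [Finset.sum_sub_distrib, hcol c, sub_self]) RL RC
  have hnn : ∀ i' c', 0 ≤ ((if c' ∈ RC ∧ i' ∉ RL then g i' c' - g' i' c' else 0) -
      (if i' ∈ RL ∧ c' ∉ RC then g i' c' - g' i' c' else 0)) := by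
    intro i' c'
    have e1 : c' ∈ RC ∧ i' ∉ RL → g' i' c' = 0 := by
      intro h
      by_cases he : i' = i ∧ c' = c
      · obtain ⟨rfl, rfl⟩ := he
        exact hsg' _ _ hB
      · apply hsg'
        intro hm
        exact h.2 (h4 i' c' hm he h.1)
    have e2 : i' ∈ RL ∧ c' ∉ RC → g i' c' = 0 := by
      intro h
      apply hsg
      intro hm
      refine h.2 (h3 i' c' hm ?_ h.1)
      rintro ⟨rfl, -⟩
      exact h2 h.1
    by_cases ha : c' ∈ RC ∧ i' ∉ RL
    · have hb : ¬ (i' ∈ RL ∧ c' ∉ RC) := fun h => ha.2 h.1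
      rw [if_pos ha, if_neg hb, e1 ha]
      have := hg i' c'
      linarith
    · by_cases hb : i' ∈ RL ∧ c' ∉ RC
      · rw [if_neg ha, if_pos hb, e2 hb]
        have := hg' i' c'
        linarith
      · rw [if_neg ha, if_neg hb, sub_zero]
  have hz := (Finset.sum_eq_zero_iff_of_nonneg (fun i' _ =>
    Finset.sum_nonneg fun c' _ => hnn i' c')).1 hc i (Finset.mem_univ i)
  have hz2 := (Finset.sum_eq_zero_iff_of_nonneg (fun c' _ => hnn i c')).1 hz c
    (Finset.mem_univ c)
  rw [if_pos ⟨h1, h2⟩, if_neg (fun h => h2 h.1), sub_zero, hsg' i c hB, sub_zero] at hz2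
  exact hz2

/-- The certificate criterion. -/
theorem treeFam_of_sep {n d : ℕ} (T : (Fin d → ℕ) → Fin n → Finset (Fin d))
    (hdeg : ∀ v : Fin d → ℕ, ∑ c, v c = n - 1 →
      ∀ c, (Finset.univ.filter (fun i => c ∈ T v i)).card = v c + 1)
    (hsep : ∀ v w : Fin d → ℕ, ∑ c, v c = n - 1 → ∑ c, w c = n - 1 → ∀ i c, c ∈ T v i →
      (c ∈ T w i → v = w) → Sep (T v) (T w) i c) : TreeFam n d T := by
  refine ⟨hdeg, ?_⟩
  intro v w hv hw g g' hg hg' hsg hsg' hrow hcol
  have hz1 : ∀ i c, c ∈ T v i → c ∉ T w i → g i c = 0 := fun i c h1 h2 =>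
    (hsep v w hv hw i c h1 (fun h => absurd h h2)).zero_of_pair h2 g g' hg hg' hsg hsg' hrow hcol
  have hz2 : ∀ i c, c ∈ T w i → c ∉ T v i → g' i c = 0 := fun i c h1 h2 =>
    (hsep w v hw hv i c h1 (fun h => absurd h h2)).zero_of_pair h2 g' g hg' hg hsg' hsg
      (fun i => (hrow i).symm) (fun c => (hcol c).symm)
  funext i c
  by_cases hc : c ∈ T v i
  · have := (hsep v v hv hv i c hc (fun _ => rfl)).zero_of_circ (fun i c => g i c - g' i c)
      (fun i c hc => by
        by_cases hw' : c ∈ T w i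
        · rw [hsg i c hc, hz2 i c hw' hc, sub_zero]
        · rw [hsg i c hc, hsg' i c hw', sub_zero])
      (fun i => by rw [Finset.sum_sub_distrib, hrow i, sub_self])
      (fun c => by rw [Finset.sum_sub_distrib, hcol c, sub_self])
    linarith
  · by_cases hw' : c ∈ T w i
    · rw [hsg i c hc, hz2 i c hw' hc]
    · rw [hsg i c hc, hsg' i c hw']

/-! ### Encoded tables -/

/-- row `i` of the code `E` -/
def row (d E i : ℕ) : ℕ := (E >>> (i * d)) % 2 ^ d

/-- one closure step -/
def stepRL (d F RC : ℕ) : ℕ → ℕ → ℕ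
  | 0, RL => RL
  | i + 1, RL => stepRL d F RC i (if row d F i &&& RC = 0 then RL else RL ||| 2 ^ i)

def stepRC (d E RL : ℕ) : ℕ → ℕ → ℕ
  | 0, RC => RC
  | i + 1, RC => stepRC d E RL i (if RL.testBit i then RC ||| row d E i else RC)

def closeUp (n d E F : ℕ) : ℕ → ℕ × ℕ → ℕ × ℕ
  | 0, p => p
  | k + 1, p =>
    let q := (stepRL d F p.2 n p.1, stepRC d E (stepRL d F p.2 n p.1) n p.2)
    if q = p then p else closeUp n d E F k q

/-- the closure check for the edge number `e = i * d + c` -/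
def sepCheck (n d E F i c : ℕ) : Bool :=
  let E' := E ^^^ (2 ^ (i * d + c))
  let F' := if F.testBit (i * d + c) then F ^^^ (2 ^ (i * d + c)) else F
  let p := closeUp n d E' F' (n + d) (0, 2 ^ c)
  p.2.testBit c && !(p.1.testBit i) &&
    (List.range n).all (fun i' =>
      if p.1.testBit i' then row d E' i' ||| p.2 == p.2 else row d F' i' &&& p.2 == 0)

/-- the check for an ordered pair of codes -/
def pairCheck (n d E F : ℕ) : Bool :=
  (List.range n).all (fun i => (List.range d).all (fun c =>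
    !(E.testBit (i * d + c)) || (F.testBit (i * d + c) && !(E == F)) || sepCheck n d E F i c))

/-- the sets described by a code -/
def codeT (n d E : ℕ) (i : Fin n) : Finset (Fin d) :=
  Finset.univ.filter (fun c => E.testBit (i.1 * d + c.1))

theorem mem_codeT (n d E : ℕ) (i : Fin n) (c : Fin d) :
    c ∈ codeT n d E i ↔ E.testBit (i.1 * d + c.1) = true := by
  simp [codeT]

theorem row_testBit (d E i : ℕ) (c : ℕ) (hc : c < d) :
    (row d E i).testBit c = E.testBit (i * d + c) := by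
  unfold row
  rw [Nat.testBit_mod_two_pow, Nat.testBit_shiftRight]
  simp [hc]

theorem idx_inj {n d : ℕ} (i i' : Fin n) (c c' : Fin d) :
    i.1 * d + c.1 = i'.1 * d + c'.1 ↔ i = i' ∧ c = c' := by
  constructor
  · intro h
    have hd : 0 < d := lt_of_le_of_lt (Nat.zero_le _) c.2
    have h1 : (i.1 * d + c.1) / d = i.1 := by
      rw [mul_comm, Nat.mul_add_div hd, Nat.div_eq_of_lt c.2, add_zero]
    have h2 : (i'.1 * d + c'.1) / d = i'.1 := by
      rw [mul_comm, Nat.mul_add_div hd, Nat.div_eq_of_lt c'.2, add_zero]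
    have h3 : i.1 = i'.1 := by rw [← h1, h, h2]
    have h4 : c.1 = c'.1 := by
      rw [h3] at h
      omega
    exact ⟨Fin.ext h3, Fin.ext h4⟩
  · rintro ⟨rfl, rfl⟩
    rfl

theorem sep_of_check {n d E F : ℕ} (i : Fin n) (c : Fin d) (hE : E.testBit (i.1 * d + c.1) = true)
    (h : sepCheck n d E F i.1 c.1 = true) : Sep (codeT n d E) (codeT n d F) i c := by
  unfold sepCheck at h
  simp only [Bool.and_eq_true, Bool.not_eq_true', List.all_eq_true, List.mem_range,
    Bool.or_eq_true] at h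
  obtain ⟨⟨h1, h2⟩, h3⟩ := h
  refine ⟨Finset.univ.filter (fun i' : Fin n => (closeUp n d (E ^^^ (2 ^ (i.1 * d + c.1)))
    (if F.testBit (i.1 * d + c.1) then F ^^^ (2 ^ (i.1 * d + c.1)) else F) (n + d)
    (0, 2 ^ c.1)).1.testBit i'.1), Finset.univ.filter (fun c' : Fin d =>
    (closeUp n d (E ^^^ (2 ^ (i.1 * d + c.1)))
    (if F.testBit (i.1 * d + c.1) then F ^^^ (2 ^ (i.1 * d + c.1)) else F) (n + d)
    (0, 2 ^ c.1)).2.testBit c'.1), ?_, ?_, ?_, ?_⟩
  · simp [h1]
  · simp [h2]
  · intro i' c' hm hne hi'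
    rw [mem_codeT] at hm
    simp only [Finset.mem_filter, Finset.mem_univ, true_and] at hi' ⊢
    have hE' : (E ^^^ (2 ^ (i.1 * d + c.1))).testBit (i'.1 * d + c'.1) = true := by
      rw [Nat.testBit_xor, hm, Nat.testBit_two_pow_of_ne]
      · rfl
      · intro h
        exact hne ((idx_inj i' i c' c).1 h.symm)
    have h4 := h3 i'.1 i'.2
    rw [if_pos hi', beq_iff_eq] at h4
    rw [← h4, Nat.testBit_or, row_testBit _ _ _ _ c'.2, hE', Bool.true_or]
  · intro i' c' hm hne hc'
    rw [mem_codeT] at hm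
    simp only [Finset.mem_filter, Finset.mem_univ, true_and] at hc' ⊢
    have hF' : (if F.testBit (i.1 * d + c.1) then F ^^^ (2 ^ (i.1 * d + c.1)) else F).testBit
        (i'.1 * d + c'.1) = true := by
      split_ifs
      · rw [Nat.testBit_xor, hm, Nat.testBit_two_pow_of_ne]
        · rfl
        · intro h
          exact hne ((idx_inj i' i c' c).1 h.symm)
      · exact hm
    have h4 := h3 i'.1 i'.2
    by_contra hne'
    rw [if_neg hne', beq_iff_eq] at h4
    have h5 := congrArg (fun x => x.testBit c'.1) h4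
    simp only [Nat.testBit_and, row_testBit _ _ _ _ c'.2, hF', hc', Nat.zero_testBit] at h5
    exact absurd h5 (by simp)

/-- code of a position: base `16` -/
def vcode {d : ℕ} (v : Fin d → ℕ) : ℕ := ∑ c, v c * 16 ^ c.1

/-- the family given by a table (code of the position, code of the tree) -/
def tabT (n d : ℕ) (tab : List (ℕ × ℕ)) (v : Fin d → ℕ) : Fin n → Finset (Fin d) :=
  codeT n d ((tab.lookup (vcode v)).getD 0)

/-- all the pairs of trees of the table -/
def tabCheck (n d : ℕ) (tab : List (ℕ × ℕ)) : Bool :=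
  tab.all (fun p => tab.all (fun q => pairCheck n d p.2 q.2))

theorem mem_of_lookup {a : ℕ} : ∀ (l : List (ℕ × ℕ)) (b : ℕ), l.lookup a = some b →
    (a, b) ∈ l := by
  intro l
  induction l with
  | nil =>
    intro b h
    simp at h
  | cons x l ih =>
    intro b h
    obtain ⟨x1, x2⟩ := x
    rw [List.lookup_cons] at h
    by_cases hx : a = x1
    · subst hx
      simp at h
      rw [h]
      exact List.mem_cons_self
    · have : (a == x1) = false := by simpa using hx
      rw [this] at h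
      exact List.mem_cons_of_mem _ (ih b h)

theorem treeFam_of_table (n d : ℕ) (tab : List (ℕ × ℕ))
    (hdeg : ∀ v ∈ Finset.Nat.antidiagonalTuple d (n - 1),
      (tab.lookup (vcode v)).isSome = true ∧
      ∀ c, (Finset.univ.filter (fun i => c ∈ tabT n d tab v i)).card = v c + 1)
    (hchk : tabCheck n d tab = true) : TreeFam n d (tabT n d tab) := by
  have hmem : ∀ v : Fin d → ℕ, ∑ c, v c = n - 1 →
      v ∈ Finset.Nat.antidiagonalTuple d (n - 1) := by
    intro v hv
    rw [Finset.Nat.mem_antidiagonalTuple]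
    exact hv
  refine treeFam_of_sep _ (fun v hv c => (hdeg v (hmem v hv)).2 c) ?_
  intro v w hv hw i c hc hcw
  obtain ⟨E, hE⟩ := Option.isSome_iff_exists.1 (hdeg v (hmem v hv)).1
  obtain ⟨F, hF⟩ := Option.isSome_iff_exists.1 (hdeg w (hmem w hw)).1
  unfold tabCheck at hchk
  rw [List.all_eq_true] at hchk
  have h1 := hchk _ (mem_of_lookup _ _ hE)
  rw [List.all_eq_true] at h1
  have h2 := h1 _ (mem_of_lookup _ _ hF)
  have eE : tabT n d tab v = codeT n d E := by
    unfold tabT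
    rw [hE]
    rfl
  have eF : tabT n d tab w = codeT n d F := by
    unfold tabT
    rw [hF]
    rfl
  rw [eF] at hcw
  rw [eE] at hc
  rw [eE, eF]
  have hbit := (mem_codeT n d E i c).1 hc
  unfold pairCheck at h2
  simp only [List.all_eq_true, List.mem_range, Bool.or_eq_true, Bool.not_eq_true',
    Bool.and_eq_true] at h2
  rcases h2 i.1 i.2 c.1 c.2 with (h3 | h3) | h3
  · rw [hbit] at h3
    exact absurd h3 (by simp)
  · exfalso
    have h4 := hcw ((mem_codeT n d F i c).2 h3.1)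
    have h5 : E = F := by
      rw [h4, hF] at hE
      exact (Option.some.inj hE).symm
    rw [h5] at h3
    simp at h3
  · exact sep_of_check i c hbit h3

end Pool.Agent.Helper28.SO
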