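import Pool.Agent.Helper28.SP.Trees

set_option autoImplicit false

/-! The covering property of a compatible family of trees. -/

namespace Pool.Agent.Helper28.SO

theorem covering {n d : ℕ} (hn : 1 ≤ n) (hd : 1 ≤ d)
    (T : (Fin d → ℕ) → Fin n → Finset (Fin d)) (hT : TreeFam n d T) (x₀ : Fin d → ℝ)
    (h0 : ∀ c, 0 ≤ x₀ c) (hs : ∑ c, x₀ c = n) : Cov T (fun _ => 1) x₀ := by
  by_contra hcon
  obtain ⟨ε, hε, hnb⟩ := exists_nbhd T _ _ hcon
  obtain ⟨L, hL⟩ := exists_nat_gt (1 / ε)
  have hL0 : (0 : ℝ) < L := lt_trans (one_div_pos.2 hε) hL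
  have hL1 : 1 ≤ L := by
    have : (0 : ℕ) < L := by exact_mod_cast hL0
    omega
  have hLε : 1 < ε * L := by
    rw [div_lt_iff₀ hε] at hL
    linarith
  obtain ⟨a, rfl⟩ := Nat.exists_eq_add_of_le' hn
  obtain ⟨b, rfl⟩ := Nat.exists_eq_add_of_le' hd
  apply asym_false (a + b) (L * (a + 1) + 1) (L * (b + 2) * (a + 1) - (a + b : ℕ))
    (L * (b + 2) * (a + 1) + (a + b : ℕ))
  intro s hs1
  let M : ℕ := L * (s + b + 2)
  let N : ℕ := M * (a + 1) + s
  have hMdef : M = L * (s + b + 2) := rfl
  have hNdef : N = M * (a + 1) + s := rfl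
  have hM1 : s + b + 2 ≤ M := by
    rw [hMdef]
    nlinarith
  have hMpos : (0 : ℝ) < M := by
    have : 0 < M := by omega
    exact_mod_cast this
  have hN : a + b + 1 ≤ N := by
    rw [hNdef]
    nlinarith
  -- the base point
  let X : Fin (b + 1) → ℕ := fun c => ⌊(M : ℝ) * x₀ c⌋₊
  have hXle : ∀ c, (X c : ℝ) ≤ M * x₀ c := fun c =>
    Nat.floor_le (mul_nonneg hMpos.le (h0 c))
  have hXlt : ∀ c, (M : ℝ) * x₀ c < X c + 1 := fun c => Nat.lt_floor_add_one _
  have hXsum : ((∑ c, X c : ℕ) : ℝ) ≤ M * (a + 1) := by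
    push_cast
    calc ∑ c, (X c : ℝ) ≤ ∑ c, (M : ℝ) * x₀ c := Finset.sum_le_sum fun c _ => hXle c
      _ = M * ∑ c, x₀ c := by rw [Finset.mul_sum]
      _ = M * (a + 1) := by
        rw [hs]
        push_cast
        ring
  have hXsum' : ∑ c, X c ≤ M * (a + 1) := by exact_mod_cast hXsum
  have hXsum2 : (M : ℝ) * (a + 1) ≤ ((∑ c, X c : ℕ) : ℝ) + (b + 1) := by
    push_cast
    calc (M : ℝ) * (a + 1) = M * ∑ c, x₀ c := by
          rw [hs]
          push_cast
          ring
      _ = ∑ c, (M : ℝ) * x₀ c := by rw [Finset.mul_sum]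
      _ ≤ ∑ c, ((X c : ℝ) + 1) := Finset.sum_le_sum fun c _ => (hXlt c).le
      _ = _ := by
        rw [Finset.sum_add_distrib]
        simp
  have hXsum2' : M * (a + 1) ≤ ∑ c, X c + (b + 1) := by exact_mod_cast hXsum2
  let t : ℕ := M * (a + 1) - ∑ c, X c
  have htdef : t = M * (a + 1) - ∑ c, X c := rfl
  have ht : t ≤ b + 1 := by omega
  have hXt : ∑ c, X c + t = M * (a + 1) := by omega
  have key := count_ineq hn hd T hT N s (s + t) (by omega) (fun _ => M) X
    (by simp only [Finset.sum_const, Finset.card_univ, Fintype.card_fin, smul_eq_mul]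
        rw [hNdef]
        ring)
    (by omega) (by
      intro y x hy hx hc
      have hsc := hc.scale (r := 1 / (M : ℝ)) (by positivity)
      refine hnb _ _ ?_ ?_ hsc
      · intro i
        have h1 : y i ≤ s := by
          rw [← hy]
          exact Finset.single_le_sum (fun i _ => Nat.zero_le _) (Finset.mem_univ i)
        have h2 : (y i : ℝ) ≤ s := by exact_mod_cast h1
        have h3 : 1 / (M : ℝ) * ((M + y i : ℕ) : ℝ) - 1 = y i / M := by
          push_cast
          field_simp
          ring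
        rw [h3, abs_of_nonneg (by positivity), div_lt_iff₀ hMpos]
        have h4 : (M : ℝ) = L * (s + b + 2) := by
          rw [hMdef]
          push_cast
          ring
        rw [h4]
        have h5 : (0 : ℝ) < s + b + 2 := by positivity
        have h6 : (0 : ℝ) ≤ b := Nat.cast_nonneg b
        nlinarith
      · intro c
        have h1 : x c ≤ s + t := by
          rw [← hx]
          exact Finset.single_le_sum (fun i _ => Nat.zero_le _) (Finset.mem_univ c)
        have h2 : (x c : ℝ) ≤ s + b + 1 := by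
          have : x c ≤ s + b + 1 := by omega
          exact_mod_cast this
        have h3 : 1 / (M : ℝ) * ((X c + x c : ℕ) : ℝ) - x₀ c = (X c + x c - M * x₀ c) / M := by
          push_cast
          field_simp
        have h4 : (M : ℝ) = L * (s + b + 2) := by
          rw [hMdef]
          push_cast
          ring
        have h5 : (0 : ℝ) < s + b + 2 := by positivity
        have h6 : (0 : ℝ) ≤ b := Nat.cast_nonneg b
        have h7 : (0 : ℝ) ≤ s := Nat.cast_nonneg s
        have h8 := hXle c
        have h9 := hXlt c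
        have h10 : (0 : ℝ) ≤ x c := Nat.cast_nonneg _
        rw [h3, abs_div, abs_of_pos hMpos, div_lt_iff₀ hMpos]
        have h11 : |(X c : ℝ) + x c - M * x₀ c| ≤ s + b + 1 := by
          rw [abs_le]
          constructor <;> linarith
        refine lt_of_le_of_lt h11 ?_
        rw [h4]
        nlinarith)
  have key2 := num_ineq a b N s (s + t) hN (by omega) (by
    have e1 : a + 1 - 1 = a := by omega
    have e2 : a + 1 + (b + 1) - 1 = a + b + 1 := by omega
    rw [e1, e2] at key
    exact key)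
  have hNr : (N : ℝ) = (L * (a + 1) + 1) * s + L * (b + 2) * (a + 1) := by
    rw [hNdef, hMdef]
    push_cast
    ring
  rw [hNr] at key2
  have e3 : ((L : ℝ) * (a + 1) + 1) * s + (L * (b + 2) * (a + 1) - (a + b : ℕ)) =
      (L * (a + 1) + 1) * s + L * (b + 2) * (a + 1) - (a + b : ℕ) := by ring
  have e4 : ((L : ℝ) * (a + 1) + 1) * s + (L * (b + 2) * (a + 1) + (a + b : ℕ)) =
      (L * (a + 1) + 1) * s + L * (b + 2) * (a + 1) + (a + b : ℕ) := by ring
  rw [e3, e4]
  exact key2

end Pool.Agent.Helper28.SO
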