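import Pool.Agent.Helper32.SO.MemCell
import Pool.Agent.Helper1.SO.VSpan

set_option autoImplicit false

/-! A criterion for fine mixed subdivisions: coordinate maps `φ`. -/

namespace Pool.Agent.Helper28.SO

/-- A subfamily `F` of a cell `B` of full dimension is exposed by a linear form. -/
theorem exists_form {n d : ℕ} (B F : Fin n → Finset (Fin d)) (hF : ∀ i, (F i).Nonempty)
    (hFB : ∀ i, F i ⊆ B i) (hsum : ∑ i, ((B i).card - 1) = d - 1)
    (hrk : Module.finrank ℝ (vectorSpan ℝ (cell B)) = d - 1) :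
    ∃ l : Fin d → ℝ, F = fun i => (B i).filter (fun k => ∀ k' ∈ B i, l k ≤ l k') := by
  classical
  choose c hc using hF
  have hcB : ∀ i, c i ∈ B i := fun i => hFB i (hc i)
  let ι := Σ i : Fin n, {k : Fin d // k ∈ (B i).erase (c i)}
  let b : ι → (Fin d → ℝ) := fun p => Pi.single p.2.1 1 - Pi.single (c p.1) 1
  have hcard : Fintype.card ι = d - 1 := by
    have h1 : Fintype.card ι = ∑ i, ((B i).card - 1) := by
      rw [Fintype.card_sigma]
      refine Finset.sum_congr rfl fun i _ => ?_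
      rw [Fintype.card_coe, Finset.card_erase_of_mem (hcB i)]
    rw [h1, hsum]
  have hspan : Submodule.span ℝ (Set.range b) = vectorSpan ℝ (cell B) := by
    rw [vectorSpan_cell B (fun i => ⟨c i, hcB i⟩)]
    apply le_antisymm
    · rw [Submodule.span_le]
      rintro z ⟨p, rfl⟩
      refine Submodule.subset_span ⟨p.1, p.2.1, Finset.mem_of_mem_erase p.2.2, c p.1, hcB p.1, rfl⟩
    · rw [Submodule.span_le]
      rintro z ⟨i, k, hk, k', hk', rfl⟩
      have hm : ∀ k ∈ B i, (Pi.single k (1 : ℝ) - Pi.single (c i) 1 : Fin d → ℝ) ∈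
          Submodule.span ℝ (Set.range b) := by
        intro k hk
        by_cases h : k = c i
        · rw [h, sub_self]
          exact Submodule.zero_mem _
        · exact Submodule.subset_span ⟨⟨i, k, Finset.mem_erase.2 ⟨h, hk⟩⟩, rfl⟩
      have h := Submodule.sub_mem _ (hm k hk) (hm k' hk')
      rwa [sub_sub_sub_cancel_right] at h
  have hli : LinearIndependent ℝ b := by
    rw [linearIndependent_iff_card_eq_finrank_span, hcard]
    unfold Set.finrank
    rw [hspan, hrk]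
  let bs := Module.Basis.span hli
  let f : Submodule.span ℝ (Set.range b) →ₗ[ℝ] ℝ :=
    bs.constr ℝ (fun p : ι => if p.2.1 ∈ F p.1 then (0 : ℝ) else 1)
  obtain ⟨g, hg⟩ := LinearMap.exists_extend f
  have hgb : ∀ p : ι, g (b p) = if p.2.1 ∈ F p.1 then (0 : ℝ) else 1 := by
    intro p
    have h1 : bs p = ⟨b p, Submodule.subset_span ⟨p, rfl⟩⟩ := Module.Basis.span_apply hli p
    have h2 : f (bs p) = if p.2.1 ∈ F p.1 then (0 : ℝ) else 1 := bs.constr_basis ℝ _ p
    have h3 := congrArg (fun t => t (bs p)) hg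
    simp only [LinearMap.coe_comp, Function.comp_apply, Submodule.coe_subtype] at h3
    rw [← h2, ← h3, h1]
  refine ⟨fun k => g (Pi.single k 1), ?_⟩
  have hval : ∀ i, ∀ k ∈ B i, g (Pi.single k 1) =
      g (Pi.single (c i) 1) + if k ∈ F i then 0 else 1 := by
    intro i k hk
    by_cases h : k = c i
    · rw [h, if_pos (hc i), add_zero]
    · have h1 := hgb ⟨i, k, Finset.mem_erase.2 ⟨h, hk⟩⟩
      have h2 : g (Pi.single k 1) - g (Pi.single (c i) 1) = if k ∈ F i then (0 : ℝ) else 1 := by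
        rw [← map_sub]
        exact h1
      linarith
  funext i
  ext k
  rw [Finset.mem_filter]
  constructor
  · intro hk
    refine ⟨hFB i hk, fun k' hk' => ?_⟩
    show g (Pi.single k 1) ≤ g (Pi.single k' 1)
    rw [hval i k (hFB i hk), hval i k' hk', if_pos hk]
    split_ifs
    · exact le_refl _
    · linarith
  · rintro ⟨hk, h⟩
    have h1 : g (Pi.single k 1) ≤ g (Pi.single (c i) 1) := h (c i) (hcB i)
    rw [hval i k hk] at h1
    by_contra hn
    rw [if_neg hn] at h1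
    linarith

/-- The criterion. -/
theorem isFineMixed_of_maps {n d : ℕ} (S : Finset (Fin n → Finset (Fin d)))
    (hS : ∀ B ∈ S, (∀ i, (B i).Nonempty) ∧ ∑ i, ((B i).card - 1) = d - 1 ∧
      Module.finrank ℝ (vectorSpan ℝ (cell B)) = d - 1)
    (hcov : ∀ x : Fin d → ℝ, (∀ k, 0 ≤ x k) → ∑ k, x k = (n : ℝ) → ∃ B ∈ S, x ∈ cell B)
    (φ : (Fin d → ℝ) → Fin n → Fin d → ℝ)
    (hφ : ∀ B ∈ S, ∀ x ∈ cell B, (∀ i c, 0 ≤ φ x i c) ∧ (∀ i, ∑ c, φ x i c = 1) ∧
      (∀ c, x c = ∑ i, φ x i c) ∧ ∀ i c, c ∉ B i → φ x i c = 0) :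
    IsFineMixed n d S := by
  classical
  refine ⟨hS, hcov, ?_⟩
  intro B hB C hC
  by_cases hne : cell B ∩ cell C = ∅
  · exact Or.inl hne
  right
  obtain ⟨x₀, hx₀B, hx₀C⟩ := Set.nonempty_iff_ne_empty.2 hne
  have hFne : ∀ i, (B i ∩ C i).Nonempty := by
    intro i
    obtain ⟨h0, h1, _, h3⟩ := hφ B hB x₀ hx₀B
    obtain ⟨_, _, _, h3'⟩ := hφ C hC x₀ hx₀C
    by_contra h
    rw [Finset.not_nonempty_iff_eq_empty] at h
    have h5 : ∑ c, φ x₀ i c = 0 := by
      apply Finset.sum_eq_zero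
      intro c _
      by_cases hcB : c ∈ B i
      · apply h3'
        intro hcC
        have : c ∈ B i ∩ C i := Finset.mem_inter.2 ⟨hcB, hcC⟩
        rw [h] at this
        exact absurd this (Finset.notMem_empty c)
      · exact h3 i c hcB
    rw [h1 i] at h5
    exact one_ne_zero h5
  obtain ⟨l, hl⟩ := exists_form B (fun i => B i ∩ C i) hFne (fun i => Finset.inter_subset_left)
    (hS B hB).2.1 (hS B hB).2.2
  obtain ⟨m, hm⟩ := exists_form C (fun i => B i ∩ C i) hFne (fun i => Finset.inter_subset_right)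
    (hS C hC).2.1 (hS C hC).2.2
  refine ⟨l, m, ?_⟩
  intro F hF
  have hF' : F = fun i => B i ∩ C i := hF.trans hl.symm
  refine ⟨hF'.trans hm, ?_⟩
  rw [hF']
  apply Set.Subset.antisymm
  · rintro x ⟨hxB, hxC⟩
    obtain ⟨h0, h1, h2, h3⟩ := hφ B hB x hxB
    obtain ⟨_, _, _, h3'⟩ := hφ C hC x hxC
    rw [mem_cell_iff]
    refine ⟨φ x, h0, h1, ?_, h2⟩
    intro i c hc
    by_cases hcB : c ∈ B i
    · apply h3'
      intro hcC
      exact hc (Finset.mem_inter.2 ⟨hcB, hcC⟩)
    · exact h3 i c hcB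
  · intro x hx
    rw [mem_cell_iff] at hx
    obtain ⟨lam, h0, h1, h2, h3⟩ := hx
    constructor
    · rw [mem_cell_iff]
      exact ⟨lam, h0, h1, fun i c hc => h2 i c fun h => hc (Finset.mem_inter.1 h).1, h3⟩
    · rw [mem_cell_iff]
      exact ⟨lam, h0, h1, fun i c hc => h2 i c fun h => hc (Finset.mem_inter.1 h).2, h3⟩

end Pool.Agent.Helper28.SO
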