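import Pool.Agent.Helper28.SP.TreeMain

set_option autoImplicit false

/-! Doubling of a colour in a compatible family of trees. -/

namespace Pool.Agent.Helper28.SO

/-- The merged vector: the coordinate `z` is added to the coordinate `s`. -/
def mergeV {d : ℕ} (z : Fin (d + 1)) (s : Fin d) (v : Fin (d + 1) → ℕ) : Fin d → ℕ :=
  fun c => v (z.succAbove c) + if c = s then v z else 0

theorem sum_mergeV {d : ℕ} (z : Fin (d + 1)) (s : Fin d) (v : Fin (d + 1) → ℕ) :
    ∑ c, mergeV z s v c = ∑ c, v c := by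
  rw [Fin.sum_univ_succAbove v z]
  unfold mergeV
  rw [Finset.sum_add_distrib]
  simp [add_comm]

/-- The rank of `i` in `I` for the order given by `σ`. -/
noncomputable def rk {n : ℕ} (σ : Fin n → ℝ) (I : Finset (Fin n)) (i : Fin n) : ℕ := by
  classical
  exact (I.filter (fun j => σ j < σ i)).card

theorem rk_eq {n : ℕ} (σ : Fin n → ℝ) (I : Finset (Fin n)) (i : Fin n)
    [DecidablePred fun j => σ j < σ i] : rk σ I i = (I.filter (fun j => σ j < σ i)).card := by
  unfold rk
  congr

theorem rk_lt {n : ℕ} (σ : Fin n → ℝ) (I : Finset (Fin n)) (i : Fin n) (hi : i ∈ I) :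
    rk σ I i < I.card := by
  classical
  rw [rk_eq]
  apply Finset.card_lt_card
  rw [Finset.ssubset_iff_of_subset (Finset.filter_subset _ _)]
  exact ⟨i, hi, fun h => lt_irrefl _ (Finset.mem_filter.1 h).2⟩

theorem rk_mono {n : ℕ} (σ : Fin n → ℝ) (I : Finset (Fin n)) (i j : Fin n) (hi : i ∈ I)
    (h : σ i < σ j) : rk σ I i < rk σ I j := by
  classical
  rw [rk_eq, rk_eq]
  apply Finset.card_lt_card
  rw [Finset.ssubset_iff_of_subset]
  · exact ⟨i, Finset.mem_filter.2 ⟨hi, h⟩, fun h => lt_irrefl _ (Finset.mem_filter.1 h).2⟩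
  · intro k hk
    rw [Finset.mem_filter] at hk ⊢
    exact ⟨hk.1, hk.2.trans h⟩

theorem rk_injOn {n : ℕ} (σ : Fin n → ℝ) (hσ : Function.Injective σ) (I : Finset (Fin n)) :
    Set.InjOn (rk σ I) I := by
  intro i hi j hj h
  rcases lt_trichotomy (σ i) (σ j) with h1 | h1 | h1
  · exact absurd h (rk_mono σ I i j hi h1).ne
  · exact hσ h1
  · exact absurd h (rk_mono σ I j i hj h1).ne'

theorem rk_image {n : ℕ} (σ : Fin n → ℝ) (hσ : Function.Injective σ) (I : Finset (Fin n)) :
    I.image (rk σ I) = Finset.range I.card := by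
  apply Finset.eq_of_subset_of_card_le
  · intro r hr
    obtain ⟨i, hi, rfl⟩ := Finset.mem_image.1 hr
    exact Finset.mem_range.2 (rk_lt σ I i hi)
  · rw [Finset.card_image_of_injOn (rk_injOn σ hσ I), Finset.card_range]

theorem card_filter_rk {n : ℕ} (σ : Fin n → ℝ) (hσ : Function.Injective σ) (I : Finset (Fin n))
    (P : ℕ → Prop) [DecidablePred P] :
    (I.filter (fun i => P (rk σ I i))).card = ((Finset.range I.card).filter P).card := by
  rw [← rk_image σ hσ I, Finset.filter_image, Finset.card_image_of_injOn]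
  intro i hi j hj h
  exact rk_injOn σ hσ I (Finset.mem_filter.1 hi).1 (Finset.mem_filter.1 hj).1 h

theorem exists_rk {n : ℕ} (σ : Fin n → ℝ) (hσ : Function.Injective σ) (I : Finset (Fin n))
    (k : ℕ) (hk : k < I.card) : ∃ i ∈ I, rk σ I i = k := by
  have h : k ∈ I.image (rk σ I) := by
    rw [rk_image σ hσ I]
    exact Finset.mem_range.2 hk
  exact Finset.mem_image.1 h

theorem cut_aux_lt {n : ℕ} (σ : Fin n → ℝ) (a a' s : Fin n → ℝ)
    (θ θ' : ℝ) (h : θ < θ') (ha0 : ∀ i, 0 ≤ a' i) (has : ∀ i, a i ≤ s i)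
    (h2 : ∀ i, θ < σ i → a i = 0) (h1' : ∀ i, σ i < θ' → a' i = s i)
    (hsum : ∑ i, a i = ∑ i, a' i) : a = a' := by
  have hle : ∀ i ∈ Finset.univ, a i ≤ a' i := by
    intro i _
    rcases lt_or_ge (σ i) θ' with h3 | h3
    · rw [h1' i h3]
      exact has i
    · rw [h2 i (lt_of_lt_of_le h h3)]
      exact ha0 i
  have := (Finset.sum_eq_sum_iff_of_le hle).1 hsum
  funext i
  exact this i (Finset.mem_univ i)

theorem cut_aux {n : ℕ} (σ : Fin n → ℝ) (hσ : Function.Injective σ) (a a' s : Fin n → ℝ)
    (θ θ' : ℝ) (ha0 : ∀ i, 0 ≤ a i) (ha0' : ∀ i, 0 ≤ a' i) (has : ∀ i, a i ≤ s i)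
    (has' : ∀ i, a' i ≤ s i) (h1 : ∀ i, σ i < θ → a i = s i) (h2 : ∀ i, θ < σ i → a i = 0)
    (h1' : ∀ i, σ i < θ' → a' i = s i) (h2' : ∀ i, θ' < σ i → a' i = 0)
    (hsum : ∑ i, a i = ∑ i, a' i) : a = a' := by
  rcases lt_trichotomy θ θ' with h | h | h
  · exact cut_aux_lt σ a a' s θ θ' h ha0' has h2 h1' hsum
  · subst h
    have hne : ∀ i, σ i ≠ θ → a i = a' i := by
      intro i hi
      rcases lt_or_gt_of_ne hi with h3 | h3
      · rw [h1 i h3, h1' i h3]
      · rw [h2 i h3, h2' i h3]
    funext i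
    by_cases hi : σ i = θ
    · rw [← Finset.add_sum_erase _ _ (Finset.mem_univ i),
        ← Finset.add_sum_erase _ a' (Finset.mem_univ i)] at hsum
      have : ∑ j ∈ Finset.univ.erase i, a j = ∑ j ∈ Finset.univ.erase i, a' j := by
        refine Finset.sum_congr rfl fun j hj => hne j ?_
        intro hj'
        exact Finset.ne_of_mem_erase hj (hσ (hj'.trans hi.symm))
      linarith
    · exact hne i hi
  · exact (cut_aux_lt σ a' a s θ' θ h ha0 has' h2' h1 hsum.symm).symm

/-- The labels whose set contains `s`. -/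
def Iset {n d : ℕ} (T' : (Fin d → ℕ) → Fin n → Finset (Fin d)) (s : Fin d) (v : Fin d → ℕ) :
    Finset (Fin n) := Finset.univ.filter (fun j => s ∈ T' v j)

/-- The lifted family. -/
noncomputable def liftT {n d : ℕ} (T' : (Fin d → ℕ) → Fin n → Finset (Fin d)) (z : Fin (d + 1))
    (s : Fin d) (σ : Fin n → ℝ) (v : Fin (d + 1) → ℕ) (i : Fin n) : Finset (Fin (d + 1)) := by
  classical
  exact Finset.univ.filter (fun c =>
    (∃ c', z.succAbove c' = c ∧ c' ∈ T' (mergeV z s v) i ∧
      (c' = s → rk σ (Iset T' s (mergeV z s v)) i ≤ v (z.succAbove s))) ∨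
    (c = z ∧ s ∈ T' (mergeV z s v) i ∧ v (z.succAbove s) ≤ rk σ (Iset T' s (mergeV z s v)) i))

theorem mem_liftT_succ {n d : ℕ} (T' : (Fin d → ℕ) → Fin n → Finset (Fin d)) (z : Fin (d + 1))
    (s : Fin d) (σ : Fin n → ℝ) (v : Fin (d + 1) → ℕ) (i : Fin n) (c : Fin d) :
    z.succAbove c ∈ liftT T' z s σ v i ↔ c ∈ T' (mergeV z s v) i ∧
      (c = s → rk σ (Iset T' s (mergeV z s v)) i ≤ v (z.succAbove s)) := by
  unfold liftT
  rw [Finset.mem_filter]
  constructor
  · rintro ⟨-, ⟨c', h1, h2, h3⟩ | ⟨h1, -⟩⟩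
    · have := Fin.succAbove_right_injective h1
      subst this
      exact ⟨h2, h3⟩
    · exact absurd h1 (Fin.succAbove_ne z c)
  · rintro ⟨h1, h2⟩
    exact ⟨Finset.mem_univ _, Or.inl ⟨c, rfl, h1, h2⟩⟩

theorem mem_liftT_z {n d : ℕ} (T' : (Fin d → ℕ) → Fin n → Finset (Fin d)) (z : Fin (d + 1))
    (s : Fin d) (σ : Fin n → ℝ) (v : Fin (d + 1) → ℕ) (i : Fin n) :
    z ∈ liftT T' z s σ v i ↔ s ∈ T' (mergeV z s v) i ∧
      v (z.succAbove s) ≤ rk σ (Iset T' s (mergeV z s v)) i := by
  unfold liftT
  rw [Finset.mem_filter]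
  constructor
  · rintro ⟨-, ⟨c', h1, h2, h3⟩ | ⟨-, h1⟩⟩
    · exact absurd h1 (Fin.succAbove_ne z c')
    · exact h1
  · intro h
    exact ⟨Finset.mem_univ _, Or.inr ⟨rfl, h⟩⟩

theorem TreeFam.card_Iset {n d : ℕ} {T' : (Fin d → ℕ) → Fin n → Finset (Fin d)}
    (hT : TreeFam n d T') (s : Fin d) (v : Fin d → ℕ) (hv : ∑ c, v c = n - 1) :
    (Iset T' s v).card = v s + 1 := hT.deg v hv s

theorem mergeV_s {d : ℕ} (z : Fin (d + 1)) (s : Fin d) (v : Fin (d + 1) → ℕ) :
    mergeV z s v s = v (z.succAbove s) + v z := by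
  unfold mergeV
  rw [if_pos rfl]

/-- a threshold for the lifted family -/
theorem TreeFam.lift_threshold {n d : ℕ} {T' : (Fin d → ℕ) → Fin n → Finset (Fin d)}
    (hT : TreeFam n d T') (z : Fin (d + 1)) (s : Fin d) (σ : Fin n → ℝ)
    (hσ : Function.Injective σ) (v : Fin (d + 1) → ℕ) (hv : ∑ c, v c = n - 1) :
    ∃ θ : ℝ, (∀ i, σ i < θ → z ∉ liftT T' z s σ v i) ∧
      ∀ i, θ < σ i → z.succAbove s ∉ liftT T' z s σ v i := by
  have hc := hT.card_Iset s (mergeV z s v) ((sum_mergeV z s v).trans hv)
  rw [mergeV_s] at hc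
  obtain ⟨i₀, hi₀, hr⟩ := exists_rk σ hσ (Iset T' s (mergeV z s v)) (v (z.succAbove s)) (by omega)
  refine ⟨σ i₀, ?_, ?_⟩
  · intro i hi h
    rw [mem_liftT_z] at h
    have h1 : i ∈ Iset T' s (mergeV z s v) := Finset.mem_filter.2 ⟨Finset.mem_univ _, h.1⟩
    have h2 := rk_mono σ _ i i₀ h1 hi
    omega
  · intro i hi h
    rw [mem_liftT_succ] at h
    have h2 := rk_mono σ _ i₀ i hi₀ hi
    have h3 := h.2 rfl
    omega

/-- **Doubling of a colour.** -/
theorem TreeFam.lift {n d : ℕ} {T' : (Fin d → ℕ) → Fin n → Finset (Fin d)}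
    (hT : TreeFam n d T') (z : Fin (d + 1)) (s : Fin d) (σ : Fin n → ℝ)
    (hσ : Function.Injective σ) : TreeFam n (d + 1) (liftT T' z s σ) := by
  classical
  constructor
  · intro v hv c
    have hv' : ∑ c, mergeV z s v c = n - 1 := (sum_mergeV z s v).trans hv
    have hI := hT.card_Iset s (mergeV z s v) hv'
    rw [mergeV_s] at hI
    rcases Fin.eq_self_or_eq_succAbove z c with rfl | ⟨c, rfl⟩
    · have h1 : Finset.univ.filter (fun i => c ∈ liftT T' c s σ v i) =
          (Iset T' s (mergeV c s v)).filter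
            (fun i => v (c.succAbove s) ≤ rk σ (Iset T' s (mergeV c s v)) i) := by
        ext i
        rw [Finset.mem_filter, mem_liftT_z, Finset.mem_filter, Iset, Finset.mem_filter, and_assoc]
      rw [h1, card_filter_rk σ hσ _ (fun k => v (c.succAbove s) ≤ k), hI]
      have h2 : (Finset.range (v (c.succAbove s) + v c + 1)).filter
          (fun k => v (c.succAbove s) ≤ k) =
          Finset.Ico (v (c.succAbove s)) (v (c.succAbove s) + v c + 1) := by
        ext k
        simp only [Finset.mem_filter, Finset.mem_range, Finset.mem_Ico]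
        omega
      rw [h2, Nat.card_Ico]
      omega
    · by_cases hc : c = s
      · subst hc
        have h1 : Finset.univ.filter (fun i => z.succAbove c ∈ liftT T' z c σ v i) =
            (Iset T' c (mergeV z c v)).filter
              (fun i => rk σ (Iset T' c (mergeV z c v)) i ≤ v (z.succAbove c)) := by
          ext i
          rw [Finset.mem_filter, mem_liftT_succ, Finset.mem_filter, Iset, Finset.mem_filter,
            and_assoc]
          simp
        rw [h1, card_filter_rk σ hσ _ (fun k => k ≤ v (z.succAbove c)), hI]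
        have h2 : (Finset.range (v (z.succAbove c) + v z + 1)).filter
            (fun k => k ≤ v (z.succAbove c)) = Finset.range (v (z.succAbove c) + 1) := by
          ext k
          simp only [Finset.mem_filter, Finset.mem_range]
          omega
        rw [h2, Finset.card_range]
      · have h1 : Finset.univ.filter (fun i => z.succAbove c ∈ liftT T' z s σ v i) =
            Finset.univ.filter (fun i => c ∈ T' (mergeV z s v) i) := by
          ext i
          rw [Finset.mem_filter, mem_liftT_succ, Finset.mem_filter]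
          simp [hc]
        rw [h1, hT.deg _ hv' c]
        unfold mergeV
        rw [if_neg hc]
  · intro v w hv hw g g' hg hg' hsg hsg' hrow hcol
    have hv' : ∑ c, mergeV z s v c = n - 1 := (sum_mergeV z s v).trans hv
    have hw' : ∑ c, mergeV z s w c = n - 1 := (sum_mergeV z s w).trans hw
    have hG : ∀ (g : Fin n → Fin (d + 1) → ℝ) (i : Fin n),
        ∑ c, (g i (z.succAbove c) + if c = s then g i z else 0) = ∑ c, g i c := by
      intro g i
      rw [Fin.sum_univ_succAbove (g i) z, Finset.sum_add_distrib]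
      simp [add_comm]
    have hG2 : ∀ (g : Fin n → Fin (d + 1) → ℝ) (c : Fin d),
        ∑ i, (g i (z.succAbove c) + if c = s then g i z else 0) =
          ∑ i, g i (z.succAbove c) + if c = s then ∑ i, g i z else 0 := by
      intro g c
      rw [Finset.sum_add_distrib]
      congr 1
      split_ifs
      · rfl
      · exact Finset.sum_const_zero
    have hsupp : ∀ (v : Fin (d + 1) → ℕ) (g : Fin n → Fin (d + 1) → ℝ),
        (∀ i c, c ∉ liftT T' z s σ v i → g i c = 0) → ∀ i c, c ∉ T' (mergeV z s v) i →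
          (g i (z.succAbove c) + if c = s then g i z else 0) = 0 := by
      intro v g hsg i c hc
      rw [hsg i (z.succAbove c) (fun h => hc ((mem_liftT_succ _ _ _ _ _ _ _).1 h).1), zero_add]
      split_ifs with h
      · subst h
        exact hsg i z (fun h => hc ((mem_liftT_z _ _ _ _ _ _).1 h).1)
      · rfl
    have key := hT.compat (mergeV z s v) (mergeV z s w) hv' hw'
      (fun i c => g i (z.succAbove c) + if c = s then g i z else 0)
      (fun i c => g' i (z.succAbove c) + if c = s then g' i z else 0)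
      (fun i c => by
        have := hg i (z.succAbove c)
        have := hg i z
        split_ifs <;> linarith)
      (fun i c => by
        have := hg' i (z.succAbove c)
        have := hg' i z
        split_ifs <;> linarith)
      (hsupp v g hsg) (hsupp w g' hsg')
      (fun i => by rw [hG, hG, hrow i])
      (fun c => by rw [hG2, hG2, hcol, hcol])
    have hk : ∀ i c, (g i (z.succAbove c) + if c = s then g i z else 0) =
        g' i (z.succAbove c) + if c = s then g' i z else 0 := fun i c =>
      congrFun (congrFun key i) c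
    obtain ⟨θ, h1, h2⟩ := hT.lift_threshold z s σ hσ v hv
    obtain ⟨θ', h1', h2'⟩ := hT.lift_threshold z s σ hσ w hw
    have hs : ∀ i, g i (z.succAbove s) + g i z = g' i (z.succAbove s) + g' i z := by
      intro i
      have := hk i s
      rw [if_pos rfl, if_pos rfl] at this
      exact this
    have hy : (fun i => g i (z.succAbove s)) = fun i => g' i (z.succAbove s) := by
      apply cut_aux σ hσ _ _ (fun i => g i (z.succAbove s) + g i z) θ θ'
      · exact fun i => hg i _
      · exact fun i => hg' i _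
      · intro i
        have := hg i z
        linarith
      · intro i
        have := hg' i z
        rw [hs i]
        linarith
      · intro i hi
        rw [hsg i z (h1 i hi), add_zero]
      · intro i hi
        exact hsg i _ (h2 i hi)
      · intro i hi
        rw [hs i, hsg' i z (h1' i hi), add_zero]
      · intro i hi
        exact hsg' i _ (h2' i hi)
      · exact hcol _
    funext i c
    rcases Fin.eq_self_or_eq_succAbove z c with rfl | ⟨c, rfl⟩
    · have e1 := congrFun hy i
      have e2 := hs i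
      linarith
    · by_cases hc : c = s
      · subst hc
        exact congrFun hy i
      · have := hk i c
        rw [if_neg hc, if_neg hc, add_zero, add_zero] at this
        exact this

/-- A hole of the lifted family. -/
theorem liftT_univ {n d : ℕ} (T' : (Fin d → ℕ) → Fin n → Finset (Fin d))
    (z : Fin (d + 1)) (s : Fin d) (σ : Fin n → ℝ) (v : Fin (d + 1) → ℕ) (i : Fin n)
    (hi : T' (mergeV z s v) i = Finset.univ)
    (hr : rk σ (Iset T' s (mergeV z s v)) i = v (z.succAbove s)) :
    liftT T' z s σ v i = Finset.univ := by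
  rw [Finset.eq_univ_iff_forall]
  intro c
  rcases Fin.eq_self_or_eq_succAbove z c with rfl | ⟨c, rfl⟩
  · rw [mem_liftT_z, hi]
    exact ⟨Finset.mem_univ _, hr.ge⟩
  · rw [mem_liftT_succ, hi]
    exact ⟨Finset.mem_univ _, fun _ => hr.le⟩

/-- One colour. -/
theorem treeFam_one (n : ℕ) (hn : 1 ≤ n) : TreeFam n 1 (fun _ _ => Finset.univ) := by
  constructor
  · intro v hv c
    have hc : c = 0 := Subsingleton.elim _ _
    subst hc
    rw [Fin.sum_univ_one] at hv
    simp
    omega
  · intro v w _ _ g g' _ _ _ _ hrow _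
    funext i c
    have hc : c = 0 := Subsingleton.elim _ _
    subst hc
    have := hrow i
    rw [Fin.sum_univ_one, Fin.sum_univ_one] at this
    exact this

end Pool.Agent.Helper28.SO
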