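import Pool.Agent.Helper28.SP.LocMain

set_option autoImplicit false

/-! The trees of a family with (CONT) and (HEX) form a complex; compatibility. -/

namespace Pool.Agent.Helper28.SO

open Finset

variable {n d : ℕ} {t : (Fin d → ℕ) → Fin n → Fin d}

theorem cut_sum (RL : Finset (Fin n)) (RC : Finset (Fin d)) (h : Fin n × Fin d → ℝ) :
    ∑ c ∈ RC, (mg n d h).1.2 c - ∑ i ∈ RL, (mg n d h).1.1 i =
      ∑ e : Fin n × Fin d, h e * ((if e.2 ∈ RC then 1 else 0) - (if e.1 ∈ RL then 1 else 0)) := by
  classical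
  have e1 : ∑ c ∈ RC, (mg n d h).1.2 c = ∑ e : Fin n × Fin d, h e * (if e.2 ∈ RC then 1 else 0) := by
    rw [Fintype.sum_prod_type_right]
    rw [← Finset.sum_subset (Finset.subset_univ RC)]
    · refine sum_congr rfl fun c hc => ?_
      rw [mg_snd]
      refine sum_congr rfl fun i _ => ?_
      simp [hc]
    · intro c _ hc
      refine sum_eq_zero fun i _ => ?_
      simp [hc]
  have e2 : ∑ i ∈ RL, (mg n d h).1.1 i = ∑ e : Fin n × Fin d, h e * (if e.1 ∈ RL then 1 else 0) := by
    rw [Fintype.sum_prod_type]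
    rw [← Finset.sum_subset (Finset.subset_univ RL)]
    · refine sum_congr rfl fun i hi => ?_
      rw [mg_fst]
      refine sum_congr rfl fun c _ => ?_
      simp [hi]
    · intro i _ hi
      refine sum_eq_zero fun c _ => ?_
      simp [hi]
  rw [e1, e2, ← sum_sub_distrib]
  refine sum_congr rfl fun e _ => ?_
  ring

/-- marginals of a tope -/
theorem Topes.mg_tope (ht : Topes n d t) (a : Fin d → ℕ) (ha : ∑ c, a c = n) :
    (∀ c, (mg n d fun e => if t a e.1 = e.2 then 1 else 0).1.2 c = a c) ∧
    ∀ i, (mg n d fun e => if t a e.1 = e.2 then 1 else 0).1.1 i = 1 := by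
  constructor
  · intro c'
    rw [mg_snd]
    dsimp only
    rw [Finset.sum_boole, ht.content a ha c']
  · intro i
    rw [mg_fst]
    simp

theorem Topes.exists_nbr (ht : Topes n d t) (hn : 1 ≤ n) (hd : 1 ≤ d) (b : Fin d → ℕ)
    (hb : ∑ c, b c + 1 = n) (k : Fin n) (c : Fin d) (he : (k, c) ∈ SS t b)
    (RL : Finset (Fin n)) (RC : Finset (Fin d)) (hc : c ∈ RC)
    (hF : ∀ e ∈ (SS t b).erase (k, c), (e.1 ∈ RL ↔ e.2 ∈ RC))
    (hRC : ∀ x, x ∈ RC ↔ t (b + Pi.single x 1) k = c) (hRL : RL.card = ∑ c' ∈ RC, b c')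
    (hne : RC ≠ univ) (hbc : 1 ≤ b c) :
    ∃ b' : Fin d → ℕ, ∑ c, b' c + 1 = n ∧ ∃ e' ∈ SS t b',
      (SS t b').erase e' = (SS t b).erase (k, c) ∧ e'.2 ∉ RC ∧ e'.1 ∈ RL := by
  classical
  obtain ⟨β, rfl⟩ : ∃ β : Fin d → ℕ, b = β + Pi.single c 1 := by
    refine ⟨fun x => b x - (if x = c then 1 else 0), ?_⟩
    funext x
    rw [Pi.add_apply, Pi.single_apply]
    split_ifs with h
    · subst h
      omega
    · omega
  have hβ : ∑ x, β x + 2 = n := by
    rw [sum_add_single] at hb
    omega
  obtain ⟨j, hj, hmin⟩ := ht.exists_min β hβ c {j | j ∉ RC} (by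
    by_contra h
    rw [Set.not_nonempty_iff_eq_empty] at h
    apply hne
    rw [eq_univ_iff_forall]
    intro x
    by_contra hx
    have : x ∈ ({j | j ∉ RC} : Set (Fin d)) := hx
    rw [h] at this
    exact this) (fun h => h hc) (by
    intro i j hic hij hj hs hi
    have hjc : j ≠ c := by
      rintro rfl
      exact hj hc
    have h1 : ¬ Spl t β c i j := fun h1 => ht.hex' β hβ c i j hic.symm hjc.symm hij h1 hs
    unfold Spl at h1
    push Not at h1
    have h2 := h1 k
    have h3 := (hRC i).1 hi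
    have h4 : ¬ t (β + Pi.single c 1 + Pi.single j 1) k = c := fun h => hj ((hRC j).2 h)
    tauto)
  have hjc : j ≠ c := by
    rintro rfl
    exact hj hc
  have hb' : ∑ x, (β + Pi.single j 1 : Fin d → ℕ) x + 1 = n := by
    rw [sum_add_single]
    omega
  have hcomm : ∀ x y : Fin d, β + Pi.single x 1 + Pi.single y 1 =
      β + Pi.single y 1 + Pi.single x 1 := fun x y => by
    rw [add_assoc, add_comm (Pi.single x 1 : Fin d → ℕ), ← add_assoc]
  -- column `c`
  have hcol : ∀ i, t (β + Pi.single c 1 + Pi.single c 1) i = c → i ≠ k →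
      t (β + Pi.single j 1 + Pi.single c 1) i = c := by
    have h1 : (univ.filter fun i => t (β + Pi.single c 1 + Pi.single j 1) i = c) ⊆
        (univ.filter fun i => t (β + Pi.single c 1 + Pi.single c 1) i = c).erase k := by
      intro i hi
      have hi' := (mem_filter.1 hi).2
      refine mem_erase.2 ⟨?_, mem_filter.2 ⟨mem_univ _, ht.cont _ hb c j i hi'⟩⟩
      rintro rfl
      exact hj ((hRC j).2 hi')
    have h2 : (univ.filter fun i => t (β + Pi.single c 1 + Pi.single c 1) i = c).erase k =
        (univ.filter fun i => t (β + Pi.single c 1 + Pi.single j 1) i = c) := by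
      refine (Finset.eq_of_subset_of_card_le h1 ?_).symm
      have hk : k ∈ univ.filter fun i => t (β + Pi.single c 1 + Pi.single c 1) i = c :=
        mem_filter.2 ⟨mem_univ _, mem_SS.1 he⟩
      rw [card_erase_of_mem hk, ht.content _ (by
        rw [sum_add_single]; exact hb), ht.content _ (by rw [sum_add_single]; exact hb)]
      simp [Pi.single_apply, hjc.symm]
    intro i hi hik
    rw [← hcomm]
    have : i ∈ (univ.filter fun i => t (β + Pi.single c 1 + Pi.single c 1) i = c).erase k :=
      mem_erase.2 ⟨hik, mem_filter.2 ⟨mem_univ _, hi⟩⟩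
    rw [h2] at this
    exact (mem_filter.1 this).2
  have hsub : (SS t (β + Pi.single c 1)).erase (k, c) ⊆ SS t (β + Pi.single j 1) := by
    rintro ⟨i, x⟩ hx
    obtain ⟨hx1, hx2⟩ := mem_erase.1 hx
    rw [mem_SS] at hx2 ⊢
    dsimp only at hx2 ⊢
    by_cases hxc : x = c
    · subst hxc
      refine hcol i hx2 ?_
      rintro rfl
      exact hx1 rfl
    · by_cases hxj : x = j
      · subst hxj
        rw [hcomm] at hx2
        exact ht.cont (β + Pi.single x 1) hb' x c i hx2
      · have h1 := hmin x hxc hxj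
        unfold Spl at h1
        push Not at h1
        have h2 := h1 i
        rw [hcomm] at hx2
        rw [hcomm j x]
        tauto
  obtain ⟨e', he', hins⟩ := Finset.exists_eq_insert_iff.2 ⟨hsub, by
    rw [card_erase_of_mem he, ht.card_SS _ hb, ht.card_SS _ hb']
    omega⟩
  have he'2 : e' ∈ SS t (β + Pi.single j 1) := by
    rw [← hins]
    exact mem_insert_self _ _
  have herase : (SS t (β + Pi.single j 1)).erase e' = (SS t (β + Pi.single c 1)).erase (k, c) := by
    rw [← hins, erase_insert he']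
  -- flows on the new tree across the old cut
  have hcutflow : ∀ h : Fin n × Fin d → ℝ, (∀ e, e ∉ SS t (β + Pi.single j 1) → h e = 0) →
      ∑ c ∈ RC, (mg n d h).1.2 c - ∑ i ∈ RL, (mg n d h).1.1 i =
        h e' * ((if e'.2 ∈ RC then 1 else 0) - (if e'.1 ∈ RL then 1 else 0)) := by
    intro h hs
    rw [cut_sum, Finset.sum_eq_single e']
    · intro e _ hee
      by_cases heS : e ∈ SS t (β + Pi.single j 1)
      · have h1 : e ∈ (SS t (β + Pi.single c 1)).erase (k, c) := by
          rw [← herase]
          exact mem_erase.2 ⟨hee, heS⟩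
        have h2 := hF e h1
        by_cases h3 : e.1 ∈ RL
        · simp [h3, h2.1 h3]
        · have h4 : e.2 ∉ RC := fun h => h3 (h2.2 h)
          simp [h3, h4]
      · rw [hs e heS, zero_mul]
    · intro h
      exact absurd (mem_univ _) h
  -- the tope at `β + 2 e_j`
  have hsum2 : ∑ x, (β + Pi.single j 1 + Pi.single j 1 : Fin d → ℕ) x = n := by
    rw [sum_add_single]
    exact hb'
  obtain ⟨hm2, hm1⟩ := ht.mg_tope _ hsum2
  have h1 := hcutflow (fun e => if t (β + Pi.single j 1 + Pi.single j 1) e.1 = e.2 then 1 else 0)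
    (by
      intro e he
      rw [if_neg]
      intro h
      have := ht.tope_mem _ hb' j e.1
      rw [h] at this
      exact he this)
  rw [sum_congr rfl fun c' _ => hm2 c', sum_congr rfl fun i _ => hm1 i] at h1
  have h2 : ∑ c' ∈ RC, (((β + Pi.single j 1 + Pi.single j 1 : Fin d → ℕ) c' : ℕ) : ℝ) =
      ∑ c' ∈ RC, (β c' : ℝ) := by
    refine sum_congr rfl fun x hx => ?_
    have hxj : x ≠ j := by
      rintro rfl
      exact hj hx
    simp [Pi.single_apply, hxj]
  have h3 : (RL.card : ℝ) = ∑ c' ∈ RC, (β c' : ℝ) + 1 := by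
    rw [hRL]
    push_cast
    simp only [Pi.add_apply, Pi.single_apply]
    push_cast
    rw [sum_add_distrib]
    simp [hc]
  rw [h2, sum_const, nsmul_eq_mul, mul_one, h3] at h1
  refine ⟨_, hb', e', he'2, herase, ?_⟩
  by_cases h4 : e'.2 ∈ RC
  · exfalso
    rw [if_pos h4] at h1
    split_ifs at h1 <;> linarith
  · refine ⟨h4, ?_⟩
    by_contra h5
    rw [if_neg h4, if_neg h5] at h1
    linarith

/-- The trees form a complex. -/
theorem Topes.exists_cx (ht : Topes n d t) (hn : 1 ≤ n) (hd : 1 ≤ d) :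
    ∃ fl : BI n d → V0 n d →ₗ[ℝ] (Fin n × Fin d → ℝ),
      Cx (mg n d) (fun b : BI n d => SS t b.1) fl (PP n d) := by
  classical
  have hfl : ∀ b : BI n d, ∃ fl : V0 n d →ₗ[ℝ] (Fin n × Fin d → ℝ),
      (∀ z e, e ∉ SS t b.1 → fl z e = 0) ∧ (∀ z, mg n d (fl z) = z) ∧
      ∀ h : Fin n × Fin d → ℝ, (∀ e, e ∉ SS t b.1 → h e = 0) → fl (mg n d h) = h := fun b =>
    exists_fl (SS t b.1) (ht.exists_flow hn hd b.1 (BI.sum hn b))
      (ht.unique_flow hn hd b.1 (BI.sum hn b))
  choose fl hsupp hsec hret using hfl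
  have hcut : ∀ (b : BI n d) (k : Fin n) (c : Fin d), (k, c) ∈ SS t b.1 →
      ∃ (RL : Finset (Fin n)) (RC : Finset (Fin d)),
      c ∈ RC ∧ k ∉ RL ∧ (∀ e ∈ (SS t b.1).erase (k, c), (e.1 ∈ RL ↔ e.2 ∈ RC)) ∧
      (∀ x, x ∈ RC ↔ t (b.1 + Pi.single x 1) k = c) ∧ RL.card = ∑ c' ∈ RC, b.1 c' ∧
      ∀ z : V0 n d, fl b z (k, c) = ∑ c' ∈ RC, z.1.2 c' - ∑ i ∈ RL, z.1.1 i := by
    intro b k c he
    obtain ⟨RL, RC, h1, h2, h3, h4, h5, h6⟩ := ht.cut hn hd b.1 (BI.sum hn b) k c he
    refine ⟨RL, RC, h1, h2, h3, h4, h5, ?_⟩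
    intro z
    have := h6 (fl b z) (hsupp b z)
    rwa [hsec] at this
  refine ⟨fl, ?_⟩
  refine
    { supp := hsupp
      sec := hsec
      ret := hret
      popen := isOpen_PP
      pconv := convex_PP
      padd := padd_PP
      psmul := psmul_PP
      ppos := ?_
      flip := ?_
      uniq := ?_
      base := ?_ }
  · intro b z hz
    have hnn : ∀ e, 0 ≤ fl b z e := by
      intro e
      by_cases he : e ∈ SS t b.1
      · exact (hz e he).le
      · rw [hsupp b z e he]
    constructor
    · intro i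
      have h1 : z.1.1 i = ∑ c, fl b z (i, c) := by
        rw [← mg_fst, hsec]
      rw [h1]
      have h2 := ht.tope_mem b.1 (BI.sum hn b) ⟨0, hd⟩ i
      refine sum_pos' (fun c _ => hnn _) ⟨_, mem_univ _, hz _ h2⟩
    · intro c
      have h1 : z.1.2 c = ∑ i, fl b z (i, c) := by
        rw [← mg_snd, hsec]
      rw [h1]
      have h2 := ht.col b.1 (BI.sum hn b) c
      obtain ⟨i, hi⟩ := card_pos.1 (h2 ▸ Nat.succ_pos _ : 0 < (univ.filter
        (fun k => (k, c) ∈ SS t b.1)).card)
      exact sum_pos' (fun i _ => hnn _) ⟨i, mem_univ _, hz _ (mem_filter.1 hi).2⟩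
  · rintro b ⟨k, c⟩ he ⟨z, hzP, hz0⟩
    obtain ⟨RL, RC, h1, h2, h3, h4, h5, h6⟩ := hcut b k c he
    have hne : RC ≠ univ := by
      intro hu
      have h7 := h6 z
      rw [hz0, hu] at h7
      have h8 : ∑ c', z.1.2 c' = ∑ i, z.1.1 i := ((mem_V0 z.1).1 z.2).symm
      rw [h8] at h7
      have h9 : ∑ i ∈ RL, z.1.1 i < ∑ i, z.1.1 i := by
        refine sum_lt_sum_of_subset (subset_univ _) (mem_univ k) h2 (hzP.1 k) ?_
        intro i _ _
        exact (hzP.1 i).le
      linarith
    have hbc : 1 ≤ b.1 c := by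
      by_contra hcon
      have hb0 : b.1 c = 0 := by omega
      have h7 := ht.col b.1 (BI.sum hn b) c
      rw [hb0, zero_add, card_eq_one] at h7
      obtain ⟨k', hk'⟩ := h7
      have hkk : k ∈ univ.filter (fun k => (k, c) ∈ SS t b.1) := mem_filter.2 ⟨mem_univ _, he⟩
      rw [hk', mem_singleton] at hkk
      subst hkk
      have h8 : z.1.2 c = ∑ i, fl b z (i, c) := by
        rw [← mg_snd, hsec]
      rw [Finset.sum_eq_single k] at h8
      · have := hzP.2 c
        rw [h8, hz0] at this
        exact lt_irrefl _ this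
      · intro i _ hik
        apply hsupp
        intro h9
        have : i ∈ univ.filter (fun k => (k, c) ∈ SS t b.1) := mem_filter.2 ⟨mem_univ _, h9⟩
        rw [hk', mem_singleton] at this
        exact hik this
      · intro h
        exact absurd (mem_univ _) h
    obtain ⟨b', hb', e', he', herase, h7, h8⟩ := ht.exists_nbr hn hd b.1 (BI.sum hn b) k c he
      RL RC h1 h3 h4 h5 hne hbc
    refine ⟨⟨b', mem_BI b' hb'⟩, e', he', herase, ?_⟩
    intro y
    rw [h6 y]
    set b'' : BI n d := ⟨b', mem_BI b' hb'⟩ with hb''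
    have h9 := cut_sum RL RC (fl b'' y)
    rw [hsec, Finset.sum_eq_single e'] at h9
    · rw [h9, if_neg h7, if_pos h8]
      ring
    · intro e _ hee
      by_cases heS : e ∈ SS t b'
      · have h10 : e ∈ (SS t b.1).erase (k, c) := by
          rw [← herase]
          exact mem_erase.2 ⟨hee, heS⟩
        have h11 := h3 e h10
        by_cases h12 : e.1 ∈ RL
        · simp [h12, h11.1 h12]
        · have h13 : e.2 ∉ RC := fun h => h12 (h11.2 h)
          simp [h12, h13]
      · rw [hsupp b'' y e heS, zero_mul]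
    · intro h
      exact absurd (mem_univ _) h
  · rintro b b' ⟨k, c⟩ he ⟨k', c'⟩ he' herase hval
    obtain ⟨RL, RC, h1, h2, h3, h4, h5, h6⟩ := hcut b k c he
    have h7 : fl b' (mg n d (Pi.single (k', c') 1)) = Pi.single (k', c') 1 :=
      hret b' _ fun x hx => by
        rw [Pi.single_eq_of_ne]
        rintro rfl
        exact hx he'
    have h8 := hval (mg n d (Pi.single (k', c') 1))
    rw [h7, Pi.single_eq_same, h6] at h8
    simp only [mg_single_fst, mg_single_snd, Finset.sum_ite_eq'] at h8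
    have hc' : c' ∈ RC := by
      by_contra h9
      rw [if_neg h9] at h8
      split_ifs at h8 <;> linarith
    have hins : insert (k, c) ((SS t b.1).erase (k, c)) = SS t b.1 := insert_erase he
    have hins' : insert (k', c') ((SS t b.1).erase (k, c)) = SS t b'.1 := by
      rw [← herase, insert_erase he']
    have hnot : (k', c') ∉ (SS t b.1).erase (k, c) := by
      rw [← herase]
      simp
    -- column counts
    have hcnt : ∀ (S : Finset (Fin n × Fin d)) (x : Fin d),
        (univ.filter (fun k => (k, x) ∈ S)).card = (S.filter (fun e => e.2 = x)).card := by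
      intro S x
      apply Finset.card_bij (fun k _ => (k, x))
      · intro k hk
        exact mem_filter.2 ⟨(mem_filter.1 hk).2, rfl⟩
      · intro k _ k' _ h
        exact congrArg Prod.fst h
      · rintro ⟨k, y⟩ hk
        obtain ⟨hk1, hk2⟩ := mem_filter.1 hk
        dsimp only at hk2
        subst hk2
        exact ⟨k, mem_filter.2 ⟨mem_univ _, hk1⟩, rfl⟩
    have hbeq : b.1 + Pi.single c' 1 = b'.1 + Pi.single c 1 := by
      funext x
      have e1 := ht.col b.1 (BI.sum hn b) x
      have e2 := ht.col b'.1 (BI.sum hn b') x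
      rw [hcnt, ← hins, filter_insert] at e1
      rw [hcnt, ← hins', filter_insert] at e2
      have n1 : (k, c) ∉ ((SS t b.1).erase (k, c)).filter (fun e => e.2 = x) := by simp
      have n2 : (k', c') ∉ ((SS t b.1).erase (k, c)).filter (fun e => e.2 = x) := fun h =>
        hnot (mem_filter.1 h).1
      rw [Pi.add_apply, Pi.add_apply, Pi.single_apply, Pi.single_apply]
      dsimp only at e1 e2
      by_cases hx : c = x <;> by_cases hx' : c' = x
      · rw [if_pos hx, card_insert_of_notMem n1] at e1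
        rw [if_pos hx', card_insert_of_notMem n2] at e2
        rw [if_pos hx.symm, if_pos hx'.symm]
        omega
      · rw [if_pos hx, card_insert_of_notMem n1] at e1
        rw [if_neg hx'] at e2
        rw [if_pos hx.symm, if_neg (Ne.symm hx')]
        omega
      · rw [if_neg hx] at e1
        rw [if_pos hx', card_insert_of_notMem n2] at e2
        rw [if_neg (Ne.symm hx), if_pos hx'.symm]
        omega
      · rw [if_neg hx] at e1
        rw [if_neg hx'] at e2
        rw [if_neg (Ne.symm hx), if_neg (Ne.symm hx')]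
        omega
    have h10 := (h4 c').1 hc'
    rw [hbeq] at h10
    have h11 : (k, c) ∈ SS t b'.1 := mem_SS.2 h10
    rw [← hins', mem_insert] at h11
    rcases h11 with h11 | h11
    · have hcc : c = c' := congrArg Prod.snd h11
      subst hcc
      exact Subtype.ext (add_right_cancel hbeq).symm
    · exact absurd rfl (mem_erase.1 h11).1
  · -- the base point
    have hd0 : (0 : ℝ) < d := by exact_mod_cast hd
    let b₀ : BI n d := ⟨Pi.single ⟨0, hd⟩ (n - 1), by
      apply mem_BI
      rw [Finset.sum_pi_single']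
      simp
      omega⟩
    have hmem : ∀ b : BI n d, ((fun _ => 1, fun c => (b.1 c : ℝ) + 1 / d) :
        (Fin n → ℝ) × (Fin d → ℝ)) ∈ V0 n d := by
      intro b
      rw [mem_V0]
      simp only [sum_const, card_univ, Fintype.card_fin, nsmul_eq_mul, mul_one, sum_add_distrib]
      rw [← Nat.cast_sum]
      have h1 := BI.sum hn b
      have h2 : ((∑ c, b.1 c + 1 : ℕ) : ℝ) = n := by rw [h1]
      rw [← h2]
      push_cast
      field_simp
    let zz : BI n d → V0 n d := fun b => ⟨_, hmem b⟩
    have hzz : ∀ (b b' : BI n d) (k : Fin n) (c : Fin d), (k, c) ∈ SS t b.1 →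
        ∃ RC : Finset (Fin d), c ∈ RC ∧ fl b (zz b') (k, c) =
          ∑ x ∈ RC, (b'.1 x : ℝ) - ∑ x ∈ RC, (b.1 x : ℝ) + RC.card / d ∧
          fl b (zz b) (k, c) = RC.card / d := by
      intro b b' k c he
      obtain ⟨RL, RC, h1, h2, h3, h4, h5, h6⟩ := hcut b k c he
      have h7 : ∀ b' : BI n d, fl b (zz b') (k, c) =
          ∑ x ∈ RC, (b'.1 x : ℝ) - ∑ x ∈ RC, (b.1 x : ℝ) + RC.card / d := by
        intro b'
        rw [h6]
        show ∑ x ∈ RC, ((b'.1 x : ℝ) + 1 / d) - ∑ i ∈ RL, (1 : ℝ) = _
        rw [sum_add_distrib, sum_const, sum_const, nsmul_eq_mul, nsmul_eq_mul, h5]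
        push_cast
        ring
      refine ⟨RC, h1, h7 b', ?_⟩
      rw [h7 b]
      ring
    refine ⟨zz b₀, b₀, ?_, ?_⟩
    · rintro ⟨k, c⟩ he
      obtain ⟨RC, h1, -, h2⟩ := hzz b₀ b₀ k c he
      rw [h2]
      have : 0 < RC.card := card_pos.2 ⟨c, h1⟩
      have : (0 : ℝ) < RC.card := by exact_mod_cast this
      positivity
    · intro b hbne
      by_contra hcon
      push Not at hcon
      have hle : ∀ (k : Fin n) (c : Fin d), fl b (zz b) (k, c) ≤ fl b (zz b₀) (k, c) := by
        intro k c
        by_cases he : (k, c) ∈ SS t b.1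
        · obtain ⟨RC, h1, h2, h3⟩ := hzz b b₀ k c he
          have h4 := hcon (k, c) he
          rw [h3]
          rw [h2] at h4 ⊢
          have h5 : ∑ x ∈ RC, b.1 x ≤ ∑ x ∈ RC, b₀.1 x := by
            by_contra h6
            push Not at h6
            have h7 : (∑ x ∈ RC, b₀.1 x : ℕ) + 1 ≤ ∑ x ∈ RC, b.1 x := h6
            have h8 : ((∑ x ∈ RC, b₀.1 x : ℕ) : ℝ) + 1 ≤ ((∑ x ∈ RC, b.1 x : ℕ) : ℝ) := by
              exact_mod_cast h7
            push_cast at h8
            have h9 : RC.card ≤ d := by simpa using card_le_univ RC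
            have h10 : (RC.card : ℝ) / d ≤ 1 := by
              rw [div_le_one hd0]
              exact_mod_cast h9
            have h11 : (RC.card : ℝ) / d = 1 := by linarith
            rw [div_eq_one_iff_eq hd0.ne'] at h11
            have h12 : RC.card = d := by exact_mod_cast h11
            have h13 : RC = univ := by
              apply Finset.eq_univ_of_card
              rw [Fintype.card_fin, h12]
            rw [h13] at h7
            have e1 := BI.sum hn b
            have e2 := BI.sum hn b₀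
            omega
          have h6 : ∑ x ∈ RC, (b.1 x : ℝ) ≤ ∑ x ∈ RC, (b₀.1 x : ℝ) := by exact_mod_cast h5
          linarith
        · rw [hsupp _ _ _ he, hsupp _ _ _ he]
      apply hbne
      apply Subtype.ext
      have hcle : ∀ c, b.1 c ≤ b₀.1 c := by
        intro c
        have e1 : (zz b).1.2 c = ∑ i, fl b (zz b) (i, c) := by rw [← mg_snd, hsec]
        have e2 : (zz b₀).1.2 c = ∑ i, fl b (zz b₀) (i, c) := by rw [← mg_snd, hsec]
        have e3 : ∑ i, fl b (zz b) (i, c) ≤ ∑ i, fl b (zz b₀) (i, c) :=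
          sum_le_sum fun i _ => hle i c
        rw [← e1, ← e2] at e3
        have e4 : (b.1 c : ℝ) + 1 / d ≤ (b₀.1 c : ℝ) + 1 / d := e3
        have e5 : (b.1 c : ℝ) ≤ b₀.1 c := by linarith
        exact_mod_cast e5
      have hsum : ∑ c, b.1 c = ∑ c, b₀.1 c := by
        have e1 := BI.sum hn b
        have e2 := BI.sum hn b₀
        omega
      funext c
      exact (Finset.sum_eq_sum_iff_of_le fun c _ => hcle c).1 hsum c (mem_univ _)

/-- **Local criterion.** (CONT) and (HEX) imply that the trees form a compatible family. -/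
theorem Topes.treeFam (ht : Topes n d t) (hn : 1 ≤ n) (hd : 1 ≤ d) :
    TreeFam n d (fun b k => univ.filter fun c => t (b + Pi.single c 1) k = c) := by
  classical
  obtain ⟨fl, hcx⟩ := ht.exists_cx hn hd
  constructor
  · intro v hv c
    have hv' : ∑ c, v c + 1 = n := by omega
    have := ht.col v hv' c
    simpa [mem_SS] using this
  · intro v w hv hw g g' hg hg' hs hs' hr hc
    have hv' : ∑ c, v c + 1 = n := by omega
    have hw' : ∑ c, w c + 1 = n := by omega
    have h1 := hcx.compat ⟨v, mem_BI v hv'⟩ ⟨w, mem_BI w hw'⟩ (fun e => g e.1 e.2)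
      (fun e => g' e.1 e.2) (fun e => hg _ _) (fun e => hg' _ _) (fun e he => hs _ _ (by
        simpa [mem_SS] using he)) (fun e he => hs' _ _ (by simpa [mem_SS] using he)) (by
        apply V0_ext
        · intro i; exact hr i
        · intro c; exact hc c)
    funext i c
    exact congrFun h1 (i, c)

end Pool.Agent.Helper28.SO
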