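import Pool.Agent.Helper28.SP.Marg
import Pool.Agent.Helper28.SP.Merge

set_option autoImplicit false

/-! Families of assignments with the local conditions (CONT) and (HEX). -/

namespace Pool.Agent.Helper28.SO

open Finset

/-- The local conditions on a family of assignments `t a`, `|a| = n`. -/
structure Topes (n d : ℕ) (t : (Fin d → ℕ) → Fin n → Fin d) : Prop where
  content : ∀ a : Fin d → ℕ, ∑ c, a c = n → ∀ c, (univ.filter (fun k => t a k = c)).card = a c
  cont : ∀ b : Fin d → ℕ, ∑ c, b c + 1 = n → ∀ c j k, t (b + Pi.single j 1) k = c →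
    t (b + Pi.single c 1) k = c
  hex : ∀ β : Fin d → ℕ, ∑ c, β c + 2 = n → ∀ c i j, c ≠ i → c ≠ j → i ≠ j →
    (∀ k, t (β + Pi.single c 1 + Pi.single i 1) k = c ↔
      t (β + Pi.single c 1 + Pi.single j 1) k = c) ∨
    (∀ k, t (β + Pi.single i 1 + Pi.single c 1) k = i ↔
      t (β + Pi.single i 1 + Pi.single j 1) k = i)

/-- the support of the tree at `b` -/
def SS {n d : ℕ} (t : (Fin d → ℕ) → Fin n → Fin d) (b : Fin d → ℕ) : Finset (Fin n × Fin d) :=
  univ.filter (fun e => t (b + Pi.single e.2 1) e.1 = e.2)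

theorem mem_SS {n d : ℕ} {t : (Fin d → ℕ) → Fin n → Fin d} {b : Fin d → ℕ}
    {e : Fin n × Fin d} : e ∈ SS t b ↔ t (b + Pi.single e.2 1) e.1 = e.2 := by
  simp [SS]

variable {n d : ℕ} {t : (Fin d → ℕ) → Fin n → Fin d}

theorem sum_add_single {d : ℕ} (b : Fin d → ℕ) (x : Fin d) :
    ∑ c, (b + Pi.single x 1 : Fin d → ℕ) c = ∑ c, b c + 1 := by
  simp only [Pi.add_apply, sum_add_distrib]
  rw [Finset.sum_pi_single']
  simp

namespace Topes

theorem tope_mem (ht : Topes n d t) (b : Fin d → ℕ) (hb : ∑ c, b c + 1 = n) (x : Fin d)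
    (k : Fin n) : (k, t (b + Pi.single x 1) k) ∈ SS t b := by
  rw [mem_SS]
  exact ht.cont b hb _ x k rfl

theorem col (ht : Topes n d t) (b : Fin d → ℕ) (hb : ∑ c, b c + 1 = n) (c : Fin d) :
    (univ.filter (fun k => (k, c) ∈ SS t b)).card = b c + 1 := by
  have h1 := ht.content (b + Pi.single c 1) (by rw [sum_add_single]; exact hb) c
  simp only [mem_SS]
  rw [h1]
  simp

theorem card_SS (ht : Topes n d t) (b : Fin d → ℕ) (hb : ∑ c, b c + 1 = n) :
    (SS t b).card = n + d - 1 := by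
  classical
  have h1 : (SS t b).card = ∑ c, (univ.filter (fun k => (k, c) ∈ SS t b)).card := by
    have : SS t b = univ.filter (fun e => e ∈ SS t b) := by ext e; simp
    rw [this, Finset.card_filter, Fintype.sum_prod_type_right]
    refine sum_congr rfl fun c _ => ?_
    rw [Finset.card_filter]
    simp
  rw [h1, sum_congr rfl fun c _ => ht.col b hb c, sum_add_distrib]
  simp
  omega

/-- counting the rows of a set closed under the edges at `b` -/
theorem count_closed (ht : Topes n d t) (b : Fin d → ℕ) (hb : ∑ c, b c + 1 = n)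
    (RL : Finset (Fin n)) (RC : Finset (Fin d)) (x : Fin d)
    (h : ∀ k, (k ∈ RL ↔ t (b + Pi.single x 1) k ∈ RC)) :
    RL.card = ∑ c ∈ RC, b c + (if x ∈ RC then 1 else 0) := by
  classical
  have h1 : RL = RC.biUnion (fun c => univ.filter (fun k => t (b + Pi.single x 1) k = c)) := by
    ext k
    simp only [mem_biUnion, mem_filter, mem_univ, true_and, exists_eq_right', h k]
  rw [h1, card_biUnion]
  · have h2 : ∀ c ∈ RC, (univ.filter (fun k => t (b + Pi.single x 1) k = c)).card =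
        b c + (if c = x then 1 else 0) := fun c _ => by
      rw [ht.content (b + Pi.single x 1) (by rw [sum_add_single]; exact hb) c]
      rw [Pi.add_apply, Pi.single_apply]
    rw [sum_congr rfl h2, sum_add_distrib, Finset.sum_ite_eq']
  · intro c _ c' _ hcc
    show Disjoint _ _
    rw [Finset.disjoint_left]
    intro k hk hk'
    exact hcc ((mem_filter.1 hk).2.symm.trans (mem_filter.1 hk').2)

theorem conn (ht : Topes n d t) (b : Fin d → ℕ) (hb : ∑ c, b c + 1 = n)
    (RL : Finset (Fin n)) (RC : Finset (Fin d))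
    (h : ∀ e ∈ SS t b, (e.1 ∈ RL ↔ e.2 ∈ RC)) (hne : RC.Nonempty) : RC = univ := by
  classical
  obtain ⟨x, hx⟩ := hne
  by_contra hcon
  obtain ⟨y, hy⟩ : ∃ y, y ∉ RC := by
    by_contra h2
    push Not at h2
    exact hcon (eq_univ_iff_forall.2 h2)
  have h1 := ht.count_closed b hb RL RC x (fun k => h _ (ht.tope_mem b hb x k))
  have h2 := ht.count_closed b hb RL RC y (fun k => h _ (ht.tope_mem b hb y k))
  rw [if_pos hx] at h1
  rw [if_neg hy] at h2
  omega

theorem exists_flow (ht : Topes n d t) (hn : 1 ≤ n) (hd : 1 ≤ d) (b : Fin d → ℕ)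
    (hb : ∑ c, b c + 1 = n) (z : V0 n d) :
    ∃ h : Fin n × Fin d → ℝ, (∀ e, e ∉ SS t b → h e = 0) ∧ mg n d h = z :=
  exists_flow' hn hd (SS t b)
    (fun i => ⟨_, ht.tope_mem b hb ⟨0, hd⟩ i⟩)
    (fun RL RC h hne => ht.conn b hb RL RC h hne) z

theorem unique_flow (ht : Topes n d t) (hn : 1 ≤ n) (hd : 1 ≤ d) (b : Fin d → ℕ)
    (hb : ∑ c, b c + 1 = n) (h : Fin n × Fin d → ℝ) (hs : ∀ e, e ∉ SS t b → h e = 0)
    (hm : mg n d h = 0) : h = 0 :=
  unique_flow' hn (SS t b) (ht.card_SS b hb) (ht.exists_flow hn hd b hb) h hs hm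

end Topes

/-- index set of the trees -/
abbrev BI (n d : ℕ) : Type := {b : Fin d → ℕ // b ∈ Finset.piAntidiag (univ : Finset (Fin d)) (n - 1)}

theorem BI.sum (hn : 1 ≤ n) (b : BI n d) : ∑ c, b.1 c + 1 = n := by
  have := b.2
  rw [mem_piAntidiag] at this
  have h1 : ∑ c, b.1 c = n - 1 := this.1
  omega

/-- membership in `BI` -/
theorem mem_BI (b : Fin d → ℕ) (hb : ∑ c, b c + 1 = n) :
    b ∈ Finset.piAntidiag (univ : Finset (Fin d)) (n - 1) := by
  rw [mem_piAntidiag]
  have h1 : ∑ c, b c = n - 1 := by omega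
  exact ⟨h1, fun i _ => mem_univ i⟩

/-- positive marginals -/
def PP (n d : ℕ) : Set (V0 n d) := {z | (∀ i, 0 < z.1.1 i) ∧ ∀ c, 0 < z.1.2 c}

theorem isOpen_PP : IsOpen (PP n d) := by
  have : PP n d = (⋂ i : Fin n, {z : V0 n d | 0 < z.1.1 i}) ∩
      ⋂ c : Fin d, {z : V0 n d | 0 < z.1.2 c} := by
    ext z
    simp [PP]
  rw [this]
  refine (isOpen_iInter_of_finite fun i => ?_).inter (isOpen_iInter_of_finite fun c => ?_)
  · exact isOpen_lt continuous_const
      ((continuous_apply i).comp (continuous_fst.comp continuous_subtype_val))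
  · exact isOpen_lt continuous_const
      ((continuous_apply c).comp (continuous_snd.comp continuous_subtype_val))

theorem convex_PP : Convex ℝ (PP n d) := by
  intro x hx y hy a b ha hb hab
  refine ⟨fun i => ?_, fun c => ?_⟩
  · show 0 < a * x.1.1 i + b * y.1.1 i
    have h1 := hx.1 i
    have h2 := hy.1 i
    rcases ha.eq_or_lt with rfl | ha
    · have : b = 1 := by linarith
      rw [this]; linarith
    · have := mul_pos ha h1
      have := mul_nonneg hb h2.le
      linarith
  · show 0 < a * x.1.2 c + b * y.1.2 c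
    have h1 := hx.2 c
    have h2 := hy.2 c
    rcases ha.eq_or_lt with rfl | ha
    · have : b = 1 := by linarith
      rw [this]; linarith
    · have := mul_pos ha h1
      have := mul_nonneg hb h2.le
      linarith

theorem padd_PP (g : Fin n × Fin d → ℝ) (z : V0 n d) (hg : ∀ e, 0 ≤ g e) (hz : z ∈ PP n d) :
    mg n d g + z ∈ PP n d := by
  refine ⟨fun i => ?_, fun c => ?_⟩
  · show 0 < ∑ c, g (i, c) + z.1.1 i
    have := sum_nonneg (s := univ) fun c _ => hg (i, c)
    have := hz.1 i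
    linarith
  · show 0 < ∑ i, g (i, c) + z.1.2 c
    have := sum_nonneg (s := univ) fun i _ => hg (i, c)
    have := hz.2 c
    linarith

theorem psmul_PP (r : ℝ) (z : V0 n d) (hr : 0 < r) (hz : z ∈ PP n d) : r • z ∈ PP n d :=
  ⟨fun i => mul_pos hr (hz.1 i), fun c => mul_pos hr (hz.2 c)⟩

/-- the cut of an edge of a tree -/
theorem exists_cut' (S : Finset (Fin n × Fin d))
    (hun : ∀ h : Fin n × Fin d → ℝ, (∀ e, e ∉ S → h e = 0) → mg n d h = 0 → h = 0)
    (k : Fin n) (c : Fin d) (he : (k, c) ∈ S) : ∃ (RL : Finset (Fin n)) (RC : Finset (Fin d)),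
      c ∈ RC ∧ k ∉ RL ∧ (∀ e ∈ S.erase (k, c), (e.1 ∈ RL ↔ e.2 ∈ RC)) ∧
      ∀ h : Fin n × Fin d → ℝ, (∀ e, e ∉ S → h e = 0) →
        h (k, c) = ∑ c' ∈ RC, (mg n d h).1.2 c' - ∑ i ∈ RL, (mg n d h).1.1 i := by
  classical
  obtain ⟨RL, RC, h1, h2, h3⟩ := reg_cut (fun i => univ.filter fun c => (i, c) ∈ S) (by
    intro h hs hr hc
    have h4 := hun (fun e => h e.1 e.2) (fun e he => hs e.1 e.2 (by simpa using he)) (by
      apply V0_ext
      · intro i; exact hr i
      · intro c; exact hc c)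
    funext i c
    exact congrFun h4 (i, c)) k c (by simpa using he)
  refine ⟨RL, RC, h1, h2, ?_, ?_⟩
  · intro e he'
    obtain ⟨hne, heS⟩ := mem_erase.1 he'
    exact h3 e.1 e.2 (by simpa using heS) (by
      rintro ⟨h4, h5⟩
      exact hne (Prod.ext h4 h5))
  · intro h hs
    have := reg_cut_value h1 h2 h3 (fun i c => h (i, c)) (fun i c hc => hs (i, c) (by
      simpa using hc))
    exact this

end Pool.Agent.Helper28.SO
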