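import Pool.Agent.Helper28.SP.LocFam

set_option autoImplicit false

/-! The local conditions (CONT) and (HEX) imply that the trees form a compatible family. -/

namespace Pool.Agent.Helper28.SO

open Finset

variable {n d : ℕ} {t : (Fin d → ℕ) → Fin n → Fin d}

/-- The relation: `i` separates `c` and `j`. -/
def Spl (t : (Fin d → ℕ) → Fin n → Fin d) (β : Fin d → ℕ) (i c j : Fin d) : Prop :=
  ∃ k, ¬ (t (β + Pi.single i 1 + Pi.single c 1) k = i ↔
    t (β + Pi.single i 1 + Pi.single j 1) k = i)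

theorem Topes.hex' (ht : Topes n d t) (β : Fin d → ℕ) (hβ : ∑ c, β c + 2 = n) (c i j : Fin d)
    (h1 : c ≠ i) (h2 : c ≠ j) (h3 : i ≠ j) (ha : Spl t β c i j) (hb : Spl t β i c j) : False := by
  obtain ⟨k, hk⟩ := ha
  obtain ⟨k', hk'⟩ := hb
  rcases ht.hex β hβ c i j h1 h2 h3 with h | h
  · exact hk (h k)
  · exact hk' (h k')

theorem Spl.symm {β : Fin d → ℕ} {i c j : Fin d} (h : Spl t β i c j) : Spl t β i j c := by
  obtain ⟨k, hk⟩ := h
  exact ⟨k, fun h => hk h.symm⟩

theorem Spl.or {β : Fin d → ℕ} {i c j : Fin d} (h : Spl t β i c j) (x : Fin d) :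
    Spl t β i c x ∨ Spl t β i x j := by
  by_contra hcon
  push Not at hcon
  obtain ⟨h1, h2⟩ := hcon
  unfold Spl at h1 h2
  push Not at h1 h2
  obtain ⟨k, hk⟩ := h
  exact hk ((not_not.1 fun h3 => by
    have := h1 k
    tauto : t (β + Pi.single i 1 + Pi.single c 1) k = i ↔
      t (β + Pi.single i 1 + Pi.single x 1) k = i).trans (not_not.1 fun h3 => by
    have := h2 k
    tauto))

/-- a minimal element of a nonempty set of colours which is closed downwards -/
theorem Topes.exists_min (ht : Topes n d t) (β : Fin d → ℕ) (hβ : ∑ c, β c + 2 = n) (c : Fin d)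
    (B : Set (Fin d)) (hB : B.Nonempty) (hc : c ∉ B)
    (hcl : ∀ i j, i ≠ c → i ≠ j → j ∈ B → Spl t β i c j → i ∈ B) :
    ∃ j ∈ B, ∀ i, i ≠ c → i ≠ j → ¬ Spl t β i c j := by
  classical
  let r : Fin d → Fin d → Prop := fun i j => i ≠ c ∧ j ≠ c ∧ i ≠ j ∧ Spl t β i c j
  have hirr : ∀ i, ¬ r i i := fun i h => h.2.2.1 rfl
  have hasym : ∀ i j, r i j → ¬ r j i := by
    rintro i j ⟨h1, h2, h3, h4⟩ ⟨-, -, -, h5⟩
    exact ht.hex' β hβ i j c h3 h1 h2 h4.symm h5.symm
  have htr : ∀ i j k, r i j → r j k → r i k := by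
    rintro i j k hij hjk
    have hik : i ≠ k := by
      rintro rfl
      exact hasym _ _ hij hjk
    refine ⟨hij.1, hjk.2.1, hik, ?_⟩
    by_contra hcon
    -- `i` does not separate `c, k`; `i` separates `c, j`
    have h1 : Spl t β i j k := by
      have h2 := hij.2.2.2
      rcases h2.or k with h3 | h3
      · exact absurd h3 hcon
      · exact h3.symm
    -- so `j` does not separate `i, k`
    have h2 : ¬ Spl t β j i k := fun h2 =>
      ht.hex' β hβ i j k hij.2.2.1 hik hjk.2.2.1 h1 h2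
    -- `j` does not separate `i, c`
    have h3 : ¬ Spl t β j i c := fun h3 =>
      ht.hex' β hβ i j c hij.2.2.1 hij.1 hij.2.1 hij.2.2.2.symm h3
    rcases hjk.2.2.2.or i with h4 | h4
    · exact h3 h4.symm
    · exact h2 h4
  haveI : IsTrans (Fin d) r := ⟨fun i j k => htr i j k⟩
  haveI : Std.Irrefl r := ⟨hirr⟩
  have hwf : WellFounded r := Finite.wellFounded_of_trans_of_irrefl r
  obtain ⟨j, hj, hmin⟩ := hwf.has_min B hB
  refine ⟨j, hj, ?_⟩
  intro i hic hij hsep
  have hjc : j ≠ c := by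
    rintro rfl
    exact hc hj
  exact hmin i (hcl i j hic hij hj hsep) ⟨hic, hjc, hij, hsep⟩

/-- value of the flow of a tope across an edge, and the explicit form of the cut -/
theorem Topes.cut (ht : Topes n d t) (hn : 1 ≤ n) (hd : 1 ≤ d) (b : Fin d → ℕ)
    (hb : ∑ c, b c + 1 = n) (k : Fin n) (c : Fin d) (he : (k, c) ∈ SS t b) :
    ∃ (RL : Finset (Fin n)) (RC : Finset (Fin d)),
      c ∈ RC ∧ k ∉ RL ∧ (∀ e ∈ (SS t b).erase (k, c), (e.1 ∈ RL ↔ e.2 ∈ RC)) ∧
      (∀ x, x ∈ RC ↔ t (b + Pi.single x 1) k = c) ∧ RL.card = ∑ c' ∈ RC, b c' ∧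
      ∀ h : Fin n × Fin d → ℝ, (∀ e, e ∉ SS t b → h e = 0) →
        h (k, c) = ∑ c' ∈ RC, (mg n d h).1.2 c' - ∑ i ∈ RL, (mg n d h).1.1 i := by
  classical
  obtain ⟨RL, RC, h1, h2, h3, h4⟩ := exists_cut' (SS t b)
    (ht.unique_flow hn hd b hb) k c he
  -- the flow of the tope at `b + e_x`
  have key : ∀ x, (if t (b + Pi.single x 1) k = c then (1 : ℝ) else 0) =
      ∑ c' ∈ RC, (b c' : ℝ) + (if x ∈ RC then 1 else 0) - RL.card := by
    intro x
    have h5 := h4 (fun e => if t (b + Pi.single x 1) e.1 = e.2 then 1 else 0) (by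
      intro e he
      rw [if_neg]
      intro h6
      have := ht.tope_mem b hb x e.1
      rw [h6] at this
      exact he this)
    rw [h5]
    have h6 : ∀ c', (mg n d fun e => if t (b + Pi.single x 1) e.1 = e.2 then 1 else 0).1.2 c' =
        (b c' : ℝ) + (if c' = x then 1 else 0) := by
      intro c'
      rw [mg_snd]
      dsimp only
      rw [Finset.sum_boole, ht.content (b + Pi.single x 1) (by rw [sum_add_single]; exact hb) c',
        Pi.add_apply, Pi.single_apply]
      push_cast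
      rfl
    have h7 : ∀ i, (mg n d fun e => if t (b + Pi.single x 1) e.1 = e.2 then 1 else 0).1.1 i =
        1 := by
      intro i
      rw [mg_fst]
      simp
    rw [sum_congr rfl fun c' _ => h6 c', sum_congr rfl fun i _ => h7 i, sum_add_distrib,
      Finset.sum_ite_eq']
    simp
  have hc := key c
  rw [mem_SS] at he
  dsimp only at he
  rw [if_pos he, if_pos h1] at hc
  have hcard : (RL.card : ℝ) = ∑ c' ∈ RC, (b c' : ℝ) := by linarith
  have hcard' : RL.card = ∑ c' ∈ RC, b c' := by exact_mod_cast hcard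
  refine ⟨RL, RC, h1, h2, h3, ?_, hcard', h4⟩
  intro x
  have hx := key x
  rw [hcard] at hx
  constructor
  · intro h5
    by_contra h6
    rw [if_neg h6, if_pos h5] at hx
    linarith
  · intro h5
    by_contra h6
    rw [if_pos h5, if_neg h6] at hx
    linarith

end Pool.Agent.Helper28.SO
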