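import Pool.Agent.Helper28.SP.Cert

set_option autoImplicit false

/-! Linear algebra of the spanning trees given by cells. -/

namespace Pool.Agent.Helper28.SO

open Finset

theorem reg_flow {n d : ℕ} (B : Fin n → Finset (Fin d)) (z : Fin d → ℝ)
    (hz : z ∈ Submodule.span ℝ
      {z : Fin d → ℝ | ∃ i, ∃ k ∈ B i, ∃ k' ∈ B i, z = Pi.single k 1 - Pi.single k' 1}) :
    ∃ h : Fin n → Fin d → ℝ, (∀ i c, c ∉ B i → h i c = 0) ∧ (∀ i, ∑ c, h i c = 0) ∧
      ∀ c, ∑ i, h i c = z c := by
  classical
  induction hz using Submodule.span_induction with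
  | mem z hz =>
    obtain ⟨i, k, hk, k', hk', rfl⟩ := hz
    refine ⟨fun i' c => if i' = i then (Pi.single k 1 - Pi.single k' 1 : Fin d → ℝ) c else 0,
      ?_, ?_, ?_⟩
    · intro i' c hc
      dsimp only
      split_ifs with h
      · subst h
        have h1 : c ≠ k := fun h => hc (h ▸ hk)
        have h2 : c ≠ k' := fun h => hc (h ▸ hk')
        simp [h1, h2]
      · rfl
    · intro i'
      dsimp only
      split_ifs with h
      · simp
      · simp
    · intro c
      dsimp only
      rw [Finset.sum_eq_single i]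
      · simp
      · intro b _ hb
        rw [if_neg hb]
      · intro h
        exact absurd (mem_univ i) h
  | zero => exact ⟨0, fun _ _ _ => rfl, fun _ => by simp, fun _ => by simp⟩
  | add x y _ _ hx hy =>
    obtain ⟨h1, a1, a2, a3⟩ := hx
    obtain ⟨h2, b1, b2, b3⟩ := hy
    refine ⟨h1 + h2, fun i c hc => ?_, fun i => ?_, fun c => ?_⟩
    · simp [a1 i c hc, b1 i c hc]
    · simp [Finset.sum_add_distrib, a2 i, b2 i]
    · simp [Finset.sum_add_distrib, a3 c, b3 c]
  | smul a x _ hx =>
    obtain ⟨h1, a1, a2, a3⟩ := hx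
    refine ⟨fun i c => a * h1 i c, fun i c hc => ?_, fun i => ?_, fun c => ?_⟩
    · simp [a1 i c hc]
    · rw [← Finset.mul_sum, a2 i, mul_zero]
    · rw [← Finset.mul_sum, a3 c]
      rfl

theorem reg_forest {n d : ℕ} (B : Fin n → Finset (Fin d)) (hB : ∀ i, (B i).Nonempty)
    (hcard : ∑ i, ((B i).card - 1) = d - 1)
    (hfr : Module.finrank ℝ (Submodule.span ℝ
      {z : Fin d → ℝ | ∃ i, ∃ k ∈ B i, ∃ k' ∈ B i, z = Pi.single k 1 - Pi.single k' 1}) = d - 1)
    (h : Fin n → Fin d → ℝ) (hs : ∀ i c, c ∉ B i → h i c = 0) (hrow : ∀ i, ∑ c, h i c = 0)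
    (hcol : ∀ c, ∑ i, h i c = 0) : h = 0 := by
  classical
  choose k0 hk0 using hB
  let P : Fin n × Fin d → Prop := fun p => p.2 ∈ B p.1 ∧ p.2 ≠ k0 p.1
  let vv : {p // P p} → (Fin d → ℝ) := fun p => Pi.single p.1.2 1 - Pi.single (k0 p.1.1) 1
  have hcardι : Fintype.card {p // P p} = d - 1 := by
    rw [Fintype.card_subtype, ← hcard, Finset.card_filter, Fintype.sum_prod_type]
    refine Finset.sum_congr rfl fun i _ => ?_
    rw [← Finset.card_filter, ← Finset.card_erase_of_mem (hk0 i)]
    congr 1
    ext c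
    simp only [P, Finset.mem_filter, Finset.mem_univ, true_and, Finset.mem_erase]
    tauto
  have hspan : Submodule.span ℝ (Set.range vv) = Submodule.span ℝ
      {z : Fin d → ℝ | ∃ i, ∃ k ∈ B i, ∃ k' ∈ B i, z = Pi.single k 1 - Pi.single k' 1} := by
    apply le_antisymm
    · rw [Submodule.span_le]
      rintro _ ⟨p, rfl⟩
      exact Submodule.subset_span ⟨p.1.1, p.1.2, p.2.1, k0 p.1.1, hk0 _, rfl⟩
    · rw [Submodule.span_le]
      rintro _ ⟨i, k, hk, k', hk', rfl⟩
      have key : ∀ k ∈ B i, (Pi.single k 1 - Pi.single (k0 i) 1 : Fin d → ℝ) ∈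
          Submodule.span ℝ (Set.range vv) := by
        intro k hk
        by_cases hkk : k = k0 i
        · rw [hkk, sub_self]
          exact Submodule.zero_mem _
        · exact Submodule.subset_span ⟨⟨(i, k), ⟨hk, hkk⟩⟩, rfl⟩
      have := Submodule.sub_mem _ (key k hk) (key k' hk')
      simpa using this
  have hli : LinearIndependent ℝ vv := by
    rw [linearIndependent_iff_card_eq_finrank_span, hcardι, Set.finrank, hspan, hfr]
  rw [Fintype.linearIndependent_iff] at hli
  have hz : ∀ i c, c ∈ B i → c ≠ k0 i → h i c = 0 := by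
    intro i c h1 h2
    refine hli (fun p => h p.1.1 p.1.2) ?_ ⟨(i, c), ⟨h1, h2⟩⟩
    have e1 : ∑ p : {p // P p}, h p.1.1 p.1.2 • vv p =
        ∑ p : Fin n × Fin d, h p.1 p.2 •
          (Pi.single p.2 1 - Pi.single (k0 p.1) 1 : Fin d → ℝ) := by
      rw [← Finset.sum_subset (Finset.subset_univ (univ.filter P))]
      · exact (Finset.sum_subtype (p := P) (univ.filter P) (fun p => by simp)
          (fun p : Fin n × Fin d => h p.1 p.2 •
          (Pi.single p.2 1 - Pi.single (k0 p.1) 1 : Fin d → ℝ))).symm
      · intro p _ hp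
        simp only [P, Finset.mem_filter, Finset.mem_univ, true_and, not_and_or, not_not] at hp
        rcases hp with hp | hp
        · rw [hs _ _ hp, zero_smul]
        · rw [hp, sub_self, smul_zero]
    rw [e1, Fintype.sum_prod_type]
    funext c'
    simp only [Finset.sum_apply, Pi.smul_apply, Pi.sub_apply, smul_eq_mul, mul_sub,
      Finset.sum_sub_distrib, Pi.zero_apply]
    have e2 : ∑ i, ∑ c, h i c * (Pi.single c (1 : ℝ) : Fin d → ℝ) c' = 0 := by
      rw [← hcol c']
      refine Finset.sum_congr rfl fun i _ => ?_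
      rw [Finset.sum_eq_single c']
      · simp
      · intro b _ hb
        rw [Pi.single_eq_of_ne hb.symm, mul_zero]
      · intro h
        exact absurd (mem_univ _) h
    have e3 : ∑ i, ∑ c, h i c * (Pi.single (k0 i) (1 : ℝ) : Fin d → ℝ) c' = 0 := by
      apply Finset.sum_eq_zero
      intro i _
      rw [← Finset.sum_mul, hrow i, zero_mul]
    rw [e2, e3, sub_zero]
  funext i c
  by_cases h1 : c ∈ B i
  · by_cases h2 : c = k0 i
    · subst h2
      have h3 := hrow i
      rw [Finset.sum_eq_single (k0 i)] at h3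
      · exact h3
      · intro b _ hb
        by_cases h4 : b ∈ B i
        · exact hz i b h4 hb
        · exact hs i b h4
      · intro h
        exact absurd (mem_univ _) h
    · exact hz i c h1 h2
  · exact hs i c h1

theorem reg_cut {n d : ℕ} (A : Fin n → Finset (Fin d))
    (hfor : ∀ h : Fin n → Fin d → ℝ, (∀ i c, c ∉ A i → h i c = 0) → (∀ i, ∑ c, h i c = 0) →
      (∀ c, ∑ i, h i c = 0) → h = 0) (i : Fin n) (c : Fin d) (hc : c ∈ A i) :
    ∃ (RL : Finset (Fin n)) (RC : Finset (Fin d)), c ∈ RC ∧ i ∉ RL ∧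
      ∀ i' c', c' ∈ A i' → ¬ (i' = i ∧ c' = c) → (i' ∈ RL ↔ c' ∈ RC) := by
  classical
  let φ : ((Fin n → ℝ) × (Fin d → ℝ)) →ₗ[ℝ] (Fin n → Fin d → ℝ) :=
    { toFun := fun p i c => if c ∈ A i then p.2 c - p.1 i else 0
      map_add' := by
        intro p q
        funext i c
        by_cases h : c ∈ A i
        · simp [h]
          ring
        · simp [h]
      map_smul' := by
        intro r p
        funext i c
        by_cases h : c ∈ A i
        · simp [h]
          ring
        · simp [h] }
  have hmem : (Pi.single i (Pi.single c 1) : Fin n → Fin d → ℝ) ∈ LinearMap.range φ := by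
    by_contra hcon
    obtain ⟨f, hf1, hf2⟩ := Submodule.exists_dual_map_eq_bot_of_notMem hcon inferInstance
    have hf0 : ∀ p, f (φ p) = 0 := by
      intro p
      have : f (φ p) ∈ Submodule.map f (LinearMap.range φ) :=
        Submodule.mem_map_of_mem (LinearMap.mem_range_self φ p)
      rw [hf2] at this
      simpa using this
    let F : Fin n → Fin d → ℝ := fun i c => f (Pi.single i (Pi.single c 1))
    have hfx : ∀ x : Fin n → Fin d → ℝ, f x = ∑ i, ∑ c, x i c * F i c := by
      intro x
      have e : x = ∑ i, ∑ c, x i c • (Pi.single i (Pi.single c 1) : Fin n → Fin d → ℝ) := by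
        funext i' c'
        simp only [Finset.sum_apply, Pi.smul_apply, smul_eq_mul]
        rw [Finset.sum_eq_single i', Finset.sum_eq_single c']
        · simp
        · intro b _ hb
          simp [Pi.single_eq_of_ne hb.symm]
        · intro h
          exact absurd (mem_univ _) h
        · intro b _ hb
          apply Finset.sum_eq_zero
          intro c _
          rw [Pi.single_eq_of_ne hb.symm]
          simp
        · intro h
          exact absurd (mem_univ _) h
      conv_lhs => rw [e]
      simp only [map_sum, map_smul, smul_eq_mul, F]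
    have hz := hfor (fun i c => if c ∈ A i then F i c else 0) (fun i c hc => by simp [hc]) ?_ ?_
    · have := congrFun (congrFun hz i) c
      simp only [hc, if_true, Pi.zero_apply] at this
      exact hf1 this
    · intro i0
      have h1 := hf0 (Pi.single i0 1, 0)
      rw [hfx] at h1
      rw [Finset.sum_eq_single i0] at h1
      · refine neg_eq_zero.1 (Eq.trans ?_ h1)
        rw [← Finset.sum_neg_distrib]
        refine Finset.sum_congr rfl fun c _ => ?_
        by_cases hcA : c ∈ A i0
        · simp [φ, hcA]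
        · simp [φ, hcA]
      · intro b _ hb
        apply Finset.sum_eq_zero
        intro c _
        by_cases hcA : c ∈ A b
        · simp [φ, hcA, Pi.single_eq_of_ne hb]
        · simp [φ, hcA]
      · intro h
        exact absurd (mem_univ _) h
    · intro c0
      have h1 := hf0 (0, Pi.single c0 1)
      rw [hfx] at h1
      refine Eq.trans ?_ h1
      refine Finset.sum_congr rfl fun i _ => ?_
      rw [Finset.sum_eq_single c0]
      · by_cases hcA : c0 ∈ A i
        · simp [φ, hcA]
        · simp [φ, hcA]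
      · intro b _ hb
        by_cases hcA : b ∈ A i
        · simp [φ, hcA, Pi.single_eq_of_ne hb]
        · simp [φ, hcA]
      · intro h
        exact absurd (mem_univ _) h
  obtain ⟨⟨a, b⟩, hab⟩ := hmem
  have hval : ∀ i' c', c' ∈ A i' → b c' - a i' = if i' = i ∧ c' = c then 1 else 0 := by
    intro i' c' h
    have h1 := congrFun (congrFun hab i') c'
    have h2 : φ (a, b) i' c' = b c' - a i' := by
      simp [φ, h]
    rw [h2] at h1
    rw [h1]
    by_cases hi : i' = i
    · subst hi
      by_cases hcc : c' = c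
      · subst hcc
        simp
      · simp [hcc]
    · simp [hi]
  refine ⟨univ.filter (fun i' => b c ≤ a i'), univ.filter (fun c' => b c ≤ b c'), by simp, ?_, ?_⟩
  · simp only [Finset.mem_filter, Finset.mem_univ, true_and, not_le]
    have := hval i c hc
    simp only [and_self, if_true] at this
    linarith
  · intro i' c' h hne
    have h1 := hval i' c' h
    rw [if_neg hne] at h1
    have h2 : b c' = a i' := by linarith
    simp only [Finset.mem_filter, Finset.mem_univ, true_and, h2]

theorem reg_cut_value {n d : ℕ} {A : Fin n → Finset (Fin d)} {i : Fin n} {c : Fin d}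
    {RL : Finset (Fin n)} {RC : Finset (Fin d)} (hcR : c ∈ RC) (hiR : i ∉ RL)
    (hR : ∀ i' c', c' ∈ A i' → ¬ (i' = i ∧ c' = c) → (i' ∈ RL ↔ c' ∈ RC))
    (g : Fin n → Fin d → ℝ) (hs : ∀ i c, c ∉ A i → g i c = 0) :
    g i c = (∑ c' ∈ RC, ∑ i', g i' c') - ∑ i' ∈ RL, ∑ c', g i' c' := by
  classical
  have e1 : ∑ c' ∈ RC, ∑ i', g i' c' = ∑ i', ∑ c', (if c' ∈ RC then g i' c' else 0) := by
    rw [Finset.sum_comm]
    refine Finset.sum_congr rfl fun i' _ => ?_
    rw [Finset.sum_ite_mem, Finset.univ_inter]
  have e2 : ∑ i' ∈ RL, ∑ c', g i' c' = ∑ i', ∑ c', (if i' ∈ RL then g i' c' else 0) := by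
    have : ∀ i', ∑ c', (if i' ∈ RL then g i' c' else 0) =
        if i' ∈ RL then ∑ c', g i' c' else 0 := by
      intro i'
      split_ifs <;> simp
    simp only [this]
    rw [Finset.sum_ite_mem, Finset.univ_inter]
  rw [e1, e2, ← Finset.sum_sub_distrib]
  simp only [← Finset.sum_sub_distrib]
  rw [Finset.sum_eq_single i, Finset.sum_eq_single c]
  · simp [hcR, hiR]
  · intro c' _ hne
    by_cases hA : c' ∈ A i
    · have := hR i c' hA (fun h => hne h.2)
      by_cases h1 : i ∈ RL
      · exact absurd h1 hiR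
      · have h2 : c' ∉ RC := fun h => h1 (this.2 h)
        simp [h1, h2]
    · simp [hs i c' hA]
  · intro h
    exact absurd (mem_univ _) h
  · intro i' _ hne
    apply Finset.sum_eq_zero
    intro c' _
    by_cases hA : c' ∈ A i'
    · have := hR i' c' hA (fun h => hne h.1)
      by_cases h1 : i' ∈ RL
      · simp [h1, this.1 h1]
      · have h2 : c' ∉ RC := fun h => h1 (this.2 h)
        simp [h1, h2]
    · simp [hs i' c' hA]
  · intro h
    exact absurd (mem_univ _) h

end Pool.Agent.Helper28.SO
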