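import Pool.Agent.Helper28.SP.WalkMain
import Pool.Agent.Helper28.SP.RegTree

set_option autoImplicit false

/-! The space of marginals and the flows on a spanning tree. -/

namespace Pool.Agent.Helper28.SO

open Finset

/-- total row mass minus total column mass -/
def sdiff' (n d : ℕ) : ((Fin n → ℝ) × (Fin d → ℝ)) →ₗ[ℝ] ℝ where
  toFun z := ∑ i, z.1 i - ∑ c, z.2 c
  map_add' x y := by
    simp only [Prod.fst_add, Prod.snd_add, Pi.add_apply, sum_add_distrib]
    ring
  map_smul' r x := by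
    simp only [Prod.smul_fst, Prod.smul_snd, Pi.smul_apply, smul_eq_mul, RingHom.id_apply,
      ← mul_sum]
    ring

/-- the space of pairs of marginals -/
def V0 (n d : ℕ) : Submodule ℝ ((Fin n → ℝ) × (Fin d → ℝ)) := LinearMap.ker (sdiff' n d)

theorem mem_V0 {n d : ℕ} (z : (Fin n → ℝ) × (Fin d → ℝ)) :
    z ∈ V0 n d ↔ ∑ i, z.1 i = ∑ c, z.2 c := by
  unfold V0
  rw [LinearMap.mem_ker]
  show ∑ i, z.1 i - ∑ c, z.2 c = 0 ↔ _
  exact sub_eq_zero

theorem finrank_V0 {n d : ℕ} (hn : 1 ≤ n) : Module.finrank ℝ (V0 n d) = n + d - 1 := by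
  have h1 := LinearMap.finrank_range_add_finrank_ker (sdiff' n d)
  have h2 : LinearMap.range (sdiff' n d) = ⊤ := by
    rw [LinearMap.range_eq_top]
    intro r
    refine ⟨(Pi.single (⟨0, hn⟩ : Fin n) r, 0), ?_⟩
    show ∑ i, (Pi.single (⟨0, hn⟩ : Fin n) r : Fin n → ℝ) i - ∑ c : Fin d, (0 : Fin d → ℝ) c = r
    simp
  rw [h2, finrank_top, Module.finrank_self, Module.finrank_prod,
    Module.finrank_fintype_fun_eq_card, Module.finrank_fintype_fun_eq_card, Fintype.card_fin,
    Fintype.card_fin] at h1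
  show Module.finrank ℝ (LinearMap.ker (sdiff' n d)) = n + d - 1
  omega

/-- marginals -/
def mg (n d : ℕ) : (Fin n × Fin d → ℝ) →ₗ[ℝ] V0 n d where
  toFun h := ⟨(fun i => ∑ c, h (i, c), fun c => ∑ i, h (i, c)), by
    rw [mem_V0]
    exact Finset.sum_comm (s := (univ : Finset (Fin n))) (t := (univ : Finset (Fin d)))
      (f := fun i c => h (i, c))⟩
  map_add' x y := by
    ext <;> simp [sum_add_distrib]
  map_smul' r x := by
    ext <;> simp [mul_sum]

@[simp] theorem mg_fst {n d : ℕ} (h : Fin n × Fin d → ℝ) (i : Fin n) :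
    (mg n d h).1.1 i = ∑ c, h (i, c) := rfl

@[simp] theorem mg_snd {n d : ℕ} (h : Fin n × Fin d → ℝ) (c : Fin d) :
    (mg n d h).1.2 c = ∑ i, h (i, c) := rfl

theorem mg_single_fst {n d : ℕ} (e : Fin n × Fin d) (j : Fin n) :
    (mg n d (Pi.single e 1)).1.1 j = if j = e.1 then 1 else 0 := by
  rw [mg_fst]
  split_ifs with h
  · subst h
    rw [Finset.sum_eq_single e.2]
    · rw [Prod.mk.eta, Pi.single_eq_same]
    · intro b _ hb
      rw [Pi.single_eq_of_ne]
      intro h
      exact hb (congrArg Prod.snd h)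
    · intro h
      exact absurd (mem_univ _) h
  · refine sum_eq_zero fun c _ => ?_
    rw [Pi.single_eq_of_ne]
    intro h2
    exact h (congrArg Prod.fst h2)

theorem mg_single_snd {n d : ℕ} (e : Fin n × Fin d) (j : Fin d) :
    (mg n d (Pi.single e 1)).1.2 j = if j = e.2 then 1 else 0 := by
  rw [mg_snd]
  split_ifs with h
  · subst h
    rw [Finset.sum_eq_single e.1]
    · rw [Prod.mk.eta, Pi.single_eq_same]
    · intro b _ hb
      rw [Pi.single_eq_of_ne]
      intro h
      exact hb (congrArg Prod.fst h)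
    · intro h
      exact absurd (mem_univ _) h
  · refine sum_eq_zero fun c _ => ?_
    rw [Pi.single_eq_of_ne]
    intro h2
    exact h (congrArg Prod.snd h2)

theorem V0_ext {n d : ℕ} {z w : V0 n d} (h1 : ∀ i, z.1.1 i = w.1.1 i)
    (h2 : ∀ c, z.1.2 c = w.1.2 c) : z = w :=
  Subtype.ext (Prod.ext (funext h1) (funext h2))

theorem mg_surj {n d : ℕ} (hn : 1 ≤ n) (hd : 1 ≤ d) (z : V0 n d) :
    ∃ h : Fin n × Fin d → ℝ, mg n d h = z := by
  classical
  let i0 : Fin n := ⟨0, hn⟩
  let c0 : Fin d := ⟨0, hd⟩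
  have hz := (mem_V0 z.1).1 z.2
  refine ⟨fun e => (if e.2 = c0 then z.1.1 e.1 else 0) + (if e.1 = i0 then z.1.2 e.2 else 0) -
    (if e.1 = i0 then if e.2 = c0 then ∑ c, z.1.2 c else 0 else 0), ?_⟩
  apply V0_ext
  · intro i
    simp only [mg_fst, sum_sub_distrib, sum_add_distrib, sum_ite_eq', mem_univ, if_true]
    split_ifs with h
    · simp
    · simp
  · intro c
    simp only [mg_snd, sum_sub_distrib, sum_add_distrib, sum_ite_eq', mem_univ, if_true]
    split_ifs with h
    · rw [← hz]; ring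
    · simp

/-- connected supports with a vertex in each row carry all marginals -/
theorem exists_flow' {n d : ℕ} (hn : 1 ≤ n) (hd : 1 ≤ d) (S : Finset (Fin n × Fin d))
    (hrow : ∀ i, ∃ c, (i, c) ∈ S)
    (hconn : ∀ (RL : Finset (Fin n)) (RC : Finset (Fin d)),
      (∀ e ∈ S, (e.1 ∈ RL ↔ e.2 ∈ RC)) → RC.Nonempty → RC = univ) (z : V0 n d) :
    ∃ h : Fin n × Fin d → ℝ, (∀ e, e ∉ S → h e = 0) ∧ mg n d h = z := by
  classical
  let Q : Submodule ℝ (Fin n × Fin d → ℝ) :=
    { carrier := {h | ∀ e, e ∉ S → h e = 0}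
      add_mem' := by
        intro a b ha hb e he
        rw [Pi.add_apply, ha e he, hb e he, add_zero]
      zero_mem' := fun e _ => rfl
      smul_mem' := by
        intro r a ha e he
        rw [Pi.smul_apply, ha e he, smul_zero] }
  by_contra hcon
  have hz : z ∉ Q.map (mg n d) := by
    intro hz
    obtain ⟨h, hh, he⟩ := Submodule.mem_map.1 hz
    exact hcon ⟨h, hh, he⟩
  obtain ⟨ψ, hψz, hψ⟩ := Submodule.exists_le_ker_of_notMem hz
  apply hψz
  let w : Fin n → Fin d → ℝ := fun i c => ψ (mg n d (Pi.single (i, c) 1))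
  have hwS : ∀ e ∈ S, w e.1 e.2 = 0 := by
    intro e he
    have : mg n d (Pi.single e 1) ∈ Q.map (mg n d) := by
      refine Submodule.mem_map_of_mem ?_
      intro x hx
      rw [Pi.single_eq_of_ne]
      rintro rfl
      exact hx he
    exact hψ this
  have hrel : ∀ i i' c c', w i c + w i' c' = w i' c + w i c' := by
    intro i i' c c'
    show ψ _ + ψ _ = ψ _ + ψ _
    rw [← map_add, ← map_add, ← map_add, ← map_add]
    congr 1
    apply V0_ext
    · intro j
      rw [map_add, map_add]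
      show (mg n d (Pi.single (i, c) 1)).1.1 j + (mg n d (Pi.single (i', c') 1)).1.1 j =
        (mg n d (Pi.single (i', c) 1)).1.1 j + (mg n d (Pi.single (i, c') 1)).1.1 j
      rw [mg_single_fst, mg_single_fst, mg_single_fst, mg_single_fst, add_comm]
    · intro j
      rw [map_add, map_add]
      show (mg n d (Pi.single (i, c) 1)).1.2 j + (mg n d (Pi.single (i', c') 1)).1.2 j =
        (mg n d (Pi.single (i', c) 1)).1.2 j + (mg n d (Pi.single (i, c') 1)).1.2 j
      rw [mg_single_snd, mg_single_snd, mg_single_snd, mg_single_snd]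
  let i0 : Fin n := ⟨0, hn⟩
  obtain ⟨c0, hc0⟩ := hrow i0
  have hw0 := hwS _ hc0
  dsimp only at hw0
  -- `w i c = w i c0 + w i0 c`
  have hsplit : ∀ i c, w i c = w i c0 + w i0 c := by
    intro i c
    have := hrel i i0 c c0
    rw [hw0] at this
    linarith
  have hRC := hconn (univ.filter fun i => w i c0 = 0) (univ.filter fun c => w i0 c = 0) (by
    intro e he
    simp only [mem_filter, mem_univ, true_and]
    have h1 := hwS e he
    rw [hsplit] at h1
    constructor
    · intro h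
      linarith
    · intro h
      linarith) ⟨c0, mem_filter.2 ⟨mem_univ _, hw0⟩⟩
  have hγ : ∀ c, w i0 c = 0 := by
    intro c
    have : c ∈ univ.filter fun c => w i0 c = 0 := by rw [hRC]; exact mem_univ _
    exact (mem_filter.1 this).2
  have hα : ∀ i, w i c0 = 0 := by
    intro i
    obtain ⟨c, hc⟩ := hrow i
    have h1 := hwS _ hc
    dsimp only at h1
    rw [hsplit, hγ] at h1
    linarith
  have hw : ∀ i c, w i c = 0 := by
    intro i c
    rw [hsplit, hγ, hα, add_zero]
  obtain ⟨h, rfl⟩ := mg_surj hn hd z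
  have h1 : h = ∑ e : Fin n × Fin d, h e • (Pi.single e 1 : Fin n × Fin d → ℝ) := by
    ext e
    simp [Finset.sum_apply, Pi.single_apply]
  rw [h1, map_sum, map_sum]
  refine sum_eq_zero fun e _ => ?_
  rw [map_smul, map_smul]
  show h e • w e.1 e.2 = 0
  rw [hw, smul_zero]

/-- uniqueness by counting -/
theorem unique_flow' {n d : ℕ} (hn : 1 ≤ n) (S : Finset (Fin n × Fin d))
    (hcard : S.card = n + d - 1)
    (hex : ∀ z : V0 n d, ∃ h : Fin n × Fin d → ℝ, (∀ e, e ∉ S → h e = 0) ∧ mg n d h = z)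
    (h : Fin n × Fin d → ℝ) (hs : ∀ e, e ∉ S → h e = 0) (hm : mg n d h = 0) : h = 0 := by
  classical
  let ex : (S → ℝ) →ₗ[ℝ] (Fin n × Fin d → ℝ) :=
    LinearMap.pi fun e => if he : e ∈ S then LinearMap.proj ⟨e, he⟩ else 0
  have hex1 : ∀ (f : S → ℝ) e (he : e ∈ S), ex f e = f ⟨e, he⟩ := by
    intro f e he
    simp [ex, he]
  have hex2 : ∀ (f : S → ℝ) e, e ∉ S → ex f e = 0 := by
    intro f e he
    simp [ex, he]
  have hsurj : Function.Surjective ((mg n d).comp ex) := by
    intro z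
    obtain ⟨h, h1, h2⟩ := hex z
    refine ⟨fun e => h e.1, ?_⟩
    rw [← h2, LinearMap.comp_apply]
    congr 1
    ext e
    by_cases he : e ∈ S
    · rw [hex1 _ _ he]
    · rw [hex2 _ _ he, h1 e he]
  have hinj : Function.Injective ((mg n d).comp ex) := by
    rw [LinearMap.injective_iff_surjective_of_finrank_eq_finrank]
    · exact hsurj
    · rw [Module.finrank_fintype_fun_eq_card, Fintype.card_coe, hcard, finrank_V0 hn]
  have h1 : (mg n d).comp ex (fun e => h e.1) = 0 := by
    rw [LinearMap.comp_apply, ← hm]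
    congr 1
    ext e
    by_cases he : e ∈ S
    · rw [hex1 _ _ he]
    · rw [hex2 _ _ he, hs e he]
  have h2 := hinj (h1.trans (map_zero _).symm)
  ext e
  by_cases he : e ∈ S
  · exact congrFun h2 ⟨e, he⟩
  · exact hs e he

/-- flows on a tree, as a linear map -/
theorem exists_fl {n d : ℕ} (S : Finset (Fin n × Fin d))
    (hex : ∀ z : V0 n d, ∃ h : Fin n × Fin d → ℝ, (∀ e, e ∉ S → h e = 0) ∧ mg n d h = z)
    (hun : ∀ h : Fin n × Fin d → ℝ, (∀ e, e ∉ S → h e = 0) → mg n d h = 0 → h = 0) :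
    ∃ fl : V0 n d →ₗ[ℝ] (Fin n × Fin d → ℝ), (∀ z e, e ∉ S → fl z e = 0) ∧
      (∀ z, mg n d (fl z) = z) ∧
      ∀ h : Fin n × Fin d → ℝ, (∀ e, e ∉ S → h e = 0) → fl (mg n d h) = h := by
  classical
  choose f hf1 hf2 using hex
  have huniq : ∀ h h' : Fin n × Fin d → ℝ, (∀ e, e ∉ S → h e = 0) → (∀ e, e ∉ S → h' e = 0) →
      mg n d h = mg n d h' → h = h' := by
    intro h h' h1 h2 h3
    have := hun (h - h') (fun e he => by rw [Pi.sub_apply, h1 e he, h2 e he, sub_zero])
      (by rw [map_sub, h3, sub_self])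
    exact sub_eq_zero.1 this
  refine ⟨{ toFun := f
            map_add' := ?_
            map_smul' := ?_ }, hf1, hf2, ?_⟩
  · intro x y
    apply huniq
    · exact hf1 _
    · intro e he
      rw [Pi.add_apply, hf1 x e he, hf1 y e he, add_zero]
    · rw [map_add, hf2, hf2, hf2]
  · intro r x
    apply huniq
    · exact hf1 _
    · intro e he
      rw [RingHom.id_apply, Pi.smul_apply, hf1 x e he, smul_zero]
    · rw [RingHom.id_apply, map_smul, hf2, hf2]
  · intro h hs
    exact huniq _ _ (hf1 _) hs (hf2 _)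

end Pool.Agent.Helper28.SO
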