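import Pool.Agent.Helper28.SP.CoverNat
import Pool.Agent.Helper28.SP.RegTree
import Pool.Agent.Helper28.SP.Merge

set_option autoImplicit false

/-! The matchings contained in the trees of a compatible family: existence, uniqueness, linkage. -/

namespace Pool.Agent.Helper28.SO

open Finset

/-- the pairs of `M` lie in one tree of the family -/
def InT {n d : ℕ} (T : (Fin d → ℕ) → Fin n → Finset (Fin d)) (M : List (Fin n × Fin d)) : Prop :=
  ∃ u : Fin d → ℕ, ∑ c, u c = n - 1 ∧ ∀ p ∈ M, p.2 ∈ T u p.1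

theorem InT.mono {n d : ℕ} {T : (Fin d → ℕ) → Fin n → Finset (Fin d)}
    {M M' : List (Fin n × Fin d)} (h : InT T M) (hsub : ∀ p ∈ M', p ∈ M) : InT T M' := by
  obtain ⟨u, hu, h1⟩ := h
  exact ⟨u, hu, fun p hp => h1 p (hsub p hp)⟩

theorem sum_count_fst {n d : ℕ} (M : List (Fin n × Fin d)) (i : Fin n) :
    ∑ c, M.count (i, c) = (M.map Prod.fst).count i := by
  induction M with
  | nil => simp
  | cons q M ih =>
    simp only [List.count_cons, List.map_cons, Finset.sum_add_distrib, ih]
    congr 1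
    obtain ⟨q1, q2⟩ := q
    by_cases h : q1 = i
    · subst h
      simp only [Prod.mk.injEq, beq_iff_eq, true_and]
      rw [Finset.sum_ite_eq]
      simp
    · simp [h]

theorem sum_count_snd {n d : ℕ} (M : List (Fin n × Fin d)) (c : Fin d) :
    ∑ i, M.count (i, c) = (M.map Prod.snd).count c := by
  induction M with
  | nil => simp
  | cons q M ih =>
    simp only [List.count_cons, List.map_cons, Finset.sum_add_distrib, ih]
    congr 1
    obtain ⟨q1, q2⟩ := q
    by_cases h : q2 = c
    · subst h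
      simp only [Prod.mk.injEq, beq_iff_eq, and_true]
      rw [Finset.sum_ite_eq]
      simp
    · simp [h]

theorem InT.unique {n d : ℕ} {T : (Fin d → ℕ) → Fin n → Finset (Fin d)} (hT : TreeFam n d T)
    {M M' : List (Fin n × Fin d)} (h : InT T M) (h' : InT T M')
    (h1 : (M.map Prod.fst).Perm (M'.map Prod.fst))
    (h2 : (M.map Prod.snd).Perm (M'.map Prod.snd)) (p : Fin n × Fin d) (hp : p ∈ M)
    (hp' : p ∉ M') : False := by
  classical
  obtain ⟨u, hu, hM⟩ := h
  obtain ⟨u', hu', hM'⟩ := h'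
  have key := hT.compat u u' hu hu' (fun i c => (M.count (i, c) : ℝ))
    (fun i c => (M'.count (i, c) : ℝ)) (fun i c => Nat.cast_nonneg _)
    (fun i c => Nat.cast_nonneg _)
    (fun i c hc => by
      rw [Nat.cast_eq_zero, List.count_eq_zero]
      exact fun h => hc (hM _ h))
    (fun i c hc => by
      rw [Nat.cast_eq_zero, List.count_eq_zero]
      exact fun h => hc (hM' _ h))
    (fun i => by
      rw [← Nat.cast_sum, ← Nat.cast_sum, sum_count_fst, sum_count_fst, h1.count_eq])
    (fun c => by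
      rw [← Nat.cast_sum, ← Nat.cast_sum, sum_count_snd, sum_count_snd, h2.count_eq])
  have h3 := congrFun (congrFun key p.1) p.2
  simp only [Nat.cast_inj] at h3
  have h4 : M'.count (p.1, p.2) = 0 := by
    rw [List.count_eq_zero]
    exact hp'
  rw [h4, List.count_eq_zero] at h3
  exact h3 hp

theorem TreeFam.int_flow {n d : ℕ} (hn : 1 ≤ n) (hd : 1 ≤ d)
    {T : (Fin d → ℕ) → Fin n → Finset (Fin d)} (hT : TreeFam n d T) (y : Fin n → ℕ)
    (x : Fin d → ℕ) (hyx : ∑ i, y i = ∑ c, x c) :
    ∃ u : Fin d → ℕ, ∑ c, u c = n - 1 ∧ ∃ g : Fin n → Fin d → ℕ,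
      (∀ i c, c ∉ T u i → g i c = 0) ∧ (∀ i, ∑ c, g i c = y i) ∧ ∀ c, ∑ i, g i c = x c := by
  classical
  rcases Nat.eq_zero_or_pos (∑ i, y i) with h0 | hpos
  · refine ⟨fun c => if c = ⟨0, hd⟩ then n - 1 else 0, by simp, fun _ _ => 0,
      fun _ _ _ => rfl, ?_, ?_⟩
    · intro i
      have := (Finset.sum_eq_zero_iff.1 h0) i (mem_univ i)
      simp [this]
    · intro c
      rw [hyx] at h0
      have := (Finset.sum_eq_zero_iff.1 h0) c (mem_univ c)
      simp [this]
  · obtain ⟨u, hu, g, g1, g2, g3, g4⟩ := covering_nat hn hd T hT y (∑ i, y i) rfl hpos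
      (fun c => (x c : ℝ)) (fun c => Nat.cast_nonneg _) (by rw [hyx, Nat.cast_sum])
    have hint : ∀ i c, ∃ m : ℕ, g i c = m := by
      intro i c
      by_cases hc : c ∈ T u i
      · obtain ⟨RL, RC, h1, h2, h3⟩ := reg_cut (T u) (fun h a b c => hT.zero u hu h a b c) i c hc
        have hval := reg_cut_value h1 h2 h3 g g2
        simp only [g3, g4] at hval
        rw [← Nat.cast_sum, ← Nat.cast_sum] at hval
        have hge := g1 i c
        rw [hval, sub_nonneg, Nat.cast_le] at hge
        exact ⟨_, by rw [hval, ← Nat.cast_sub hge]⟩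
      · exact ⟨0, by rw [g2 i c hc, Nat.cast_zero]⟩
    choose m hm using hint
    refine ⟨u, hu, m, ?_, ?_, ?_⟩
    · intro i c hc
      have := g2 i c hc
      rw [hm, Nat.cast_eq_zero] at this
      exact this
    · intro i
      have := g3 i
      simp only [hm] at this
      exact_mod_cast this
    · intro c
      have := g4 c
      simp only [hm] at this
      exact_mod_cast this

theorem sum_count_filter {α : Type*} [DecidableEq α] (S : Finset α) (L : List α) :
    ∑ a ∈ S, L.count a = (L.filter (fun a => decide (a ∈ S))).length := by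
  induction L with
  | nil => simp
  | cons q L ih =>
    simp only [List.count_cons, Finset.sum_add_distrib, ih, List.filter_cons]
    have e : ∑ a ∈ S, (if (q == a) = true then 1 else 0) = if q ∈ S then 1 else 0 := by
      simp only [beq_iff_eq]
      rw [Finset.sum_ite_eq]
    rw [e]
    by_cases h : q ∈ S
    · simp [h]
    · simp [h]

theorem TreeFam.exists_matching {n d : ℕ} (hn : 1 ≤ n) (hd : 1 ≤ d)
    {T : (Fin d → ℕ) → Fin n → Finset (Fin d)} (hT : TreeFam n d T) (I : List (Fin n))
    (J : List (Fin d)) (hI : I.Nodup) (hJ : J.Nodup) (hIJ : I.length = J.length) :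
    ∃ f : Fin n → Fin d, (I.map f).Perm J ∧ InT T (I.map (fun i => (i, f i))) := by
  classical
  obtain ⟨u, hu, g, g1, g2, g3⟩ := hT.int_flow hn hd (fun i => I.count i) (fun c => J.count c)
    (by
      rw [sum_count_filter, sum_count_filter]
      simpa using hIJ)
  have hex : ∀ i, ∃ c, i ∈ I → c ∈ T u i ∧ 1 ≤ g i c := by
    intro i
    by_cases hi : i ∈ I
    · have h1 : 1 ≤ ∑ c, g i c := by
        rw [g2]
        exact List.one_le_count_iff.2 hi
      by_contra hcon
      push Not at hcon
      have h2 : ∑ c, g i c = 0 := by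
        apply Finset.sum_eq_zero
        intro c _
        by_cases hc : c ∈ T u i
        · have := (hcon c).2 hc
          omega
        · exact g1 i c hc
      omega
    · exact ⟨⟨0, hd⟩, fun h => absurd h hi⟩
  choose f hf using hex
  refine ⟨f, ?_, u, hu, ?_⟩
  · have hfJ : ∀ i ∈ I, f i ∈ J := by
      intro i hi
      rw [← List.one_le_count_iff, ← g3 (f i)]
      exact le_trans (hf i hi).2 (Finset.single_le_sum (f := fun i' => g i' (f i))
        (fun i' _ => Nat.zero_le _) (mem_univ i))
    have hinj : ∀ i ∈ I, ∀ j ∈ I, f i = f j → i = j := by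
      intro i hi j hj hij
      by_contra hne
      have h1 : ∑ i' ∈ ({i, j} : Finset (Fin n)), g i' (f i) ≤ ∑ i', g i' (f i) :=
        Finset.sum_le_sum_of_subset (subset_univ _)
      rw [Finset.sum_pair hne, g3] at h1
      have h2 := (hf i hi).2
      have h3 := (hf j hj).2
      rw [← hij] at h3
      have h4 := List.nodup_iff_count_le_one.1 hJ (f i)
      omega
    have hnd : (I.map f).Nodup := hI.map_on hinj
    have hsp : (I.map f).Subperm J := hnd.subperm (by
      intro c hc
      obtain ⟨i, hi, rfl⟩ := List.mem_map.1 hc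
      exact hfJ i hi)
    exact hsp.perm_of_length_le (by rw [List.length_map, hIJ])
  · intro p hp
    obtain ⟨i, hi, rfl⟩ := List.mem_map.1 hp
    exact (hf i hi).1

theorem InT.of_flow {n d : ℕ} (hn : 1 ≤ n) (hd : 1 ≤ d)
    {T : (Fin d → ℕ) → Fin n → Finset (Fin d)} (hT : TreeFam n d T)
    {M : List (Fin n × Fin d)} (hM : InT T M) (u : Fin d → ℕ) (hu : ∑ c, u c = n - 1)
    (g : Fin n → Fin d → ℕ) (hg : ∀ i c, c ∉ T u i → g i c = 0)
    (hcut : ∀ (RL : Finset (Fin n)) (RC : Finset (Fin d)),
      ∑ c ∈ RC, (M.map Prod.snd).count c < ∑ i ∈ RL, (M.map Prod.fst).count i →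
      ∑ c ∈ RC, ∑ i, g i c < ∑ i ∈ RL, ∑ c, g i c) :
    ∀ p ∈ M, p.2 ∈ T u p.1 := by
  classical
  have hsum : ∑ i, (((M.map Prod.fst).count i : ℕ) : ℝ) =
      ∑ c, (((M.map Prod.snd).count c : ℕ) : ℝ) := by
    rw [← Nat.cast_sum, ← Nat.cast_sum, sum_count_filter, sum_count_filter]
    simp
  obtain ⟨h, s1, s2, s3⟩ := hT.exists_flow hn hd u hu _ _ hsum
  have hpos : ∀ i c, 0 ≤ h i c := by
    intro i c
    by_cases hc : c ∈ T u i
    · obtain ⟨RL, RC, h1, h2, h3⟩ := reg_cut (T u) (fun h a b c => hT.zero u hu h a b c) i c hc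
      have hval := reg_cut_value h1 h2 h3 h s1
      have hval2 := reg_cut_value h1 h2 h3 (fun i c => (g i c : ℝ))
        (fun i c hc => by rw [hg i c hc, Nat.cast_zero])
      simp only [s2, s3] at hval
      rw [← Nat.cast_sum, ← Nat.cast_sum] at hval
      simp only [← Nat.cast_sum] at hval2
      have hge : (0 : ℝ) ≤ (g i c : ℝ) := Nat.cast_nonneg _
      rw [hval2, sub_nonneg, Nat.cast_le] at hge
      rw [hval, sub_nonneg, Nat.cast_le]
      by_contra hlt
      have := hcut RL RC (by omega)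
      omega
    · rw [s1 i c hc]
  obtain ⟨u', hu', hM'⟩ := hM
  have key := hT.compat u u' hu hu' h (fun i c => (M.count (i, c) : ℝ)) hpos
    (fun i c => Nat.cast_nonneg _) s1
    (fun i c hc => by
      rw [Nat.cast_eq_zero, List.count_eq_zero]
      exact fun h => hc (hM' _ h))
    (fun i => by rw [← Nat.cast_sum, sum_count_fst, s2])
    (fun c => by rw [← Nat.cast_sum, sum_count_snd, s3])
  intro p hp
  by_contra hcon
  have h1 := s1 p.1 p.2 hcon
  rw [key] at h1
  rw [Nat.cast_eq_zero, List.count_eq_zero] at h1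
  exact h1 hp

/-- right linkage -/
theorem InT.link_right {n d : ℕ} (hn : 1 ≤ n) (hd : 1 ≤ d)
    {T : (Fin d → ℕ) → Fin n → Finset (Fin d)} (hT : TreeFam n d T)
    {M : List (Fin n × Fin d)} (hM : InT T M) (hM0 : M ≠ []) (c : Fin d)
    (hc : c ∉ M.map Prod.snd) : ∃ p ∈ M, InT T ((p.1, c) :: M) := by
  classical
  have hk : 1 ≤ M.length := List.length_pos_iff.2 hM0
  obtain ⟨u, hu, g, g1, g2, g3⟩ := hT.int_flow hn hd
    (fun i => (M.length + 2) * (M.map Prod.fst).count i)
    (fun c' => (M.length + 1) * (M.map Prod.snd).count c' + if c' = c then M.length else 0)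
    (by
      rw [← Finset.mul_sum, Finset.sum_add_distrib, ← Finset.mul_sum, sum_count_filter,
        sum_count_filter]
      simp
      ring)
  have hMu := hM.of_flow hn hd hT u hu g g1 (by
    intro RL RC hlt
    simp only [g2, g3]
    rw [← Finset.mul_sum, Finset.sum_add_distrib, ← Finset.mul_sum, Finset.sum_ite_eq']
    have h1 : (M.length + 2) * (∑ c ∈ RC, (M.map Prod.snd).count c + 1) ≤
        (M.length + 2) * ∑ i ∈ RL, (M.map Prod.fst).count i := Nat.mul_le_mul_left _ hlt
    have h2 : (M.length + 2) * (∑ c ∈ RC, (M.map Prod.snd).count c + 1) =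
        (M.length + 1) * (∑ c ∈ RC, (M.map Prod.snd).count c) +
        (∑ c ∈ RC, (M.map Prod.snd).count c) + M.length + 2 := by ring
    split_ifs <;> omega)
  have hcs : 1 ≤ ∑ i, g i c := by
    rw [g3, if_pos rfl]
    omega
  obtain ⟨i, -, hi⟩ : ∃ i ∈ (univ : Finset (Fin n)), g i c ≠ 0 := by
    by_contra hcon
    push Not at hcon
    rw [Finset.sum_eq_zero hcon] at hcs
    omega
  have hcT : c ∈ T u i := by
    by_contra h
    exact hi (g1 i c h)
  have hiM : i ∈ M.map Prod.fst := by
    have h1 : g i c ≤ ∑ c', g i c' :=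
      Finset.single_le_sum (f := fun c' => g i c') (fun _ _ => Nat.zero_le _) (mem_univ c)
    rw [g2] at h1
    rw [← List.one_le_count_iff]
    rcases Nat.eq_zero_or_pos ((M.map Prod.fst).count i) with h2 | h2
    · rw [h2, mul_zero] at h1
      omega
    · exact h2
  obtain ⟨p, hp, rfl⟩ := List.mem_map.1 hiM
  refine ⟨p, hp, u, hu, ?_⟩
  intro q hq
  rcases List.mem_cons.1 hq with rfl | hq
  · exact hcT
  · exact hMu q hq

/-- left linkage -/
theorem InT.link_left {n d : ℕ} (hn : 1 ≤ n) (hd : 1 ≤ d)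
    {T : (Fin d → ℕ) → Fin n → Finset (Fin d)} (hT : TreeFam n d T)
    {M : List (Fin n × Fin d)} (hM : InT T M) (hM0 : M ≠ []) (i : Fin n)
    (hi : i ∉ M.map Prod.fst) : ∃ p ∈ M, InT T ((i, p.2) :: M) := by
  classical
  have hk : 1 ≤ M.length := List.length_pos_iff.2 hM0
  obtain ⟨u, hu, g, g1, g2, g3⟩ := hT.int_flow hn hd
    (fun i' => (M.length + 1) * (M.map Prod.fst).count i' + if i' = i then M.length else 0)
    (fun c => (M.length + 2) * (M.map Prod.snd).count c)
    (by
      rw [← Finset.mul_sum, Finset.sum_add_distrib, ← Finset.mul_sum, sum_count_filter,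
        sum_count_filter]
      simp
      ring)
  have hMu := hM.of_flow hn hd hT u hu g g1 (by
    intro RL RC hlt
    simp only [g2, g3]
    rw [← Finset.mul_sum, Finset.sum_add_distrib, ← Finset.mul_sum, Finset.sum_ite_eq']
    have h0 : ∑ c ∈ RC, (M.map Prod.snd).count c ≤ M.length := by
      rw [sum_count_filter]
      exact (List.length_filter_le _ _).trans (by simp)
    have h1 : (M.length + 1) * (∑ c ∈ RC, (M.map Prod.snd).count c + 1) ≤
        (M.length + 1) * ∑ i ∈ RL, (M.map Prod.fst).count i := Nat.mul_le_mul_left _ hlt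
    have h2 : (M.length + 1) * (∑ c ∈ RC, (M.map Prod.snd).count c + 1) =
        (M.length + 1) * (∑ c ∈ RC, (M.map Prod.snd).count c) + M.length + 1 := by ring
    have h3 : (M.length + 2) * (∑ c ∈ RC, (M.map Prod.snd).count c) =
        (M.length + 1) * (∑ c ∈ RC, (M.map Prod.snd).count c) +
        (∑ c ∈ RC, (M.map Prod.snd).count c) := by ring
    split_ifs <;> omega)
  have hcs : 1 ≤ ∑ c, g i c := by
    rw [g2, if_pos rfl]
    omega
  obtain ⟨c, -, hc⟩ : ∃ c ∈ (univ : Finset (Fin d)), g i c ≠ 0 := by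
    by_contra hcon
    push Not at hcon
    rw [Finset.sum_eq_zero hcon] at hcs
    omega
  have hcT : c ∈ T u i := by
    by_contra h
    exact hc (g1 i c h)
  have hcM : c ∈ M.map Prod.snd := by
    have h1 : g i c ≤ ∑ i', g i' c :=
      Finset.single_le_sum (f := fun i' => g i' c) (fun _ _ => Nat.zero_le _) (mem_univ i)
    rw [g3] at h1
    rw [← List.one_le_count_iff]
    rcases Nat.eq_zero_or_pos ((M.map Prod.snd).count c) with h2 | h2
    · rw [h2, mul_zero] at h1
      omega
    · exact h2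
  obtain ⟨p, hp, rfl⟩ := List.mem_map.1 hcM
  refine ⟨p, hp, u, hu, ?_⟩
  intro q hq
  rcases List.mem_cons.1 hq with rfl | hq
  · exact hcT
  · exact hMu q hq

end Pool.Agent.Helper28.SO
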