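import Mathlib

set_option autoImplicit false

/-! A small checker for refutations by unit propagation, meant for evaluation in the kernel. -/

namespace Pool.Agent.Helper28.Rup

/-- binary tries with a number at every node -/
inductive BT where
  | leaf : BT
  | node : ℕ → BT → BT → BT

/-- lookup; `0` if absent -/
def BT.get : BT → ℕ → ℕ
  | .leaf, _ => 0
  | .node v l r, k =>
    bif Nat.beq k 0 then v else
    bif Nat.beq (k % 2) 1 then l.get (k / 2) else r.get (k / 2 - 1)

/-- evaluate a number before going on -/
def force {β : Type} (x : ℕ) (f : ℕ → β) : β :=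
  Nat.rec (motive := fun _ => β) (f 0) (fun k _ => f (Nat.succ k)) x

theorem force_eq {β : Type} (x : ℕ) (f : ℕ → β) : force x f = f x := by
  cases x <;> rfl

/-- truth of a literal -/
def LitTrue (α : ℕ → Prop) (l : ℕ) : Prop :=
  if l % 2 = 1 then ¬ α (l / 2) else α (l / 2)

/-- truth of a clause, given as a bit mask of literals -/
def ClTrue (α : ℕ → Prop) (K : ℕ) : Prop := ∃ l, K.testBit l = true ∧ LitTrue α l

theorem litTrue_neg {α : ℕ → Prop} {l : ℕ} (h : LitTrue α l) : ¬ LitTrue α (l ^^^ 1) := by
  unfold LitTrue at h ⊢
  rcases Nat.mod_two_eq_zero_or_one l with h2 | h2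
  · have e : l ^^^ 1 = l + 1 := by
      apply Nat.eq_of_testBit_eq
      intro i
      rw [Nat.testBit_xor]
      rcases i with _ | i
      · simp [Nat.testBit_zero, h2]
        omega
      · rw [Nat.testBit_succ, Nat.testBit_succ, Nat.testBit_succ]
        have : (l + 1) / 2 = l / 2 := by omega
        rw [this]
        simp
    rw [e]
    have h3 : (l + 1) % 2 = 1 := by omega
    have h4 : (l + 1) / 2 = l / 2 := by omega
    rw [if_neg (by omega)] at h
    rw [if_pos h3, h4]
    exact not_not.2 h
  · have e : l ^^^ 1 = l - 1 := by
      apply Nat.eq_of_testBit_eq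
      intro i
      rw [Nat.testBit_xor]
      rcases i with _ | i
      · simp [Nat.testBit_zero, h2]
        omega
      · rw [Nat.testBit_succ, Nat.testBit_succ, Nat.testBit_succ]
        have : (l - 1) / 2 = l / 2 := by omega
        rw [this]
        simp
    rw [e]
    have h3 : (l - 1) % 2 = 0 := by omega
    have h4 : (l - 1) / 2 = l / 2 := by omega
    rw [if_pos h2] at h
    rw [if_neg (by omega), h4]
    exact h

theorem eq_two_pow_of_land : ∀ (R l : ℕ), R.testBit l = true → R &&& (R - 1) = 0 →
    R = 2 ^ l := by
  intro R
  induction R using Nat.strong_induction_on with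
  | _ R ih =>
    intro l hl h
    have hR : R ≠ 0 := by
      rintro rfl
      simp at hl
    have h2 := congrArg (fun x => x / 2) h
    simp only [Nat.zero_div, Nat.and_div_two] at h2
    rcases Nat.mod_two_eq_zero_or_one R with hm | hm
    · rcases l with _ | l
      · rw [Nat.testBit_zero, hm] at hl
        simp at hl
      · rw [Nat.testBit_succ] at hl
        have e : (R - 1) / 2 = R / 2 - 1 := by omega
        rw [e] at h2
        have h3 := ih (R / 2) (by omega) l hl h2
        rw [pow_succ, ← h3]
        omega
    · have e : (R - 1) / 2 = R / 2 := by omega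
      rw [e, Nat.and_self] at h2
      have hR1 : R = 1 := by omega
      subst hR1
      rcases l with _ | l
      · rfl
      · rw [Nat.testBit_succ] at hl
        simp at hl

theorem two_pow_mod_three (l : ℕ) : 2 ^ l % 3 = if l % 2 = 0 then 1 else 2 := by
  induction l with
  | zero => rfl
  | succ l ih =>
    rw [pow_succ, Nat.mul_mod, ih]
    rcases Nat.mod_two_eq_zero_or_one l with h | h
    · rw [if_pos h, if_neg (by omega)]
    · rw [if_neg (by omega), if_pos (by omega)]

theorem xor_one_eq (l : ℕ) : l ^^^ 1 = if l % 2 = 0 then l + 1 else l - 1 := by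
  apply Nat.eq_of_testBit_eq
  intro i
  rw [Nat.testBit_xor]
  rcases Nat.mod_two_eq_zero_or_one l with h2 | h2
  · rw [if_pos h2]
    rcases i with _ | i
    · simp [Nat.testBit_zero, h2]
      omega
    · rw [Nat.testBit_succ, Nat.testBit_succ, Nat.testBit_succ]
      have : (l + 1) / 2 = l / 2 := by omega
      rw [this]
      simp
  · rw [if_neg (by omega)]
    rcases i with _ | i
    · simp [Nat.testBit_zero, h2]
      omega
    · rw [Nat.testBit_succ, Nat.testBit_succ, Nat.testBit_succ]
      have : (l - 1) / 2 = l / 2 := by omega
      rw [this]
      simp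

/-- unit propagation along the hints (packed in base `2 ^ 20`), only clauses before `i` -/
def prop (db : BT) (i : ℕ) : ℕ → ℕ → ℕ → Bool
  | 0, _, _ => false
  | f + 1, code, F =>
    force code fun code => force F fun F => force (code % 1048576) fun h =>
    bif Nat.ble i h then false else
    force (db.get h) fun K =>
    force (Nat.xor K (Nat.land K F)) fun R =>
    bif Nat.beq R 0 then true else
    bif Nat.beq (Nat.land R (Nat.sub R 1)) 0 then
      prop db i f (code / 1048576)
        (Nat.lor F (bif Nat.beq (R % 3) 1 then Nat.mul 2 R else Nat.div R 2))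
    else false

/-- all the steps -/
def run (db : BT) : List ℕ → ℕ → Bool
  | [], _ => false
  | h :: hs, i =>
    force i fun i => force (db.get i) fun K =>
    bif prop db i 1000 h K then (bif Nat.beq K 0 then true else run db hs (Nat.succ i)) else false

theorem prop_sound {α : ℕ → Prop} (db : BT) (i : ℕ) (hdb : ∀ j < i, ClTrue α (db.get j)) :
    ∀ (f code F : ℕ), (∀ l, F.testBit l = true → ¬ LitTrue α l) → prop db i f code F = true →
      False := by
  intro f
  induction f with
  | zero =>
    intro code F _ h
    simp [prop] at h
  | succ f ih =>
    intro code F hF h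
    unfold prop at h
    simp only [force_eq] at h
    rcases hb : Nat.ble i (code % 1048576) with _ | _
    · rw [hb] at h
      simp only [cond_false] at h
      have hlt : code % 1048576 < i := by
        by_contra hcon
        rw [Nat.ble_eq_true_of_le (by omega)] at hb
        exact absurd hb (by simp)
      obtain ⟨l0, hl1, hl2⟩ := hdb _ hlt
      set K := db.get (code % 1048576) with hK
      have hRl : (Nat.xor K (Nat.land K F)).testBit l0 = true := by
        have : (K ^^^ (K &&& F)).testBit l0 = true := by
          rw [Nat.testBit_xor, Nat.testBit_and, hl1]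
          rcases hFl : F.testBit l0 with _ | _
          · rfl
          · exact absurd hl2 (hF l0 hFl)
        exact this
      set R := Nat.xor K (Nat.land K F) with hR
      rcases hz : Nat.beq R 0 with _ | _
      · rw [hz] at h
        simp only [cond_false] at h
        rcases hp : Nat.beq (Nat.land R (Nat.sub R 1)) 0 with _ | _
        · rw [hp] at h
          simp at h
        · rw [hp] at h
          simp only [cond_true] at h
          have hRe : R = 2 ^ l0 := eq_two_pow_of_land R l0 hRl (Nat.eq_of_beq_eq_true hp)
          have hN : (bif Nat.beq (R % 3) 1 then Nat.mul 2 R else Nat.div R 2) =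
              2 ^ (l0 ^^^ 1) := by
            rw [xor_one_eq, hRe, two_pow_mod_three]
            rcases Nat.mod_two_eq_zero_or_one l0 with h2 | h2
            · rw [if_pos h2, if_pos h2]
              change 2 * 2 ^ l0 = _
              rw [pow_succ, mul_comm]
            · rw [if_neg (by omega), if_neg (by omega)]
              change 2 ^ l0 / 2 = _
              obtain ⟨m, rfl⟩ : ∃ m, l0 = m + 1 := ⟨l0 - 1, by omega⟩
              rw [pow_succ, Nat.mul_div_cancel _ (by norm_num), Nat.add_sub_cancel]
          rw [hN] at h
          refine ih _ _ ?_ h
          intro l hl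
          have hl' : (F ||| 2 ^ (l0 ^^^ 1)).testBit l = true := hl
          rw [Nat.testBit_or, Bool.or_eq_true] at hl'
          rcases hl' with hl | hl
          · exact hF l hl
          · have : l = l0 ^^^ 1 := by
              by_contra hne
              rw [Nat.testBit_two_pow_of_ne (Ne.symm hne)] at hl
              exact absurd hl (by simp)
            rw [this]
            exact litTrue_neg hl2
      · have := Nat.eq_of_beq_eq_true hz
        rw [this] at hRl
        simp at hRl
    · rw [hb] at h
      simp at h

theorem run_sound {α : ℕ → Prop} (db : BT) : ∀ (hs : List ℕ) (i : ℕ),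
    (∀ j < i, ClTrue α (db.get j)) → run db hs i = true → False := by
  intro hs
  induction hs with
  | nil =>
    intro i _ h
    simp [run] at h
  | cons c hs ih =>
    intro i hdb h
    unfold run at h
    simp only [force_eq] at h
    rcases hp : prop db i 1000 c (db.get i) with _ | _
    · rw [hp] at h
      simp at h
    · rw [hp] at h
      simp only [cond_true] at h
      have hK : ClTrue α (db.get i) := by
        by_contra hcon
        refine prop_sound db i hdb _ _ _ ?_ hp
        intro l hl hlt
        exact hcon ⟨l, hl, hlt⟩
      rcases hz : Nat.beq (db.get i) 0 with _ | _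
      · rw [hz] at h
        simp only [cond_false] at h
        refine ih (Nat.succ i) ?_ h
        intro j hj
        rcases Nat.lt_succ_iff_lt_or_eq.1 hj with hj | rfl
        · exact hdb j hj
        · exact hK
      · obtain ⟨l, hl, _⟩ := hK
        rw [Nat.eq_of_beq_eq_true hz] at hl
        simp at hl

end Pool.Agent.Helper28.Rup
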