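import Pool.Agent.Helper28.SP.Match
import Pool.Agent.Helper28.SP.Rup

set_option autoImplicit false

/-! Refutation certificates for `TRealized`. -/

namespace Pool.Agent.Helper28.Rup

open Pool.Agent.Helper28.SO

def memN (x : ℕ) : List ℕ → Bool
  | [] => false
  | y :: l => bif Nat.beq x y then true else memN x l

theorem memN_iff (x : ℕ) (l : List ℕ) : memN x l = true ↔ x ∈ l := by
  induction l with
  | nil => simp [memN]
  | cons y l ih =>
    unfold memN
    rcases h : Nat.beq x y with _ | _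
    · have hne : x ≠ y := Nat.ne_of_beq_eq_false h
      simp [ih, hne]
    · have := Nat.eq_of_beq_eq_true h
      simp [this]

def allN (p : ℕ → Bool) : List ℕ → Bool
  | [] => true
  | y :: l => bif p y then allN p l else false

theorem allN_iff (p : ℕ → Bool) (l : List ℕ) : allN p l = true ↔ ∀ x ∈ l, p x = true := by
  induction l with
  | nil => simp [allN]
  | cons y l ih =>
    unfold allN
    rcases h : p y with _ | _
    · simp [h]
    · simp [h, ih]

def anyN (p : ℕ → Bool) : List ℕ → Bool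
  | [] => false
  | y :: l => bif p y then true else anyN p l

theorem anyN_iff (p : ℕ → Bool) (l : List ℕ) : anyN p l = true ↔ ∃ x ∈ l, p x = true := by
  induction l with
  | nil => simp [anyN]
  | cons y l ih =>
    unfold anyN
    rcases h : p y with _ | _
    · simp [h, ih]
    · simp [h]

def eraseN (x : ℕ) : List ℕ → Option (List ℕ)
  | [] => none
  | y :: l => bif Nat.beq x y then some l else
    match eraseN x l with
    | none => none
    | some l' => some (y :: l')

theorem eraseN_perm (x : ℕ) : ∀ (l l' : List ℕ), eraseN x l = some l' → l.Perm (x :: l') := by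
  intro l
  induction l with
  | nil =>
    intro l' h
    simp [eraseN] at h
  | cons y l ih =>
    intro l' h
    unfold eraseN at h
    rcases hb : Nat.beq x y with _ | _
    · rw [hb] at h
      simp only [cond_false] at h
      rcases he : eraseN x l with _ | l''
      · rw [he] at h
        simp at h
      · rw [he] at h
        simp only [Option.some.injEq] at h
        rw [← h]
        exact ((ih _ he).cons y).trans (List.Perm.swap x y l'')
    · rw [hb] at h
      simp only [cond_true, Option.some.injEq] at h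
      rw [Nat.eq_of_beq_eq_true hb, h]

def permN : List ℕ → List ℕ → Bool
  | [], [] => true
  | [], _ :: _ => false
  | x :: l, m =>
    match eraseN x m with
    | none => false
    | some m' => permN l m'

theorem permN_perm : ∀ (l m : List ℕ), permN l m = true → l.Perm m := by
  intro l
  induction l with
  | nil =>
    intro m h
    cases m with
    | nil => exact List.Perm.refl _
    | cons y m => simp [permN] at h
  | cons x l ih =>
    intro m h
    unfold permN at h
    rcases he : eraseN x m with _ | m'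
    · rw [he] at h
      simp at h
    · rw [he] at h
      exact ((ih m' h).cons x).trans (eraseN_perm x m m' he).symm

def nodupN : List ℕ → Bool
  | [] => true
  | x :: l => bif memN x l then false else nodupN l

theorem nodupN_nodup (l : List ℕ) (h : nodupN l = true) : l.Nodup := by
  induction l with
  | nil => exact List.nodup_nil
  | cons x l ih =>
    unfold nodupN at h
    rcases hm : memN x l with _ | _
    · rw [hm] at h
      rw [List.nodup_cons]
      refine ⟨fun hx => ?_, ih h⟩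
      rw [(memN_iff x l).2 hx] at hm
      exact absurd hm (by simp)
    · rw [hm] at h
      simp at h

def digs (B : ℕ) : ℕ → ℕ → List ℕ
  | 0, _ => []
  | f + 1, c => force c fun c => bif Nat.beq c 0 then [] else
    force (c % B - 1) fun a => a :: digs B f (c / B)

/-- pairs from numbers -/
def toPair {n d : ℕ} (hn : 1 ≤ n) (hd : 1 ≤ d) (q : ℕ) : Fin n × Fin d :=
  (⟨q / d % n, Nat.mod_lt _ hn⟩, ⟨q % d, Nat.mod_lt _ hd⟩)

def bnd (n d : ℕ) (L : List ℕ) : Bool := allN (fun q => Nat.blt q (n * d)) L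

theorem bnd_lt {n d : ℕ} {L : List ℕ} (h : bnd n d L = true) : ∀ q ∈ L, q < n * d := by
  intro q hq
  have := (allN_iff _ _).1 h q hq
  simpa [Nat.blt_eq] using this

theorem toPair_inj {n d : ℕ} (hn : 1 ≤ n) (hd : 1 ≤ d) {q q' : ℕ} (hq : q < n * d)
    (hq' : q' < n * d) (h : toPair (n := n) (d := d) hn hd q = toPair hn hd q') : q = q' := by
  unfold toPair at h
  rw [Prod.mk.injEq, Fin.mk.injEq, Fin.mk.injEq] at h
  have h1 : q / d < n := Nat.div_lt_of_lt_mul (by rwa [mul_comm])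
  have h2 : q' / d < n := Nat.div_lt_of_lt_mul (by rwa [mul_comm])
  rw [Nat.mod_eq_of_lt h1, Nat.mod_eq_of_lt h2] at h
  rw [← Nat.div_add_mod q d, ← Nat.div_add_mod q' d, h.1, h.2]

def isT : List ℕ → Bool
  | [] => false
  | x :: _ => Nat.beq x 254

def eqT (k q : ℕ) : List ℕ → Bool
  | [x, k', q'] => Nat.beq x 254 && (Nat.beq k' k && Nat.beq q' q)
  | _ => false

section

variable {n d : ℕ} (hn : 1 ≤ n) (hd : 1 ≤ d) (T : (Fin d → ℕ) → Fin n → Finset (Fin d))
  (v : Fin n → Fin d → ℕ)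

def tH (k q : ℕ) : Prop :=
  (toPair (n := n) (d := d) hn hd q).2 ∈ T (v ⟨k % n, Nat.mod_lt _ hn⟩) (toPair hn hd q).1

def holdsV (L : List ℕ) : Prop :=
  if isT L = true then tH hn hd T v (L.getD 1 0) (L.getD 2 0)
  else InT T (L.map (toPair hn hd))

theorem holdsV_M {L : List ℕ} (h : isT L = false) :
    holdsV hn hd T v L ↔ InT T (L.map (toPair hn hd)) := by
  unfold holdsV
  rw [if_neg (by rw [h]; simp)]

theorem holdsV_T {L : List ℕ} {k q : ℕ} (h : eqT k q L = true) :
    holdsV hn hd T v L ↔ tH hn hd T v k q := by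
  unfold eqT at h
  split at h
  · rename_i x k' q'
    simp only [Bool.and_eq_true] at h
    obtain ⟨h1, h2, h3⟩ := h
    have e1 := Nat.eq_of_beq_eq_true h1
    have e2 := Nat.eq_of_beq_eq_true h2
    have e3 := Nat.eq_of_beq_eq_true h3
    subst e1 e2 e3
    unfold holdsV
    rw [if_pos (by rfl)]
    rfl
  · simp at h

end

/-- `M, M'` have the same labels and the same colours but differ -/
def okUniq (n d : ℕ) (L L' : List ℕ) : Bool :=
  !(isT L) && !(isT L') && bnd n d L && bnd n d L' &&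
  permN (L.map (fun q => q / d)) (L'.map (fun q => q / d)) &&
  permN (L.map (fun q => q % d)) (L'.map (fun q => q % d)) &&
  anyN (fun q => !(memN q L')) L

def okSub (L L' : List ℕ) : Bool :=
  !(isT L) && !(isT L') && allN (fun q => memN q L) L'

theorem okUniq_sound {n d : ℕ} (hn : 1 ≤ n) (hd : 1 ≤ d)
    {T : (Fin d → ℕ) → Fin n → Finset (Fin d)} (v : Fin n → Fin d → ℕ) (hT : TreeFam n d T)
    {L L' : List ℕ} (h : okUniq n d L L' = true) (h1 : holdsV hn hd T v L)
    (h2 : holdsV hn hd T v L') : False := by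
  unfold okUniq at h
  simp only [Bool.and_eq_true, Bool.not_eq_true', anyN_iff] at h
  obtain ⟨⟨⟨⟨⟨⟨a1, a2⟩, a3⟩, a4⟩, a5⟩, a6⟩, q, hq, hq'⟩ := h
  rw [holdsV_M hn hd T v a1] at h1
  rw [holdsV_M hn hd T v a2] at h2
  refine InT.unique hT h1 h2 ?_ ?_ (toPair hn hd q) (List.mem_map.2 ⟨q, hq, rfl⟩) ?_
  · have := (permN_perm _ _ a5).map (fun x => (⟨x % n, Nat.mod_lt _ hn⟩ : Fin n))
    simpa [List.map_map, Function.comp_def, toPair] using this
  · have := (permN_perm _ _ a6).map (fun x => (⟨x % d, Nat.mod_lt _ hd⟩ : Fin d))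
    simpa [List.map_map, Function.comp_def, toPair] using this
  · intro hm
    obtain ⟨q', hq1, hq2⟩ := List.mem_map.1 hm
    have := toPair_inj hn hd (bnd_lt a4 q' hq1) (bnd_lt a3 q hq) hq2
    subst this
    rw [(memN_iff _ _).2 hq1] at hq'
    simp at hq'

theorem okSub_sound {n d : ℕ} (hn : 1 ≤ n) (hd : 1 ≤ d)
    {T : (Fin d → ℕ) → Fin n → Finset (Fin d)} (v : Fin n → Fin d → ℕ)
    {L L' : List ℕ} (h : okSub L L' = true) (h1 : holdsV hn hd T v L) :
    holdsV hn hd T v L' := by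
  unfold okSub at h
  simp only [Bool.and_eq_true, Bool.not_eq_true', allN_iff] at h
  obtain ⟨⟨a1, a2⟩, a3⟩ := h
  rw [holdsV_M hn hd T v a1] at h1
  rw [holdsV_M hn hd T v a2]
  refine h1.mono ?_
  intro p hp
  obtain ⟨q, hq, rfl⟩ := List.mem_map.1 hp
  exact List.mem_map.2 ⟨q, (memN_iff _ _).1 (a3 q hq), rfl⟩

/-- the list `L` of pairs and the colour `c` -/
def okLinkR (n d : ℕ) (L : List ℕ) (c : ℕ) (pos : List (List ℕ)) : Bool :=
  !(isT L) && !(L.isEmpty) && Nat.blt c d && !(memN c (L.map (fun q => q % d))) &&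
  allN (fun q => pos.any (fun L' => !(isT L') &&
    allN (fun q' => memN q' ((q / d * d + c) :: L)) L')) L && bnd n d L

def okLinkL (n d : ℕ) (L : List ℕ) (i : ℕ) (pos : List (List ℕ)) : Bool :=
  !(isT L) && !(L.isEmpty) && Nat.blt i n && !(memN i (L.map (fun q => q / d))) &&
  allN (fun q => pos.any (fun L' => !(isT L') &&
    allN (fun q' => memN q' ((i * d + q % d) :: L)) L')) L && bnd n d L

theorem okLinkR_sound {n d : ℕ} (hn : 1 ≤ n) (hd : 1 ≤ d)
    {T : (Fin d → ℕ) → Fin n → Finset (Fin d)} (v : Fin n → Fin d → ℕ) (hT : TreeFam n d T)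
    {L : List ℕ} {c : ℕ} {pos : List (List ℕ)} (h : okLinkR n d L c pos = true)
    (h1 : holdsV hn hd T v L) : ∃ L' ∈ pos, holdsV hn hd T v L' := by
  unfold okLinkR at h
  simp only [Bool.and_eq_true, Bool.not_eq_true', allN_iff, List.any_eq_true] at h
  obtain ⟨⟨⟨⟨⟨a1, a2⟩, a3⟩, a4⟩, a5⟩, a6⟩ := h
  rw [holdsV_M hn hd T v a1] at h1
  have hc : c < d := by simpa [Nat.blt_eq] using a3
  have hne : L ≠ [] := by
    rintro rfl
    simp at a2
  obtain ⟨p, hp, hp2⟩ := h1.link_right hn hd hT (by simpa using hne) ⟨c, hc⟩ (by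
    intro hmem
    rw [List.map_map] at hmem
    obtain ⟨q, hq, hq2⟩ := List.mem_map.1 hmem
    have : q % d = c := by
      have := congrArg Fin.val hq2
      simpa [toPair] using this
    have hm : c ∈ L.map (fun q => q % d) := List.mem_map.2 ⟨q, hq, this⟩
    rw [(memN_iff _ _).2 hm] at a4
    simp at a4)
  obtain ⟨q, hq, rfl⟩ := List.mem_map.1 hp
  obtain ⟨L', hL', b1, b2⟩ := a5 q hq
  refine ⟨L', hL', ?_⟩
  rw [holdsV_M hn hd T v b1]
  refine hp2.mono ?_
  intro p' hp'
  obtain ⟨q', hq', rfl⟩ := List.mem_map.1 hp'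
  have h3 := (memN_iff _ _).1 (b2 q' hq')
  rw [List.mem_cons] at h3 ⊢
  rcases h3 with h3 | h3
  · left
    rw [h3]
    unfold toPair
    have e1 : (q / d * d + c) / d = q / d := by
      rw [mul_comm, Nat.mul_add_div hd, Nat.div_eq_of_lt hc, add_zero]
    have e2 : (q / d * d + c) % d = c := by
      rw [mul_comm, Nat.mul_add_mod, Nat.mod_eq_of_lt hc]
    simp only [e1, e2]
  · right
    exact List.mem_map.2 ⟨q', h3, rfl⟩

theorem okLinkL_sound {n d : ℕ} (hn : 1 ≤ n) (hd : 1 ≤ d)
    {T : (Fin d → ℕ) → Fin n → Finset (Fin d)} (v : Fin n → Fin d → ℕ) (hT : TreeFam n d T)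
    {L : List ℕ} {i : ℕ} {pos : List (List ℕ)} (h : okLinkL n d L i pos = true)
    (h1 : holdsV hn hd T v L) : ∃ L' ∈ pos, holdsV hn hd T v L' := by
  unfold okLinkL at h
  simp only [Bool.and_eq_true, Bool.not_eq_true', allN_iff, List.any_eq_true] at h
  obtain ⟨⟨⟨⟨⟨a1, a2⟩, a3⟩, a4⟩, a5⟩, a6⟩ := h
  rw [holdsV_M hn hd T v a1] at h1
  have hi : i < n := by simpa [Nat.blt_eq] using a3
  have hne : L ≠ [] := by
    rintro rfl
    simp at a2
  obtain ⟨p, hp, hp2⟩ := h1.link_left hn hd hT (by simpa using hne) ⟨i, hi⟩ (by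
    intro hmem
    rw [List.map_map] at hmem
    obtain ⟨q, hq, hq2⟩ := List.mem_map.1 hmem
    have hqn : q / d < n := Nat.div_lt_of_lt_mul (by rw [mul_comm]; exact bnd_lt a6 q hq)
    have : q / d = i := by
      have := congrArg Fin.val hq2
      simpa [toPair, Nat.mod_eq_of_lt hqn] using this
    have hm : i ∈ L.map (fun q => q / d) := List.mem_map.2 ⟨q, hq, this⟩
    rw [(memN_iff _ _).2 hm] at a4
    simp at a4)
  obtain ⟨q, hq, rfl⟩ := List.mem_map.1 hp
  obtain ⟨L', hL', b1, b2⟩ := a5 q hq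
  refine ⟨L', hL', ?_⟩
  rw [holdsV_M hn hd T v b1]
  refine hp2.mono ?_
  intro p' hp'
  obtain ⟨q', hq', rfl⟩ := List.mem_map.1 hp'
  have h3 := (memN_iff _ _).1 (b2 q' hq')
  rw [List.mem_cons] at h3 ⊢
  rcases h3 with h3 | h3
  · left
    rw [h3]
    unfold toPair
    have hqd : q % d < d := Nat.mod_lt _ hd
    have e1 : (i * d + q % d) / d = i := by
      rw [mul_comm, Nat.mul_add_div hd, Nat.div_eq_of_lt hqd, add_zero]
    have e2 : (i * d + q % d) % d = q % d := by
      rw [mul_comm, Nat.mul_add_mod, Nat.mod_eq_of_lt hqd]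
    simp only [e1, e2, Nat.mod_eq_of_lt hi]
  · right
    exact List.mem_map.2 ⟨q', h3, rfl⟩

/-- all the matchings on the labels and colours of the first one of `pos` -/
def okEx (n d : ℕ) (pos : List (List ℕ)) : Bool :=
  match pos with
  | [] => false
  | L :: _ =>
    !(isT L) && bnd n d L && nodupN (L.map (fun q => q / d)) && nodupN (L.map (fun q => q % d)) &&
    (L.map (fun q => q % d)).permutations'.all (fun p =>
      pos.any (fun L' => !(isT L') && allN (fun q => memN q
        (List.zipWith (fun i c => i * d + c) (L.map (fun q => q / d)) p)) L'))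

theorem okEx_sound {n d : ℕ} (hn : 1 ≤ n) (hd : 1 ≤ d)
    {T : (Fin d → ℕ) → Fin n → Finset (Fin d)} (v : Fin n → Fin d → ℕ) (hT : TreeFam n d T)
    {pos : List (List ℕ)} (h : okEx n d pos = true) : ∃ L' ∈ pos, holdsV hn hd T v L' := by
  unfold okEx at h
  cases pos with
  | nil => simp at h
  | cons L pos' =>
    simp only [Bool.and_eq_true, Bool.not_eq_true', List.all_eq_true, List.any_eq_true,
      allN_iff] at h
    obtain ⟨⟨⟨⟨a1, a2⟩, a3⟩, a4⟩, a5⟩ := h
    have hI := nodupN_nodup _ a3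
    have hJ := nodupN_nodup _ a4
    have hlt := bnd_lt a2
    have hI' : (L.map (fun q => (⟨q / d % n, Nat.mod_lt _ hn⟩ : Fin n))).Nodup := by
      have := hI.map_on (f := fun x => (⟨x % n, Nat.mod_lt _ hn⟩ : Fin n)) (by
        intro x hx y hy hxy
        obtain ⟨q, hq, rfl⟩ := List.mem_map.1 hx
        obtain ⟨q', hq', rfl⟩ := List.mem_map.1 hy
        have h1 : q / d < n := Nat.div_lt_of_lt_mul (by rw [mul_comm]; exact hlt q hq)
        have h2 : q' / d < n := Nat.div_lt_of_lt_mul (by rw [mul_comm]; exact hlt q' hq')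
        simpa [Nat.mod_eq_of_lt h1, Nat.mod_eq_of_lt h2] using hxy)
      rwa [List.map_map] at this
    have hJ' : (L.map (fun q => (⟨q % d, Nat.mod_lt _ hd⟩ : Fin d))).Nodup := by
      have := hJ.map_on (f := fun x => (⟨x % d, Nat.mod_lt _ hd⟩ : Fin d)) (by
        intro x hx y hy hxy
        obtain ⟨q, hq, rfl⟩ := List.mem_map.1 hx
        obtain ⟨q', hq', rfl⟩ := List.mem_map.1 hy
        simpa using hxy)
      rw [List.map_map] at this
      simpa [Function.comp_def] using this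
    obtain ⟨f, hf1, hf2⟩ := hT.exists_matching hn hd _ _ hI' hJ' (by simp)
    -- the permutation of the colours, as numbers
    have hp : (L.map (fun q => (f ⟨q / d % n, Nat.mod_lt _ hn⟩).val)) ∈
        (L.map (fun q => q % d)).permutations' := by
      rw [List.mem_permutations']
      have := hf1.map Fin.val
      simpa [List.map_map, Function.comp_def] using this
    obtain ⟨L', hL', b1, b2⟩ := a5 _ hp
    refine ⟨L', hL', ?_⟩
    rw [holdsV_M hn hd T v b1]
    refine hf2.mono ?_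
    intro p hp
    obtain ⟨q', hq', rfl⟩ := List.mem_map.1 hp
    have h3 := (memN_iff _ _).1 (b2 q' hq')
    rw [List.zipWith_map, List.zipWith_self] at h3
    obtain ⟨q, hq, hqq⟩ := List.mem_map.1 h3
    rw [List.map_map]
    refine List.mem_map.2 ⟨q, hq, ?_⟩
    subst hqq
    have h1 : q / d < n := Nat.div_lt_of_lt_mul (by rw [mul_comm]; exact hlt q hq)
    have h2 : (f ⟨q / d % n, Nat.mod_lt _ hn⟩).val < d := (f _).2
    unfold toPair
    have e1 : (q / d * d + (f ⟨q / d % n, Nat.mod_lt _ hn⟩).val) / d = q / d := by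
      rw [mul_comm, Nat.mul_add_div hd, Nat.div_eq_of_lt h2, add_zero]
    have e2 : (q / d * d + (f ⟨q / d % n, Nat.mod_lt _ hn⟩).val) % d =
        (f ⟨q / d % n, Nat.mod_lt _ hn⟩).val := by
      rw [mul_comm, Nat.mul_add_mod, Nat.mod_eq_of_lt h2]
    simp only [e1, e2, Function.comp_apply, Fin.eta]

/-- some colour is seen -/
def okTex (d k j : ℕ) (pos : List (List ℕ)) : Bool :=
  allN (fun a => pos.any (fun L => eqT k (j * d + a) L)) (List.range d)

theorem okTex_sound {n d : ℕ} (hn : 1 ≤ n) (hd : 1 ≤ d)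
    {T : (Fin d → ℕ) → Fin n → Finset (Fin d)} (v : Fin n → Fin d → ℕ) (hT : TreeFam n d T)
    (hv : ∀ k, ∑ c, v k c = n - 1) {k j : ℕ}
    {pos : List (List ℕ)} (h : okTex d k j pos = true) : ∃ L' ∈ pos, holdsV hn hd T v L' := by
  unfold okTex at h
  simp only [allN_iff, List.any_eq_true, List.mem_range] at h
  obtain ⟨a, ha⟩ := hT.nonempty hn hd _ (hv ⟨k % n, Nat.mod_lt _ hn⟩) ⟨j % n, Nat.mod_lt _ hn⟩
  obtain ⟨L, hL, h1⟩ := h a.1 a.2
  refine ⟨L, hL, ?_⟩
  rw [holdsV_T hn hd T v h1]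
  unfold tH toPair
  have e1 : (j * d + a.1) / d = j := by
    rw [mul_comm, Nat.mul_add_div hd, Nat.div_eq_of_lt a.2, add_zero]
  have e2 : (j * d + a.1) % d = a.1 := by
    rw [mul_comm, Nat.mul_add_mod, Nat.mod_eq_of_lt a.2]
  simp only [e1, e2]
  exact ha

/-- two colours of the same label seen from the hole of `k` -/
def okTun (n d k q q' : ℕ) (L L' : List ℕ) : Bool :=
  eqT k q L && eqT k q' L' && Nat.blt k n && Nat.blt (q / d) n && Nat.beq (q / d) (q' / d) &&
  !(Nat.beq (q / d) k) && !(Nat.beq (q % d) (q' % d))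

theorem okTun_sound {n d : ℕ} (hn : 1 ≤ n) (hd : 1 ≤ d)
    {T : (Fin d → ℕ) → Fin n → Finset (Fin d)} (v : Fin n → Fin d → ℕ) (hT : TreeFam n d T)
    (hv : ∀ k, ∑ c, v k c = n - 1) (hvT : ∀ k, T (v k) k = Finset.univ) {k q q' : ℕ}
    {L L' : List ℕ} (h : okTun n d k q q' L L' = true) (h1 : holdsV hn hd T v L)
    (h2 : holdsV hn hd T v L') : False := by
  unfold okTun at h
  simp only [Bool.and_eq_true, Bool.not_eq_true'] at h
  obtain ⟨⟨⟨⟨⟨⟨a1, a2⟩, a3⟩, a4⟩, a5⟩, a6⟩, a7⟩ := h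
  rw [holdsV_T hn hd T v a1] at h1
  rw [holdsV_T hn hd T v a2] at h2
  have b3 : k < n := by simpa [Nat.blt_eq] using a3
  have b4 : q / d < n := by simpa [Nat.blt_eq] using a4
  have b5 := Nat.eq_of_beq_eq_true a5
  have b6 := Nat.ne_of_beq_eq_false a6
  have b7 := Nat.ne_of_beq_eq_false a7
  unfold tH toPair at h1 h2
  simp only [← b5] at h1 h2
  refine hT.swap _ _ (hv ⟨k % n, Nat.mod_lt _ hn⟩) (hv ⟨k % n, Nat.mod_lt _ hn⟩)
    ⟨q / d % n, Nat.mod_lt _ hn⟩ ⟨k % n, Nat.mod_lt _ hn⟩ ?_ ⟨q % d, Nat.mod_lt _ hd⟩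
    ⟨q' % d, Nat.mod_lt _ hd⟩ ?_ h1 ?_ h2 ?_
  · intro he
    rw [Fin.mk.injEq, Nat.mod_eq_of_lt b3, Nat.mod_eq_of_lt b4] at he
    exact b6 he
  · intro he
    rw [Fin.mk.injEq] at he
    exact b7 he
  · rw [hvT]
    exact Finset.mem_univ _
  · rw [hvT]
    exact Finset.mem_univ _

/-- the pairs seen from the hole of `k` form a tree with `k` -/
def okTM (n d k : ℕ) (neg : List (List ℕ)) (L : List ℕ) : Bool :=
  !(isT L) && bnd n d L && Nat.blt k n &&
  allN (fun q => Nat.beq (q / d) k || neg.any (fun L' => eqT k q L')) L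

theorem okTM_sound {n d : ℕ} (hn : 1 ≤ n) (hd : 1 ≤ d)
    {T : (Fin d → ℕ) → Fin n → Finset (Fin d)} (v : Fin n → Fin d → ℕ)
    (hv : ∀ k, ∑ c, v k c = n - 1) (hvT : ∀ k, T (v k) k = Finset.univ) {k : ℕ}
    {neg : List (List ℕ)} {L : List ℕ} (h : okTM n d k neg L = true)
    (h1 : ∀ L' ∈ neg, holdsV hn hd T v L') : holdsV hn hd T v L := by
  unfold okTM at h
  simp only [Bool.and_eq_true, Bool.not_eq_true', Bool.or_eq_true, allN_iff,
    List.any_eq_true] at h
  obtain ⟨⟨⟨a1, a2⟩, a3⟩, a4⟩ := h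
  have b3 : k < n := by simpa [Nat.blt_eq] using a3
  rw [holdsV_M hn hd T v a1]
  refine ⟨v ⟨k % n, Nat.mod_lt _ hn⟩, hv _, ?_⟩
  intro p hp
  obtain ⟨q, hq, rfl⟩ := List.mem_map.1 hp
  rcases a4 q hq with h2 | ⟨L', hL', h2⟩
  · have e : (toPair (n := n) (d := d) hn hd q).1 = ⟨k % n, Nat.mod_lt _ hn⟩ := by
      unfold toPair
      simp only [Nat.eq_of_beq_eq_true h2]
    rw [e, hvT]
    exact Finset.mem_univ _
  · have := h1 L' hL'
    rw [holdsV_T hn hd T v h2] at this
    exact this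

/-- too many labels seen with the colour `a` -/
def okLe (n d k a m : ℕ) (neg : List (List ℕ)) (js : List ℕ) : Bool :=
  Nat.blt a d && Nat.blt k n && nodupN js && Nat.blt m js.length &&
  allN (fun j => Nat.blt j n && !(Nat.beq j k) && neg.any (fun L => eqT k (j * d + a) L)) js

theorem okLe_sound {n d : ℕ} (hn : 1 ≤ n) (hd : 1 ≤ d)
    {T : (Fin d → ℕ) → Fin n → Finset (Fin d)} (v : Fin n → Fin d → ℕ) (hT : TreeFam n d T)
    (hv : ∀ k, ∑ c, v k c = n - 1) (hvT : ∀ k, T (v k) k = Finset.univ) {k a m : ℕ}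
    (hm : v ⟨k % n, Nat.mod_lt _ hn⟩ ⟨a % d, Nat.mod_lt _ hd⟩ = m)
    {neg : List (List ℕ)} {js : List ℕ} (h : okLe n d k a m neg js = true)
    (h1 : ∀ L' ∈ neg, holdsV hn hd T v L') : False := by
  classical
  unfold okLe at h
  simp only [Bool.and_eq_true, Bool.not_eq_true', allN_iff, List.any_eq_true] at h
  obtain ⟨⟨⟨⟨a1, a2⟩, a3⟩, a4⟩, a5⟩ := h
  have b1 : a < d := by simpa [Nat.blt_eq] using a1
  have b2 : k < n := by simpa [Nat.blt_eq] using a2
  have b4 : m < js.length := by simpa [Nat.blt_eq] using a4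
  have hpos := hT.pos _ (hv ⟨k % n, Nat.mod_lt _ hn⟩) ⟨k % n, Nat.mod_lt _ hn⟩ (hvT _)
    ⟨a % d, Nat.mod_lt _ hd⟩
  rw [hm] at hpos
  have hnd := nodupN_nodup _ a3
  have hcard : (js.map (fun j => (⟨j % n, Nat.mod_lt _ hn⟩ : Fin n))).toFinset.card =
      js.length := by
    rw [List.toFinset_card_of_nodup, List.length_map]
    refine hnd.map_on ?_
    intro x hx y hy hxy
    have h2 := (a5 x hx).1.1
    have h3 := (a5 y hy).1.1
    have h2' : x < n := by simpa [Nat.blt_eq] using h2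
    have h3' : y < n := by simpa [Nat.blt_eq] using h3
    simpa [Nat.mod_eq_of_lt h2', Nat.mod_eq_of_lt h3'] using hxy
  have hsub : (js.map (fun j => (⟨j % n, Nat.mod_lt _ hn⟩ : Fin n))).toFinset ⊆
      Finset.univ.filter (fun j => j ≠ ⟨k % n, Nat.mod_lt _ hn⟩ ∧
        (⟨a % d, Nat.mod_lt _ hd⟩ : Fin d) ∈ T (v ⟨k % n, Nat.mod_lt _ hn⟩) j) := by
    intro j hj
    rw [List.mem_toFinset] at hj
    obtain ⟨x, hx, rfl⟩ := List.mem_map.1 hj
    obtain ⟨⟨h2, h3⟩, L, hL, h4⟩ := a5 x hx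
    have h2' : x < n := by simpa [Nat.blt_eq] using h2
    rw [Finset.mem_filter]
    refine ⟨Finset.mem_univ _, ?_, ?_⟩
    · intro he
      rw [Fin.mk.injEq, Nat.mod_eq_of_lt h2', Nat.mod_eq_of_lt b2] at he
      exact Nat.ne_of_beq_eq_false h3 he
    · have h5 := h1 L hL
      rw [holdsV_T hn hd T v h4] at h5
      unfold tH toPair at h5
      have e1 : (x * d + a) / d = x := by
        rw [mul_comm, Nat.mul_add_div hd, Nat.div_eq_of_lt b1, add_zero]
      have e2 : (x * d + a) % d = a := by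
        rw [mul_comm, Nat.mul_add_mod, Nat.mod_eq_of_lt b1]
      simp only [e1, e2] at h5
      simp only [Nat.mod_eq_of_lt b1]
      exact h5
  have := Finset.card_le_card hsub
  rw [hcard, ← hpos] at this
  omega

/-- too few labels seen with the colour `a` -/
def okGe (n d k a m : ℕ) (pos : List (List ℕ)) (js : List ℕ) : Bool :=
  Nat.blt a d && Nat.blt k n && nodupN js && Nat.blt (n - 1) (m + js.length) &&
  allN (fun j => Nat.blt j n && !(Nat.beq j k) && pos.any (fun L => eqT k (j * d + a) L)) js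

theorem okGe_sound {n d : ℕ} (hn : 1 ≤ n) (hd : 1 ≤ d)
    {T : (Fin d → ℕ) → Fin n → Finset (Fin d)} (v : Fin n → Fin d → ℕ) (hT : TreeFam n d T)
    (hv : ∀ k, ∑ c, v k c = n - 1) (hvT : ∀ k, T (v k) k = Finset.univ) {k a m : ℕ}
    (hm : v ⟨k % n, Nat.mod_lt _ hn⟩ ⟨a % d, Nat.mod_lt _ hd⟩ = m)
    {pos : List (List ℕ)} {js : List ℕ} (h : okGe n d k a m pos js = true) :
    ∃ L' ∈ pos, holdsV hn hd T v L' := by
  classical
  unfold okGe at h
  simp only [Bool.and_eq_true, Bool.not_eq_true', allN_iff, List.any_eq_true] at h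
  obtain ⟨⟨⟨⟨a1, a2⟩, a3⟩, a4⟩, a5⟩ := h
  have b1 : a < d := by simpa [Nat.blt_eq] using a1
  have b2 : k < n := by simpa [Nat.blt_eq] using a2
  have b4 : n - 1 < m + js.length := by simpa [Nat.blt_eq] using a4
  by_contra hcon
  push Not at hcon
  have hpos := hT.pos _ (hv ⟨k % n, Nat.mod_lt _ hn⟩) ⟨k % n, Nat.mod_lt _ hn⟩ (hvT _)
    ⟨a % d, Nat.mod_lt _ hd⟩
  rw [hm] at hpos
  have hnd := nodupN_nodup _ a3
  have hcard : (js.map (fun j => (⟨j % n, Nat.mod_lt _ hn⟩ : Fin n))).toFinset.card =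
      js.length := by
    rw [List.toFinset_card_of_nodup, List.length_map]
    refine hnd.map_on ?_
    intro x hx y hy hxy
    have h2 := (a5 x hx).1.1
    have h3 := (a5 y hy).1.1
    have h2' : x < n := by simpa [Nat.blt_eq] using h2
    have h3' : y < n := by simpa [Nat.blt_eq] using h3
    simpa [Nat.mod_eq_of_lt h2', Nat.mod_eq_of_lt h3'] using hxy
  have hdisj : Disjoint (js.map (fun j => (⟨j % n, Nat.mod_lt _ hn⟩ : Fin n))).toFinset
      (Finset.univ.filter (fun j => j ≠ ⟨k % n, Nat.mod_lt _ hn⟩ ∧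
        (⟨a % d, Nat.mod_lt _ hd⟩ : Fin d) ∈ T (v ⟨k % n, Nat.mod_lt _ hn⟩) j)) := by
    rw [Finset.disjoint_left]
    intro j hj hj2
    rw [List.mem_toFinset] at hj
    obtain ⟨x, hx, rfl⟩ := List.mem_map.1 hj
    obtain ⟨⟨h2, h3⟩, L, hL, h4⟩ := a5 x hx
    rw [Finset.mem_filter] at hj2
    refine hcon L hL ?_
    rw [holdsV_T hn hd T v h4]
    unfold tH toPair
    have e1 : (x * d + a) / d = x := by
      rw [mul_comm, Nat.mul_add_div hd, Nat.div_eq_of_lt b1, add_zero]
    have e2 : (x * d + a) % d = a := by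
      rw [mul_comm, Nat.mul_add_mod, Nat.mod_eq_of_lt b1]
    simp only [e1, e2]
    have := hj2.2.2
    simp only [Nat.mod_eq_of_lt b1] at this
    exact this
  have hsub : (js.map (fun j => (⟨j % n, Nat.mod_lt _ hn⟩ : Fin n))).toFinset ∪
      (Finset.univ.filter (fun j => j ≠ ⟨k % n, Nat.mod_lt _ hn⟩ ∧
        (⟨a % d, Nat.mod_lt _ hd⟩ : Fin d) ∈ T (v ⟨k % n, Nat.mod_lt _ hn⟩) j)) ⊆
      Finset.univ.erase ⟨k % n, Nat.mod_lt _ hn⟩ := by
    intro j hj
    rw [Finset.mem_erase]
    refine ⟨?_, Finset.mem_univ _⟩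
    rcases Finset.mem_union.1 hj with hj | hj
    · rw [List.mem_toFinset] at hj
      obtain ⟨x, hx, rfl⟩ := List.mem_map.1 hj
      obtain ⟨⟨h2, h3⟩, -⟩ := a5 x hx
      have h2' : x < n := by simpa [Nat.blt_eq] using h2
      intro he
      rw [Fin.mk.injEq, Nat.mod_eq_of_lt h2', Nat.mod_eq_of_lt b2] at he
      exact Nat.ne_of_beq_eq_false h3 he
    · exact (Finset.mem_filter.1 hj).2.1
  have h6 := Finset.card_le_card hsub
  rw [Finset.card_union_of_disjoint hdisj, hcard, ← hpos,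
    Finset.card_erase_of_mem (Finset.mem_univ _), Finset.card_univ, Fintype.card_fin] at h6
  omega

/-! ### Clauses -/

/-- the kinds of clauses; `p` are parameters, `neg` and `pos` the meanings of the variables -/
def okCl (n d : ℕ) (vc : ℕ → ℕ → ℕ) (kind p1 p2 : ℕ) (js : List ℕ) (neg pos : List (List ℕ)) :
    Bool :=
  match kind with
  | 0 => match neg, pos with
    | [L, L'], [] => okUniq n d L L'
    | _, _ => false
  | 1 => match neg, pos with
    | [L], [L'] => okSub L L'
    | _, _ => false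
  | 2 => match neg with
    | [] => okEx n d pos
    | _ => false
  | 3 => match neg with
    | [L] => okLinkR n d L p1 pos
    | _ => false
  | 4 => match neg with
    | [L] => okLinkL n d L p1 pos
    | _ => false
  | 5 => match neg with
    | [] => okTex d p1 p2 pos
    | _ => false
  | 6 => match neg, js with
    | [L, L'], [q, q'] => okTun n d p1 q q' L L'
    | _, _ => false
  | 7 => match pos with
    | [L] => okTM n d p1 neg L
    | _ => false
  | 8 => okLe n d p1 p2 (vc p1 p2) neg js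
  | 9 => okGe n d p1 p2 (vc p1 p2) pos js
  | _ => false

theorem okCl_sound {n d : ℕ} (hn : 1 ≤ n) (hd : 1 ≤ d)
    {T : (Fin d → ℕ) → Fin n → Finset (Fin d)} (v : Fin n → Fin d → ℕ) (hT : TreeFam n d T)
    (hv : ∀ k, ∑ c, v k c = n - 1) (hvT : ∀ k, T (v k) k = Finset.univ)
    (vc : ℕ → ℕ → ℕ) (hvc : ∀ k a, vc k a = v ⟨k % n, Nat.mod_lt _ hn⟩ ⟨a % d, Nat.mod_lt _ hd⟩)
    {kind p1 p2 : ℕ} {js : List ℕ} {neg pos : List (List ℕ)}
    (h : okCl n d vc kind p1 p2 js neg pos = true) :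
    (∃ L ∈ neg, ¬ holdsV hn hd T v L) ∨ ∃ L ∈ pos, holdsV hn hd T v L := by
  by_contra hcon
  rw [not_or] at hcon
  obtain ⟨c1, c2⟩ := hcon
  push Not at c1 c2
  unfold okCl at h
  split at h
  · split at h
    · exact okUniq_sound hn hd v hT h (c1 _ (by simp)) (c1 _ (by simp))
    · simp at h
  · split at h
    · exact c2 _ (by simp) (okSub_sound hn hd v h (c1 _ (by simp)))
    · simp at h
  · split at h
    · obtain ⟨L', h1, h2⟩ := okEx_sound hn hd v hT h
      exact c2 _ h1 h2
    · simp at h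
  · split at h
    · obtain ⟨L', h1, h2⟩ := okLinkR_sound hn hd v hT h (c1 _ (by simp))
      exact c2 _ h1 h2
    · simp at h
  · split at h
    · obtain ⟨L', h1, h2⟩ := okLinkL_sound hn hd v hT h (c1 _ (by simp))
      exact c2 _ h1 h2
    · simp at h
  · split at h
    · obtain ⟨L', h1, h2⟩ := okTex_sound hn hd v hT hv h
      exact c2 _ h1 h2
    · simp at h
  · split at h
    · exact okTun_sound hn hd v hT hv hvT h (c1 _ (by simp)) (c1 _ (by simp))
    · simp at h
  · split at h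
    · exact c2 _ (by simp) (okTM_sound hn hd v hv hvT h c1)
    · simp at h
  · exact okLe_sound hn hd v hT hv hvT (hvc _ _).symm h c1
  · obtain ⟨L', h1, h2⟩ := okGe_sound hn hd v hT hv hvT (hvc _ _).symm h
    exact c2 _ h1 h2
  · simp at h

/-- the mask of a clause -/
def mkMask (neg pos : List ℕ) : ℕ :=
  List.foldr (fun l m => 2 ^ (2 * l + 1) ||| m) (List.foldr (fun l m => 2 ^ (2 * l) ||| m) 0 pos)
    neg

theorem testBit_foldr (f : ℕ → ℕ) (l : List ℕ) (m x : ℕ) :
    (List.foldr (fun l m => 2 ^ f l ||| m) m l).testBit x = true ↔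
      (∃ a ∈ l, f a = x) ∨ m.testBit x = true := by
  induction l with
  | nil => simp
  | cons a l ih =>
    rw [List.foldr_cons, Nat.testBit_or, Bool.or_eq_true, ih, Nat.testBit_two_pow]
    simp only [decide_eq_true_eq, List.mem_cons, exists_eq_or_imp, or_assoc]

theorem mkMask_testBit (neg pos : List ℕ) (x : ℕ) : (mkMask neg pos).testBit x = true ↔
    (∃ l ∈ neg, 2 * l + 1 = x) ∨ ∃ l ∈ pos, 2 * l = x := by
  unfold mkMask
  rw [testBit_foldr (fun l => 2 * l + 1), testBit_foldr (fun l => 2 * l)]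
  simp

/-- one input clause: `[kind, p1, p2, length js, js..., length neg, neg..., pos...]` in base
`4096`, every entry plus one -/
def okIn (n d : ℕ) (vc : ℕ → ℕ → ℕ) (vt : BT) (c K : ℕ) : Bool :=
  match digs 4096 200 c with
  | kind :: p1 :: p2 :: a :: rest =>
    let js := rest.take a
    match rest.drop a with
    | b :: rest' =>
      let neg := rest'.take b
      let pos := rest'.drop b
      okCl n d vc kind p1 p2 js (neg.map (fun i => digs 256 20 (vt.get i)))
        (pos.map (fun i => digs 256 20 (vt.get i))) && Nat.beq K (mkMask neg pos)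
    | [] => false
  | _ => false

def chkIn (n d : ℕ) (vc : ℕ → ℕ → ℕ) (vt db : BT) : List ℕ → ℕ → Bool
  | [], _ => true
  | c :: cs, i => force i fun i => force (db.get i) fun K =>
    bif okIn n d vc vt c K then chkIn n d vc vt db cs (Nat.succ i) else false

/-- the whole certificate -/
def chkCert (n d : ℕ) (vc : ℕ → ℕ → ℕ) (vt db : BT) (inp steps : List ℕ) : Bool :=
  bif chkIn n d vc vt db inp 0 then run db steps inp.length else false

theorem okIn_sound {n d : ℕ} (hn : 1 ≤ n) (hd : 1 ≤ d)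
    {T : (Fin d → ℕ) → Fin n → Finset (Fin d)} (v : Fin n → Fin d → ℕ) (hT : TreeFam n d T)
    (hv : ∀ k, ∑ c, v k c = n - 1) (hvT : ∀ k, T (v k) k = Finset.univ)
    (vc : ℕ → ℕ → ℕ) (hvc : ∀ k a, vc k a = v ⟨k % n, Nat.mod_lt _ hn⟩ ⟨a % d, Nat.mod_lt _ hd⟩)
    (vt : BT) (c K : ℕ) (h : okIn n d vc vt c K = true) :
    ClTrue (fun i => holdsV hn hd T v (digs 256 20 (vt.get i))) K := by
  unfold okIn at h
  split at h
  · rename_i kind p1 p2 a rest _
    simp only at h
    split at h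
    · rename_i b rest' _
      simp only [Bool.and_eq_true] at h
      obtain ⟨h1, h2⟩ := h
      have hK := Nat.eq_of_beq_eq_true h2
      rcases okCl_sound hn hd v hT hv hvT vc hvc h1 with ⟨L, hL, h3⟩ | ⟨L, hL, h3⟩
      · obtain ⟨i, hi, rfl⟩ := List.mem_map.1 hL
        refine ⟨2 * i + 1, ?_, ?_⟩
        · rw [hK, mkMask_testBit]
          exact Or.inl ⟨i, hi, rfl⟩
        · unfold LitTrue
          rw [if_pos (by omega), show (2 * i + 1) / 2 = i by omega]
          exact h3
      · obtain ⟨i, hi, rfl⟩ := List.mem_map.1 hL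
        refine ⟨2 * i, ?_, ?_⟩
        · rw [hK, mkMask_testBit]
          exact Or.inr ⟨i, hi, rfl⟩
        · unfold LitTrue
          rw [if_neg (by omega), show 2 * i / 2 = i by omega]
          exact h3
    · simp at h
  · simp at h

theorem chkIn_sound {n d : ℕ} (hn : 1 ≤ n) (hd : 1 ≤ d)
    {T : (Fin d → ℕ) → Fin n → Finset (Fin d)} (v : Fin n → Fin d → ℕ) (hT : TreeFam n d T)
    (hv : ∀ k, ∑ c, v k c = n - 1) (hvT : ∀ k, T (v k) k = Finset.univ)
    (vc : ℕ → ℕ → ℕ) (hvc : ∀ k a, vc k a = v ⟨k % n, Nat.mod_lt _ hn⟩ ⟨a % d, Nat.mod_lt _ hd⟩)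
    (vt db : BT) : ∀ (cs : List ℕ) (i : ℕ), chkIn n d vc vt db cs i = true →
      ∀ j, i ≤ j → j < i + cs.length →
      ClTrue (fun i => holdsV hn hd T v (digs 256 20 (vt.get i))) (db.get j) := by
  intro cs
  induction cs with
  | nil =>
    intro i _ j h1 h2
    simp at h2
    omega
  | cons c cs ih =>
    intro i h j h1 h2
    unfold chkIn at h
    simp only [force_eq] at h
    rcases hb : okIn n d vc vt c (db.get i) with _ | _
    · rw [hb] at h
      simp at h
    · rw [hb] at h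
      simp only [cond_true] at h
      rcases Nat.eq_or_lt_of_le h1 with rfl | hlt
      · exact okIn_sound hn hd v hT hv hvT vc hvc vt c _ hb
      · refine ih (Nat.succ i) h j hlt ?_
        rw [List.length_cons] at h2
        omega

/-- **Refutation.** -/
theorem not_tRealized {n d : ℕ} (hn : 1 ≤ n) (hd : 1 ≤ d) (v : Fin n → Fin d → ℕ)
    (vc : ℕ → ℕ → ℕ) (hvc : ∀ k a, vc k a = v ⟨k % n, Nat.mod_lt _ hn⟩ ⟨a % d, Nat.mod_lt _ hd⟩)
    (vt db : BT) (inp steps : List ℕ) (h : chkCert n d vc vt db inp steps = true) :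
    ¬ TRealized n d v := by
  rintro ⟨T, hT, hv, hvT⟩
  unfold chkCert at h
  rcases hc : chkIn n d vc vt db inp 0 with _ | _
  · rw [hc] at h
    simp at h
  · rw [hc] at h
    simp only [cond_true] at h
    refine run_sound (α := fun i => holdsV hn hd T v (digs 256 20 (vt.get i))) db steps
      inp.length ?_ h
    intro j hj
    exact chkIn_sound hn hd v hT hv hvT vc hvc vt db inp 0 hc j (Nat.zero_le _) (by omega)

end Pool.Agent.Helper28.Rup
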