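import Pool.Agent.Helper28.SP.RegTree
import Pool.Agent.Helper28.SP.Merge
import Pool.Agent.Helper19.SO.RealAux
import Pool.Agent.Helper24.SO.CardOfFinrank
import Pool.Agent.Helper30.SO.Dual
import Pool.Agent.Helper52.SO.FullDual
import Pool.Agent.Helper9.SO.ExistsWeights

set_option autoImplicit false

/-! Generic weights give compatible families of trees; ladders too. -/

namespace Pool.Agent.Helper28.SO

open Finset

theorem reg_supp {n d : ℕ} (hd : 1 ≤ d) (w : Fin n → Fin d → ℝ) (y z : Fin d → ℝ)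
    (g g' : Fin n → Fin d → ℝ) (hg : ∀ i c, 0 ≤ g i c) (hg' : ∀ i c, 0 ≤ g' i c)
    (hs : ∀ i c, c ∉ argm w y i → g i c = 0) (hs' : ∀ i c, c ∉ argm w z i → g' i c = 0)
    (hrow : ∀ i, ∑ c, g i c = ∑ c, g' i c) (hcol : ∀ c, ∑ i, g i c = ∑ i, g' i c) :
    ∀ i c, c ∉ argm w y i → g' i c = 0 := by
  classical
  have hslack : ∀ y : Fin d → ℝ, ∃ (m : Fin n → ℝ), (∀ i c, 0 ≤ w i c - y c - m i) ∧
      ∀ i c, w i c - y c - m i = 0 ↔ c ∈ argm w y i := by
    intro y
    choose k0 hk0 using fun i => argm_nonempty hd w y i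
    refine ⟨fun i => w i (k0 i) - y (k0 i), ?_, ?_⟩
    · intro i c
      have := (mem_argm w y i (k0 i)).1 (hk0 i) c
      linarith
    · intro i c
      have h1 := (mem_argm w y i (k0 i)).1 (hk0 i)
      rw [mem_argm]
      constructor
      · intro h k'
        have := h1 k'
        linarith
      · intro h
        have := h (k0 i)
        have := h1 c
        linarith
  obtain ⟨m1, p1, q1⟩ := hslack y
  obtain ⟨m2, p2, q2⟩ := hslack z
  have hδ : ∀ (y : Fin d → ℝ) (m : Fin n → ℝ),
      ∑ i, ∑ c, (w i c - y c - m i) * (g' i c - g i c) =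
      ∑ i, ∑ c, w i c * (g' i c - g i c) := by
    intro y m
    have e1 : ∑ i, ∑ c, y c * (g' i c - g i c) = 0 := by
      rw [Finset.sum_comm]
      apply Finset.sum_eq_zero
      intro c _
      rw [← Finset.mul_sum, Finset.sum_sub_distrib, hcol c, sub_self, mul_zero]
    have e2 : ∑ i, ∑ c, m i * (g' i c - g i c) = 0 := by
      apply Finset.sum_eq_zero
      intro i _
      rw [← Finset.mul_sum, Finset.sum_sub_distrib, hrow i, sub_self, mul_zero]
    have e3 : ∀ i c, (w i c - y c - m i) * (g' i c - g i c) =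
        w i c * (g' i c - g i c) - y c * (g' i c - g i c) - m i * (g' i c - g i c) := by
      intro i c
      ring
    have e4 : ∑ i, ∑ c, (w i c - y c - m i) * (g' i c - g i c) =
        (∑ i, ∑ c, w i c * (g' i c - g i c)) - (∑ i, ∑ c, y c * (g' i c - g i c)) -
        ∑ i, ∑ c, m i * (g' i c - g i c) := by
      rw [← Finset.sum_sub_distrib, ← Finset.sum_sub_distrib]
      refine Finset.sum_congr rfl fun i _ => ?_
      rw [← Finset.sum_sub_distrib, ← Finset.sum_sub_distrib]
      exact Finset.sum_congr rfl fun c _ => e3 i c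
    rw [e4, e1, e2, sub_zero, sub_zero]
  have t1 : ∀ i c, (w i c - y c - m1 i) * g i c = 0 := by
    intro i c
    by_cases h : c ∈ argm w y i
    · rw [(q1 i c).2 h, zero_mul]
    · rw [hs i c h, mul_zero]
  have t2 : ∀ i c, (w i c - z c - m2 i) * g' i c = 0 := by
    intro i c
    by_cases h : c ∈ argm w z i
    · rw [(q2 i c).2 h, zero_mul]
    · rw [hs' i c h, mul_zero]
  have s1 : ∑ i, ∑ c, (w i c - y c - m1 i) * g' i c = ∑ i, ∑ c, w i c * (g' i c - g i c) := by
    rw [← hδ y m1]
    refine Finset.sum_congr rfl fun i _ => Finset.sum_congr rfl fun c _ => ?_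
    rw [mul_sub, t1, sub_zero]
  have s2 : ∑ i, ∑ c, (w i c - z c - m2 i) * g i c = - ∑ i, ∑ c, w i c * (g' i c - g i c) := by
    rw [← hδ z m2, ← Finset.sum_neg_distrib]
    refine Finset.sum_congr rfl fun i _ => ?_
    rw [← Finset.sum_neg_distrib]
    refine Finset.sum_congr rfl fun c _ => ?_
    rw [mul_sub, t2, zero_sub, neg_neg]
  have n1 : 0 ≤ ∑ i, ∑ c, (w i c - y c - m1 i) * g' i c :=
    Finset.sum_nonneg fun i _ => Finset.sum_nonneg fun c _ => mul_nonneg (p1 i c) (hg' i c)
  have n2 : 0 ≤ ∑ i, ∑ c, (w i c - z c - m2 i) * g i c :=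
    Finset.sum_nonneg fun i _ => Finset.sum_nonneg fun c _ => mul_nonneg (p2 i c) (hg i c)
  have z1 : ∑ i, ∑ c, (w i c - y c - m1 i) * g' i c = 0 := by linarith
  intro i c hc
  have z2 := (Finset.sum_eq_zero_iff_of_nonneg (fun i _ => Finset.sum_nonneg fun c _ =>
    mul_nonneg (p1 i c) (hg' i c))).1 z1 i (mem_univ i)
  have z3 := (Finset.sum_eq_zero_iff_of_nonneg (fun c _ =>
    mul_nonneg (p1 i c) (hg' i c))).1 z2 c (mem_univ c)
  rcases mul_eq_zero.1 z3 with h | h
  · exact absurd ((q1 i c).1 h) hc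
  · exact h

/-- (R) generic weights with prescribed minimisers: the positions are realised by a compatible
family of trees. -/
theorem tRealized_of_weights {n d : ℕ} (hn : 1 ≤ n) (hd : 1 ≤ d) (w : Fin n → Fin d → ℝ)
    (hw : Generic w) (v : Fin n → Fin d → ℕ) (σ : Fin n → Fin n → Fin d)
    (hσ : ∀ i j, i ≠ j → ∀ k, k ≠ σ i j → w j (σ i j) - w i (σ i j) < w j k - w i k)
    (hv : ∀ i k, v i k = (Finset.univ.filter (fun j => j ≠ i ∧ σ i j = k)).card) :
    TRealized n d v := by
  classical
  have hd0 : (0 : ℝ) < d := by exact_mod_cast hd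
  have ex : ∀ u : Fin d → ℕ, ∃ y : Fin d → ℝ, ∑ c, u c = n - 1 →
      (fun c => (u c : ℝ) + 1 / d) ∈ cell (argm w y) ∧
      Module.finrank ℝ (vectorSpan ℝ (cell (argm w y))) = d - 1 := by
    intro u
    by_cases hu : ∑ c, u c = n - 1
    · obtain ⟨y, h1, h2⟩ := exists_full_dual hn hd w (fun c => (u c : ℝ) + 1 / d)
        (exists_dual w _ (fun k => by positivity) (by
          rw [Finset.sum_add_distrib]
          simp only [Finset.sum_const, Finset.card_univ, Fintype.card_fin, nsmul_eq_mul]
          rw [← Nat.cast_sum, hu, Nat.cast_sub hn]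
          field_simp
          push_cast
          ring))
      exact ⟨y, fun _ => ⟨h1, h2⟩⟩
    · exact ⟨0, fun h => absurd h hu⟩
  choose y hy using ex
  have hne : ∀ u i, (argm w (y u) i).Nonempty := fun u i => argm_nonempty hd w (y u) i
  have hfr : ∀ u : Fin d → ℕ, ∑ c, u c = n - 1 → Module.finrank ℝ (Submodule.span ℝ
      {z : Fin d → ℝ | ∃ i, ∃ k ∈ argm w (y u) i, ∃ k' ∈ argm w (y u) i,
        z = Pi.single k 1 - Pi.single k' 1}) = d - 1 := by
    intro u hu
    rw [← vectorSpan_cell _ (hne u)]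
    exact (hy u hu).2
  have hfor : ∀ u : Fin d → ℕ, ∑ c, u c = n - 1 → ∀ h : Fin n → Fin d → ℝ,
      (∀ i c, c ∉ argm w (y u) i → h i c = 0) → (∀ i, ∑ c, h i c = 0) →
      (∀ c, ∑ i, h i c = 0) → h = 0 := by
    intro u hu h h1 h2 h3
    exact reg_forest _ (hne u) (card_of_finrank hd w hw (y u) (hy u hu).2) (hfr u hu) h h1 h2 h3
  have hconn : ∀ u : Fin d → ℕ, ∑ c, u c = n - 1 → ∀ z : Fin d → ℝ, ∑ c, z c = 0 →
      ∃ h : Fin n → Fin d → ℝ, (∀ i c, c ∉ argm w (y u) i → h i c = 0) ∧
        (∀ i, ∑ c, h i c = 0) ∧ ∀ c, ∑ i, h i c = z c := by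
    intro u hu z hz
    apply reg_flow
    have hle : Submodule.span ℝ
      {z : Fin d → ℝ | ∃ i, ∃ k ∈ argm w (y u) i, ∃ k' ∈ argm w (y u) i,
        z = Pi.single k 1 - Pi.single k' 1} ≤
        LinearMap.ker (∑ c : Fin d, (LinearMap.proj c : (Fin d → ℝ) →ₗ[ℝ] ℝ)) := by
      rw [Submodule.span_le]
      rintro z ⟨i, k, -, k', -, rfl⟩
      simp
    have heq := Submodule.eq_of_le_of_finrank_eq hle (by rw [hfr u hu, sum_ker13 hd])
    rw [heq]
    simpa using hz
  have hcutu : ∀ u : Fin d → ℕ, ∑ c, u c = n - 1 → ∀ i c, c ∈ argm w (y u) i →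
      ∃ (RL : Finset (Fin n)) (RC : Finset (Fin d)), c ∈ RC ∧ i ∉ RL ∧
      (∀ i' c', c' ∈ argm w (y u) i' → ¬ (i' = i ∧ c' = c) → (i' ∈ RL ↔ c' ∈ RC)) ∧
      ∑ c' ∈ RC, u c' = RL.card := by
    intro u hu i c hc
    obtain ⟨RL, RC, h1, h2, h3⟩ := reg_cut _ (hfor u hu) i c hc
    refine ⟨RL, RC, h1, h2, h3, ?_⟩
    obtain ⟨lam, l0, l1, l2, l3⟩ := (mem_cell_iff _ _).1 (hy u hu).1
    have hval := reg_cut_value h1 h2 h3 lam l2
    simp only [← l3, l1, Finset.sum_const, nsmul_eq_mul, mul_one, Finset.sum_add_distrib]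
      at hval
    have hle1 : lam i c ≤ 1 := by
      rw [← l1 i]
      exact Finset.single_le_sum (fun c _ => l0 i c) (mem_univ c)
    have hge := l0 i c
    have hr1 : 1 ≤ RC.card := Finset.card_pos.2 ⟨c, h1⟩
    have hrd : RC.card ≤ d := by
      calc RC.card ≤ (univ : Finset (Fin d)).card := Finset.card_le_card (subset_univ _)
        _ = d := by simp
    have hq1 : 0 < (RC.card : ℝ) * (1 / d) := by
      have : (0 : ℝ) < RC.card := by exact_mod_cast hr1
      positivity
    have hq2 : (RC.card : ℝ) * (1 / d) ≤ 1 := by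
      rw [mul_one_div, div_le_one hd0]
      exact_mod_cast hrd
    rw [← Nat.cast_sum] at hval
    rcases lt_trichotomy (∑ c' ∈ RC, u c') RL.card with hlt | heq | hgt
    · exfalso
      have h4 : ((∑ c' ∈ RC, u c' : ℕ) : ℝ) + 1 ≤ RL.card := by exact_mod_cast hlt
      have h5 : (RC.card : ℝ) * (1 / d) = 1 := by linarith
      rw [mul_one_div, div_eq_one_iff_eq hd0.ne'] at h5
      have h6 : RC = univ := by
        apply Finset.eq_univ_of_card
        rw [Fintype.card_fin]
        exact_mod_cast h5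
      rw [h6, hu] at hlt
      have h7 : RL.card < n := by
        calc RL.card < (univ : Finset (Fin n)).card := Finset.card_lt_card
              ⟨subset_univ _, fun h => h2 (h (mem_univ i))⟩
          _ = n := by simp
      omega
    · exact heq
    · exfalso
      have h4 : (RL.card : ℝ) + 1 ≤ ((∑ c' ∈ RC, u c' : ℕ) : ℝ) := by exact_mod_cast hgt
      linarith
  refine ⟨fun u => argm w (y u), ⟨?_, ?_⟩, ?_, ?_⟩
  · intro u hu c0
    obtain ⟨lam, l0, l1, l2, l3⟩ := (mem_cell_iff _ _).1 (hy u hu).1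
    obtain ⟨h, a1, a2, a3⟩ := hconn u hu (fun c => (if c = c0 then 1 else 0) - 1 / d) (by
      rw [Finset.sum_sub_distrib]
      simp only [Finset.sum_ite_eq', Finset.mem_univ, if_true, Finset.sum_const,
        Finset.card_univ, Fintype.card_fin, nsmul_eq_mul]
      field_simp
      ring)
    have b1 : ∀ i c, c ∉ argm w (y u) i → lam i c + h i c = 0 := fun i c hc => by
      rw [l2 i c hc, a1 i c hc, add_zero]
    have b2 : ∀ i, ∑ c, (lam i c + h i c) = 1 := fun i => by
      rw [Finset.sum_add_distrib, l1, a2, add_zero]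
    have b3 : ∀ c, ∑ i, (lam i c + h i c) = u c + (if c = c0 then 1 else 0) := fun c => by
      rw [Finset.sum_add_distrib, ← l3, a3]
      ring
    have hone : ∀ i, c0 ∈ argm w (y u) i → lam i c0 + h i c0 = 1 := by
      intro i hi
      obtain ⟨RL, RC, h1, h2, h3, h4⟩ := hcutu u hu i c0 hi
      rw [reg_cut_value h1 h2 h3 (fun i c => lam i c + h i c) b1]
      simp only [b2, b3, Finset.sum_const, nsmul_eq_mul, mul_one, Finset.sum_add_distrib,
        Finset.sum_ite_eq', h1, if_true]
      rw [← Nat.cast_sum, h4]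
      ring
    have h5 := b3 c0
    rw [if_pos rfl] at h5
    have h6 : ∑ i, (lam i c0 + h i c0) = ∑ i, (if c0 ∈ argm w (y u) i then (1 : ℝ) else 0) := by
      refine Finset.sum_congr rfl fun i _ => ?_
      by_cases hi : c0 ∈ argm w (y u) i
      · rw [hone i hi, if_pos hi]
      · rw [b1 i c0 hi, if_neg hi]
    rw [h6, Finset.sum_boole] at h5
    exact_mod_cast h5
  · intro u u' hu hu' g g' hg hg' hs hs' hrow hcol
    have h1 := reg_supp hd w (y u) (y u') g g' hg hg' hs hs' hrow hcol
    have h2 := hfor u hu (fun i c => g i c - g' i c)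
      (fun i c hc => by rw [hs i c hc, h1 i c hc, sub_zero])
      (fun i => by rw [Finset.sum_sub_distrib, hrow i, sub_self])
      (fun c => by rw [Finset.sum_sub_distrib, hcol c, sub_self])
    funext i c
    have := congrFun (congrFun h2 i) c
    simp only [Pi.zero_apply] at this
    linarith
  · intro k
    have h1 : ∑ c, v k c = (univ.filter (fun j : Fin n => j ≠ k)).card := by
      rw [Finset.card_eq_sum_card_fiberwise (f := fun j => σ k j) (t := univ)
        (fun _ _ => by simp)]
      refine Finset.sum_congr rfl fun c _ => ?_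
      rw [hv k c, Finset.filter_filter]
    rw [h1, Finset.filter_ne', Finset.card_erase_of_mem (mem_univ k)]
    simp
  · intro k
    have hvk : ∑ c, v k c = n - 1 := by
      have h1 : ∑ c, v k c = (univ.filter (fun j : Fin n => j ≠ k)).card := by
        rw [Finset.card_eq_sum_card_fiberwise (f := fun j => σ k j) (t := univ)
          (fun _ _ => by simp)]
        refine Finset.sum_congr rfl fun c _ => ?_
        rw [hv k c, Finset.filter_filter]
      rw [h1, Finset.filter_ne', Finset.card_erase_of_mem (mem_univ k)]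
      simp
    obtain ⟨lam, l0, l1, l2, l3⟩ := (mem_cell_iff _ _).1 (hy (v k) hvk).1
    have htr := fun j hj => argm_translate w σ hσ k 0 (w k) (fun _ => by simp) j hj
    have huniv : argm w (w k) k = Finset.univ := by
      ext c
      rw [mem_argm]
      simp
    have h1 := reg_supp hd w (y (v k)) (w k) lam
      (fun i c => if i = k then 1 / (d : ℝ) else if σ k i = c then 1 else 0) l0
      (fun i c => by
        split_ifs <;> positivity) l2
      (fun i c hc => by
        split_ifs with ha hb
        · rw [ha, huniv] at hc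
          exact absurd (mem_univ c) hc
        · rw [htr i ha] at hc
          exact absurd (mem_singleton.2 hb.symm) hc
        · rfl)
      (fun i => by
        rw [l1 i]
        split_ifs with ha
        · simp only [Finset.sum_const, Finset.card_univ, Fintype.card_fin, nsmul_eq_mul]
          field_simp
        · simp)
      (fun c => by
        rw [← l3 c, hv k c]
        have e : ∀ i : Fin n, (if i = k then 1 / (d : ℝ) else if σ k i = c then 1 else 0) =
            (if i = k then 1 / (d : ℝ) else 0) + (if i ≠ k ∧ σ k i = c then 1 else 0) := by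
          intro i
          by_cases ha : i = k
          · simp [ha]
          · simp [ha]
        simp only [e, Finset.sum_add_distrib, Finset.sum_ite_eq', Finset.mem_univ, if_true,
          Finset.sum_boole]
        ring)
    ext c
    simp only [Finset.mem_univ, iff_true]
    by_contra hcon
    have h2 := h1 k c hcon
    simp only [if_true] at h2
    have : (0 : ℝ) < 1 / d := by positivity
    linarith

/-- A family with a ladder is realised by a compatible family of trees. -/
theorem tRealized_of_ladder {n d : ℕ} (hn : 1 ≤ n) (hd : 1 ≤ d) (v : Fin n → Fin d → ℕ)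
    (hv : ∀ i, ∑ k, v i k = n - 1) (N : Fin n → Finset (Fin d)) (hN : IsLadder v N) :
    TRealized n d v := by
  obtain ⟨w, σ, h1, h2, h3⟩ := exists_weights hn hd v hv N hN
  exact tRealized_of_weights hn hd w h1 v σ h2 h3

end Pool.Agent.Helper28.SO
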