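import Pool.Agent.Helper28.SP.Merge

set_option autoImplicit false

/-! Three colours: a local tope system is a compatible family of trees. -/

namespace Pool.Agent.Helper28.SO

/-- unit vector -/
abbrev e3 (c : Fin 3) : Fin 3 → ℕ := Pi.single c 1

theorem sum_e3 (c : Fin 3) : ∑ x, e3 c x = 1 := by
  simp [e3]

theorem sum_add_e3 (u : Fin 3 → ℕ) (c : Fin 3) : ∑ x, (u + e3 c) x = ∑ x, u x + 1 := by
  simp only [Pi.add_apply, Finset.sum_add_distrib, sum_e3]

/-- A local system of topes with three colours. -/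
structure TopeSys3 {ι : Type} [Fintype ι] (n : ℕ) (f : (Fin 3 → ℕ) → ι → Fin 3) : Prop where
  card : Fintype.card ι = n
  content : ∀ m : Fin 3 → ℕ, ∑ c, m c = n →
    ∀ c, (Finset.univ.filter (fun h => f m h = c)).card = m c
  mono : ∀ u : Fin 3 → ℕ, ∑ c, u c + 1 = n → ∀ a c h, f (u + e3 a) h = c → f (u + e3 c) h = c
  exch : ∀ u : Fin 3 → ℕ, ∑ c, u c + 1 = n → ∀ l a c, a ≠ c → f (u + e3 a) l = a →
    f (u + e3 c) l = c → ∀ h, h ≠ l → f (u + e3 a) h = f (u + e3 c) h
  sink : ∀ w : Fin 3 → ℕ, ∑ c, w c + 2 = n → ∀ l, ∃ s, ∀ x, f (w + e3 s + e3 x) l = s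

/-- Deletion of a label. -/
def del3 {ι : Type} (f : (Fin 3 → ℕ) → ι → Fin 3) (l : ι) :
    (Fin 3 → ℕ) → {h : ι // h ≠ l} → Fin 3 :=
  fun u h => f (u + e3 (f (u + e3 0) l)) h.1

section
variable {ι : Type} [Fintype ι] {n : ℕ} {f : (Fin 3 → ℕ) → ι → Fin 3}

theorem TopeSys3.del_eq (hf : TopeSys3 n f) (l : ι) (u : Fin 3 → ℕ) (hu : ∑ c, u c + 1 = n)
    (c : Fin 3) (hc : f (u + e3 c) l = c) (h : {h : ι // h ≠ l}) :
    del3 f l u h = f (u + e3 c) h.1 := by
  unfold del3
  have h1 : f (u + e3 (f (u + e3 0) l)) l = f (u + e3 0) l := hf.mono u hu 0 _ l rfl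
  by_cases hcc : f (u + e3 0) l = c
  · rw [hcc]
  · exact hf.exch u hu l _ c hcc h1 hc h.1 h.2

/-- two labels of the same colour class -/
theorem TopeSys3.eq_of_content (hf : TopeSys3 n f) (m : Fin 3 → ℕ) (hm : ∑ c, m c = n)
    (c : Fin 3) (hc : m c ≤ 1) (i j : ι) (hi : f m i = c) (hj : f m j = c) : i = j := by
  have h1 := hf.content m hm c
  have h2 : (Finset.univ.filter (fun h => f m h = c)).card ≤ 1 := by omega
  exact Finset.card_le_one.1 h2 i (by simp [hi]) j (by simp [hj])

theorem TopeSys3.ne_of_content (hf : TopeSys3 n f) (m : Fin 3 → ℕ) (hm : ∑ c, m c = n)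
    (c : Fin 3) (hc : m c = 0) (i : ι) : f m i ≠ c := by
  intro hi
  have h1 := hf.content m hm c
  rw [hc, Finset.card_eq_zero] at h1
  have h2 : i ∈ Finset.univ.filter (fun h => f m h = c) := by simp [hi]
  rw [h1] at h2
  exact absurd h2 (Finset.notMem_empty i)

theorem TopeSys3.sink_unique (hf : TopeSys3 n f) (w : Fin 3 → ℕ) (l : ι) (s s' : Fin 3)
    (hs : ∀ x, f (w + e3 s + e3 x) l = s) (hs' : ∀ x, f (w + e3 s' + e3 x) l = s') : s = s' := by
  have h1 := hs s'
  have h2 := hs' s
  rw [add_right_comm] at h2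
  exact h1.symm.trans h2

theorem third_eq : ∀ a b c d : Fin 3, (a ≠ b ∧ a ≠ c ∧ b ≠ c ∧ d ≠ b ∧ d ≠ c) → d = a := by
  decide +kernel

theorem idem_aux : ∀ s t : Fin 3 → Fin 3, (∀ y, s (s y) = s y) → (∀ y, t (t y) = t y) →
    ∃ p q, s q = p ∧ t p = q := by
  decide +kernel

theorem TopeSys3.del (hf : TopeSys3 (n + 1) f) (l : ι) [DecidableEq ι] :
    TopeSys3 n (del3 f l) := by
  have hsum1 : ∀ (w : Fin 3 → ℕ) (c : Fin 3), ∑ x, w x + 1 = n → ∑ x, (w + e3 c) x + 1 = n + 1 := by
    intro w c h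
    rw [sum_add_e3]
    omega
  have key : ∀ w : Fin 3 → ℕ, ∑ c, w c + 1 = n → ∃ s, (∀ x, f (w + e3 s + e3 x) l = s) ∧
      ∀ x (h : {h : ι // h ≠ l}), del3 f l (w + e3 x) h = f (w + e3 s + e3 x) h.1 := by
    intro w hw
    obtain ⟨s, hs⟩ := hf.sink w (by omega) l
    refine ⟨s, hs, fun x h => ?_⟩
    rw [hf.del_eq l (w + e3 x) (hsum1 w x hw) s (by rw [add_right_comm]; exact hs x) h,
      add_right_comm]
  constructor
  · have h1 := Fintype.card_subtype_compl (fun h => h = l)
    rw [Fintype.card_subtype_eq, hf.card] at h1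
    exact h1
  · intro u hu c
    have h0 : ∑ x, (u + e3 (f (u + e3 0) l)) x = n + 1 := by
      rw [sum_add_e3]
      omega
    have hl : f (u + e3 (f (u + e3 0) l)) l = f (u + e3 0) l := hf.mono u (by omega) 0 _ l rfl
    have h1 := hf.content _ h0 c
    have h2 : (Finset.univ.filter (fun h : {h : ι // h ≠ l} => del3 f l u h = c)).card =
        ((Finset.univ.filter (fun h => f (u + e3 (f (u + e3 0) l)) h = c)).erase l).card := by
      rw [← Finset.card_map (Function.Embedding.subtype _)]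
      congr 1
      ext h
      simp only [Finset.mem_map, Finset.mem_filter, Finset.mem_univ, true_and,
        Function.Embedding.subtype_apply, Finset.mem_erase, del3]
      constructor
      · rintro ⟨⟨k, hk⟩, h3, rfl⟩
        exact ⟨hk, h3⟩
      · rintro ⟨h3, h4⟩
        exact ⟨⟨h, h3⟩, h4, rfl⟩
    rw [h2]
    by_cases hc : f (u + e3 0) l = c
    · rw [Finset.card_erase_of_mem (by simp only [Finset.mem_filter, Finset.mem_univ, true_and]
                                       rw [hl, hc]), h1, hc]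
      simp [e3]
    · rw [Finset.erase_eq_of_notMem (by
        simp only [Finset.mem_filter, Finset.mem_univ, true_and]
        rw [hl]
        exact hc), h1]
      simp [e3, Pi.single_eq_of_ne (Ne.symm hc)]
  · intro w hw a c h hac
    obtain ⟨s, hs, hd⟩ := key w hw
    rw [hd] at hac ⊢
    exact hf.mono (w + e3 s) (hsum1 w s hw) a c h.1 hac
  · intro w hw k a c hac hka hkc h hhk
    obtain ⟨s, hs, hd⟩ := key w hw
    rw [hd] at hka hkc
    rw [hd, hd]
    exact hf.exch (w + e3 s) (hsum1 w s hw) k.1 a c hac hka hkc h.1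
      (fun h' => hhk (Subtype.ext h'))
  · intro w hw h
    have hsum2 : ∀ y, ∑ x, (w + e3 y) x + 2 = n + 1 := by
      intro y
      rw [sum_add_e3]
      omega
    have hidem : ∀ (k : ι) (s : Fin 3 → Fin 3), (∀ y x, f (w + e3 y + e3 (s y) + e3 x) k = s y) →
        ∀ y, s (s y) = s y := by
      intro k s hs y
      apply hf.sink_unique (w + e3 (s y)) k _ _ (hs (s y))
      intro x
      have h1 := hs y x
      have e1 : w + e3 y + e3 (s y) + e3 x = (w + e3 (s y) + e3 x) + e3 y := by abel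
      have e2 : w + e3 (s y) + e3 (s y) + e3 x = (w + e3 (s y) + e3 x) + e3 (s y) := by abel
      rw [e1] at h1
      rw [e2]
      refine hf.mono _ ?_ _ _ _ h1
      rw [sum_add_e3, sum_add_e3]
      omega
    choose s hs using fun y => hf.sink (w + e3 y) (hsum2 y) l
    choose t ht using fun y => hf.sink (w + e3 y) (hsum2 y) h.1
    obtain ⟨p, q, hp, hq⟩ := idem_aux s t (hidem l s hs) (hidem h.1 t ht)
    refine ⟨q, fun x => ?_⟩
    have h1 := hs q x
    have h2 := ht p x
    rw [hp] at h1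
    rw [hq] at h2
    rw [hf.del_eq l (w + e3 q + e3 x) (by rw [sum_add_e3, sum_add_e3]; omega) p (by
      rw [add_right_comm]; exact h1) h]
    have e1 : w + e3 q + e3 x + e3 p = w + e3 p + e3 q + e3 x := by abel
    rw [e1]
    exact h2

/-- every tree minus a label is contained in a tree of the deletion -/
theorem TopeSys3.del_sub (hf : TopeSys3 (n + 1) f) (hn : 1 ≤ n) (l : ι) (v : Fin 3 → ℕ)
    (hv : ∑ c, v c = n) : ∃ w : Fin 3 → ℕ, ∑ c, w c + 1 = n ∧
      ∀ (h : {h : ι // h ≠ l}) (y : Fin 3), f (v + e3 y) h.1 = y → del3 f l (w + e3 y) h = y := by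
  have hv1 : ∑ c, v c + 1 = n + 1 := by omega
  -- the good colour
  have hsub : ∀ c : Fin 3, 1 ≤ v c → ∃ w, v = w + e3 c ∧ ∑ x, w x + 1 = n := by
    intro c hc
    refine ⟨v - e3 c, ?_, ?_⟩
    · funext x
      simp only [Pi.add_apply, Pi.sub_apply]
      by_cases hx : x = c
      · subst hx
        simp [e3]
        omega
      · simp [e3, Pi.single_eq_of_ne hx]
    · have h1 : v = (v - e3 c) + e3 c := by
        funext x
        simp only [Pi.add_apply, Pi.sub_apply]
        by_cases hx : x = c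
        · subst hx
          simp [e3]
          omega
        · simp [e3, Pi.single_eq_of_ne hx]
      have h2 := sum_add_e3 (v - e3 c) c
      rw [← h1] at h2
      omega
  have hpick : ∃ c w s, v = w + e3 c ∧ ∑ x, w x + 1 = n ∧ (∀ x, f (w + e3 s + e3 x) l = s) ∧
      f (v + e3 c) l = c ∧ ∀ z, z ≠ c → z ≠ s → s ≠ c → f (w + e3 c + e3 z) l ≠ s := by
    by_cases hall : ∀ x, f (v + e3 x) l = x
    · obtain ⟨c, hc⟩ : ∃ c, 1 ≤ v c := by
        by_contra hno
        push Not at hno
        have : ∑ c, v c = 0 := Finset.sum_eq_zero fun c _ => by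
          have := hno c
          omega
        omega
      obtain ⟨w, hw, hw1⟩ := hsub c hc
      obtain ⟨s, hs⟩ := hf.sink w (by omega) l
      refine ⟨c, w, s, hw, hw1, hs, hall c, fun z _ hzs _ => ?_⟩
      rw [← hw, hall z]
      exact hzs
    · push Not at hall
      obtain ⟨x, hx⟩ := hall
      have hvx : ∑ c, (v + e3 x) c = n + 1 := by
        rw [sum_add_e3]
        omega
      have hc : 1 ≤ v (f (v + e3 x) l) := by
        by_contra h0
        apply hf.ne_of_content (v + e3 x) hvx (f (v + e3 x) l) _ l rfl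
        have h9 : (e3 x) (f (v + e3 x) l) = 0 := Pi.single_eq_of_ne hx 1
        rw [Pi.add_apply, h9]
        omega
      obtain ⟨w, hw, hw1⟩ := hsub _ hc
      obtain ⟨s, hs⟩ := hf.sink w (by omega) l
      refine ⟨f (v + e3 x) l, w, s, hw, hw1, hs, hf.mono v hv1 x _ l rfl, ?_⟩
      intro z hz1 hz2 hs1
      have hsx : s ≠ x := by
        rintro rfl
        have h1 := hs (f (v + e3 s) l)
        rw [add_right_comm, ← hw] at h1
        exact hx h1
      have hzx : z = x := by
        exact third_eq x (f (v + e3 x) l) s z ⟨hx.symm, hsx.symm, hs1.symm, hz1, hz2⟩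
      subst hzx
      rw [← hw]
      exact hs1.symm
  obtain ⟨c, w, s, hw, hw1, hs, hlc, hz⟩ := hpick
  refine ⟨w, hw1, ?_⟩
  intro h y hy
  have hsy : f ((w + e3 y) + e3 s) l = s := by
    rw [add_right_comm]
    exact hs y
  rw [hf.del_eq l (w + e3 y) (by rw [sum_add_e3]; omega) s hsy h]
  rw [hw] at hy hlc
  by_cases hsc : s = c
  · subst hsc
    rw [add_right_comm]
    exact hy
  by_cases hys : y = s
  · subst hys
    rw [add_right_comm] at hy
    exact hf.mono (w + e3 y) (by rw [sum_add_e3]; omega) c y h.1 hy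
  by_cases hyc : y = c
  · subst hyc
    have h1 := hf.exch (w + e3 y) (by rw [sum_add_e3]; omega) l y s (Ne.symm hsc) hlc hsy h.1 h.2
    rw [← h1]
    exact hy
  · -- third colour
    have hz1 := hz y hyc hys hsc
    by_contra hne
    have hyu : ∑ x, (w + e3 y) x + 1 = n + 1 := by
      rw [sum_add_e3]
      omega
    have hy' : f (w + e3 y + e3 c) h.1 = y := by
      rw [add_right_comm]
      exact hy
    have hval : f (w + e3 y + e3 s) h.1 = s := by
      by_contra hns
      have hvc : f (w + e3 y + e3 s) h.1 = c := by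
        exact third_eq c y s _ ⟨Ne.symm hyc, Ne.symm hsc, hys, hne, hns⟩
      have h4 := hf.mono (w + e3 y) hyu s c h.1 hvc
      rw [hy'] at h4
      exact hyc h4
    have hyy : f (w + e3 y + e3 y) h.1 = y := hf.mono (w + e3 y) hyu c y h.1 hy'
    -- the colour of `l` at the root `c`
    have hlv : f (w + e3 y + e3 c) l = y ∨ f (w + e3 y + e3 c) l = c := by
      by_cases h3 : f (w + e3 y + e3 c) l = y
      · exact Or.inl h3
      · right
        refine third_eq c y s _ ⟨Ne.symm hyc, Ne.symm hsc, hys, h3, ?_⟩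
        rw [add_right_comm]
        exact hz1
    rcases hlv with h5 | h5
    · have h6 := hf.mono (w + e3 y) hyu c y l h5
      have h7 := hf.exch (w + e3 y) hyu l y s hys h6 hsy h.1 h.2
      rw [hyy, hval] at h7
      exact hys h7
    · have h7 := hf.exch (w + e3 y) hyu l c s (Ne.symm hsc) h5 hsy h.1 h.2
      rw [hy', hval] at h7
      exact hys h7

end

end Pool.Agent.Helper28.SO
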