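import Pool.Agent.Helper28.SP.Tope3

set_option autoImplicit false

/-! Three colours: a local tope system is a compatible family of trees (second part). -/

namespace Pool.Agent.Helper28.SO

section
variable {ι : Type} [Fintype ι] {f : (Fin 3 → ℕ) → ι → Fin 3}

/-- two labels, both on the same edge -/
theorem TopeSys3.two (hf : TopeSys3 2 f) (v : Fin 3 → ℕ) (hv : ∑ c, v c + 1 = 2) (i j : ι)
    (hij : i ≠ j) (a b : Fin 3) (hab : a ≠ b) (hi : f (v + e3 a) i = a)
    (hj : f (v + e3 b) j = b) : f (e3 a + e3 b) i = a := by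
  obtain ⟨x, rfl⟩ : ∃ x, v = e3 x := by
    have h0 : ∃ x, 1 ≤ v x := by
      by_contra hno
      push Not at hno
      have : ∑ c, v c = 0 := Finset.sum_eq_zero fun c _ => by
        have := hno c
        omega
      omega
    obtain ⟨x, hx⟩ := h0
    refine ⟨x, ?_⟩
    rw [← Finset.add_sum_erase _ _ (Finset.mem_univ x)] at hv
    have h1 : ∑ c ∈ Finset.univ.erase x, v c = 0 := by omega
    rw [Finset.sum_eq_zero_iff] at h1
    funext c
    by_cases hc : c = x
    · subst hc
      simp [e3]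
      omega
    · rw [h1 c (Finset.mem_erase.2 ⟨hc, Finset.mem_univ c⟩)]
      simp [e3, Pi.single_eq_of_ne hc]
  have hsum : ∀ p q : Fin 3, ∑ c, (e3 p + e3 q) c = 2 := by
    intro p q
    rw [sum_add_e3, sum_e3]
  have hone : ∀ p q : Fin 3, p ≠ q → (e3 p + e3 q) p ≤ 1 ∧ (e3 p + e3 q) q ≤ 1 := by
    intro p q hpq
    simp [e3, Pi.single_eq_of_ne hpq, Pi.single_eq_of_ne (Ne.symm hpq)]
  have hzero : ∀ p q r : Fin 3, r ≠ p → r ≠ q → (e3 p + e3 q) r = 0 := by
    intro p q r hp hq
    simp [e3, Pi.single_eq_of_ne hp, Pi.single_eq_of_ne hq]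
  by_cases hxa : x = a
  · subst hxa
    -- `f (x + b) j = b`
    by_contra hne
    have h1 : f (e3 x + e3 b) i = b := by
      by_contra hnb
      exact hf.ne_of_content _ (hsum x b) _ (hzero x b _ hne hnb) i rfl
    exact hij (hf.eq_of_content _ (hsum x b) b (hone x b hab).2 i j h1 hj)
  by_cases hxb : x = b
  · subst hxb
    rw [add_comm]
    exact hi
  -- third colour
  obtain ⟨s, hs⟩ := hf.sink 0 (by simp) i
  simp only [zero_add] at hs
  by_cases hsa : s = a
  · subst hsa
    exact hs b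
  · exfalso
    by_cases hsb : s = b
    · subst hsb
      have h1 := hs x
      rw [add_comm] at h1
      exact hij (hf.eq_of_content _ (hsum x s) s (hone x s hxb).2 i j h1 hj)
    · have hsx : s = x := third_eq x a b s ⟨hxa, hxb, hab, hsa, hsb⟩
      subst hsx
      have h1 := hs a
      rw [hi] at h1
      exact hxa h1.symm

theorem TopeSys3.noswap_aux (m : ℕ) : ∀ (ι : Type) [Fintype ι] (f : (Fin 3 → ℕ) → ι → Fin 3),
    TopeSys3 (m + 2) f → ∀ (v w : Fin 3 → ℕ), ∑ c, v c + 1 = m + 2 → ∑ c, w c + 1 = m + 2 →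
    ∀ (i j : ι), i ≠ j → ∀ a b : Fin 3, a ≠ b → f (v + e3 a) i = a → f (v + e3 b) j = b →
    f (w + e3 b) i = b → f (w + e3 a) j = a → False := by
  induction m with
  | zero =>
    intro ι _ f hf v w hv hw i j hij a b hab h1 h2 h3 h4
    have e1 := hf.two v hv i j hij a b hab h1 h2
    have e2 := hf.two w hw i j hij b a (Ne.symm hab) h3 h4
    rw [add_comm] at e2
    rw [e1] at e2
    exact hab e2
  | succ m ih =>
    intro ι _ f hf v w hv hw i j hij a b hab h1 h2 h3 h4
    classical
    obtain ⟨l, hl⟩ : ∃ l : ι, l ∉ ({i, j} : Finset ι) := by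
      by_contra hno
      push Not at hno
      have h5 : Fintype.card ι ≤ ({i, j} : Finset ι).card := by
        rw [← Finset.card_univ]
        exact Finset.card_le_card fun x _ => hno x
      have h6 := Finset.card_le_two (a := i) (b := j)
      rw [hf.card] at h5
      omega
    simp only [Finset.mem_insert, Finset.mem_singleton, not_or] at hl
    obtain ⟨v', hv', hvs⟩ := hf.del_sub (by omega) l v (by omega)
    obtain ⟨w', hw', hws⟩ := hf.del_sub (by omega) l w (by omega)
    exact ih {h : ι // h ≠ l} (del3 f l) (hf.del l) v' w' hv' hw' ⟨i, Ne.symm hl.1⟩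
      ⟨j, Ne.symm hl.2⟩ (fun h => hij (congrArg Subtype.val h)) a b hab
      (hvs ⟨i, Ne.symm hl.1⟩ a h1) (hvs ⟨j, Ne.symm hl.2⟩ b h2)
      (hws ⟨i, Ne.symm hl.1⟩ b h3) (hws ⟨j, Ne.symm hl.2⟩ a h4)

theorem TopeSys3.noswap {n : ℕ} (hf : TopeSys3 n f) (v w : Fin 3 → ℕ) (hv : ∑ c, v c + 1 = n)
    (hw : ∑ c, w c + 1 = n) (i j : ι) (hij : i ≠ j) (a b : Fin 3) (hab : a ≠ b)
    (h1 : f (v + e3 a) i = a) (h2 : f (v + e3 b) j = b) (h3 : f (w + e3 b) i = b)
    (h4 : f (w + e3 a) j = a) : False := by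
  classical
  have hn : 2 ≤ n := by
    rw [← hf.card]
    have := Finset.card_le_univ ({i, j} : Finset ι)
    rw [Finset.card_pair hij] at this
    exact this
  obtain ⟨m, rfl⟩ := Nat.exists_eq_add_of_le' hn
  exact TopeSys3.noswap_aux m ι f hf v w hv hw i j hij a b hab h1 h2 h3 h4

/-- three labels, `v = 2 a` -/
theorem TopeSys3.three_a (hf : TopeSys3 3 f) (i j k : ι) (hij : i ≠ j)
    (hjk : j ≠ k) (a b c : Fin 3) (hab : a ≠ b) (hac : a ≠ c) (hbc : b ≠ c)
    (hj : f (e3 a + e3 a + e3 b) j = b)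
    (hk : f (e3 a + e3 a + e3 c) k = c) :
    f (e3 a + e3 b + e3 c) j = b ∧ f (e3 a + e3 b + e3 c) k = c := by
  have hsum : ∀ p q r : Fin 3, ∑ c, (e3 p + e3 q + e3 r) c = 3 := by
    intro p q r
    rw [sum_add_e3, sum_add_e3, sum_e3]
  have hone : ∀ p r : Fin 3, p ≠ r → (e3 p + e3 p + e3 r) r ≤ 1 := by
    intro p r hpr
    simp [e3, Pi.single_eq_of_ne (Ne.symm hpr)]
  constructor
  · obtain ⟨s, hs⟩ := hf.sink (e3 a) (by rw [sum_e3]) j
    by_cases hsb : s = b
    · subst hsb
      exact hs c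
    · exfalso
      by_cases hsa : s = a
      · subst hsa
        have h1 := hs b
        rw [hj] at h1
        exact hab h1.symm
      · have hsc : s = c := third_eq c a b s ⟨Ne.symm hac, Ne.symm hbc, hab, hsa, hsb⟩
        subst hsc
        have h1 := hs a
        rw [add_right_comm] at h1
        exact hjk (hf.eq_of_content _ (hsum a a s) s (hone a s hac) j k h1 hk)
  · obtain ⟨s, hs⟩ := hf.sink (e3 a) (by rw [sum_e3]) k
    by_cases hsc : s = c
    · subst hsc
      have h1 := hs b
      rw [add_right_comm] at h1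
      exact h1
    · exfalso
      by_cases hsa : s = a
      · subst hsa
        have h1 := hs c
        rw [hk] at h1
        exact hac h1.symm
      · have hsb : s = b := third_eq b a c s ⟨Ne.symm hab, hbc, hac, hsa, hsc⟩
        subst hsb
        have h1 := hs a
        rw [add_right_comm] at h1
        exact hjk (hf.eq_of_content _ (hsum a a s) s (hone a s hab) j k hj h1)

/-- three labels, `v = b + c` -/
theorem TopeSys3.three_b (hf : TopeSys3 3 f) (i j k : ι) (hij : i ≠ j) (hik : i ≠ k)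
    (hjk : j ≠ k) (a b c : Fin 3) (hab : a ≠ b) (hac : a ≠ c) (hbc : b ≠ c)
    (hi : f (e3 b + e3 c + e3 a) i = a) (hj : f (e3 b + e3 c + e3 b) j = b)
    (hk : f (e3 b + e3 c + e3 c) k = c) :
    f (e3 a + e3 b + e3 c) j = b ∧ f (e3 a + e3 b + e3 c) k = c := by
  have e1 : e3 a + e3 b + e3 c = e3 b + e3 c + e3 a := by abel
  rw [e1]
  have hu : ∑ x, (e3 b + e3 c) x + 1 = 3 := by rw [sum_add_e3, sum_e3]
  have hm : ∑ x, (e3 b + e3 c + e3 a) x = 3 := by rw [sum_add_e3, sum_add_e3, sum_e3]
  have hone : (e3 b + e3 c + e3 a) a ≤ 1 := by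
    simp [e3, Pi.single_eq_of_ne hab, Pi.single_eq_of_ne hac]
  have honeb : (e3 b + e3 c + e3 a) b ≤ 1 := by
    simp [e3, Pi.single_eq_of_ne hbc, Pi.single_eq_of_ne (Ne.symm hab)]
  have honec : (e3 b + e3 c + e3 a) c ≤ 1 := by
    simp [e3, Pi.single_eq_of_ne (Ne.symm hbc), Pi.single_eq_of_ne (Ne.symm hac)]
  have hja : f (e3 b + e3 c + e3 a) j ≠ a := fun h =>
    hij (hf.eq_of_content _ hm a hone i j hi h)
  have hka : f (e3 b + e3 c + e3 a) k ≠ a := fun h =>
    hik (hf.eq_of_content _ hm a hone i k hi h)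
  have hjb : f (e3 b + e3 c + e3 a) j = b := by
    by_contra hne
    have hjc : f (e3 b + e3 c + e3 a) j = c :=
      third_eq c a b _ ⟨Ne.symm hac, Ne.symm hbc, hab, hja, hne⟩
    have hkc : f (e3 b + e3 c + e3 a) k ≠ c := fun h =>
      hjk (hf.eq_of_content _ hm c honec j k hjc h)
    have hkb : f (e3 b + e3 c + e3 a) k = b :=
      third_eq b a c _ ⟨Ne.symm hab, hbc, hac, hka, hkc⟩
    have h1 := hf.mono _ hu a c j hjc
    have h2 := hf.mono _ hu a b k hkb
    have h3 := hf.exch _ hu j b c hbc hj h1 k (Ne.symm hjk)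
    rw [h2, hk] at h3
    exact hbc h3
  refine ⟨hjb, ?_⟩
  have hkb : f (e3 b + e3 c + e3 a) k ≠ b := fun h =>
    hjk (hf.eq_of_content _ hm b honeb j k hjb h)
  exact third_eq c a b _ ⟨Ne.symm hac, Ne.symm hbc, hab, hka, hkb⟩

theorem sum_three_eq {a b c : Fin 3} (hab : a ≠ b) (hac : a ≠ c) (hbc : b ≠ c) (v : Fin 3 → ℕ) :
    ∑ x, v x = v a + v b + v c := by
  have h : (Finset.univ : Finset (Fin 3)) = {a, b, c} := by
    symm
    rw [Finset.eq_univ_iff_forall]
    intro x
    simp only [Finset.mem_insert, Finset.mem_singleton]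
    by_contra hno
    push Not at hno
    exact hno.1 (third_eq a b c x ⟨hab, hac, hbc, hno.2.1, hno.2.2⟩)
  rw [h, Finset.sum_insert (by simp [hab, hac]), Finset.sum_insert (by simp [hbc]),
    Finset.sum_singleton]
  ring

theorem eq_of_three {a b c : Fin 3} (hab : a ≠ b) (hac : a ≠ c) (hbc : b ≠ c) (v w : Fin 3 → ℕ)
    (h1 : v a = w a) (h2 : v b = w b) (h3 : v c = w c) : v = w := by
  funext x
  by_cases hxb : x = b
  · rw [hxb, h2]
  · by_cases hxc : x = c
    · rw [hxc, h3]
    · rw [third_eq a b c x ⟨hab, hac, hbc, hxb, hxc⟩, h1]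

/-- three labels, general `v` -/
theorem TopeSys3.three (hf : TopeSys3 3 f) (v : Fin 3 → ℕ) (hv : ∑ c, v c + 1 = 3) (i j k : ι)
    (hij : i ≠ j) (hik : i ≠ k) (hjk : j ≠ k) (a b c : Fin 3) (hab : a ≠ b) (hac : a ≠ c)
    (hbc : b ≠ c) (hi : f (v + e3 a) i = a) (hj : f (v + e3 b) j = b)
    (hk : f (v + e3 c) k = c) : f (e3 a + e3 b + e3 c) i = a := by
  have hm : ∑ x, (e3 a + e3 b + e3 c) x = 3 := by rw [sum_add_e3, sum_add_e3, sum_e3]
  have haa : e3 a a = 1 := by simp [e3]
  have hbb : e3 b b = 1 := by simp [e3]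
  have hcc : e3 c c = 1 := by simp [e3]
  have hba : e3 b a = 0 := Pi.single_eq_of_ne hab 1
  have hca : e3 c a = 0 := Pi.single_eq_of_ne hac 1
  have hab' : e3 a b = 0 := Pi.single_eq_of_ne (Ne.symm hab) 1
  have hcb : e3 c b = 0 := Pi.single_eq_of_ne hbc 1
  have hac' : e3 a c = 0 := Pi.single_eq_of_ne (Ne.symm hac) 1
  have hbc' : e3 b c = 0 := Pi.single_eq_of_ne (Ne.symm hbc) 1
  -- from the colours of two labels, the third
  have hfin : f (e3 a + e3 b + e3 c) j = b ∧ f (e3 a + e3 b + e3 c) k = c →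
      f (e3 a + e3 b + e3 c) i = a := by
    rintro ⟨h1, h2⟩
    apply third_eq a b c _ ⟨hab, hac, hbc, ?_, ?_⟩
    · intro h
      exact hij (hf.eq_of_content _ hm b (by simp only [Pi.add_apply]; omega) i j h h1)
    · intro h
      exact hik (hf.eq_of_content _ hm c (by simp only [Pi.add_apply]; omega) i k h h2)
  rw [sum_three_eq hab hac hbc] at hv
  by_cases h1 : v a = 2
  · have hve : v = e3 a + e3 a := by
      apply eq_of_three hab hac hbc <;> simp only [Pi.add_apply] <;> omega
    subst hve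
    exact hfin (hf.three_a i j k hij hjk a b c hab hac hbc hj hk)
  by_cases h2 : v b = 2
  · have hve : v = e3 b + e3 b := by
      apply eq_of_three hab hac hbc <;> simp only [Pi.add_apply] <;> omega
    subst hve
    have h3 := (hf.three_a j i k (Ne.symm hij) hik b a c (Ne.symm hab) hbc hac hi hk).1
    rw [add_comm (e3 b) (e3 a)] at h3
    exact h3
  by_cases h3 : v c = 2
  · have hve : v = e3 c + e3 c := by
      apply eq_of_three hab hac hbc <;> simp only [Pi.add_apply] <;> omega
    subst hve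
    have h4 := (hf.three_a k i j (Ne.symm hik) hij c a b (Ne.symm hac) (Ne.symm hbc) hab hi hj).1
    have e1 : e3 c + e3 a + e3 b = e3 a + e3 b + e3 c := by abel
    rw [e1] at h4
    exact h4
  by_cases h4 : v a = 0
  · have hve : v = e3 b + e3 c := by
      apply eq_of_three hab hac hbc <;> simp only [Pi.add_apply] <;> omega
    subst hve
    have e1 : e3 b + e3 c + e3 a = e3 a + e3 b + e3 c := by abel
    rw [e1] at hi
    exact hi
  by_cases h5 : v b = 0
  · have hve : v = e3 a + e3 c := by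
      apply eq_of_three hab hac hbc <;> simp only [Pi.add_apply] <;> omega
    subst hve
    have h6 := (hf.three_b j i k (Ne.symm hij) hjk hik b a c (Ne.symm hab) hbc hac hj hi hk).1
    rw [add_comm (e3 b) (e3 a)] at h6
    exact h6
  · have hve : v = e3 a + e3 b := by
      apply eq_of_three hab hac hbc <;> simp only [Pi.add_apply] <;> omega
    subst hve
    have h6 := (hf.three_b k i j (Ne.symm hik) (Ne.symm hjk) hij c a b (Ne.symm hac)
      (Ne.symm hbc) hab hk hi hj).1
    have e1 : e3 c + e3 a + e3 b = e3 a + e3 b + e3 c := by abel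
    rw [e1] at h6
    exact h6

theorem TopeSys3.no3_aux (m : ℕ) : ∀ (ι : Type) [Fintype ι] (f : (Fin 3 → ℕ) → ι → Fin 3),
    TopeSys3 (m + 3) f → ∀ (v w : Fin 3 → ℕ), ∑ c, v c + 1 = m + 3 → ∑ c, w c + 1 = m + 3 →
    ∀ (i j k : ι), i ≠ j → i ≠ k → j ≠ k → ∀ a b c : Fin 3, a ≠ b → a ≠ c → b ≠ c →
    f (v + e3 a) i = a → f (v + e3 b) j = b → f (v + e3 c) k = c →
    f (w + e3 b) i = b → f (w + e3 c) j = c → f (w + e3 a) k = a → False := by
  induction m with
  | zero =>
    intro ι _ f hf v w hv hw i j k hij hik hjk a b c hab hac hbc h1 h2 h3 h4 h5 h6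
    have e1 := hf.three v hv i j k hij hik hjk a b c hab hac hbc h1 h2 h3
    have e2 := hf.three w hw i j k hij hik hjk b c a hbc (Ne.symm hab) (Ne.symm hac) h4 h5 h6
    have e3' : e3 b + e3 c + e3 a = e3 a + e3 b + e3 c := by abel
    rw [e3', e1] at e2
    exact hab e2
  | succ m ih =>
    intro ι _ f hf v w hv hw i j k hij hik hjk a b c hab hac hbc h1 h2 h3 h4 h5 h6
    classical
    obtain ⟨l, hl⟩ : ∃ l : ι, l ∉ ({i, j, k} : Finset ι) := by
      by_contra hno
      push Not at hno
      have h7 : Fintype.card ι ≤ ({i, j, k} : Finset ι).card := by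
        rw [← Finset.card_univ]
        exact Finset.card_le_card fun x _ => hno x
      have h8 := Finset.card_le_three (a := i) (b := j) (c := k)
      rw [hf.card] at h7
      omega
    simp only [Finset.mem_insert, Finset.mem_singleton, not_or] at hl
    obtain ⟨v', hv', hvs⟩ := hf.del_sub (by omega) l v (by omega)
    obtain ⟨w', hw', hws⟩ := hf.del_sub (by omega) l w (by omega)
    exact ih {h : ι // h ≠ l} (del3 f l) (hf.del l) v' w' hv' hw' ⟨i, Ne.symm hl.1⟩
      ⟨j, Ne.symm hl.2.1⟩ ⟨k, Ne.symm hl.2.2⟩ (fun h => hij (congrArg Subtype.val h))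
      (fun h => hik (congrArg Subtype.val h)) (fun h => hjk (congrArg Subtype.val h))
      a b c hab hac hbc
      (hvs ⟨i, Ne.symm hl.1⟩ a h1) (hvs ⟨j, Ne.symm hl.2.1⟩ b h2)
      (hvs ⟨k, Ne.symm hl.2.2⟩ c h3) (hws ⟨i, Ne.symm hl.1⟩ b h4)
      (hws ⟨j, Ne.symm hl.2.1⟩ c h5) (hws ⟨k, Ne.symm hl.2.2⟩ a h6)

theorem TopeSys3.no3 {n : ℕ} (hf : TopeSys3 n f) (v w : Fin 3 → ℕ) (hv : ∑ c, v c + 1 = n)
    (hw : ∑ c, w c + 1 = n) (i j k : ι) (hij : i ≠ j) (hik : i ≠ k) (hjk : j ≠ k) (a b c : Fin 3)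
    (hab : a ≠ b) (hac : a ≠ c) (hbc : b ≠ c)
    (h1 : f (v + e3 a) i = a) (h2 : f (v + e3 b) j = b) (h3 : f (v + e3 c) k = c)
    (h4 : f (w + e3 b) i = b) (h5 : f (w + e3 c) j = c) (h6 : f (w + e3 a) k = a) : False := by
  classical
  have hn : 3 ≤ n := by
    rw [← hf.card]
    have := Finset.card_le_univ ({i, j, k} : Finset ι)
    rw [Finset.card_insert_of_notMem (by simp [hij, hik]), Finset.card_pair hjk] at this
    exact this
  obtain ⟨m, rfl⟩ := Nat.exists_eq_add_of_le' hn
  exact TopeSys3.no3_aux m ι f hf v w hv hw i j k hij hik hjk a b c hab hac hbc h1 h2 h3 h4 h5 h6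

end

/-- **Three colours.** A local tope system is a compatible family of trees. -/
theorem TopeSys3.treeFam {n : ℕ} (f : (Fin 3 → ℕ) → Fin n → Fin 3) (hn : 1 ≤ n)
    (hf : TopeSys3 n f) :
    TreeFam n 3 (fun v h => Finset.univ.filter (fun c => f (v + e3 c) h = c)) := by
  constructor
  · intro v hv c
    have h1 := hf.content (v + e3 c) (by rw [sum_add_e3]; omega) c
    simp only [Finset.mem_filter, Finset.mem_univ, true_and]
    rw [h1]
    simp [e3]
  · intro v w hv hw g g' hg hg' hsg hsg' hrow hcol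
    have hv1 : ∑ c, v c + 1 = n := by omega
    have hw1 : ∑ c, w c + 1 = n := by omega
    have hpos : ∀ i c, g' i c < g i c → f (v + e3 c) i = c := by
      intro i c h
      by_contra hne
      have h1 := hsg i c (by simpa using hne)
      have h2 := hg' i c
      linarith
    have hneg : ∀ i c, g i c < g' i c → f (w + e3 c) i = c := by
      intro i c h
      by_contra hne
      have h1 := hsg' i c (by simpa using hne)
      have h2 := hg i c
      linarith
    -- from a positive entry to a negative one in the same row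
    have hrow' : ∀ i c, g' i c < g i c → ∃ c', g i c' < g' i c' := by
      intro i c h
      by_contra hno
      push Not at hno
      have := Finset.sum_lt_sum (s := Finset.univ) (f := fun c => g' i c) (g := fun c => g i c)
        (fun c _ => hno c) ⟨c, Finset.mem_univ c, h⟩
      rw [hrow i] at this
      exact lt_irrefl _ this
    have hcol' : ∀ i c, g i c < g' i c → ∃ i', g' i' c < g i' c := by
      intro i c h
      by_contra hno
      push Not at hno
      have := Finset.sum_lt_sum (s := Finset.univ) (f := fun i => g i c) (g := fun i => g' i c)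
        (fun i _ => hno i) ⟨i, Finset.mem_univ i, h⟩
      rw [hcol c] at this
      exact lt_irrefl _ this
    have hnext : ∀ i c, g' i c < g i c → ∃ c' i', c ≠ c' ∧ g i c' < g' i c' ∧
        g' i' c' < g i' c' := by
      intro i c h
      obtain ⟨c', hc'⟩ := hrow' i c h
      obtain ⟨i', hi'⟩ := hcol' i c' hc'
      refine ⟨c', i', ?_, hc', hi'⟩
      rintro rfl
      exact lt_asymm h hc'
    have hR2 : ∀ (i j : Fin n) (a b : Fin 3), a ≠ b → g' i a < g i a → g i b < g' i b →
        g' j b < g j b → g j a < g' j a → False := by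
      intro i j a b hab h1 h2 h3 h4
      refine hf.noswap v w hv1 hw1 i j ?_ a b hab (hpos i a h1) (hpos j b h3) (hneg i b h2)
        (hneg j a h4)
      rintro rfl
      exact lt_asymm h1 h4
    have hle : ∀ i c, g i c ≤ g' i c := by
      intro i a
      by_contra hlt
      push Not at hlt
      obtain ⟨b, j, hab, h1, h2⟩ := hnext i a hlt
      obtain ⟨c, k, hbc, h3, h4⟩ := hnext j b h2
      by_cases hca : c = a
      · subst hca
        exact hR2 i j c b hab hlt h1 h2 h3
      obtain ⟨d, l, hcd, h5, h6⟩ := hnext k c h4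
      by_cases hdb : d = b
      · subst hdb
        exact hR2 j k d c hbc h2 h3 h4 h5
      have hda : d = a := third_eq a b c d ⟨hab, Ne.symm hca, hbc, hdb, Ne.symm hcd⟩
      subst hda
      refine hf.no3 v w hv1 hw1 i j k ?_ ?_ ?_ d b c hab (Ne.symm hca) hbc (hpos i d hlt)
        (hpos j b h2) (hpos k c h4) (hneg i b h1) (hneg j c h3) (hneg k d h5)
      · rintro rfl
        exact lt_asymm h1 h2
      · rintro rfl
        exact lt_asymm hlt h5
      · rintro rfl
        exact lt_asymm h3 h4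
    funext i c
    have h1 := (Finset.sum_eq_sum_iff_of_le (s := Finset.univ) (f := fun c => g i c)
      (g := fun c => g' i c) (fun c _ => hle i c)).1 (hrow i)
    exact h1 c (Finset.mem_univ c)

end Pool.Agent.Helper28.SO
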