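import Pool.Agent.Helper28.SP.Criterion
import Pool.Agent.Helper28.SP.Count

set_option autoImplicit false

/-! A compatible family of spanning trees of `K_{n,d}`, one for each lattice point of
`(n-1) Δ_{d-1}`: the covering property, by counting lattice points. -/

namespace Pool.Agent.Helper28.SO

/-- A compatible family of trees `T v`, `|v| = n - 1`. -/
structure TreeFam (n d : ℕ) (T : (Fin d → ℕ) → Fin n → Finset (Fin d)) : Prop where
  deg : ∀ v : Fin d → ℕ, ∑ c, v c = n - 1 →
    ∀ c, (Finset.univ.filter (fun i => c ∈ T v i)).card = v c + 1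
  compat : ∀ v w : Fin d → ℕ, ∑ c, v c = n - 1 → ∑ c, w c = n - 1 →
    ∀ g g' : Fin n → Fin d → ℝ, (∀ i c, 0 ≤ g i c) → (∀ i c, 0 ≤ g' i c) →
    (∀ i c, c ∉ T v i → g i c = 0) → (∀ i c, c ∉ T w i → g' i c = 0) →
    (∀ i, ∑ c, g i c = ∑ c, g' i c) → (∀ c, ∑ i, g i c = ∑ i, g' i c) → g = g'

/-- `(y, x)` is the pair of marginals of a nonnegative function supported on one of the trees. -/
def Cov {n d : ℕ} (T : (Fin d → ℕ) → Fin n → Finset (Fin d)) (y : Fin n → ℝ) (x : Fin d → ℝ) :
    Prop :=
  ∃ v : Fin d → ℕ, ∑ c, v c = n - 1 ∧ ∃ g : Fin n → Fin d → ℝ, (∀ i c, 0 ≤ g i c) ∧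
    (∀ i c, c ∉ T v i → g i c = 0) ∧ (∀ i, ∑ c, g i c = y i) ∧ ∀ c, ∑ i, g i c = x c

theorem exists_nbhd {n d : ℕ} (T : (Fin d → ℕ) → Fin n → Finset (Fin d)) (y₀ : Fin n → ℝ)
    (x₀ : Fin d → ℝ) (h : ¬ Cov T y₀ x₀) : ∃ ε > 0, ∀ (y : Fin n → ℝ) (x : Fin d → ℝ),
      (∀ i, |y i - y₀ i| < ε) → (∀ c, |x c - x₀ c| < ε) → ¬ Cov T y x := by
  classical
  let R : ℝ := ∑ i, |y₀ i| + 1
  let K : (Fin d → ℕ) → Set (Fin n → Fin d → ℝ) := fun v =>
    Set.pi Set.univ fun i => Set.pi Set.univ fun c =>
      if c ∈ T v i then Set.Icc (0 : ℝ) R else {0}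
  have hK : ∀ v, IsCompact (K v) := by
    intro v
    refine isCompact_univ_pi fun i => isCompact_univ_pi fun c => ?_
    split_ifs
    · exact isCompact_Icc
    · exact isCompact_singleton
  let Φ : (Fin n → Fin d → ℝ) → (Fin n → ℝ) × (Fin d → ℝ) :=
    fun g => (fun i => ∑ c, g i c, fun c => ∑ i, g i c)
  have hΦ : Continuous Φ := by
    refine Continuous.prodMk ?_ ?_
    · exact continuous_pi fun i => continuous_finset_sum _ fun c _ =>
        (continuous_apply c).comp (continuous_apply i)
    · exact continuous_pi fun c => continuous_finset_sum _ fun i _ =>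
        (continuous_apply c).comp (continuous_apply i)
  let V : Finset (Fin d → ℕ) := Finset.piAntidiag Finset.univ (n - 1)
  have hV : ∀ v : Fin d → ℕ, v ∈ V ↔ ∑ c, v c = n - 1 := by
    intro v
    simp [V]
  let W : Set ((Fin n → ℝ) × (Fin d → ℝ)) := ⋃ v ∈ V, Φ '' K v
  have hW : IsClosed W := by
    refine Set.Finite.isClosed_biUnion V.finite_toSet fun v _ => ?_
    exact ((hK v).image hΦ).isClosed
  have h0 : (y₀, x₀) ∈ Wᶜ := by
    intro hm
    simp only [W, Set.mem_iUnion] at hm
    obtain ⟨v, hv, g, hg, he⟩ := hm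
    apply h
    refine ⟨v, (hV v).1 hv, g, ?_, ?_, ?_, ?_⟩
    · intro i c
      have := hg i (Set.mem_univ i) c (Set.mem_univ c)
      by_cases hc : c ∈ T v i
      · simp only [hc, if_true] at this
        exact this.1
      · simp only [hc, if_false, Set.mem_singleton_iff] at this
        exact this.ge
    · intro i c hc
      have := hg i (Set.mem_univ i) c (Set.mem_univ c)
      simp only [hc, if_false, Set.mem_singleton_iff] at this
      exact this
    · intro i
      exact congrFun (congrArg Prod.fst he) i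
    · intro c
      exact congrFun (congrArg Prod.snd he) c
  obtain ⟨ε, hε, hball⟩ := Metric.isOpen_iff.1 hW.isOpen_compl _ h0
  refine ⟨min ε 1, lt_min hε one_pos, ?_⟩
  intro y x hy hx hcov
  obtain ⟨v, hv, g, h1, h2, h3, h4⟩ := hcov
  have hmem : (y, x) ∈ Metric.ball (y₀, x₀) ε := by
    rw [Metric.mem_ball, Prod.dist_eq, max_lt_iff]
    constructor
    · rw [dist_pi_lt_iff hε]
      intro i
      rw [Real.dist_eq]
      exact lt_of_lt_of_le (hy i) (min_le_left _ _)
    · rw [dist_pi_lt_iff hε]
      intro c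
      rw [Real.dist_eq]
      exact lt_of_lt_of_le (hx c) (min_le_left _ _)
  apply hball hmem
  simp only [W, Set.mem_iUnion]
  refine ⟨v, (hV v).2 hv, g, ?_, ?_⟩
  · intro i _ c _
    by_cases hc : c ∈ T v i
    · simp only [hc, if_true]
      refine ⟨h1 i c, ?_⟩
      have h5 : g i c ≤ y i := by
        rw [← h3 i]
        exact Finset.single_le_sum (f := fun c => g i c) (fun c _ => h1 i c) (Finset.mem_univ c)
      have h6 : |y₀ i| ≤ ∑ i, |y₀ i| :=
        Finset.single_le_sum (f := fun i => |y₀ i|) (fun i _ => abs_nonneg _) (Finset.mem_univ i)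
      have h7 : |y i - y₀ i| < 1 := lt_of_lt_of_le (hy i) (min_le_right _ _)
      have h8 := (abs_lt.1 h7).2
      have h9 := le_abs_self (y₀ i)
      show g i c ≤ ∑ i, |y₀ i| + 1
      linarith
    · simp only [hc, if_false, Set.mem_singleton_iff]
      exact h2 i c hc
  · exact Prod.ext (funext h3) (funext h4)

theorem Cov.scale {n d : ℕ} {T : (Fin d → ℕ) → Fin n → Finset (Fin d)} {y : Fin n → ℝ}
    {x : Fin d → ℝ} (h : Cov T y x) {r : ℝ} (hr : 0 ≤ r) :
    Cov T (fun i => r * y i) (fun c => r * x c) := by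
  obtain ⟨v, hv, g, h1, h2, h3, h4⟩ := h
  refine ⟨v, hv, fun i c => r * g i c, fun i c => mul_nonneg hr (h1 i c), ?_, ?_, ?_⟩
  · intro i c hc
    dsimp only
    rw [h2 i c hc, mul_zero]
  · intro i
    rw [← Finset.mul_sum, h3]
  · intro c
    rw [← Finset.mul_sum, h4]

/-- The counting inequality. -/
theorem count_ineq {n d : ℕ} (hn : 1 ≤ n) (hd : 1 ≤ d)
    (T : (Fin d → ℕ) → Fin n → Finset (Fin d)) (hT : TreeFam n d T) (N s s' : ℕ)
    (hN : n + d - 1 ≤ N) (Y : Fin n → ℕ) (X : Fin d → ℕ) (hY : ∑ i, Y i + s = N)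
    (hX : ∑ c, X c + s' = N)
    (hunc : ∀ (y : Fin n → ℕ) (x : Fin d → ℕ), ∑ i, y i = s → ∑ c, x c = s' →
      ¬ Cov T (fun i => ((Y i + y i : ℕ) : ℝ)) (fun c => ((X c + x c : ℕ) : ℝ))) :
    d.multichoose (n - 1) * (n + d - 1).multichoose (N - (n + d - 1)) +
      n.multichoose s * d.multichoose s' ≤ n.multichoose N * d.multichoose N := by
  classical
  let E : (Fin d → ℕ) → Finset (Fin n × Fin d) := fun v =>
    Finset.univ.filter (fun p => p.2 ∈ T v p.1)
  have hE : ∀ v : Fin d → ℕ, ∑ c, v c = n - 1 → (E v).card = n + d - 1 := by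
    intro v hv
    have h1 : (E v).card = ∑ c, (Finset.univ.filter (fun i => c ∈ T v i)).card := by
      simp only [E, Finset.card_filter]
      rw [Fintype.sum_prod_type_right]
    rw [h1, Finset.sum_congr rfl fun c _ => hT.deg v hv c, Finset.sum_add_distrib, hv]
    simp
    omega
  let V : Finset (Fin d → ℕ) := Finset.piAntidiag Finset.univ (n - 1)
  have hV : ∀ v : Fin d → ℕ, v ∈ V ↔ ∑ c, v c = n - 1 := by
    intro v
    simp [V]
  let P : Finset ((Fin n → ℕ) × (Fin d → ℕ)) :=
    Finset.piAntidiag Finset.univ N ×ˢ Finset.piAntidiag Finset.univ N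
  have hP : ∀ p : (Fin n → ℕ) × (Fin d → ℕ), p ∈ P ↔ ∑ i, p.1 i = N ∧ ∑ c, p.2 c = N := by
    intro p
    simp [P]
  let A : Finset (Σ _ : Fin d → ℕ, (Fin n × Fin d → ℕ)) :=
    V.sigma (fun v => Finset.piAntidiag (E v) (N - (n + d - 1)))
  let gg : (Σ _ : Fin d → ℕ, (Fin n × Fin d → ℕ)) → Fin n → Fin d → ℕ :=
    fun p i c => p.2 (i, c) + if c ∈ T p.1 i then 1 else 0
  let FA : (Σ _ : Fin d → ℕ, (Fin n × Fin d → ℕ)) → (Fin n → ℕ) × (Fin d → ℕ) :=
    fun p => (fun i => ∑ c, gg p i c, fun c => ∑ i, gg p i c)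
  have hA : ∀ p, p ∈ A → (∑ c, p.1 c = n - 1) ∧ (∑ q ∈ E p.1, p.2 q = N - (n + d - 1)) ∧
      ∀ i c, c ∉ T p.1 i → p.2 (i, c) = 0 := by
    intro p hp
    rw [Finset.mem_sigma, hV, Finset.mem_piAntidiag] at hp
    refine ⟨hp.1, hp.2.1, ?_⟩
    intro i c hc
    by_contra h
    have := hp.2.2 (i, c) h
    simp only [E, Finset.mem_filter, Finset.mem_univ, true_and] at this
    exact hc this
  have hgg : ∀ p ∈ A, ∑ i, ∑ c, gg p i c = N := by
    intro p hp
    obtain ⟨h1, h2, h3⟩ := hA p hp
    simp only [gg, Finset.sum_add_distrib]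
    have e1 : ∑ i, ∑ c, p.2 (i, c) = N - (n + d - 1) := by
      rw [← h2, ← Fintype.sum_prod_type']
      symm
      apply Finset.sum_subset (Finset.subset_univ _)
      rintro ⟨i, c⟩ _ hq
      apply h3
      intro hc
      exact hq (by simp only [E, Finset.mem_filter, Finset.mem_univ, true_and]; exact hc)
    have e2 : ∑ i, ∑ c, (if c ∈ T p.1 i then 1 else 0) = n + d - 1 := by
      rw [← hE p.1 h1]
      simp only [E, Finset.card_filter]
      rw [Fintype.sum_prod_type]
    rw [e1, e2]
    omega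
  have hcomm : ∀ p, ∑ c, ∑ i, gg p i c = ∑ i, ∑ c, gg p i c := fun p => Finset.sum_comm
  -- the image of A is covered
  have hFAcov : ∀ p ∈ A, Cov T (fun i => ((FA p).1 i : ℝ)) (fun c => ((FA p).2 c : ℝ)) := by
    intro p hp
    obtain ⟨h1, h2, h3⟩ := hA p hp
    refine ⟨p.1, h1, fun i c => (gg p i c : ℝ), fun i c => Nat.cast_nonneg _, ?_, ?_, ?_⟩
    · intro i c hc
      simp only [gg, h3 i c hc, hc, if_false, add_zero, Nat.cast_zero]
    · intro i
      simp only [FA, Nat.cast_sum]
    · intro c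
      simp only [FA, Nat.cast_sum]
  have hFAinj : Set.InjOn FA A := by
    intro p hp q hq he
    have hp' := hA p hp
    have hq' := hA q hq
    have h1 : (fun i c => (gg p i c : ℝ)) = fun i c => (gg q i c : ℝ) := by
      apply hT.compat p.1 q.1 hp'.1 hq'.1
      · exact fun i c => Nat.cast_nonneg _
      · exact fun i c => Nat.cast_nonneg _
      · intro i c hc
        simp only [gg, hp'.2.2 i c hc, hc, if_false, add_zero, Nat.cast_zero]
      · intro i c hc
        simp only [gg, hq'.2.2 i c hc, hc, if_false, add_zero, Nat.cast_zero]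
      · intro i
        have := congrFun (congrArg Prod.fst he) i
        simp only [FA] at this
        exact_mod_cast this
      · intro c
        have := congrFun (congrArg Prod.snd he) c
        simp only [FA] at this
        exact_mod_cast this
    have h2 : ∀ i c, gg p i c = gg q i c := by
      intro i c
      have := congrFun (congrFun h1 i) c
      exact_mod_cast this
    have h3 : ∀ i c, c ∈ T p.1 i ↔ c ∈ T q.1 i := by
      intro i c
      constructor
      · intro h
        by_contra hn
        have := h2 i c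
        simp only [gg, h, hn, if_true, if_false, hq'.2.2 i c hn] at this
        omega
      · intro h
        by_contra hn
        have := h2 i c
        simp only [gg, h, hn, if_true, if_false, hp'.2.2 i c hn] at this
        omega
    have h4 : p.1 = q.1 := by
      funext c
      have e1 := hT.deg p.1 hp'.1 c
      have e2 := hT.deg q.1 hq'.1 c
      have e3 : Finset.univ.filter (fun i => c ∈ T p.1 i) =
          Finset.univ.filter (fun i => c ∈ T q.1 i) :=
        Finset.filter_congr fun i _ => h3 i c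
      rw [e3] at e1
      omega
    have h5 : p.2 = q.2 := by
      funext r
      obtain ⟨i, c⟩ := r
      have := h2 i c
      by_cases hc : c ∈ T p.1 i
      · have hc' := (h3 i c).1 hc
        simp only [gg, hc, hc', if_true] at this
        omega
      · have hc' : c ∉ T q.1 i := fun h => hc ((h3 i c).2 h)
        simp only [gg, hc, hc', if_false] at this
        omega
    obtain ⟨p1, p2⟩ := p
    obtain ⟨q1, q2⟩ := q
    simp only at h4 h5
    rw [h4, h5]
  -- the uncovered points
  let B : Finset ((Fin n → ℕ) × (Fin d → ℕ)) :=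
    Finset.piAntidiag Finset.univ s ×ˢ Finset.piAntidiag Finset.univ s'
  let FB : (Fin n → ℕ) × (Fin d → ℕ) → (Fin n → ℕ) × (Fin d → ℕ) :=
    fun p => (fun i => Y i + p.1 i, fun c => X c + p.2 c)
  have hB : ∀ p, p ∈ B → ∑ i, p.1 i = s ∧ ∑ c, p.2 c = s' := by
    intro p hp
    simpa [B] using hp
  have hFBinj : Function.Injective FB := by
    intro p q he
    apply Prod.ext
    · funext i
      have := congrFun (congrArg Prod.fst he) i
      simp only [FB] at this
      omega
    · funext c
      have := congrFun (congrArg Prod.snd he) c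
      simp only [FB] at this
      omega
  have hdisj : Disjoint (A.image FA) (B.image FB) := by
    rw [Finset.disjoint_left]
    intro r hr hr'
    obtain ⟨p, hp, rfl⟩ := Finset.mem_image.1 hr
    obtain ⟨q, hq, he⟩ := Finset.mem_image.1 hr'
    have h1 := hFAcov p hp
    obtain ⟨h2, h3⟩ := hB q hq
    apply hunc q.1 q.2 h2 h3
    rw [← he] at h1
    exact h1
  have hsub : A.image FA ∪ B.image FB ⊆ P := by
    intro r hr
    rw [hP]
    rcases Finset.mem_union.1 hr with hr | hr
    · obtain ⟨p, hp, rfl⟩ := Finset.mem_image.1 hr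
      exact ⟨hgg p hp, (hcomm p).trans (hgg p hp)⟩
    · obtain ⟨q, hq, rfl⟩ := Finset.mem_image.1 hr
      obtain ⟨h2, h3⟩ := hB q hq
      simp only [FB, Finset.sum_add_distrib]
      exact ⟨by rw [h2, hY], by rw [h3, hX]⟩
  have hcard := Finset.card_le_card hsub
  rw [Finset.card_union_of_disjoint hdisj, Finset.card_image_of_injOn hFAinj,
    Finset.card_image_of_injective _ hFBinj] at hcard
  have cA : A.card = d.multichoose (n - 1) * (n + d - 1).multichoose (N - (n + d - 1)) := by
    simp only [A]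
    rw [Finset.card_sigma]
    rw [Finset.sum_congr rfl (g := fun _ => (n + d - 1).multichoose (N - (n + d - 1)))]
    · rw [Finset.sum_const, smul_eq_mul]
      congr 1
      simp only [V]
      rw [card_pa, Finset.card_univ, Fintype.card_fin]
    · intro v hv
      rw [card_pa, hE v ((hV v).1 hv)]
  have cB : B.card = n.multichoose s * d.multichoose s' := by
    simp only [B]
    rw [Finset.card_product, card_pa, card_pa, Finset.card_univ, Finset.card_univ,
      Fintype.card_fin, Fintype.card_fin]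
  have cP : P.card = n.multichoose N * d.multichoose N := by
    simp only [P]
    rw [Finset.card_product, card_pa, card_pa, Finset.card_univ, Finset.card_univ,
      Fintype.card_fin, Fintype.card_fin]
  rw [cA, cB, cP] at hcard
  exact hcard

end Pool.Agent.Helper28.SO
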