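import Mathlib

set_option autoImplicit false

/-! Local facet matching implies pairwise compatibility, for a finite complex of simplicial
cones with unimodular-like supports.  Abstract form. -/

namespace Pool.Agent.Helper28.SO

open Finset Filter Topology

section

variable {E V β : Type} [Fintype E] [DecidableEq E] [Fintype β]
  [NormedAddCommGroup V] [NormedSpace ℝ V] [FiniteDimensional ℝ V]

/-- A finite complex of simplicial cones. -/
structure Cx (M : (E → ℝ) →ₗ[ℝ] V) (S : β → Finset E) (fl : β → V →ₗ[ℝ] (E → ℝ))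
    (P : Set V) : Prop where
  supp : ∀ b z e, e ∉ S b → fl b z e = 0
  sec : ∀ b z, M (fl b z) = z
  ret : ∀ b (h : E → ℝ), (∀ e, e ∉ S b → h e = 0) → fl b (M h) = h
  popen : IsOpen P
  pconv : Convex ℝ P
  padd : ∀ (g : E → ℝ) z, (∀ e, 0 ≤ g e) → z ∈ P → M g + z ∈ P
  psmul : ∀ (r : ℝ) z, 0 < r → z ∈ P → r • z ∈ P
  ppos : ∀ b z, (∀ e ∈ S b, 0 < fl b z e) → z ∈ P
  flip : ∀ b, ∀ e ∈ S b, (∃ z ∈ P, fl b z e = 0) → ∃ b', ∃ e' ∈ S b',
    (S b').erase e' = (S b).erase e ∧ ∀ z, fl b' z e' = - fl b z e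
  uniq : ∀ b b', ∀ e ∈ S b, ∀ e' ∈ S b', (S b').erase e' = (S b).erase e →
    (∀ z, fl b' z e' = fl b z e) → b' = b
  base : ∃ z b₀, (∀ e ∈ S b₀, 0 < fl b₀ z e) ∧ ∀ b, b ≠ b₀ → ∃ e ∈ S b, fl b z e < 0

/-- membership of `m + 0 (z + 0 u)` in the open cone of `b`, with `fl b m = gs`. -/
def Mem (S : β → Finset E) (fl : β → V →ₗ[ℝ] (E → ℝ)) (m : V) (gs : E → ℝ) (b : β)
    (z u : V) : Prop :=
  fl b m = gs ∧ ∀ e ∈ S b, gs e = 0 → (0 < fl b z e ∨ (fl b z e = 0 ∧ 0 < fl b u e))

open Classical in
/-- number of cones -/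
noncomputable def Nn (S : β → Finset E) (fl : β → V →ₗ[ℝ] (E → ℝ)) (m : V) (gs : E → ℝ)
    (z u : V) : ℕ :=
  (univ.filter (fun b => Mem S fl m gs b z u)).card

variable {M : (E → ℝ) →ₗ[ℝ] V} {S : β → Finset E} {fl : β → V →ₗ[ℝ] (E → ℝ)} {P : Set V}

theorem Cx.cross_le (h : Cx M S fl P) (m : V) (gs : E → ℝ) (z u : V) (hz : z ∈ P)
    (hgen : ∀ b, ∀ e ∈ S b, ∀ e' ∈ S b, fl b z e = 0 → fl b z e' = 0 → e = e') :
    Nn S fl m gs z u ≤ Nn S fl m gs z (-u) := by
  classical
  unfold Nn
  refine Finset.card_le_card_of_forall_subsingleton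
    (fun b b' => (b = b' ∧ ∀ e ∈ S b, gs e = 0 → fl b z e ≠ 0) ∨
      (∃ e ∈ S b, ∃ e' ∈ S b', gs e' = 0 ∧ fl b' z e' = 0 ∧
        (S b').erase e' = (S b).erase e ∧ ∀ z, fl b' z e' = - fl b z e)) ?_ ?_
  · intro b hb
    obtain ⟨hbm, hbe⟩ := (mem_filter.1 hb).2
    by_cases hno : ∀ e ∈ S b, gs e = 0 → fl b z e ≠ 0
    · refine ⟨b, mem_filter.2 ⟨mem_univ _, hbm, fun e he hge => ?_⟩, Or.inl ⟨rfl, hno⟩⟩
      rcases hbe e he hge with h1 | h1
      · exact Or.inl h1
      · exact absurd h1.1 (hno e he hge)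
    · push Not at hno
      obtain ⟨e, he, hge, hze⟩ := hno
      have hue : 0 < fl b u e := by
        rcases hbe e he hge with h1 | h1
        · exact absurd hze h1.ne'
        · exact h1.2
      obtain ⟨b', e', he', herase, hneg⟩ := h.flip b e he ⟨z, hz, hze⟩
      have hsub : ∀ x, x ∉ S b' → ∀ y : V, fl b y e = 0 → fl b y x = 0 := by
        intro x hx y hy
        by_cases hxe : x = e
        · rw [hxe, hy]
        · by_cases hxb : x ∈ S b
          · have : x ∈ (S b').erase e' := by
              rw [herase]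
              exact mem_erase.2 ⟨hxe, hxb⟩
            exact absurd (mem_of_mem_erase this) hx
          · exact h.supp b y x hxb
      have hsame : ∀ y : V, fl b y e = 0 → fl b' y = fl b y := by
        intro y hy
        have h1 := h.ret b' (fl b y) (fun x hx => hsub x hx y hy)
        rwa [h.sec] at h1
      have hm0 : fl b m e = 0 := by rw [hbm, hge]
      have hne : e' ∉ S b := by
        intro hcon
        by_cases hee : e' = e
        · subst hee
          have h1 := h.ret b (Pi.single e' 1) (fun x hx => by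
            rw [Pi.single_eq_of_ne]
            rintro rfl
            exact hx he)
          have h2 := h.ret b' (Pi.single e' 1) (fun x hx => by
            rw [Pi.single_eq_of_ne]
            rintro rfl
            exact hx he')
          have h3 := hneg (M (Pi.single e' 1))
          rw [h1, h2] at h3
          simp at h3
          linarith
        · have : e' ∈ (S b').erase e' := by
            rw [herase]
            exact mem_erase.2 ⟨hee, hcon⟩
          exact absurd rfl (mem_erase.1 this).1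
      have hge' : gs e' = 0 := by
        rw [← hbm]
        exact h.supp b m e' hne
      have hze' : fl b' z e' = 0 := by rw [hneg, hze, neg_zero]
      refine ⟨b', mem_filter.2 ⟨mem_univ _, ?_, ?_⟩, Or.inr ⟨e, he, e', he', hge', hze',
        herase, hneg⟩⟩
      · rw [hsame m hm0, hbm]
      · intro x hx hgx
        by_cases hxe : x = e'
        · subst hxe
          right
          refine ⟨hze', ?_⟩
          rw [hneg, map_neg]
          simpa using hue
        · left
          have hx2 : x ∈ (S b).erase e := by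
            rw [← herase]
            exact mem_erase.2 ⟨hxe, hx⟩
          obtain ⟨hxe2, hxb⟩ := mem_erase.1 hx2
          rw [hsame z hze]
          rcases hbe x hxb hgx with h1 | h1
          · exact h1
          · exact absurd (hgen b x hxb e he h1.1 hze) hxe2
  · intro b' hb' b₁ hb₁ b₂ hb₂
    obtain ⟨-, h1⟩ := hb₁
    obtain ⟨-, h2⟩ := hb₂
    rcases h1 with ⟨rfl, h1⟩ | ⟨e₁, he₁, f₁, hf₁, g1, z1, er1, n1⟩
    · rcases h2 with ⟨rfl, h2⟩ | ⟨e₂, he₂, f₂, hf₂, g2, z2, er2, n2⟩
      · rfl
      · exact absurd z2 (h1 f₂ hf₂ g2)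
    · rcases h2 with ⟨rfl, h2⟩ | ⟨e₂, he₂, f₂, hf₂, g2, z2, er2, n2⟩
      · exact absurd z1 (h2 f₁ hf₁ g1)
      · have hff := hgen b' f₁ hf₁ f₂ hf₂ z1 z2
        subst hff
        refine h.uniq b₂ b₁ e₂ he₂ e₁ he₁ (er1.symm.trans er2) ?_
        intro y
        have e1 := n1 y
        have e2 := n2 y
        linarith

theorem Cx.cross (h : Cx M S fl P) (m : V) (gs : E → ℝ) (z u : V) (hz : z ∈ P)
    (hgen : ∀ b, ∀ e ∈ S b, ∀ e' ∈ S b, fl b z e = 0 → fl b z e' = 0 → e = e') :
    Nn S fl m gs z u = Nn S fl m gs z (-u) := by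
  refine le_antisymm (h.cross_le m gs z u hz hgen) ?_
  have := h.cross_le m gs z (-u) hz hgen
  rwa [neg_neg] at this

/-- sign of an affine function near a point, on the right -/
theorem sign_right (f s u : ℝ) : ∀ᶠ t in 𝓝[>] s,
    ((0 < f + (t - s) * u ∨ (f + (t - s) * u = 0 ∧ 0 < u)) ↔ (0 < f ∨ (f = 0 ∧ 0 < u))) := by
  have hc : ContinuousAt (fun t => f + (t - s) * u) s := by fun_prop
  rcases lt_trichotomy f 0 with hf | hf | hf
  · have h1 : ∀ᶠ t in 𝓝 s, f + (t - s) * u < 0 := by
      apply hc.eventually_lt continuousAt_const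
      simpa using hf
    filter_upwards [nhdsWithin_le_nhds h1] with t ht
    constructor
    · rintro (h | h)
      · linarith
      · linarith [h.1]
    · rintro (h | h)
      · linarith
      · linarith [h.1]
  · subst hf
    filter_upwards [self_mem_nhdsWithin] with t ht
    have ht' : 0 < t - s := sub_pos.2 ht
    simp only [zero_add, lt_self_iff_false, false_or, true_and]
    constructor
    · rintro (h | h)
      · exact (pos_iff_pos_of_mul_pos h).1 ht'
      · exact h.2
    · intro h
      exact Or.inl (mul_pos ht' h)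
  · have h1 : ∀ᶠ t in 𝓝 s, 0 < f + (t - s) * u := by
      apply continuousAt_const.eventually_lt hc
      simpa using hf
    filter_upwards [nhdsWithin_le_nhds h1] with t ht
    exact ⟨fun _ => Or.inl hf, fun _ => Or.inl ht⟩

/-- sign of an affine function near a point, on the left -/
theorem sign_left (f s u : ℝ) : ∀ᶠ t in 𝓝[<] s,
    ((0 < f + (t - s) * u ∨ (f + (t - s) * u = 0 ∧ 0 < u)) ↔ (0 < f ∨ (f = 0 ∧ 0 < -u))) := by
  have hc : ContinuousAt (fun t => f + (t - s) * u) s := by fun_prop
  rcases lt_trichotomy f 0 with hf | hf | hf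
  · have h1 : ∀ᶠ t in 𝓝 s, f + (t - s) * u < 0 := by
      apply hc.eventually_lt continuousAt_const
      simpa using hf
    filter_upwards [nhdsWithin_le_nhds h1] with t ht
    constructor
    · rintro (h | h)
      · linarith
      · linarith [h.1]
    · rintro (h | h)
      · linarith
      · linarith [h.1]
  · subst hf
    filter_upwards [self_mem_nhdsWithin] with t ht
    have ht' : t - s < 0 := sub_neg.2 ht
    simp only [zero_add, lt_self_iff_false, false_or, true_and]
    constructor
    · rintro (h | h)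
      · by_contra hcon
        push Not at hcon
        have : (t - s) * u ≤ 0 := mul_nonpos_of_nonpos_of_nonneg ht'.le (by linarith)
        linarith
      · have : (t - s) * u < 0 := mul_neg_of_neg_of_pos ht' h.2
        linarith [h.1]
    · intro h
      exact Or.inl (mul_pos_of_neg_of_neg ht' (by linarith))
  · have h1 : ∀ᶠ t in 𝓝 s, 0 < f + (t - s) * u := by
      apply continuousAt_const.eventually_lt hc
      simpa using hf
    filter_upwards [nhdsWithin_le_nhds h1] with t ht
    exact ⟨fun _ => Or.inl hf, fun _ => Or.inl ht⟩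

theorem Nn_right (m : V) (gs : E → ℝ) (z₀ u : V) (s : ℝ) :
    ∀ᶠ t in 𝓝[>] s, Nn S fl m gs (z₀ + t • u) u = Nn S fl m gs (z₀ + s • u) u := by
  classical
  have h1 : ∀ᶠ t in 𝓝[>] s, ∀ b : β, ∀ e : E,
      ((0 < fl b (z₀ + s • u) e + (t - s) * fl b u e ∨
        (fl b (z₀ + s • u) e + (t - s) * fl b u e = 0 ∧ 0 < fl b u e)) ↔
        (0 < fl b (z₀ + s • u) e ∨ (fl b (z₀ + s • u) e = 0 ∧ 0 < fl b u e))) := by
    rw [eventually_all]
    intro b
    rw [eventually_all]
    intro e
    exact sign_right _ _ _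
  filter_upwards [h1] with t ht
  unfold Nn
  congr 1
  refine Finset.filter_congr fun b _ => ?_
  unfold Mem
  refine and_congr Iff.rfl (forall_congr' fun e => imp_congr Iff.rfl (imp_congr Iff.rfl ?_))
  have h2 : fl b (z₀ + t • u) e = fl b (z₀ + s • u) e + (t - s) * fl b u e := by
    simp only [map_add, map_smul, Pi.add_apply, Pi.smul_apply, smul_eq_mul]
    ring
  rw [h2]
  exact ht b e

theorem Nn_left (m : V) (gs : E → ℝ) (z₀ u : V) (s : ℝ) :
    ∀ᶠ t in 𝓝[<] s, Nn S fl m gs (z₀ + t • u) u = Nn S fl m gs (z₀ + s • u) (-u) := by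
  classical
  have h1 : ∀ᶠ t in 𝓝[<] s, ∀ b : β, ∀ e : E,
      ((0 < fl b (z₀ + s • u) e + (t - s) * fl b u e ∨
        (fl b (z₀ + s • u) e + (t - s) * fl b u e = 0 ∧ 0 < fl b u e)) ↔
        (0 < fl b (z₀ + s • u) e ∨ (fl b (z₀ + s • u) e = 0 ∧ 0 < - fl b u e))) := by
    rw [eventually_all]
    intro b
    rw [eventually_all]
    intro e
    exact sign_left _ _ _
  filter_upwards [h1] with t ht
  unfold Nn
  congr 1
  refine Finset.filter_congr fun b _ => ?_
  unfold Mem
  refine and_congr Iff.rfl (forall_congr' fun e => imp_congr Iff.rfl (imp_congr Iff.rfl ?_))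
  have h2 : fl b (z₀ + t • u) e = fl b (z₀ + s • u) e + (t - s) * fl b u e := by
    simp only [map_add, map_smul, Pi.add_apply, Pi.smul_apply, smul_eq_mul]
    ring
  have h3 : fl b (-u) e = - fl b u e := by simp
  rw [h2, h3]
  exact ht b e

/-- the walk -/
theorem Cx.walk (h : Cx M S fl P) (m : V) (gs : E → ℝ) (z₀ z₁ : V) (h0 : z₀ ∈ P) (h1 : z₁ ∈ P)
    (hgen : ∀ b, ∀ e ∈ S b, ∀ e' ∈ S b, fl b z₀ e * fl b z₁ e' = fl b z₀ e' * fl b z₁ e →
      e = e') :
    Nn S fl m gs z₀ (z₁ - z₀) = Nn S fl m gs z₁ (z₁ - z₀) := by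
  classical
  set u := z₁ - z₀ with hu
  have key : ∀ s ∈ Set.Icc (0 : ℝ) 1, ∀ᶠ t in 𝓝[Set.Icc (0 : ℝ) 1] s,
      Nn S fl m gs (z₀ + t • u) u = Nn S fl m gs (z₀ + s • u) u := by
    intro s hs
    have hzs : z₀ + s • u = (1 - s) • z₀ + s • z₁ := by
      rw [hu, smul_sub, sub_smul, one_smul]
      abel
    have hP : z₀ + s • u ∈ P := by
      rw [hzs]
      exact h.pconv h0 h1 (by linarith [hs.2]) hs.1 (by ring)
    have hg : ∀ b, ∀ e ∈ S b, ∀ e' ∈ S b, fl b (z₀ + s • u) e = 0 → fl b (z₀ + s • u) e' = 0 →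
        e = e' := by
      intro b e he e' he' h2 h3
      apply hgen b e he e' he'
      rw [hzs] at h2 h3
      simp only [map_add, map_smul, Pi.add_apply, Pi.smul_apply, smul_eq_mul] at h2 h3
      set x := fl b z₀ e
      set x' := fl b z₀ e'
      set y := fl b z₁ e
      set y' := fl b z₁ e'
      have e1 : (1 - s) * (x * y' - x' * y) = 0 := by
        have : (1 - s) * (x * y' - x' * y) =
            y' * ((1 - s) * x + s * y) - y * ((1 - s) * x' + s * y') := by ring
        rw [this, h2, h3]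
        ring
      have e2 : s * (x * y' - x' * y) = 0 := by
        have : s * (x * y' - x' * y) =
            x * ((1 - s) * x' + s * y') - x' * ((1 - s) * x + s * y) := by ring
        rw [this, h2, h3]
        ring
      have e3 : x * y' - x' * y = 0 := by linarith
      linarith
    have hcr := h.cross m gs (z₀ + s • u) u hP hg
    have hr := Nn_right (S := S) (fl := fl) m gs z₀ u s
    have hl := Nn_left (S := S) (fl := fl) m gs z₀ u s
    have hall : ∀ᶠ t in 𝓝 s, Nn S fl m gs (z₀ + t • u) u = Nn S fl m gs (z₀ + s • u) u := by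
      rw [← nhdsNE_sup_pure, ← nhdsLT_sup_nhdsGT, eventually_sup, eventually_sup]
      refine ⟨⟨?_, hr⟩, ?_⟩
      · filter_upwards [hl] with t ht
        rw [ht, hcr]
      · simp
    exact nhdsWithin_le_nhds hall
  have hcont : ContinuousOn (fun s : ℝ => Nn S fl m gs (z₀ + s • u) u) (Set.Icc 0 1) := by
    intro s hs
    unfold ContinuousWithinAt
    rw [nhds_discrete, tendsto_pure]
    exact key s hs
  have := isPreconnected_Icc.constant hcont (Set.left_mem_Icc.2 zero_le_one)
    (Set.right_mem_Icc.2 zero_le_one)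
  simp only [zero_smul, add_zero, one_smul] at this
  rw [this]
  congr 1
  rw [hu]
  abel

end

end Pool.Agent.Helper28.SO
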