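import Pool.Agent.Helper28.SP.Walk

set_option autoImplicit false

/-! Local facet matching implies pairwise compatibility: the main theorem. -/

namespace Pool.Agent.Helper28.SO

open Finset Filter Topology

section

variable {E V β : Type} [Fintype E] [DecidableEq E] [Fintype β]
  [NormedAddCommGroup V] [NormedSpace ℝ V] [FiniteDimensional ℝ V]

/-- avoid the zero set of one nonzero functional -/
theorem avoid_one (O : Set V) (hO : IsOpen O) (hne : O.Nonempty) (φ : V →ₗ[ℝ] ℝ) (hφ : φ ≠ 0) :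
    IsOpen (O ∩ {z | φ z ≠ 0}) ∧ (O ∩ {z | φ z ≠ 0}).Nonempty := by
  have hc : Continuous φ := φ.continuous_of_finiteDimensional
  refine ⟨hO.inter (isOpen_ne_fun hc continuous_const), ?_⟩
  obtain ⟨z, hz⟩ := hne
  by_cases h0 : φ z = 0
  · obtain ⟨w, hw⟩ : ∃ w, φ w ≠ 0 := by
      by_contra hcon
      push Not at hcon
      exact hφ (LinearMap.ext hcon)
    have hcz : ContinuousAt (fun t : ℝ => z + t • w) 0 := by fun_prop
    have h1 : ∀ᶠ t in 𝓝 (0 : ℝ), z + t • w ∈ O := by
      apply hcz.eventually_mem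
      apply hO.mem_nhds
      simpa using hz
    have h2 : ∀ᶠ t in 𝓝[>] (0 : ℝ), z + t • w ∈ O := nhdsWithin_le_nhds h1
    have h3 : ∀ᶠ t in 𝓝[>] (0 : ℝ), 0 < t := self_mem_nhdsWithin
    obtain ⟨t, ht, ht0⟩ := (h2.and h3).exists
    refine ⟨z + t • w, ht, ?_⟩
    simp only [Set.mem_setOf_eq, map_add, map_smul, h0, zero_add, smul_eq_mul]
    exact mul_ne_zero ht0.ne' hw
  · exact ⟨z, hz, h0⟩

theorem avoid (O : Set V) (hO : IsOpen O) (hne : O.Nonempty) {ι : Type} (s : Finset ι)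
    (φ : ι → V →ₗ[ℝ] ℝ) (hφ : ∀ i ∈ s, φ i ≠ 0) : ∃ z ∈ O, ∀ i ∈ s, φ i z ≠ 0 := by
  classical
  induction s using Finset.induction_on generalizing O with
  | empty =>
    obtain ⟨z, hz⟩ := hne
    exact ⟨z, hz, by simp⟩
  | insert a s ha ih =>
    obtain ⟨h1, h2⟩ := avoid_one O hO hne (φ a) (hφ a (mem_insert_self _ _))
    obtain ⟨z, hz, hz2⟩ := ih _ h1 h2 (fun i hi => hφ i (mem_insert_of_mem hi))
    refine ⟨z, hz.1, ?_⟩
    intro i hi
    rcases mem_insert.1 hi with rfl | hi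
    · exact hz.2
    · exact hz2 i hi

variable {M : (E → ℝ) →ₗ[ℝ] V} {S : β → Finset E} {fl : β → V →ₗ[ℝ] (E → ℝ)} {P : Set V}

theorem Cx.fl_single (h : Cx M S fl P) (b : β) (e : E) (he : e ∈ S b) :
    fl b (M (Pi.single e 1)) = Pi.single e 1 :=
  h.ret b _ fun x hx => by
    rw [Pi.single_eq_of_ne]
    rintro rfl
    exact hx he

/-- generic pairs of points -/
theorem Cx.generic (h : Cx M S fl P) (O₀ O₁ : Set V) (h0 : IsOpen O₀) (h1 : IsOpen O₁)
    (n0 : O₀.Nonempty) (n1 : O₁.Nonempty) : ∃ z₀ ∈ O₀, ∃ z₁ ∈ O₁,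
      ∀ b, ∀ e ∈ S b, ∀ e' ∈ S b, fl b z₀ e * fl b z₁ e' = fl b z₀ e' * fl b z₁ e → e = e' := by
  classical
  obtain ⟨z₀, hz0, hne⟩ := avoid O₀ h0 n0
    ((univ : Finset (β × E)).filter fun p => p.2 ∈ S p.1)
    (fun p => (LinearMap.proj p.2).comp (fl p.1)) (by
      intro p hp hcon
      have hp2 := (mem_filter.1 hp).2
      have h2 := congrArg (fun f : V →ₗ[ℝ] ℝ => f (M (Pi.single p.2 1))) hcon
      simp only [LinearMap.coe_comp, Function.comp_apply, LinearMap.proj_apply,
        LinearMap.zero_apply] at h2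
      rw [h.fl_single _ _ hp2] at h2
      simp at h2)
  obtain ⟨z₁, hz1, hne1⟩ := avoid O₁ h1 n1
    ((univ : Finset (β × E × E)).filter fun p => p.2.1 ∈ S p.1 ∧ p.2.2 ∈ S p.1 ∧ p.2.1 ≠ p.2.2)
    (fun p => fl p.1 z₀ p.2.1 • (LinearMap.proj p.2.2).comp (fl p.1) -
      fl p.1 z₀ p.2.2 • (LinearMap.proj p.2.1).comp (fl p.1)) (by
      rintro ⟨b, e, e'⟩ hp hcon
      obtain ⟨-, he, he', hee⟩ := mem_filter.1 hp
      have h2 := congrArg (fun f : V →ₗ[ℝ] ℝ => f (M (Pi.single e' 1))) hcon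
      dsimp only at h2 he he' hee
      simp only [LinearMap.sub_apply, LinearMap.smul_apply, LinearMap.coe_comp,
        Function.comp_apply, LinearMap.proj_apply, LinearMap.zero_apply] at h2
      rw [h.fl_single _ _ he'] at h2
      rw [Pi.single_eq_same, Pi.single_eq_of_ne hee] at h2
      simp only [smul_eq_mul, mul_one, mul_zero, sub_zero] at h2
      exact hne (b, e) (mem_filter.2 ⟨mem_univ _, he⟩) h2)
  refine ⟨z₀, hz0, z₁, hz1, ?_⟩
  intro b e he e' he' heq
  by_contra hee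
  apply hne1 (b, e, e') (mem_filter.2 ⟨mem_univ _, he, he', hee⟩)
  simp only [LinearMap.sub_apply, LinearMap.smul_apply, LinearMap.coe_comp,
        Function.comp_apply, LinearMap.proj_apply, smul_eq_mul]
  rw [heq, sub_self]

/-- open cone of `b` -/
theorem isOpen_cone (b : β) : IsOpen {z : V | ∀ e ∈ S b, 0 < fl b z e} := by
  have : {z : V | ∀ e ∈ S b, 0 < fl b z e} = ⋂ e ∈ S b, {z | 0 < fl b z e} := by
    ext z
    simp
  rw [this]
  refine isOpen_biInter_finset fun e _ => ?_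
  have hc : Continuous (fl b) := (fl b).continuous_of_finiteDimensional
  exact isOpen_lt continuous_const ((continuous_apply e).comp hc)

theorem Cx.le_Nn (h : Cx M S fl P) (b : β) (m : V) (z u : V)
    (hz : ∀ e ∈ S b, fl b m e = 0 → 0 < fl b z e) : 1 ≤ Nn S fl m (fl b m) z u := by
  classical
  unfold Nn
  rw [Nat.one_le_iff_ne_zero, ← Nat.pos_iff_ne_zero, Finset.card_pos]
  exact ⟨b, mem_filter.2 ⟨mem_univ _, rfl, fun e he hge => Or.inl (hz e he hge)⟩⟩

theorem Cx.two_le_Nn (b b' : β) (hbb : b ≠ b') (z u : V)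
    (hz : ∀ e ∈ S b, 0 < fl b z e) (hz' : ∀ e ∈ S b', 0 < fl b' z e) :
    2 ≤ Nn S fl 0 0 z u := by
  classical
  unfold Nn
  have : ({b, b'} : Finset β) ⊆ univ.filter (fun b => Mem S fl 0 0 b z u) := by
    intro x hx
    rw [mem_insert, mem_singleton] at hx
    rcases hx with rfl | rfl
    · exact mem_filter.2 ⟨mem_univ _, map_zero _, fun e he _ => Or.inl (hz e he)⟩
    · exact mem_filter.2 ⟨mem_univ _, map_zero _, fun e he _ => Or.inl (hz' e he)⟩
  calc 2 = ({b, b'} : Finset β).card := (card_pair hbb).symm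
    _ ≤ _ := card_le_card this

/-- the open cones are pairwise disjoint -/
theorem Cx.disjoint (h : Cx M S fl P) (b b' : β) (hbb : b ≠ b') (z : V)
    (hz : ∀ e ∈ S b, 0 < fl b z e) (hz' : ∀ e ∈ S b', 0 < fl b' z e) : False := by
  classical
  obtain ⟨zs, b₀, hb0, hbne⟩ := h.base
  let O₁ : Set V := {y | ∀ e ∈ S b₀, 0 < fl b₀ y e} ∩ ⋂ b ∈ univ.erase b₀,
    ⋃ e ∈ S b, {y | fl b y e < 0}
  have hO1 : IsOpen O₁ := by
    refine (isOpen_cone b₀).inter (isOpen_biInter_finset fun c _ => isOpen_biUnion fun e _ => ?_)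
    have hc : Continuous (fl c) := (fl c).continuous_of_finiteDimensional
    exact isOpen_lt ((continuous_apply e).comp hc) continuous_const
  have hO1ne : O₁.Nonempty := by
    refine ⟨zs, hb0, ?_⟩
    simp only [Set.mem_iInter, Set.mem_iUnion]
    intro c hc
    obtain ⟨e, he, h1⟩ := hbne c (mem_erase.1 hc).1
    exact ⟨e, he, h1⟩
  let O₀ : Set V := {y | ∀ e ∈ S b, 0 < fl b y e} ∩ {y | ∀ e ∈ S b', 0 < fl b' y e}
  have hO0 : IsOpen O₀ := (isOpen_cone b).inter (isOpen_cone b')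
  obtain ⟨z₀, hz0, z₁, hz1, hgen⟩ := h.generic O₀ O₁ hO0 hO1 ⟨z, hz, hz'⟩ hO1ne
  have h2 := Cx.two_le_Nn b b' hbb z₀ (z₁ - z₀) hz0.1 hz0.2
  have hw := h.walk 0 0 z₀ z₁ (h.ppos b z₀ hz0.1) (h.ppos b₀ z₁ hz1.1) hgen
  have h3 : Nn S fl 0 0 z₁ (z₁ - z₀) ≤ 1 := by
    unfold Nn
    rw [Finset.card_le_one]
    have key : ∀ c, Mem S fl 0 0 c z₁ (z₁ - z₀) → c = b₀ := by
      intro c hc
      by_contra hcb
      have h4 := hz1.2
      simp only [Set.mem_iInter, Set.mem_iUnion] at h4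
      obtain ⟨e, he, h5⟩ := h4 c (mem_erase.2 ⟨hcb, mem_univ _⟩)
      have h5' : fl c z₁ e < 0 := h5
      rcases hc.2 e he rfl with h6 | h6
      · linarith
      · linarith [h6.1]
    intro c hc c' hc'
    rw [key c (mem_filter.1 hc).2, key c' (mem_filter.1 hc').2]
  omega

/-- **Local to global.** -/
theorem Cx.compat (h : Cx M S fl P) (b b' : β) (g g' : E → ℝ) (hg : ∀ e, 0 ≤ g e)
    (hg' : ∀ e, 0 ≤ g' e) (hs : ∀ e, e ∉ S b → g e = 0) (hs' : ∀ e, e ∉ S b' → g' e = 0)
    (hM : M g = M g') : g = g' := by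
  classical
  by_contra hne
  set m := M g with hm
  have hfg : fl b m = g := h.ret b g hs
  have hfg' : fl b' m = g' := by rw [hM]; exact h.ret b' g' hs'
  -- positive points
  have hpt : ∀ c : β, ∃ z : V, ∀ e ∈ S c, 0 < fl c z e := by
    intro c
    refine ⟨M (fun e => if e ∈ S c then 1 else 0), ?_⟩
    intro e he
    rw [h.ret c _ (fun e he => by simp [he])]
    simp [he]
  obtain ⟨z₀, hz0, z₁, hz1, hgen⟩ := h.generic _ _ (isOpen_cone (S := S) (fl := fl) b)
    (isOpen_cone b') (hpt b) (hpt b')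
  have hP0 := h.ppos b z₀ hz0
  have hP1 := h.ppos b' z₁ hz1
  have hw := h.walk m g z₀ z₁ hP0 hP1 hgen
  have h1 : 1 ≤ Nn S fl m g z₀ (z₁ - z₀) := by
    have := h.le_Nn b m z₀ (z₁ - z₀) (fun e he _ => hz0 e he)
    rwa [hfg] at this
  rw [hw] at h1
  have h2 : ∃ c, Mem S fl m g c z₁ (z₁ - z₀) := by
    unfold Nn at h1
    obtain ⟨c, hc⟩ := Finset.card_pos.1 h1
    exact ⟨c, (mem_filter.1 hc).2⟩
  obtain ⟨c, hcm, hce⟩ := h2
  have hcb : c ≠ b' := by
    rintro rfl
    exact hne (hcm.symm.trans hfg')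
  set u := z₁ - z₀ with hu
  -- move a little in the direction `u`
  have hd : ∀ᶠ δ in 𝓝[>] (0 : ℝ), (∀ e ∈ S c, g e = 0 → 0 < fl c (z₁ + δ • u) e) ∧
      (∀ e ∈ S b', 0 < fl b' (z₁ + δ • u) e) := by
    rw [eventually_and]
    constructor
    · have : ∀ᶠ δ in 𝓝[>] (0 : ℝ), ∀ e : E, e ∈ S c → g e = 0 → 0 < fl c (z₁ + δ • u) e := by
        rw [eventually_all]
        intro e
        by_cases he : e ∈ S c
        · by_cases hge : g e = 0
          · rcases hce e he hge with h3 | h3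
            · have hc : ContinuousAt (fun δ : ℝ => fl c (z₁ + δ • u) e) 0 := by
                simp only [map_add, map_smul, Pi.add_apply, Pi.smul_apply, smul_eq_mul]
                fun_prop
              have h4 : ∀ᶠ δ in 𝓝 (0 : ℝ), 0 < fl c (z₁ + δ • u) e := by
                apply continuousAt_const.eventually_lt hc
                simpa using h3
              filter_upwards [nhdsWithin_le_nhds h4] with δ hδ _ _
              exact hδ
            · filter_upwards [self_mem_nhdsWithin] with δ hδ _ _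
              simp only [map_add, map_smul, Pi.add_apply, Pi.smul_apply, smul_eq_mul, h3.1,
                zero_add]
              exact mul_pos hδ h3.2
          · exact Eventually.of_forall fun δ _ h5 => absurd h5 hge
        · exact Eventually.of_forall fun δ h5 => absurd h5 he
      filter_upwards [this] with δ hδ e he hge
      exact hδ e he hge
    · have hc : ContinuousAt (fun δ : ℝ => z₁ + δ • u) 0 := by fun_prop
      have h4 : ∀ᶠ δ in 𝓝 (0 : ℝ), z₁ + δ • u ∈ {z : V | ∀ e ∈ S b', 0 < fl b' z e} := by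
        apply hc.eventually_mem
        apply (isOpen_cone b').mem_nhds
        simpa using hz1
      exact nhdsWithin_le_nhds h4
  obtain ⟨δ, hδ1, hδ2⟩ := hd.exists
  set w := z₁ + δ • u with hw'
  -- scale it down
  have he1 : ∀ᶠ ε in 𝓝[>] (0 : ℝ), ∀ e ∈ S c, 0 < fl c (m + ε • w) e := by
    have : ∀ᶠ ε in 𝓝[>] (0 : ℝ), ∀ e : E, e ∈ S c → 0 < fl c (m + ε • w) e := by
      rw [eventually_all]
      intro e
      by_cases he : e ∈ S c
      · by_cases hge : g e = 0
        · filter_upwards [self_mem_nhdsWithin] with ε hε _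
          simp only [map_add, map_smul, Pi.add_apply, Pi.smul_apply, smul_eq_mul, hcm, hge,
            zero_add]
          exact mul_pos hε (hδ1 e he hge)
        · have hgp : 0 < g e := lt_of_le_of_ne (hg e) (Ne.symm hge)
          have hc : ContinuousAt (fun ε : ℝ => fl c (m + ε • w) e) 0 := by
            simp only [map_add, map_smul, Pi.add_apply, Pi.smul_apply, smul_eq_mul]
            fun_prop
          have h4 : ∀ᶠ ε in 𝓝 (0 : ℝ), 0 < fl c (m + ε • w) e := by
            apply continuousAt_const.eventually_lt hc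
            simpa [hcm] using hgp
          filter_upwards [nhdsWithin_le_nhds h4] with ε hε _
          exact hε
      · exact Eventually.of_forall fun δ h5 => absurd h5 he
    filter_upwards [this] with ε hε e he
    exact hε e he
  have he2 : ∀ᶠ ε in 𝓝[>] (0 : ℝ), ∀ e ∈ S b', 0 < fl b' (m + ε • w) e := by
    filter_upwards [self_mem_nhdsWithin] with ε hε e he
    simp only [map_add, map_smul, Pi.add_apply, Pi.smul_apply, smul_eq_mul, hfg']
    have := mul_pos (Set.mem_Ioi.1 hε) (hδ2 e he)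
    have h5 := hg' e
    linarith
  obtain ⟨ε, hε1, hε2⟩ := (he1.and he2).exists
  exact h.disjoint c b' hcb (m + ε • w) hε1 hε2

end

end Pool.Agent.Helper28.SO
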