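import Pool.Agent.Helper27.BO.Final

/-!
# Wreath products of bi-ordered groups

`SDN A`: the semidirect product of two bi-ordered groups (the acting group is compared first); the
normal subgroup may be non-abelian.  `Fs X C`: functions of finite support on a totally ordered
set `X` with values in a bi-ordered group `C`, compared at the first place where they differ.
-/

open scoped BigOperators

namespace Pool.Agent.Helper28.SO.Wr

universe u

/-- an action of a group on a group by order automorphisms -/
structure NAct (G W : Type u) [Group G] [Group W] [LinearOrder W] where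
  /-- the action -/
  s : G → W → W
  s_one : ∀ w, s 1 w = w
  s_mul : ∀ a b w, s (a * b) w = s a (s b w)
  map_mul : ∀ a w w', s a (w * w') = s a w * s a w'
  s_mono : ∀ a w w', w ≤ w' → s a w ≤ s a w'

variable {G W : Type u} [Group G] [LinearOrder G] [MulLeftMono G] [MulRightMono G]
variable [Group W] [LinearOrder W] [MulLeftMono W] [MulRightMono W]

omit [LinearOrder G] [MulLeftMono G] [MulRightMono G] [MulLeftMono W] [MulRightMono W] in
theorem NAct.map_one (A : NAct G W) (a : G) : A.s a 1 = 1 := by
  have := A.map_mul a 1 1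
  rw [one_mul] at this
  exact left_eq_mul.1 this

omit [LinearOrder G] [MulLeftMono G] [MulRightMono G] [MulLeftMono W] [MulRightMono W] in
theorem NAct.map_inv (A : NAct G W) (a : G) (w : W) : A.s a w⁻¹ = (A.s a w)⁻¹ := by
  have := A.map_mul a w w⁻¹
  rw [mul_inv_cancel, A.map_one] at this
  exact (inv_eq_of_mul_eq_one_right this.symm).symm

/-- the semidirect product -/
structure SDN (A : NAct G W) where
  /-- first component -/
  m : G
  /-- second component -/
  w : W

namespace SDN

variable {A : NAct G W}

omit [LinearOrder G] [MulLeftMono G] [MulRightMono G] [MulLeftMono W] [MulRightMono W] in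
theorem ext' {x y : SDN A} (h1 : x.m = y.m) (h2 : x.w = y.w) : x = y := by
  cases x
  cases y
  simp only at h1 h2
  rw [h1, h2]

instance : Group (SDN A) where
  mul x y := ⟨x.m * y.m, x.w * A.s x.m y.w⟩
  one := ⟨1, 1⟩
  inv x := ⟨x.m⁻¹, (A.s x.m⁻¹ x.w)⁻¹⟩
  mul_assoc x y z := by
    apply ext'
    · exact mul_assoc _ _ _
    · show (x.w * A.s x.m y.w) * A.s (x.m * y.m) z.w = x.w * A.s x.m (y.w * A.s y.m z.w)
      rw [A.s_mul, A.map_mul, mul_assoc]
  one_mul x := by
    apply ext'
    · exact one_mul _
    · show 1 * A.s 1 x.w = x.w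
      rw [A.s_one, one_mul]
  mul_one x := by
    apply ext'
    · exact mul_one _
    · show x.w * A.s x.m 1 = x.w
      rw [A.map_one, mul_one]
  inv_mul_cancel x := by
    apply ext'
    · exact inv_mul_cancel _
    · show (A.s x.m⁻¹ x.w)⁻¹ * A.s x.m⁻¹ x.w = 1
      rw [inv_mul_cancel]

omit [LinearOrder G] [MulLeftMono G] [MulRightMono G] [MulLeftMono W] [MulRightMono W] in
theorem mul_m (x y : SDN A) : (x * y).m = x.m * y.m := rfl

omit [LinearOrder G] [MulLeftMono G] [MulRightMono G] [MulLeftMono W] [MulRightMono W] in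
theorem mul_w (x y : SDN A) : (x * y).w = x.w * A.s x.m y.w := rfl

omit [LinearOrder G] [MulLeftMono G] [MulRightMono G] [MulLeftMono W] [MulRightMono W] in
theorem mul_inv_m (x y : SDN A) : (x * y⁻¹).m = x.m * y.m⁻¹ := rfl

omit [LinearOrder G] [MulLeftMono G] [MulRightMono G] [MulLeftMono W] [MulRightMono W] in
theorem mul_inv_w (x y : SDN A) : (x * y⁻¹).w = x.w * (A.s (x.m * y.m⁻¹) y.w)⁻¹ := by
  show x.w * A.s x.m (A.s y.m⁻¹ y.w)⁻¹ = _
  rw [A.map_inv, ← A.s_mul]

noncomputable instance : LinearOrder (SDN A) :=
  LinearOrder.lift' (fun x => toLex (x.m, x.w)) (by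
    intro x y h
    have h' := toLex.injective h
    rw [Prod.mk.injEq] at h'
    exact ext' h'.1 h'.2)

omit [MulLeftMono G] [MulRightMono G] [MulLeftMono W] [MulRightMono W] in
theorem le_iff (x y : SDN A) : x ≤ y ↔ x.m < y.m ∨ x.m = y.m ∧ x.w ≤ y.w :=
  Prod.Lex.le_iff

instance : MulLeftMono (SDN A) where
  elim c x y h := by
    show c * x ≤ c * y
    replace h : x ≤ y := h
    rw [le_iff] at h ⊢
    simp only [mul_m, mul_w]
    rcases h with h | ⟨h1, h2⟩
    · left
      exact lt_of_le_of_ne (mul_le_mul_right h.le _) fun he => h.ne (mul_left_cancel he)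
    · right
      exact ⟨by rw [h1], mul_le_mul_right (A.s_mono _ _ _ h2) _⟩

instance : MulRightMono (SDN A) where
  elim c x y h := by
    show x * c ≤ y * c
    replace h : x ≤ y := h
    rw [le_iff] at h ⊢
    simp only [mul_m, mul_w]
    rcases h with h | ⟨h1, h2⟩
    · left
      exact lt_of_le_of_ne (mul_le_mul_left h.le _) fun he => h.ne (mul_right_cancel he)
    · right
      refine ⟨by rw [h1], ?_⟩
      rw [h1]
      exact mul_le_mul_left h2 _

end SDN

/-! ### functions of finite support -/

section Fs

variable (X C : Type u) [LinearOrder X] [Group C] [LinearOrder C] [MulLeftMono C] [MulRightMono C]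

/-- functions of finite support, as a multiplicative group, with the lexicographic order -/
abbrev Fs : Type u := Multiplicative (Lex (X →₀ Additive C))

variable {X C}

omit [LinearOrder X] [MulRightMono C] in
theorem strictL : AddLeftStrictMono (Additive C) where
  elim a b c h := by
    show Additive.toMul a * Additive.toMul b < Additive.toMul a * Additive.toMul c
    have h' : Additive.toMul b < Additive.toMul c := h
    exact lt_of_le_of_ne (mul_le_mul_right h'.le _) fun he => h'.ne (mul_left_cancel he)

omit [LinearOrder X] [MulLeftMono C] in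
theorem strictR : AddRightStrictMono (Additive C) where
  elim a b c h := by
    show Additive.toMul b * Additive.toMul a < Additive.toMul c * Additive.toMul a
    have h' : Additive.toMul b < Additive.toMul c := h
    exact lt_of_le_of_ne (mul_le_mul_left h'.le _) fun he => h'.ne (mul_right_cancel he)

instance : MulLeftMono (Fs X C) where
  elim c x y h := by
    haveI := strictL (C := C)
    have h2 : Multiplicative.toAdd x ≤ Multiplicative.toAdd y := h
    exact (Finsupp.Lex.addLeftMono (α := X) (N := Additive C)).elim (Multiplicative.toAdd c) h2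

instance : MulRightMono (Fs X C) where
  elim c x y h := by
    haveI := strictR (C := C)
    have h2 : Multiplicative.toAdd x ≤ Multiplicative.toAdd y := h
    exact (Finsupp.Lex.addRightMono (α := X) (N := Additive C)).elim (Multiplicative.toAdd c) h2

/-- the value at a place -/
def Fs.val (f : Fs X C) (x : X) : C :=
  Additive.toMul ((ofLex (Multiplicative.toAdd f) : X →₀ Additive C) x)

omit [LinearOrder X] [LinearOrder C] [MulLeftMono C] [MulRightMono C] in
theorem Fs.val_mul (f g : Fs X C) (x : X) : (f * g).val x = f.val x * g.val x := rfl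

omit [LinearOrder X] [LinearOrder C] [MulLeftMono C] [MulRightMono C] in
theorem Fs.val_inv (f : Fs X C) (x : X) : (f⁻¹).val x = (f.val x)⁻¹ := rfl

omit [LinearOrder X] [LinearOrder C] [MulLeftMono C] [MulRightMono C] in
theorem Fs.ext {f g : Fs X C} (h : ∀ x, f.val x = g.val x) : f = g := by
  apply Multiplicative.toAdd.injective
  apply ofLex.injective
  exact Finsupp.ext h

omit [MulLeftMono C] [MulRightMono C] in
theorem Fs.lt_iff (f g : Fs X C) : f < g ↔ ∃ x, (∀ y, y < x → f.val y = g.val y) ∧
    f.val x < g.val x :=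
  Iff.rfl

/-- one value at one place -/
noncomputable def Fs.pt [DecidableEq X] (x : X) (c : C) : Fs X C :=
  Multiplicative.ofAdd (toLex (Finsupp.single x (Additive.ofMul c)))

omit [LinearOrder X] [LinearOrder C] [MulLeftMono C] [MulRightMono C] in
theorem Fs.val_pt [DecidableEq X] (x : X) (c : C) (y : X) :
    (Fs.pt x c).val y = if x = y then c else 1 := by
  show Additive.toMul ((Finsupp.single x (Additive.ofMul c)) y) = _
  rw [Finsupp.single_apply]
  split_ifs <;> rfl

omit [MulLeftMono C] [MulRightMono C] in
/-- comparison of two functions which agree outside of one place -/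
theorem Fs.le_one_iff {x : X} {f g : Fs X C} (h : ∀ z, z ≠ x → f.val z = g.val z) :
    f ≤ g ↔ f.val x ≤ g.val x := by
  rcases lt_trichotomy (f.val x) (g.val x) with h1 | h1 | h1
  · have : f < g := (Fs.lt_iff f g).2 ⟨x, fun z hz => h z hz.ne, h1⟩
    exact ⟨fun _ => h1.le, fun _ => this.le⟩
  · have : f = g := Fs.ext fun z => by
      by_cases hz : z = x
      · rw [hz, h1]
      · exact h z hz
    exact ⟨fun _ => h1.le, fun _ => this.le⟩
  · have : g < f := (Fs.lt_iff g f).2 ⟨x, fun z hz => (h z hz.ne).symm, h1⟩
    exact ⟨fun h2 => absurd this (not_lt.2 h2), fun h2 => absurd h1 (not_lt.2 h2)⟩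

omit [MulLeftMono C] [MulRightMono C] in
/-- comparison of two functions which agree outside of two places -/
theorem Fs.le_two_iff {x y : X} (hxy : x < y) {f g : Fs X C}
    (h : ∀ z, z ≠ x → z ≠ y → f.val z = g.val z) :
    f ≤ g ↔ f.val x < g.val x ∨ f.val x = g.val x ∧ f.val y ≤ g.val y := by
  rcases lt_trichotomy (f.val x) (g.val x) with h1 | h1 | h1
  · have : f < g := (Fs.lt_iff f g).2 ⟨x, fun z hz => h z hz.ne (hz.trans hxy).ne, h1⟩
    exact ⟨fun _ => Or.inl h1, fun _ => this.le⟩
  · have h' : ∀ z, z ≠ y → f.val z = g.val z := by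
      intro z hz
      by_cases hzx : z = x
      · rw [hzx, h1]
      · exact h z hzx hz
    rw [Fs.le_one_iff h']
    exact ⟨fun h2 => Or.inr ⟨h1, h2⟩, fun h2 => h2.elim (fun h3 => absurd h1 h3.ne) fun h3 => h3.2⟩
  · have : g < f := (Fs.lt_iff g f).2
      ⟨x, fun z hz => (h z hz.ne (hz.trans hxy).ne).symm, h1⟩
    refine ⟨fun h2 => absurd this (not_lt.2 h2), fun h2 => ?_⟩
    rcases h2 with h2 | h2
    · exact absurd h1 (lt_asymm h2)
    · exact absurd h2.1 h1.ne'

end Fs

/-- a (left) order-preserving action on a totally ordered set -/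
structure OAct (G X : Type u) [Group G] [LinearOrder X] where
  /-- the action -/
  s : G → X → X
  s_one : ∀ x, s 1 x = x
  s_mul : ∀ a b x, s (a * b) x = s a (s b x)
  s_lt : ∀ a x y, x < y → s a x < s a y

section

variable {X C : Type u} [LinearOrder X] [Group C] [LinearOrder C]

/-- an element as a permutation -/
def OAct.equiv {G X : Type u} [Group G] [LinearOrder X] (A : OAct G X) (g : G) : X ≃ X where
  toFun := A.s g
  invFun := A.s g⁻¹
  left_inv x := by rw [← A.s_mul, inv_mul_cancel, A.s_one]
  right_inv x := by rw [← A.s_mul, mul_inv_cancel, A.s_one]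

/-- the action on the functions -/
noncomputable def OAct.fs {G : Type u} [Group G] (A : OAct G X) : NAct G (Fs X C) where
  s g f := Multiplicative.ofAdd (toLex (Finsupp.equivMapDomain (A.equiv g)
    (ofLex (Multiplicative.toAdd f) : X →₀ Additive C)))
  s_one f := by
    apply Fs.ext
    intro x
    show Additive.toMul ((ofLex (Multiplicative.toAdd f) : X →₀ Additive C) (A.s 1⁻¹ x)) = _
    rw [inv_one, A.s_one]
    rfl
  s_mul a b f := by
    apply Fs.ext
    intro x
    show Additive.toMul ((ofLex (Multiplicative.toAdd f) : X →₀ Additive C) (A.s (a * b)⁻¹ x)) =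
      Additive.toMul ((ofLex (Multiplicative.toAdd f) : X →₀ Additive C) (A.s b⁻¹ (A.s a⁻¹ x)))
    rw [mul_inv_rev, A.s_mul]
  map_mul a f g := by
    apply Fs.ext
    intro x
    rfl
  s_mono a f g h := by
    rcases h.lt_or_eq with h | h
    · refine le_of_lt ?_
      rw [Fs.lt_iff] at h ⊢
      obtain ⟨x, h1, h2⟩ := h
      refine ⟨A.s a x, fun y hy => ?_, ?_⟩
      · refine h1 (A.s a⁻¹ y) ?_
        have := A.s_lt a⁻¹ _ _ hy
        rwa [← A.s_mul, inv_mul_cancel, A.s_one] at this
      · show Fs.val f (A.s a⁻¹ (A.s a x)) < Fs.val g (A.s a⁻¹ (A.s a x))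
        rw [← A.s_mul, inv_mul_cancel, A.s_one]
        exact h2
    · rw [h]

theorem OAct.val_fs {G : Type u} [Group G] (A : OAct G X) (g : G) (f : Fs X C) (x : X) :
    (A.fs.s g f).val x = f.val (A.s g⁻¹ x) := rfl

end

end Pool.Agent.Helper28.SO.Wr
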